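import Pool.Agent.Lib.MP_751085_ag.ZC.Z.ZDefs
import Pool.Agent.Lib.MP_751085_ag.ZC.V.D

/-! The statements about good models that block Z uses. -/

namespace Pool.Agent.ZFy

open Pool.Agent.ZCy

open scoped Classical WithZero Polynomial

set_option linter.unusedSectionVars false

/-- the automorphisms that fix the elements of `S` -/
def fixS (F : Type) {N : Type} [Field F] [Field N] [Algebra F N] (S : Set N) :
    Subgroup (N ≃ₐ[F] N) where
  carrier := {g | ∀ x ∈ S, g x = x}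
  one_mem' := fun _ _ => rfl
  mul_mem' := fun {a b} ha hb x hx => by rw [AlgEquiv.mul_apply, hb x hx, ha x hx]
  inv_mem' := fun {a} ha x hx => by
    have := congrArg (fun y => a⁻¹ y) (ha x hx)
    simpa using this.symm

/-- `N` is an `l`-extension of the field generated by `F` and `S` -/
def LXt (l : ℕ) (F : Type) {N : Type} [Field F] [Field N] [Algebra F N] (S : Set N) : Prop :=
  IsPGroup l (fixS F S)

/-- An extension `N` of `L(t)` inside `L((u))`, an `l`-extension of `T L(t)`, unramified off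
`Th`. -/
structure Cov (l : ℕ) {A T : Type} [CommRing A] [Field T] (φ : A[X] →+* T) (Th : A[X])
    {L : Type} (F N : Type) [Field L] [Field F] [Field N] [Algebra L[X] F] [Algebra F N]
    (γ : A →+* L) where
  j : T →+* N
  ι : N →+* Ls L
  hj : ∀ p, j (φ p) = toF L[X] F N (p.map γ)
  hι : ∀ p, ι (toF L[X] F N p) = tL L p
  lext : LXt l F (Set.range j)
  unr : UnrOff F (toF L[X] F N) (Th.map γ)

/-- the Gauss valuation is inert and unramified, and is the sup norm of the expansions -/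
def GaussW {L : Type} (F : Type) {N : Type} [Field L] [Field F] [Field N] [Algebra L[X] F]
    [Algebra F N] (ι : N →+* Ls L) (v : Vl L) (W : Vl N) : Prop :=
  (∀ x, ∃ a : L, W x = v a) ∧
    (∀ z, ((toF L[X] F N).comp (Polynomial.mapRingHom v.integer.subtype)).IsIntegralElem z →
      (∀ j, v ((ι z).coeff j) ≤ W z) ∧ ∃ j, v ((ι z).coeff j) = W z) ∧
    Dec F W = ⊤ ∧ Ine F W = ⊥

/-- Good reduction of the cover `T` along `η : A → R`; `ρ` is the residue map of `R`. -/
structure Gd (l : ℕ) {A T : Type} [CommRing A] [Field T] (φ : A[X] →+* T) (Th : A[X])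
    {R KK κ : Type} [CommRing R] [Field KK] [Field κ] (η : A →+* R) (α : R →+* KK) (v : Vl KK)
    (ρ : R →+* κ) : Prop where
  /-- connectedness of the special fibre -/
  ta : ∀ (F N : Type) [Field F] [Field N] [Algebra KK[X] F] [IsFractionRing KK[X] F] [Algebra F N]
    [FiniteDimensional F N] [IsGalois F N] (c : Cov l φ Th F N (α.comp η)), ∃ W, GaussW F c.ι v W
  /-- the disc along a root of `Th` -/
  le : ∀ (F N : Type) [Field F] [Field N] [Algebra KK[X] F] [IsFractionRing KK[X] F] [Algebra F N]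
    [FiniteDimensional F N] [IsGalois F N] (_ : Cov l φ Th F N (α.comp η)) (t : R),
    Th.eval₂ η t = 0 → ∀ (S : Type) [Field S] (β : Ps R →+* S), IsFr β →
    ∃ (e : ℕ) (ε : Ps R) (J : N →+* S), 0 < e ∧ IsUnit ε ∧ ∀ p : R[X],
      J (toF KK[X] F N (p.map α)) =
        β (p.eval₂ PowerSeries.C (PowerSeries.C t + PowerSeries.X ^ e * ε))
  /-- covers of the special fibre lift -/
  lift : ∀ (F F₀ E₀ : Type) [Field F] [Field F₀] [Field E₀] [Algebra KK[X] F]
    [IsFractionRing KK[X] F] [Algebra κ[X] F₀] [IsFractionRing κ[X] F₀] [Algebra F₀ E₀]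
    [FiniteDimensional F₀ E₀] [IsGalois F₀ E₀] (τ : T →+* Ls KK) (ι₀ : E₀ →+* Ls κ),
    (∀ p, τ (φ p) = tL KK (p.map (α.comp η))) → (∀ p, ι₀ (toF κ[X] F₀ E₀ p) = tL κ p) →
    UnrOff F₀ (toF κ[X] F₀ E₀) (Th.map (ρ.comp η)) →
    (∀ x f, τ x = lm α f → lm ρ f ∈ ι₀.range) →
    LXt l F₀ {y : E₀ | ∃ x f, τ x = lm α f ∧ ι₀ y = lm ρ f} →
    ∃ (E : Type) (_ : Field E) (_ : Algebra F E) (_ : FiniteDimensional F E) (_ : IsGalois F E)
      (c : Cov l φ Th F E (α.comp η)), (∀ x, c.ι (c.j x) = τ x) ∧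
      (∀ z f, c.ι z = lm α f → lm ρ f ∈ ι₀.range) ∧
      Module.finrank F₀ E₀ ≤ Module.finrank F E

/-- A fixed cover that splits at infinity has good reduction off a hypersurface, after a finite
extension `K''` of the constants. -/
def SPR : Prop :=
  ∀ (A K F T : Type) [CommRing A] [Field K] [Field F] [Field T] [Algebra A K] [IsFractionRing A K]
    [Algebra K[X] F] [IsFractionRing K[X] F] [Algebra F T] [FiniteDimensional F T] [IsGalois F T]
    (Th : A[X]), Th.Monic → UnrOff F (toF K[X] F T) (Th.map (algebraMap A K)) →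
    (∃ (M : Type) (_ : Field M) (γ : K →+* M) (τ : T →+* Ls M),
      ∀ p, τ (toF K[X] F T p) = tL M (p.map γ)) →
    ∃ (K'' : Type) (_ : Field K'') (_ : Algebra K K'') (_ : FiniteDimensional K K'') (Δ : A),
      Δ ≠ 0 ∧ (Th.map (toF A K K'')).Splits ∧
      ∀ (R KK κ : Type) [CommRing R] [IsDomain R] [CDVR R] [Field KK] [Field κ] [IsAlgClosed κ]
        (η : A →+* R) (α : R →+* KK) (v : Vl KK) (ρ : R →+* κ) (ψ : K'' →+* KK), IsVR α v →
        Function.Surjective ρ → (∀ a, ψ (toF A K K'' a) = α (η a)) → IsUnit (η Δ) →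
        ∀ l : ℕ, l.Prime → (l : κ) ≠ 0 →
          Gd l ((toF K[X] F T).comp (Polynomial.mapRingHom (algebraMap A K))) Th η α v ρ

/-- rigidity on the disc at infinity -/
def RIG1 : Prop :=
  ∀ (R KK κ F N : Type) [CommRing R] [IsDomain R] [CDVR R] [Field KK] [Field κ] [IsAlgClosed κ]
    [Field F] [Field N] [Algebra KK[X] F] [IsFractionRing KK[X] F] [Algebra F N]
    [FiniteDimensional F N] [IsGalois F N] (α : R →+* KK) (ρ : R →+* κ) (ι : N →+* Ls KK)
    (S : Set N) (Ψ : R[X]) (l : ℕ), IsFr α → Function.Surjective ρ → l.Prime → (l : κ) ≠ 0 →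
    (∀ p, ι (toF KK[X] F N p) = tL KK p) → LXt l F S → IsUnit Ψ.leadingCoeff →
    UnrOff F (toF KK[X] F N) (Ψ.map α) →
    (∀ x ∈ S, ∃ a b : Ps R, b ≠ 0 ∧ ι x * lau α b = lau α a) →
    ∀ x, ∃ a b : Ps R, b ≠ 0 ∧ ι x * lau α b = lau α a

/-- covers descend to an algebraically closed field of constants -/
def DSC : Prop :=
  ∀ (M₀ M F E : Type) [Field M₀] [IsAlgClosed M₀] [Field M] [Field F] [Field E] [Algebra M[X] F]
    [IsFractionRing M[X] F] [Algebra F E] [FiniteDimensional F E] [IsGalois F E] (γ : M₀ →+* M)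
    (ι : E →+* Ls M) (Th : M₀[X]) (l : ℕ), l.Prime → (l : M₀) ≠ 0 → Th.Monic →
    (∀ p, ι (toF M[X] F E p) = tL M p) → UnrOff F (toF M[X] F E) (Th.map γ) →
    LXt l F {z : E | ι z ∈ (lm γ).range} → Dfd F γ ι

/-- there are finitely many Kummer classes that are unramified off `Th` -/
def FNT : Prop :=
  ∀ (M F T : Type) [Field M] [IsAlgClosed M] [Field F] [Field T] [Algebra M[X] F]
    [IsFractionRing M[X] F] [Algebra F T] [FiniteDimensional F T] [IsGalois F T] (ι : T →+* Ls M)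
    (Th : M[X]) (l : ℕ), l.Prime → (l : M) ≠ 0 → Th.Monic → (∀ p, ι (toF M[X] F T p) = tL M p) →
    ∃ U : Finset T, ∀ u : T, u ≠ 0 → (∀ P : Vl T, Nrm P →
      Triv ((toF M[X] F T).comp Polynomial.C) P → ¬P (toF M[X] F T Th) < 1 → (l : ℤ) ∣ ord P u) →
      ∃ u' ∈ U, ∃ w : T, u = u' * w ^ l

end Pool.Agent.ZFy
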