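import Pool.Agent.Lib.MP_751085_ag.ZF.Z.Main
import Pool.Agent.Lib.MP_751085_ag.ZF.G.ExpA
import Pool.Agent.Lib.MP_751085_ag.ZF.G.ExpR

/-! The Zariski-Lefschetz theorem for `l`-extensions, without hypotheses. -/

namespace Pool.Agent.ZFy

theorem thmZL : ThmZL := thmZL_of spr rig1 dsc fnt

end Pool.Agent.ZFy
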