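import Pool.Agent.Lib.MP_751085_ag.ZF.C.Defs
import Pool.Agent.Lib.MP_751085_ag.ZF.Z.GDefs

/-! The Zariski-Lefschetz theorem for `l`-extensions of a fixed cover. -/

namespace Pool.Agent.ZFy

open Pool.Agent.ZCy
open scoped Classical WithZero Polynomial
open MvPolynomial

section

variable {k σ L T LH EH : Type} [Field k] [Fintype σ] [Field L] [Field T] [Field LH] [Field EH]
  [Algebra L T] [Algebra LH EH]

/-- `ρT` is a residue map of `T` along the hyperplane `ξ_1 = 0`, with values in `EH` -/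
def ResH (α : MP (Option (Option σ)) k →+* L) (αH : MP (Option σ) k →+* LH) (wT : Vl T)
    (ρT : wT.integer →+* EH) : Prop :=
  IsRed wT ρT ∧ ∀ p, ∃ h, ρT ⟨tE T α p, h⟩ = tE EH αH (hyp p)

/-- `E` contains `T`, and lifts the cover `EH` of the hyperplane -/
structure ZOut (α : MP (Option (Option σ)) k →+* L) (Θ : MP (Option (Option σ)) k)
    (αH : MP (Option σ) k →+* LH) (wT : Vl T) (ρT : wT.integer →+* EH) (E : Type) [Field E]
    [Algebra L E] where
  j : T →+* E
  w : Vl E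
  ρ : w.integer →+* EH
  r : (E ≃ₐ[L] E) ≃* (EH ≃ₐ[LH] EH)
  hj : ∀ a, j (algebraMap L T a) = algebraMap L E a
  ov : Over j wT w
  hρ : ∀ x : wT.integer, ρ (ov.int x) = ρT x
  red : IsRed w ρ
  surj : Function.Surjective ρ
  dec : Dec L w = ⊤
  ine : Ine L w = ⊥
  act : ∀ (g : E ≃ₐ[L] E) (x y : w.integer), (y : E) = g x → ρ y = r g (ρ x)
  unr : UnrOff L (tE E α) Θ
  /-- constants lift to constants -/
  cst : ∀ y : EH, ((tE EH αH).comp C).IsIntegralElem y →
    ∃ x : w.integer, ((tE E α).comp C).IsIntegralElem (x : E) ∧ ρ x = y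
  /-- the local groups at the boundary specialise -/
  dl : ∀ (P : MP (Option (Option σ)) k) (Ξ : Vl E), Prime P → P ∣ flp Θ →
    Cen (flpHom (tE E α)) Ξ P → ∃ Q : Vl EH, Nrm Q ∧ Triv ((tE EH αH).comp C) Q ∧
      (∀ g ∈ Dec L Ξ, r g ∈ Dec LH Q) ∧ ∀ g ∈ Ine L Ξ, r g ∈ Ine LH Q

variable (T) in
/-- Covers of the hyperplane `ξ_1 = 0` that are `l`-extensions of the residue field of `T` and
of constants lift. -/
def ZLef (l : ℕ) (α : MP (Option (Option σ)) k →+* L) (Θ : MP (Option (Option σ)) k) : Prop :=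
  ∀ (LH EH : Type) [Field LH] [Field EH] [Algebra LH EH] [FiniteDimensional LH EH] [IsGalois LH EH]
    (αH : MP (Option σ) k →+* LH) (wT : Vl T) (ρT : wT.integer →+* EH), IsFr αH →
    UnrOff LH (tE EH αH) (hyp Θ) → ResH α αH wT ρT →
    LXt l LH (Set.range ρT ∪ {y | ((tE EH αH).comp C).IsIntegralElem y}) →
    ∃ (E : Type) (_ : Field E) (_ : Algebra L E) (_ : FiniteDimensional L E) (_ : IsGalois L E),
      Nonempty (ZOut α Θ αH wT ρT E)

variable (T) in
/-- the same for the hyperplane `a ⬝ ξ = 0`, in all coordinates `ξ' = M' ξ` with first row `a` -/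
def ZHyp (l : ℕ) (α : MP (Option (Option σ)) k →+* L) (Θ : MP (Option (Option σ)) k)
    (a : Option σ → k) : Prop :=
  ∀ M M' : Matrix (Option σ) (Option σ) k, M * M' = 1 → M' none = a →
    ZLef T l (α.comp (aff 0 (extM M') : MP _ k →+* MP _ k)) (aff 0 (extM M) Θ)

end

/-- the Zariski-Lefschetz theorem for `l`-extensions -/
def ThmZL : Prop := ∀ (k σ L T : Type) [Field k] [Infinite k] [Fintype σ] [Field L] [Field T]
  [Algebra L T] [FiniteDimensional L T] [IsGalois L T] (α : MP (Option (Option σ)) k →+* L)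
  (Θ : MP (Option (Option σ)) k) (Λ : ℕ), 2 ≤ Fintype.card σ → IsFr α → constantCoeff Θ ≠ 0 →
  UnrOff L (tE T α) Θ → (Λ : k) ≠ 0 → Pen fun a => ∀ l, l.Prime → l ∣ Λ → ZHyp T l α Θ a

/-- the residue field of a cover along the hyperplane `ξ_1 = 0` -/
def RESH : Prop := ∀ (k σ L T LH : Type) [Field k] [Fintype σ] [Field L] [Field T] [Field LH]
  [Algebra L T] [FiniteDimensional L T] [IsGalois L T] (α : MP (Option (Option σ)) k →+* L)
  (αH : MP (Option σ) k →+* LH) (Θ : MP (Option (Option σ)) k), IsFr α → IsFr αH → hyp Θ ≠ 0 →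
  UnrOff L (tE T α) Θ → ∃ (TH : Type) (_ : Field TH) (_ : Algebra LH TH)
    (_ : FiniteDimensional LH TH) (_ : IsGalois LH TH) (wT : Vl T) (ρT : wT.integer →+* TH),
    ResH α αH wT ρT ∧ Function.Surjective ρT ∧ UnrOff LH (tE TH αH) (hyp Θ)

end Pool.Agent.ZFy
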