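import Pool.Agent.Lib.MP_751085_ag.ZF.Z.Pen1

/-! Almost all members of a general pencil of hyperplanes are inert. -/

namespace Pool.Agent.ZFy.ZL

open Pool.Agent.ZCy
open scoped Classical WithZero Polynomial
open MvPolynomial

set_option linter.unusedSectionVars false

theorem exists_shift {ι k : Type} [Fintype ι] [Field k] (p : ι → k) :
    ∃ e : MP ι k ≃+* MP ι k, (∀ a, e (C a) = C a) ∧
      (∀ G, constantCoeff (e.symm G) = eval p G) ∧ ∀ a, a ⬝ᵥ p = 0 → e (lin a) = lin a := by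
  obtain ⟨e, he, he'⟩ := exists_affE (M := 1) (M' := 1) (-p) (mul_one _)
  refine ⟨e, fun a => by rw [he, algHom_C, algebraMap_eq], fun G => ?_, fun a h => ?_⟩
  · rw [he', const_aff, Matrix.one_mulVec, neg_neg]
  · rw [he, aff_shift _ _ (by rw [dotProduct_neg, h, neg_zero])]

theorem pen_ine (hS : SPR) (hF : FNT) {l : ℕ} {σ k K N₁ : Type} [Fintype σ] [Field k] [Field K]
    [Field N₁] [Algebra (MP (Option σ) k) K] [IsFractionRing (MP (Option σ) k) K] [Algebra K N₁]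
    [FiniteDimensional K N₁] [IsGalois K N₁] {Δ : MP (Option σ) k} (h0 : Δ ≠ 0)
    (hu : UnrOff K (toF (MP (Option σ) k) K N₁) Δ) (hl : l.Prime) (hl0 : (l : k) ≠ 0) :
    Pen fun a => ¬lin a ∣ Δ ∧ INe K l (C : k →+* MP (Option σ) k) N₁ Δ (lin a) := by
  refine ⟨Δ, h0, fun a' ha' a μ h1 h2 hi => ?_⟩
  obtain ⟨e, eC, e0, el⟩ := exists_shift a'
  have hα := (isFr_alg (MP (Option σ) k) K).comp_equiv e
  obtain ⟨_, _, hp⟩ := exists_polA hα
  obtain ⟨Θ, hΘ⟩ : ∃ Θ, Θ = C (eval a' Δ)⁻¹ * e.symm Δ := ⟨_, rfl⟩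
  have hc : constantCoeff Θ = 1 := by
    rw [hΘ, map_mul, constantCoeff_C, e0, inv_mul_cancel₀ ha']
  have hU : ∀ (N : Type) [Field N] [Algebra K N], UnrOff K (toF (MP (Option σ) k) K N) Δ →
      UnrOff K (tE N ((algebraMap (MP (Option σ) k) K).comp (e : _ →+* _))) Θ := fun N _ _ h =>
    (unrOff_equiv (φ := toF (MP (Option σ) k) K N) e).2 (unrOff_mono (n := 1) (by
      rw [hΘ, map_mul, e.apply_symm_apply, pow_one]
      exact dvd_mul_left _ _) h)
  obtain ⟨N₃, _, _, _, _, q, Δ₃, τ, c⟩ := crt_of_unr hS hF hp hc (hU N₁ hu) hl hl0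
  filter_upwards [fin_lin c.ne hi] with ε hε
  have h3 : (a + ε • μ) ⬝ᵥ a' = 0 := by
    rw [add_dotProduct, smul_dotProduct, h1, h2, smul_zero, add_zero]
  refine ⟨fun hd => ha' ?_, fun N _ _ _ _ i hN hx => ?_⟩
  · obtain ⟨G, hG⟩ := hd
    rw [hG, map_mul, eval_lin, h3, zero_mul]
  · have e1 : (tE N ((algebraMap (MP (Option σ) k) K).comp
        (e : MP (Option σ) k →+* MP (Option σ) k))).comp C = (toF (MP (Option σ) k) K N).comp C :=
      RingHom.ext fun a => congrArg (toF (MP (Option σ) k) K N) (eC a)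
    have := inert_lin hp (hc ▸ one_ne_zero) c hε.1 hε.2 i (hU N hN) (by rw [cstS, e1]; exact hx)
    exact el _ h3 ▸ (inert_equiv (φ := toF (MP (Option σ) k) K N) e).1 this

end Pool.Agent.ZFy.ZL
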