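import Pool.Agent.Lib.MP_751085_ag.ZF.Z.Iface
import Pool.Agent.Lib.MP_751085_ag.ZC.V.Pur1

/-! The residue field of a cover along a hyperplane. -/

namespace Pool.Agent.ZFy

open Pool.Agent.ZCy
open scoped Classical WithZero Polynomial
open MvPolynomial

theorem resh_poly {A K₀ K E : Type} [CommRing A] [IsDomain A] [UniqueFactorizationMonoid A]
    [IsNoetherianRing A] [Field K₀] [Field K] [Field E] [Algebra K E] [FiniteDimensional K E]
    [IsGalois K E] {α₀ : A →+* K₀} {α : A[X] →+* K} {Θ : A[X]} (h₀ : IsFr α₀) (hα : IsFr α)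
    (hΘ : Θ.coeff 0 ≠ 0) (hu : UnrOff K (tE E α) Θ) :
    ∃ (E₁ : Type) (_ : Field E₁) (_ : Algebra K₀ E₁) (_ : FiniteDimensional K₀ E₁)
      (_ : IsGalois K₀ E₁) (w : Vl E) (ρ : w.integer →+* E₁), IsRed w ρ ∧
      (∀ p, ∃ h, ρ ⟨tE E α p, h⟩ = tE E₁ α₀ (p.coeff 0)) ∧ Function.Surjective ρ ∧
      UnrOff K₀ (tE E₁ α₀) (Θ.coeff 0) := by
  have hX : Prime (Polynomial.X : A[X]) := Polynomial.prime_X
  have hXΘ : ¬Polynomial.X ∣ Θ := fun h => hΘ (Polynomial.X_dvd_iff.1 h)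
  obtain ⟨v, hv, -⟩ := exists_vcen hα hX
  obtain ⟨w, -, hw⟩ := exists_cen_ext (E := E) hα hX
  have ho := (Cen.over hα hX hv).1 hw
  have hI := hu _ w hX hXΘ hw
  obtain ⟨ρ₀, hr₀, hl, hs₀⟩ := Cen.exists_red hα hX hv (l := α₀.comp Polynomial.constantCoeff)
    fun a => (map_eq_zero_iff α₀ h₀.1).trans Polynomial.X_dvd_iff.symm
  obtain ⟨E₁, _, _, _, _, ρ, e, hr, hs, hc, he⟩ := res_gal ho hI hr₀ (hs₀ fun y => by
    obtain ⟨a, b, hb, h⟩ := h₀.2 y
    exact ⟨Polynomial.C a, Polynomial.C b, by simpa [map_eq_zero_iff α₀ h₀.1] using hb,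
      by simpa using h⟩)
  have hS : IntOff (tE E α) Θ ≤ w.integer := fun x hx => hx _ w hX hXΘ hw
  let σ : IntOff (tE E α) Θ →+* E₁ := ρ.comp (Subring.inclusion hS)
  have hσ (p) : σ (toInt _ Θ p) = tE E₁ α₀ (p.coeff 0) :=
    (hc ⟨α p, hv.1 p⟩).trans (congrArg _ (hl p))
  refine ⟨E₁, inferInstance, inferInstance, inferInstance, inferInstance, w, ρ, hr,
    fun p => ⟨hw.1 p, hσ p⟩, hs,
    fun P u hP hn hu' => (Subgroup.eq_bot_iff_forall _).2 fun s hs => ?_⟩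
  obtain ⟨h1, y, h2⟩ := pur_sep hα hu σ hσ hP hn hu'
  obtain ⟨g, rfl⟩ := e.surjective s
  by_contra hne
  have h3 := h2 g fun h => hne (by rw [show g = 1 from Subtype.ext h, map_one])
  have h4 : σ (gI α Θ g y) = e g (σ y) := (he g (Subring.inclusion hS y)).symm
  rw [map_sub, h4] at h3
  exact (hs.2 _ (h1 y)).ne h3

/-- as a polynomial in `ξ_1` -/
theorem resh_equiv (R σ : Type) [CommRing R] :
    ∃ e : (MP (Option σ) R)[X] ≃+* MP (Option (Option σ)) R, ∀ p, hyp (e p) = p.coeff 0 := by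
  refine ⟨(optionEquivLeft R (Option σ)).symm.toRingEquiv.trans
    (renameEquiv R (Equiv.swap none (some none))).toRingEquiv, fun p => ?_⟩
  obtain ⟨q, rfl⟩ := (optionEquivLeft R (Option σ)).surjective p
  have : (hyp : MP (Option (Option σ)) R →+* _).comp
      (rename (Equiv.swap none (some none)) : MP (Option (Option σ)) R →ₐ[R] _).toRingHom =
      Polynomial.constantCoeff.comp (optionEquivLeft R (Option σ)).toRingEquiv.toRingHom := by
    refine ringHom_ext (fun a => by simp [hyp]) fun i => ?_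
    rcases i with _ | _ | i <;> simp [hyp, Equiv.swap_apply_of_ne_of_ne]
  simpa using RingHom.congr_fun this q

theorem resh : RESH := by
  intro k σ L T LH _ _ _ _ _ _ _ _ α αH Θ hα hαH hΘ hu
  obtain ⟨e, he⟩ := resh_equiv k σ
  obtain ⟨Θ, rfl⟩ := e.surjective Θ
  rw [he] at hΘ ⊢
  obtain ⟨TH, _, _, _, _, w, ρ, h1, h2, h3, h4⟩ := resh_poly (E := T)
    (α := α.comp (e : _ →+* MP (Option (Option σ)) k)) hαH
    ⟨hα.1.comp e.injective, fun x => by
      obtain ⟨a, b, hb, h⟩ := hα.2 x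
      exact ⟨e.symm a, e.symm b, by simpa using hb, by simpa using h⟩⟩ hΘ
    ((unrOff_equiv e).2 hu)
  refine ⟨TH, inferInstance, inferInstance, inferInstance, inferInstance, w, ρ,
    ⟨h1, fun p => ?_⟩, h3, h4⟩
  obtain ⟨p, rfl⟩ := e.surjective p
  rw [he]
  exact h2 p

end Pool.Agent.ZFy
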