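import Pool.Agent.Lib.MP_751085_ag.ZF.Z.Lef
import Pool.Agent.Lib.MP_751085_ag.ZF.Z.Pen2
import Pool.Agent.Lib.MP_751085_ag.ZF.Z.Resh

/-! The Zariski-Lefschetz theorem for `l`-extensions. -/

namespace Pool.Agent.ZFy.ZL

open Pool.Agent.ZCy
open scoped Classical WithZero Polynomial
open MvPolynomial

set_option linter.unusedSectionVars false

theorem aff_C_mul {ι k : Type} [Fintype ι] [Field k] (p : ι → k) (M : Matrix ι ι k) (c : k)
    (G : MP ι k) : aff p M (C c * G) = C c * aff p M G := by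
  rw [map_mul, algHom_C, algebraMap_eq]

end Pool.Agent.ZFy.ZL

namespace Pool.Agent.ZFy

open Pool.Agent.ZCy ZL MvPolynomial

theorem thmZL_of (hS : SPR) (hR : RIG1) (hD : DSC) (hF : FNT) : ThmZL := by
  intro k σ L T _ _ _ _ _ _ _ _ α Θ Λ _ hα h0 hu hΛ
  obtain ⟨_, _, hp⟩ := exists_polA hα
  have h1 : constantCoeff (C (constantCoeff Θ)⁻¹ * Θ) = 1 := by
    rw [map_mul, constantCoeff_C, inv_mul_cancel₀ h0]
  have hu1 : UnrOff L (tE T α) (C (constantCoeff Θ)⁻¹ * Θ) :=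
    unrOff_mono (n := 1) (by rw [pow_one]; exact dvd_mul_left _ _) hu
  have hΛ0 : Λ ≠ 0 := fun h => hΛ (by rw [h, Nat.cast_zero])
  refine pen_mono (pen_all Λ.primeFactors (P := fun l a => ZHyp T l α Θ a) fun l hl => ?_)
    fun a ha l hl hd => ha l (Nat.mem_primeFactors.2 ⟨hl, hd, hΛ0⟩)
  obtain ⟨hl, m, hm⟩ : l.Prime ∧ l ∣ Λ :=
    ⟨Nat.prime_of_mem_primeFactors hl, Nat.dvd_of_mem_primeFactors hl⟩
  have hl0 : (l : k) ≠ 0 := fun h => hΛ (by rw [hm, Nat.cast_mul, h, zero_mul])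
  obtain ⟨N, _, _, _, _, q, Δ, τ, c⟩ := crt_of_unr hS hF hp h1 hu1 hl hl0
  refine pen_mono (pen_ine hS hF c.ne c.unr hl hl0) fun a ha M M' hM e => ?_
  refine zlef_smul (inv_ne_zero h0) ?_
  rw [← aff_C_mul]
  exact zlef_of hR hD hp h1 hu1 c ha.1 ha.2 M M' hM e

end Pool.Agent.ZFy
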