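import Pool.Agent.Lib.MP_751085_ag.ZF.Z.Defs
import Pool.Agent.Lib.MP_751085_ag.ZC.V.DecB
import Pool.Agent.Lib.MP_751085_ag.ZC.V.HarB
import Pool.Agent.Lib.MP_751085_ag.ZC.V.Ctr

/-! Centres of valuations on polynomial rings. -/

namespace Pool.Agent.ZFy.ZL

open Pool.Agent.ZCy
open scoped Classical WithZero Polynomial

set_option linter.unusedSectionVars false

variable {A K : Type} [CommRing A] [IsDomain A] [UniqueFactorizationMonoid A] [Field K]
  [Algebra A K] [IsFractionRing A K]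

theorem isFr_pA (A K F : Type) [CommRing A] [Field K] [Field F] [Algebra A K] [IsFractionRing A K]
    [Algebra K[X] F] [IsFractionRing K[X] F] :
    IsFr ((algebraMap K[X] F).comp (Polynomial.mapRingHom (algebraMap A K))) := by
  exact (isFr_alg A K).poly (isFr_alg K[X] F)

theorem misc2_deg {B : Type} [CommRing B] [IsDomain B] {Th P : B[X]} (hm : Th.Monic) (hP : Prime P)
    (hd : P ∣ Th) : P.natDegree ≠ 0 := fun h => hP.not_isUnit (by
  rw [Polynomial.eq_C_of_natDegree_eq_zero h, ← h]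
  exact Polynomial.isUnit_C.2 (hm.isUnit_leadingCoeff_of_dvd hd))

theorem misc2_loc {E : Type} [Field E] {Th P : A[X]} (hm : Th.Monic) (hP : Prime P) (hd : P ∣ Th)
    {φ : K[X] →+* E} {w : Vl E} (h : Cen (φ.comp (Polynomial.mapRingHom (algebraMap A K))) w P) :
    Prime (P.map (algebraMap A K)) ∧ Cen φ w (P.map (algebraMap A K)) ∧
      ∀ p : A[X], P.map (algebraMap A K) ∣ p.map (algebraMap A K) → P ∣ p := by
  have hi := IsFractionRing.injective A K
  refine cen_local (ι := Polynomial.mapRingHom (algebraMap A K)) (Polynomial.map_injective _ hi)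
    {s | ∃ a, a ≠ 0 ∧ s = Polynomial.C a} ?_ (fun y => ?_) hP ?_ h
  · rintro _ ⟨a, ha, rfl⟩
    rw [Polynomial.coe_mapRingHom, Polynomial.map_C]
    exact Polynomial.isUnit_C.2 ((map_ne_zero_iff _ hi).2 ha).isUnit
  · obtain ⟨b, hb, e⟩ := IsLocalization.integerNormalization_spec (nonZeroDivisors A) y
    refine ⟨_, ⟨b, nonZeroDivisors.ne_zero hb, rfl⟩, _, Eq.trans ?_ e.symm⟩
    rw [Polynomial.coe_mapRingHom, Polynomial.map_C, mul_comm, Algebra.smul_def,
      Polynomial.algebraMap_apply]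
  · rintro _ ⟨a, ha, rfl⟩ h1
    exact misc2_deg hm hP hd (Nat.le_zero.1 ((Polynomial.natDegree_le_of_dvd h1
      (Polynomial.C_ne_zero.2 ha)).trans (Polynomial.natDegree_C a).le))

theorem cen_K {E : Type} [Field E] {Th P : A[X]} (hm : Th.Monic) (hP : Prime P) (hd : P ∣ Th)
    {φ : K[X] →+* E} {w : Vl E} (h : Cen (φ.comp (Polynomial.mapRingHom (algebraMap A K))) w P) :
    Prime (P.map (algebraMap A K)) ∧ Cen φ w (P.map (algebraMap A K)) := by
  exact (misc2_loc hm hP hd h).imp_right And.left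

/-- a prime factor of a monic polynomial is the kernel of the evaluation at any of its roots -/
theorem ker_root {S : Type} [CommRing S] [IsDomain S] {γ : A →+* S} (hγ : Function.Injective γ)
    {Th P : A[X]} (hm : Th.Monic) (hP : Prime P) (hd : P ∣ Th) {t : S} (ht : P.eval₂ γ t = 0)
    (p : A[X]) : p.eval₂ γ t = 0 ↔ P ∣ p := by
  refine ⟨fun h => by_contra fun hn => ?_, fun ⟨q, e⟩ => by
    rw [e, Polynomial.eval₂_mul, ht, zero_mul]⟩
  obtain ⟨v, hv, -⟩ := exists_vcen (isFr_pA A (Fr A) (Fr (Fr A)[X])) hP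
  obtain ⟨h1, -, h2⟩ := misc2_loc hm hP hd hv
  obtain ⟨φ, hφ⟩ := (isFr_alg A (Fr A)).exists_lift (β := (algebraMap S (Fr S)).comp γ)
    ((IsFractionRing.injective S (Fr S)).comp hγ)
  have e : ∀ q : A[X], (q.map (algebraMap A (Fr A))).eval₂ φ (algebraMap S (Fr S) t) =
      algebraMap S (Fr S) (q.eval₂ γ t) := fun q => by
    rw [Polynomial.eval₂_map, Polynomial.hom_eval₂]
    exact congrArg (fun f => q.eval₂ f _) (RingHom.ext hφ)
  obtain ⟨a, b, h3⟩ := h1.irreducible.coprime_iff_not_dvd.2 fun h => hn (h2 p h)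
  have h4 := congrArg (Polynomial.eval₂ φ (algebraMap S (Fr S) t)) h3
  simp [Polynomial.eval₂_add, Polynomial.eval₂_mul, e, ht, h] at h4

theorem misc2_int {B R KK : Type} [CommRing B] [CommRing R] [Field KK] {α : R →+* KK} {v : Vl KK}
    (hα : IsVR α v) {η : B →+* R} {Th : B[X]} (hm : Th.Monic) {z : KK}
    (hz : (Th.map (α.comp η)).eval z = 0) : ∃ t : R, α t = z :=
  (hα.2.2 z).1 (le_one_of_integral (φ := α.comp η) (fun a => (hα.2.2 _).2 ⟨η a, rfl⟩)
    ⟨Th, hm, by rwa [Polynomial.eval_map] at hz⟩)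

/-- a prime factor of a monic polynomial that splits has a root in the valuation ring -/
theorem exists_root_vr {B R KK : Type} [CommRing B] [IsDomain B] [CommRing R] [IsDomain R]
    [Field KK] {α : R →+* KK} {v : Vl KK} (hα : IsVR α v) {η : B →+* R} {Th P : B[X]} (hm : Th.Monic)
    (hP : Prime P) (hd : P ∣ Th) (hs : (Th.map (α.comp η)).Splits) :
    ∃ t : R, P.eval₂ η t = 0 := by
  have h1 := Polynomial.map_dvd (α.comp η) hd
  obtain ⟨z, hz⟩ := (hs.of_dvd (hm.map _).ne_zero h1).exists_eval_eq_zero fun h =>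
    misc2_deg hm hP hd (Polynomial.natDegree_eq_of_degree_eq_some (n := 0)
      ((Polynomial.degree_map_eq_of_isUnit_leadingCoeff _
        (hm.isUnit_leadingCoeff_of_dvd hd)).symm.trans h))
  obtain ⟨t, rfl⟩ := misc2_int hα hm (Polynomial.eval_eq_zero_of_dvd_of_eval_eq_zero h1 hz)
  refine ⟨t, hα.2.1 ?_⟩
  rwa [Polynomial.hom_eval₂, map_zero, ← Polynomial.eval_map]

/-- a root of a monic polynomial that splits lies in the valuation ring -/
theorem root_mem_vr {B R KK Ω : Type} [CommRing B] [CommRing R] [IsDomain R] [Field KK] [Field Ω]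
    {α : R →+* KK} {v : Vl KK} (hα : IsVR α v) {η : B →+* R} {Th : B[X]} (hm : Th.Monic)
    (hs : (Th.map (α.comp η)).Splits) (lam : KK →+* Ω) {z : Ω}
    (hz : Th.eval₂ (lam.comp (α.comp η)) z = 0) : ∃ t : R, lam (α t) = z := by
  rw [← Polynomial.eval_map, ← Polynomial.map_map] at hz
  obtain ⟨y, rfl⟩ := hs.mem_range_of_isRoot (hm.map _).ne_zero hz
  rw [Polynomial.eval_map, Polynomial.eval₂_at_apply, map_eq_zero] at hz
  exact (misc2_int hα hm hz).imp fun t ht => congrArg lam ht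

/-- the multiplicities of an irreducible polynomial divide a power of the characteristic -/
theorem mult_cop {K M : Type} [Field K] [Field M] (γ : K →+* M) {P₀ : K[X]} (h₀ : Irreducible P₀)
    {P : M[X]} (hP : Prime P) {l : ℕ} (hl : l.Prime) (h0 : (l : K) ≠ 0) (hd : P ∣ P₀.map γ) :
    ∃ (m : ℕ) (Q : M[X]), m.Coprime l ∧ P₀.map γ = P ^ m * Q ∧ ¬P ∣ Q := by
  obtain ⟨q, _⟩ := ExpChar.exists K
  obtain ⟨g, hg, e, rfl⟩ := h₀.hasSeparableContraction q
  have hn := Polynomial.map_ne_zero (f := γ) h₀.ne_zero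
  obtain ⟨m, Q, hQ, h1⟩ := WfDvdMonoid.max_power_factor' hn hP.not_isUnit
  refine ⟨m, Q, ?_, h1, hQ⟩
  obtain ⟨i, -⟩ : ∃ i, i = algebraMap M (AlgebraicClosure M) := ⟨_, rfl⟩
  have := expChar_of_injective_ringHom (i.comp γ).injective q
  obtain ⟨z, hz⟩ := IsAlgClosed.exists_root (P.map i) (by
    rw [Polynomial.degree_map]
    exact (Polynomial.degree_pos_of_irreducible hP.irreducible).ne')
  have h2 : ¬(Q.map i).IsRoot z := fun h => by
    obtain ⟨a, b, h3⟩ := hP.irreducible.coprime_iff_not_dvd.2 hQ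
    have h4 := congrArg (fun p => (p.map i).eval z) h3
    simp [hz.eq_zero, h.eq_zero] at h4
  have h3 := Polynomial.map_ne_zero (f := i) hn
  have h5 := (Polynomial.rootMultiplicity_pos h3).2 (hz.dvd (Polynomial.map_dvd i hd))
  have h4 := congrArg (fun p => (p.map i).rootMultiplicity z) h1
  rw [h1, Polynomial.map_mul] at h3
  simp only [Polynomial.map_map, Polynomial.map_expand, Polynomial.rootMultiplicity_expand_pow,
    Polynomial.map_mul] at h4 h5
  rw [Polynomial.rootMultiplicity_mul h3, Polynomial.rootMultiplicity_eq_zero h2, add_zero,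
    Polynomial.map_pow, ← Polynomial.count_roots (P.map i ^ m), Polynomial.roots_pow,
    Multiset.count_nsmul, le_antisymm (Polynomial.rootMultiplicity_le_one_of_separable hg.map _)
      (Nat.pos_of_mul_pos_left h5), mul_one] at h4
  refine Nat.Coprime.coprime_dvd_left ⟨_, h4⟩ (Nat.Coprime.pow_left _ ?_)
  cases ‹ExpChar K q› with
  | zero => exact Nat.coprime_one_left l
  | prime hq => exact hq.coprime_iff_not_dvd.2 (mt (CharP.cast_eq_zero_iff K q l).2 h0)

/-- places with the same restriction to the base ring are conjugate -/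
theorem place_conj_cen {B F T Ω : Type} [CommRing B] [WfDvdMonoid B] [Field F] [Field T] [Field Ω]
    [Algebra F T] [FiniteDimensional F T] [IsGalois F T] {α : B →+* F} (hα : IsFr α) {P : B}
    (hP : Prime P) {w w' : Vl T} {ρ : w.integer →+* Ω} {ρ' : w'.integer →+* Ω} (hρ : IsRed w ρ)
    (hρ' : IsRed w' ρ') (hw : Cen (tE T α) w P) (hw' : Cen (tE T α) w' P)
    (e : ∀ a, ρ' ⟨tE T α a, hw'.1 a⟩ = ρ ⟨tE T α a, hw.1 a⟩) :
    ∃ g : T ≃ₐ[F] T, (∀ x, w' x ≤ 1 ↔ w (g x) ≤ 1) ∧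
      ∀ x hx hx', ρ' ⟨x, hx⟩ = ρ ⟨g x, hx'⟩ := by
  obtain ⟨v, hv, -⟩ := exists_vcen hα hP
  refine place_conj_over ((hv.over hα hP).1 hw) ((hv.over hα hP).1 hw') hρ hρ' fun x => ?_
  obtain ⟨a, b, hb, h⟩ := (hv.le_one_iff hα hP x).1 x.2
  have h1 : algebraMap F T x * tE T α b = tE T α a := (map_mul _ _ _).symm.trans (congrArg _ h)
  refine mul_right_cancel₀ ((hρ.ne_zero ⟨_, hw.1 b⟩).2 ((hw.eq_one b).2 hb)) ?_
  rw [← map_mul, ← e, ← map_mul]
  exact (congrArg ρ' (Subtype.ext h1)).trans ((e a).trans (congrArg ρ (Subtype.ext h1.symm)))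

/-- finitely many integers detect the inertia group -/
theorem exists_sepset {F E : Type} [Field F] [Field E] [Algebra F E] [FiniteDimensional F E]
    (w : Vl E) : ∃ X : Finset w.integer, ∀ g ∈ Dec F w,
      (∀ x ∈ X, w (g (x : E) - x) < 1) → g ∈ Ine F w := by
  have h : ∀ g : E ≃ₐ[F] E, ∃ x : w.integer, g ∈ Dec F w → w (g (x : E) - x) < 1 → g ∈ Ine F w :=
    fun g => by_contra fun hn => by
      simp only [not_exists, not_forall] at hn
      obtain ⟨h1, -, h2⟩ := hn 0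
      refine h2 ⟨h1, fun x hx => ?_⟩
      obtain ⟨-, h3, -⟩ := hn ⟨x, hx⟩
      exact h3
  choose x hx using h
  exact ⟨Finset.univ.image x, fun g hg h => hx g hg (h _ (Finset.mem_image_of_mem _
    (Finset.mem_univ g)))⟩

/-- the residues at a point of the line are algebraic over the constants -/
theorem exists_res_poly {K F E : Type} [Field K] [Field F] [Field E] [Algebra K[X] F]
    [IsFractionRing K[X] F] [Algebra F E] [FiniteDimensional F E] {w : Vl E} {P : K[X]}
    (hP : Prime P) (hw : Cen (toF K[X] F E) w P) {x : E} (hx : w x ≤ 1) :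
    ∃ μ : K[X], μ ≠ 0 ∧ w (μ.eval₂ ((toF K[X] F E).comp Polynomial.C) x) < 1 := by
  obtain ⟨κ, _, ρ, hρ, -⟩ := exists_resf w
  have ho := Over.comap (algebraMap F E) w
  have hv : Cen (algebraMap K[X] F) (w.comap (algebraMap F E)) P := hw
  let ψ : K[X] →+* w.integer := (toF K[X] F E).codRestrict _ hw.1
  let := (ρ.comp (ψ.comp Polynomial.C)).toAlgebra
  have h1 : ∀ (p : K[X]) (y : w.integer),
      ρ (p.eval₂ (ψ.comp Polynomial.C) y) = Polynomial.aeval (ρ y) p := fun p y =>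
    Polynomial.hom_eval₂ _ _ _ _
  have h2 : ∀ p : K[X], ρ (ψ p) = Polynomial.aeval (ρ (ψ Polynomial.X)) p := fun p => by
    rw [← h1, ← Polynomial.hom_eval₂, Polynomial.eval₂_C_X]
  have h3 : IsIntegral K (ρ (ψ Polynomial.X)) := IsAlgebraic.isIntegral
    ⟨P, hP.ne_zero, (h2 P).symm.trans ((hρ _).2 ((hw.2 P).2 dvd_rfl))⟩
  have h4 : ∀ p : K[X], ρ (ψ p) ∈ algebraicClosure K κ := fun p =>
    h2 p ▸ adjoin_le_integralClosure h3 (Polynomial.aeval_mem_adjoin_singleton K _)
  have h5 : ∀ a, ρ.comp ho.int a ∈ algebraicClosure K κ := fun a => by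
    obtain ⟨c, b, hb, h⟩ := (hv.le_one_iff (isFr_alg K[X] F) hP a).1 a.2
    have h6 : ρ (ho.int a) * ρ (ψ b) = ρ (ψ c) := (map_mul _ _ _).symm.trans
      (congrArg ρ (Subtype.ext ((map_mul _ _ _).symm.trans (congrArg (algebraMap F E) h))))
    rw [RingHom.comp_apply, eq_div_of_mul_eq ((hρ.ne_zero _).2 ((hw.eq_one b).2 hb)) h6]
    exact div_mem (h4 c) (h4 b)
  obtain ⟨f, ⟨i, hi⟩, hf⟩ := exists_poly_red ho ⟨x, hx⟩
  have h7 : IsAlgebraic (algebraicClosure K κ) (ρ ⟨x, hx⟩) := by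
    refine ⟨f.map ((ρ.comp ho.int).codRestrict _ h5), fun h => ?_, ?_⟩
    · have h8 := congrArg (fun p => (p.coeff i : κ)) h
      simp only [Polynomial.coeff_map] at h8
      exact (hρ.ne_zero (ho.int (f.coeff i))).2 hi h8
    · rw [Polynomial.aeval_def, Polynomial.eval₂_map]
      exact (Polynomial.hom_eval₂ f ho.int ρ _).symm.trans (by rw [hf, map_zero])
  obtain ⟨μ, h8, h9⟩ := h7.restrictScalars K
  refine ⟨μ, h8, lt_of_eq_of_lt (congrArg w ?_) ((hρ _).1 ((h1 μ ⟨x, hx⟩).trans h9))⟩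
  exact (Polynomial.hom_eval₂ μ (ψ.comp Polynomial.C) w.integer.subtype ⟨x, hx⟩).symm

end Pool.Agent.ZFy.ZL
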