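import Pool.Agent.Lib.MP_751085_ag.ZF.Z.Bc1
import Pool.Agent.Lib.MP_751085_ag.ZF.Z.Misc2
import Pool.Agent.Lib.MP_751085_ag.ZC.V.Bcu

/-! Ramification and base change. -/

namespace Pool.Agent.ZFy.ZL

open Pool.Agent.ZCy
open scoped Classical WithZero Polynomial

set_option linter.unusedSectionVars false

variable {K L F N : Type} [Field K] [Field L] [Field F] [Field N] [Algebra K L] [Algebra K[X] F]
  [IsFractionRing K[X] F] [Algebra F N] [FiniteDimensional F N] [IsGalois F N]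
variable {M F' N' : Type} [Field M] [Field F'] [Field N'] [Algebra M[X] F'] [IsFractionRing M[X] F']
  [Algebra F' N'] [FiniteDimensional F' N'] [IsGalois F' N'] {d : SecD 1 K L F N} {γ : L →+* M}

theorem Bc.unr (b : Bc d γ F' N') {Θ : L[X]} (h : GU d Θ) :
    UnrOff F' (toF M[X] F' N') (Θ.map γ) := fun P w _ hn hc => eq_bot_iff.2 fun g' hg' => by
  obtain ⟨g, hg, e⟩ := b.restr g'
  have h1 := h.ine (w := w.comap b.j) (fun p => by
    rw [Valuation.comap_apply, b.hφ]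
    exact hc.1 _) (by
    rw [Valuation.comap_apply, b.hφ]
    exact cen1_one hc hn)
  have h2 : g ∈ Ine F (w.comap b.j) ⊓ geo d := ⟨⟨fun x => by
    rw [Valuation.comap_apply, e]
    exact hg'.1 _, fun x hx => by
    rw [Valuation.comap_apply, map_sub, e]
    exact hg'.2 _ hx⟩, hg⟩
  rw [h1, Subgroup.mem_bot] at h2
  exact b.span g' fun z => by rw [← e, h2, AlgEquiv.one_apply]

theorem bc2_pow {i : N →+* N'} {g : N ≃ₐ[F] N} {g' : N' ≃ₐ[F'] N'} (h : ∀ z, g' (i z) = i (g z))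
    (k : ℕ) (z : N) : (g' ^ k) (i z) = i ((g ^ k) z) := by
  induction k with
  | zero => rfl
  | succ k ih => rw [pow_succ', pow_succ', AlgEquiv.mul_apply, AlgEquiv.mul_apply, ih, h]

theorem Bc.lxt_iff (b : Bc d γ F' N') {l : ℕ} {S : Set N} :
    LXt l F' (b.j '' S) ↔ LXt l F (S ∪ Set.range d.c) := by
  rw [ZL.lxt_iff, ZL.lxt_iff]
  refine ⟨fun h g hg => ?_, fun h g' hg' => ?_⟩
  · obtain ⟨g', e⟩ := b.ext (g := g) fun x hx => hg x (Or.inr hx)
    refine (h g' ?_).imp fun n hn => AlgEquiv.ext fun z => b.j.injective ?_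
    · rintro _ ⟨x, hx, rfl⟩
      rw [e, hg x (Or.inl hx)]
    · rw [← bc2_pow e, hn]
      rfl
  · obtain ⟨g, hg, e⟩ := b.restr g'
    refine (h g fun x hx => hx.elim (fun hx => b.j.injective ?_) (hg x)).imp fun n hn =>
      b.span _ fun z => ?_
    · rw [e, hg' _ ⟨x, hx, rfl⟩]
    · rw [bc2_pow fun z => (e z).symm, hn]
      rfl

variable {l : ℕ} {A K₁ F₁ T : Type} [CommRing A] [Field K₁] [Field F₁] [Field T] [Algebra A K₁]
  [IsFractionRing A K₁] [Algebra K₁[X] F₁] [IsFractionRing K₁[X] F₁] [Algebra F₁ T]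
  [FiniteDimensional F₁ T] [IsGalois F₁ T] {Th : A[X]} {γ₁ : K₁ →+* L} {j : T →+* N}
  {β : A →+* M}

theorem bc2_map (hβ : ∀ a, γ (γ₁ (algebraMap A K₁ a)) = β a) (p : A[X]) :
    ((p.map (algebraMap A K₁)).map γ₁).map γ = p.map β := by
  rw [Polynomial.map_map, Polynomial.map_map]
  exact congrArg (fun f => p.map f) (RingHom.ext hβ)

theorem Bc.cov (b : Bc d γ F' N') (h : SC l F₁ (Th.map (algebraMap A K₁)) d γ₁ j)
    (hβ : ∀ a, γ (γ₁ (algebraMap A K₁ a)) = β a) :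
    ∃ c : Cov l (pA A K₁ F₁ T) Th F' N' β, c.ι = b.ι ∧ c.j = b.j.comp j := by
  refine ⟨⟨b.j.comp j, b.ι, fun p => ?_, b.hι, ?_, ?_⟩, rfl, rfl⟩
  · rw [← bc2_map hβ, ← b.hφ, ← h.hj]
    rfl
  · rw [RingHom.coe_comp, Set.range_comp]
    exact b.lxt_iff.2 h.lxt
  · rw [← bc2_map hβ]
    exact b.unr h.unr

theorem bc2_dvd {P : L[X]} (hP : Prime P) {P' : M[X]} (hP' : Prime P') (hd : P' ∣ P.map γ)
    (p : L[X]) : P' ∣ p.map γ ↔ P ∣ p := by
  refine ⟨fun h => by_contra fun hn => hP'.not_isUnit ?_, fun h =>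
    hd.trans (Polynomial.map_dvd γ h)⟩
  exact ((hP.irreducible.coprime_iff_not_dvd.2 hn).map (Polynomial.mapRingHom γ)).isUnit_of_dvd'
    hd h

/-- at an unramified prime all values are powers of the value of the prime -/
theorem bc2_val {P : M[X]} (hP : Prime P) {w : Vl N'} (hc : Cen (toF M[X] F' N') w P)
    (h : Ine F' w = ⊥) {x : N'} (hx : x ≠ 0) : ∃ k : ℤ, w x = w (toF M[X] F' N' P) ^ k := by
  obtain ⟨a, ha⟩ := e1_of_ine_bot h x
  obtain ⟨p, q, hq, rfl⟩ := IsFractionRing.div_surjective (A := M[X]) a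
  have hp : p ≠ 0 := by
    rintro rfl
    simp [hx] at ha
  obtain ⟨n, hn⟩ := zcen_val hP hc hp
  obtain ⟨m, hm⟩ := zcen_val hP hc (nonZeroDivisors.ne_zero hq)
  have h0 : w (toF M[X] F' N' P) ≠ 0 := w.ne_zero_iff.2
    ((map_ne_zero (algebraMap F' N')).2
      ((map_ne_zero_iff _ (IsFractionRing.injective M[X] F')).2 hP.ne_zero))
  refine ⟨n - m, ?_⟩
  rw [ha, map_div₀, map_div₀, zpow_sub₀ h0, zpow_natCast, zpow_natCast, ← hn, ← hm]
  rfl

theorem Bc.sc_down (b : Bc d γ F' N') (hl : l.Prime) (h0 : (l : K₁) ≠ 0)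
    (hT : UnrOff F₁ (toF K₁[X] F₁ T) (Th.map (algebraMap A K₁)))
    (c : Cov l (pA A K₁ F₁ T) Th F' N' β) (hβ : ∀ a, γ (γ₁ (algebraMap A K₁ a)) = β a)
    (hj : c.j = b.j.comp j) : SC l F₁ (Th.map (algebraMap A K₁)) d γ₁ j := by
  have e0 : ∀ p : A[X], j (toF K₁[X] F₁ T (p.map (algebraMap A K₁))) =
      d.φ ((p.map (algebraMap A K₁)).map γ₁) := fun p => b.j.injective (by
    rw [b.hφ, bc2_map hβ, ← c.hj, hj]
    rfl)
  have e1 : ∀ p, j (toF K₁[X] F₁ T p) = d.φ (p.map γ₁) := fun p => by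
    refine RingHom.congr_fun (f := j.comp (toF K₁[X] F₁ T))
      (g := d.φ.comp (Polynomial.mapRingHom γ₁)) (Polynomial.ringHom_ext' ?_ ?_) p
    · refine IsLocalization.ringHom_ext (nonZeroDivisors A) (RingHom.ext fun a => ?_)
      simpa only [Polynomial.map_C, RingHom.comp_apply, Polynomial.coe_mapRingHom] using
        e0 (Polynomial.C a)
    · simpa only [Polynomial.map_X, RingHom.comp_apply, Polynomial.coe_mapRingHom] using
        e0 Polynomial.X
  have e2 : LXt l F (Set.range j ∪ Set.range d.c) := by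
    have h := c.lext
    rw [hj, RingHom.coe_comp, Set.range_comp] at h
    exact b.lxt_iff.1 h
  refine ⟨e1, e2, ?_⟩
  obtain ⟨_, _, _, hF⟩ := exists_geo d (Fr L[X])
  obtain ⟨u, hu⟩ := geo_iso d hF
  refine (gu_iff d hF).2 fun P w hP hn hc => ?_
  obtain ⟨P', hP', hd⟩ := WfDvdMonoid.exists_irreducible_factor (a := P.map γ)
    (fun h => hP.not_isUnit ((Polynomial.isUnit_map γ).1 h)) (Polynomial.map_ne_zero hP.ne_zero)
  replace hP' := hP'.prime
  obtain ⟨w', hw'⟩ := exists_cen (K := F') (E := N') hP'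
  have v : ∀ p, (w'.comap b.j) (d.φ p) = w' (toF M[X] F' N' (p.map γ)) := fun p => by
    rw [Valuation.comap_apply, b.hφ]
  have hc' : Cen d.φ (w'.comap b.j) P := ⟨fun p => (v p).trans_le (hw'.1 _), fun p => by
    rw [v, hw'.2, bc2_dvd hP hP' hd]⟩
  have hi := c.unr P' w' hP' (by rwa [← bc2_map hβ, bc2_dvd hP hP' hd]) hw'
  refine unr_of_one hP hc (hF ▸ hc') (eq_bot_iff.2 fun g hg => ?_)
  have hg' : (u g : N ≃ₐ[F] N) ∈ Ine F (w'.comap b.j) :=
    ⟨fun x => by rw [hu]; exact hg.1 x, fun x hx => by rw [hu]; exact hg.2 x hx⟩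
  have f1 := fix_of_ine (K := F₁) j (u g : N ≃ₐ[F] N).toRingEquiv (fun a => by
    obtain ⟨p, q, -, rfl⟩ := IsFractionRing.div_surjective (A := K₁[X]) a
    have h := fun p => (e1 p).symm ▸ geo_φ d (u g).2 (p.map γ₁)
    rw [map_div₀, map_div₀, map_div₀]
    exact congrArg₂ _ (h p) (h q)) (w'.comap b.j) hg'.1 hg'.2 (unr_of_le hT (fun p => by
      rw [Valuation.comap_apply, e1]
      exact hc'.1 _) (by
      rw [Valuation.comap_apply, e1]
      exact cen1_one hc' hn))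
  obtain ⟨n, hn'⟩ := ZL.lxt_iff.1 e2 (u g) (mem_fixS_union.2 ⟨f1, mem_fixS_range.1 (u g).2⟩)
  obtain ⟨m, Q, hm, hQ, hQ'⟩ := mult_cop γ hP.irreducible hP' hl
    (by rw [← map_natCast γ₁]; exact (map_ne_zero γ₁).2 h0) hd
  have f2 := unrl hg' (val_nat (d.c.comp γ₁) (fun a => by
    rw [RingHom.comp_apply, ← d.φ_C]
    exact hc'.1 _) h0) hn' hm fun x hx => by
      obtain ⟨k, hk⟩ := bc2_val hP' hw' hi ((map_ne_zero b.j).2 hx)
      refine ⟨d.φ P ^ k, by rw [map_zpow₀, geo_φ d (u g).2], ?_⟩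
      rw [map_zpow₀, v, hQ, cen1_pow hw' hQ', Valuation.comap_apply, hk, ← zpow_natCast,
        ← zpow_natCast, ← zpow_mul, ← zpow_mul, mul_comm]
  exact AlgEquiv.ext fun x => by rw [← hu, f2]; rfl

end Pool.Agent.ZFy.ZL
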