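import Pool.Agent.Lib.MP_751085_ag.ZF.Z.Bc1

/-! Models over a field of definition. -/

namespace Pool.Agent.ZFy.ZL

open Pool.Agent.ZCy
open scoped Classical WithZero Polynomial

set_option linter.unusedSectionVars false

variable {K KK F E : Type} [Field K] [Field KK] [Field F] [Field E] [Algebra KK[X] F]
  [IsFractionRing KK[X] F] [Algebra F E] [FiniteDimensional F E] [IsGalois F E] {γ : K →+* KK}
  {ι : E →+* Ls KK}

theorem exists_bc_of_dfd (F' : Type) [Field F'] [Algebra K[X] F'] [IsFractionRing K[X] F']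
    (hι : ∀ p, ι (toF KK[X] F E p) = tL KK p) (h : Dfd F γ ι) :
    ∃ (E' : Type) (_ : Field E') (_ : Algebra F' E') (_ : FiniteDimensional F' E')
      (_ : IsGalois F' E') (ι' : E' →+* Ls K) (hι' : ∀ p, ι' (toF K[X] F' E' p) = tL K p)
      (b : Bc (dg F' ι' hι') γ F E), b.ι = ι := by
  obtain ⟨S, hS, hf, hd⟩ := h
  let φ : K[X] →+* E := (toF KK[X] F E).comp (Polynomial.mapRingHom γ)
  have hφ : Function.Injective φ :=
    ((algebraMap F E).injective.comp (IsFractionRing.injective KK[X] F)).comp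
      (Polynomial.map_injective γ γ.injective)
  let ψ : F' →+* E := IsFractionRing.lift hφ
  have hψ : ∀ p, ψ (algebraMap K[X] F' p) = toF KK[X] F E (p.map γ) := fun p =>
    IsFractionRing.lift_algebraMap hφ p
  have hψg : ∀ (g : E ≃ₐ[F] E) (a : F'), g (ψ a) = ψ a := by
    intro g a
    obtain ⟨p, q, -, rfl⟩ := IsFractionRing.div_surjective (A := K[X]) a
    rw [map_div₀, map_div₀, hψ, hψ]
    exact congrArg₂ _ (g.commutes _) (g.commutes _)
  have hψι : ∀ a : F', ι (ψ a) ∈ (lm γ).fieldRange := by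
    intro a
    obtain ⟨p, q, -, rfl⟩ := IsFractionRing.div_surjective (A := K[X]) a
    rw [map_div₀, map_div₀, hψ, hψ, hι, hι, ← lm_tM, ← lm_tM]
    exact div_mem ⟨_, rfl⟩ ⟨_, rfl⟩
  let T : Subfield E := Subfield.closure (Set.range ψ ∪ (S : Set E))
  have hTψ : ∀ a, ψ a ∈ T := fun a => Subfield.subset_closure (Or.inl ⟨a, rfl⟩)
  have hTS : ∀ z ∈ S, z ∈ T := fun z hz => Subfield.subset_closure (Or.inr hz)
  have hTg : ∀ (g : E ≃ₐ[F] E), ∀ z ∈ T, g z ∈ T := by
    intro g
    have : T ≤ T.comap (g : E →+* E) := by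
      refine Subfield.closure_le.2 ?_
      rintro z (⟨a, rfl⟩ | hz)
      · change g (ψ a) ∈ T
        rw [hψg]
        exact hTψ a
      · exact hTS _ (hS g z hz)
    exact fun z hz => this hz
  have hTι : ∀ z ∈ T, ι z ∈ (lm γ).range := by
    have : T ≤ ((lm γ).fieldRange).comap ι := by
      refine Subfield.closure_le.2 ?_
      rintro z (⟨a, rfl⟩ | hz)
      · exact hψι a
      · exact hd z hz
    exact fun z hz => this hz
  obtain ⟨ι', hι'⟩ := ring_factor (ι.comp T.subtype) (lm γ) (lm γ).injective fun z => hTι z z.2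
  have hι'' : ∀ z : T, ι z = lm γ (ι' z) := fun z => (hι' z).symm
  let : Algebra F' T := (ψ.codRestrict T hTψ).toAlgebra
  have hal : ∀ a : F', ((algebraMap F' T a : T) : E) = ψ a := fun _ => rfl
  have hp : ∀ p, ι' (toF K[X] F' T p) = tL K p := by
    intro p
    apply lm_injective γ.injective
    rw [← hι'', lm_tM, ← hι, ← hψ]
    rfl
  let : MulSemiringAction (E ≃ₐ[F] E) T :=
    { smul := fun g z => ⟨g z, hTg g z z.2⟩
      one_smul := fun _ => rfl
      mul_smul := fun _ _ _ => rfl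
      smul_zero := fun g => Subtype.ext (map_zero g)
      smul_add := fun g a b => Subtype.ext (map_add g a.1 b.1)
      smul_one := fun g => Subtype.ext (map_one g)
      smul_mul := fun g a b => Subtype.ext (map_mul g a.1 b.1) }
  have hsm : ∀ (g : E ≃ₐ[F] E) (z : T), ((g • z : T) : E) = g z := fun _ _ => rfl
  have : IsGaloisGroup (E ≃ₐ[F] E) F' T :=
    { faithful := ⟨fun {g g'} hg => by
        have : g'⁻¹ * g = 1 := hf _ fun z hz => by
          have h1 : g z = g' z := congrArg Subtype.val (hg ⟨z, hTS z hz⟩)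
          rw [AlgEquiv.mul_apply, h1, ← AlgEquiv.mul_apply, inv_mul_cancel, AlgEquiv.one_apply]
        exact (inv_mul_eq_one.1 this).symm⟩
      commutes := ⟨fun g a z => by
        apply Subtype.ext
        rw [Algebra.smul_def, Algebra.smul_def, hsm]
        change g (ψ a * z) = ψ a * g z
        rw [map_mul, hψg]⟩
      isInvariant := ⟨fun z hz => by
        have h1 : (z : E) ∈ (⊥ : IntermediateField F E) :=
          (IsGalois.mem_bot_iff_fixed _).2 fun g => congrArg Subtype.val (hz g)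
        obtain ⟨b, hb⟩ := IntermediateField.mem_bot.1 h1
        obtain ⟨p, q, hq, rfl⟩ := IsFractionRing.div_surjective (A := KK[X]) b
        have hq0 : q ≠ 0 := nonZeroDivisors.ne_zero hq
        have hq1 : toF KK[X] F E q ≠ 0 := fun h0 => hq0
          (((algebraMap F E).injective.comp (IsFractionRing.injective KK[X] F))
            (h0.trans (map_zero (toF KK[X] F E)).symm))
        have h2 : (z : E) * toF KK[X] F E q = toF KK[X] F E p := by
          rw [← hb, map_div₀]
          exact div_mul_cancel₀ _ hq1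
        have h3 : lm γ (ι' z) * tM 1 KK q = tM 1 KK p := by
          rw [← hι'', ← hι, ← hι, ← map_mul, h2]
        obtain ⟨p', q', hq', h4⟩ := frac_of_coeff γ one_pos (ι' z) p q hq0 h3
        have h5 : z * toF K[X] F' T q' = toF K[X] F' T p' := by
          apply ι'.injective
          rw [map_mul, hp, hp]
          exact h4
        have hq2 : toF K[X] F' T q' ≠ 0 := fun h0 => hq'
          (((algebraMap F' T).injective.comp (IsFractionRing.injective K[X] F'))
            (h0.trans (map_zero (toF K[X] F' T)).symm))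
        refine ⟨algebraMap K[X] F' p' / algebraMap K[X] F' q', ?_⟩
        rw [map_div₀]
        exact (eq_div_of_mul_eq hq2 h5).symm⟩ }
  refine ⟨T, inferInstance, inferInstance, IsGaloisGroup.finiteDimensional (E ≃ₐ[F] E) F' T,
    IsGaloisGroup.isGalois (E ≃ₐ[F] E) F' T, ι', hp,
    ⟨T.subtype, ι, hι, hι'', fun g hg => hf g fun z hz => hg ⟨z, hTS z hz⟩⟩, rfl⟩

theorem Bc.dfd {F' E' : Type} [Field F'] [Field E'] [Algebra K[X] F'] [IsFractionRing K[X] F']
    [Algebra F' E'] [FiniteDimensional F' E'] [IsGalois F' E'] {ι' : E' →+* Ls K}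
    {hι' : ∀ p, ι' (toF K[X] F' E' p) = tL K p} (b : Bc (dg F' ι' hι') γ F E) {K₀ : Type}
    [Field K₀] (γ₀ : K₀ →+* K) (h : Dfd F' γ₀ ι') : Dfd F (γ.comp γ₀) b.ι := by
  obtain ⟨S, hS, hf, hd⟩ := h
  refine ⟨S.image b.j, fun g z hz => ?_, fun g hg => ?_, fun z hz => ?_⟩
  · obtain ⟨y, hy, rfl⟩ := Finset.mem_image.1 hz
    obtain ⟨g', -, e⟩ := b.restr g
    exact Finset.mem_image.2 ⟨g' y, hS _ y hy, e y⟩
  · obtain ⟨g', -, e⟩ := b.restr g
    obtain rfl : g' = 1 := hf _ fun y hy =>
      b.j.injective ((e y).trans (hg _ (Finset.mem_image_of_mem _ hy)))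
    exact b.span g fun z => (e z).symm
  · obtain ⟨y, hy, rfl⟩ := Finset.mem_image.1 hz
    obtain ⟨f, hf⟩ := hd y hy
    refine ⟨f, Eq.trans ?_ ((congrArg (lm γ) hf).trans (b.hj y).symm)⟩
    ext k
    rfl

theorem dfd_mono {K' : Type} [Field K'] {γ' : K' →+* KK} (h : Dfd F γ ι)
    (hγ : ∀ a, γ a ∈ γ'.range) : Dfd F γ' ι := by
  obtain ⟨S, hS, hf, hd⟩ := h
  obtain ⟨δ, hδ⟩ := ring_factor γ γ' γ'.injective hγ
  refine ⟨S, hS, hf, fun z hz => ?_⟩
  obtain ⟨f, hf⟩ := hd z hz
  refine ⟨lm δ f, Eq.trans ?_ hf⟩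
  ext k
  exact hδ _

end Pool.Agent.ZFy.ZL
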