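import Pool.Agent.Lib.MP_751085_ag.ZF.Z.Defs
import Pool.Agent.Lib.MP_751085_ag.ZC.V.Dec
import Pool.Agent.Lib.MP_751085_ag.ZC.V.Cv
import Pool.Agent.Lib.MP_751085_ag.ZC.Z.Sec1

/-! Covers over the algebraic closure are defined over a finite separable extension. -/

namespace Pool.Agent.ZFy.ZL

open Pool.Agent.ZCy
open scoped Classical WithZero Polynomial

set_option linter.unusedSectionVars false

open WithZero Polynomial

theorem sep_eval {Φ : Type} [Field Φ] {O : Subring Φ} {T : Subfield Φ} {P : O[X]}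
    (hP : ∀ i, (P.coeff i : Φ) ∈ T) {g : O} (hg : (g : Φ) ∈ T) : ((P.eval g : O) : Φ) ∈ T := by
  rw [eval_eq_sum_range]
  push_cast
  exact sum_mem fun i _ => mul_mem (hP i) (pow_mem hg i)

theorem sep_newton {Φ : Type} [Field Φ] (v : Vl Φ) (T : Subfield Φ) {P : v.integer[X]}
    (hP : ∀ i, (P.coeff i : Φ) ∈ T) {f : v.integer} (h0 : P.eval f = 0) {g₀ : Φ} (hg : g₀ ∈ T)
    (h1 : v (f - g₀) < v (P.derivative.eval f : v.integer)) (n : ℕ) : ∃ g ∈ T,
      v (f - g) < v (P.derivative.eval f : v.integer) ∧ v (f - g) ≤ exp (-(n : ℤ)) := by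
  have hδ : v (P.derivative.eval f : v.integer) ≤ 1 := (P.derivative.eval f).2
  induction n with
  | zero => exact ⟨g₀, hg, h1, h1.le.trans hδ⟩
  | succ n ih =>
    obtain ⟨g, hg, h2, h3⟩ := ih
    obtain h | h := eq_or_ne (v (f - g)) 0
    · exact ⟨g, hg, h2, h.trans_le zero_le⟩
    obtain ⟨g, rfl⟩ : ∃ y : v.integer, y = g :=
      ⟨f - ⟨f - g, h2.le.trans hδ⟩, sub_sub_cancel (f : Φ) g⟩
    obtain ⟨k, hk⟩ := P.binomExpansion g (f - g)
    obtain ⟨z, hz⟩ := P.derivative.evalSubFactor f g
    rw [add_sub_cancel, h0] at hk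
    replace hk := congrArg Subtype.val hk
    replace hz := congrArg Subtype.val hz
    push_cast at hk hz
    have h4 : v (P.derivative.eval g : v.integer) = v (P.derivative.eval f : v.integer) := by
      rw [← sub_sub_cancel (P.derivative.eval f).1 (P.derivative.eval g).1, hz]
      refine v.map_sub_eq_of_lt_left ?_
      rw [map_mul]
      exact (mul_le_of_le_one_left' z.2).trans_lt h2
    have h5 : ((P.derivative.eval g : v.integer) : Φ) ≠ 0 := fun e => by
      rw [← h4, e, map_zero] at h2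
      exact not_lt_zero h2
    have h6 : v (f - (g - (P.eval g : v.integer) / (P.derivative.eval g : v.integer))) <
        v (f - g) := by
      refine lt_of_mul_lt_mul_right (a := v (P.derivative.eval g : v.integer)) ?_ zero_le
      rw [← map_mul, show ((f : Φ) - (g - (P.eval g : v.integer) /
        (P.derivative.eval g : v.integer))) * (P.derivative.eval g : v.integer) =
        -(k * ((f - g) * (f - g))) by field_simp; linear_combination -hk,
        v.map_neg, map_mul, map_mul, h4]
      exact (mul_le_of_le_one_left' k.2).trans_lt (mul_lt_mul_of_pos_left h2 (zero_lt_iff.2 h))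
    refine ⟨_, sub_mem hg (div_mem (sep_eval hP hg) (sep_eval (fun i => ?_) hg)), h6.trans h2,
      (lt_mul_exp_iff_le exp_ne_zero).1 (h6.trans_le (h3.trans_eq ?_))⟩
    · rw [coeff_derivative]
      push_cast
      exact mul_mem (hP _) (add_mem (natCast_mem T i) (one_mem T))
    · rw [← exp_add]
      congr 1
      push_cast
      ring

variable {M : Type} [Field M]

/-- a closed subfield that contains `u` and the constants in `s` -/
structure SepT (s : Finset M) (T : Subfield (Ls M)) : Prop where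
  cl : ∀ f, (∀ n : ℕ, ∃ g ∈ T, lval M (f - g) ≤ exp (-(n : ℤ))) → f ∈ T
  u : HahnSeries.single 1 1 ∈ T
  c : ∀ a ∈ s, HahnSeries.C a ∈ T

theorem sep_all {ι : Type} (t : Finset ι) {f : ι → Ls M}
    (h : ∀ i ∈ t, ∃ s, ∀ T, SepT s T → f i ∈ T) : ∃ s, ∀ T, SepT s T → ∀ i ∈ t, f i ∈ T := by
  choose! s hs using h
  exact ⟨t.biUnion s, fun T hT i hi => hs i hi T
    ⟨hT.cl, hT.u, fun a ha => hT.c a (Finset.mem_biUnion.2 ⟨i, hi, ha⟩)⟩⟩

theorem sep_inv : (HahnSeries.single (-((1 : ℕ) : ℤ)) 1 : Ls M)⁻¹ = HahnSeries.single 1 1 :=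
  inv_eq_of_mul_eq_one_right (by
    rw [HahnSeries.single_mul_single, one_mul, Nat.cast_one, neg_add_cancel]
    rfl)

theorem sep_tL (p : M[X]) : ∃ s, ∀ T, SepT s T → tL M p ∈ T := by
  refine ⟨(Finset.range (p.natDegree + 1)).image p.coeff, fun T hT => ?_⟩
  rw [tL, tM, coe_eval₂RingHom, eval₂_eq_sum_range]
  exact sum_mem fun i hi => mul_mem (hT.c _ (Finset.mem_image_of_mem _ hi))
    (pow_mem (inv_mem_iff.1 (sep_inv (M := M) ▸ hT.u)) i)

theorem sep_root {P : (lval M).integer[X]} (hP : ∀ i, ∃ s, ∀ T, SepT s T → (P.coeff i : Ls M) ∈ T)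
    {f : (lval M).integer} (h0 : P.eval f = 0) (h1 : P.derivative.eval f ≠ 0) :
    ∃ s, ∀ T, SepT s T → (f : Ls M) ∈ T := by
  obtain ⟨s, hs⟩ := sep_all P.support fun i _ => hP i
  obtain ⟨N, hN⟩ := exists_exp_neg_natCast_lt
    ((lval M).ne_zero_iff.2 fun e => h1 (Subtype.ext e))
  refine ⟨s ∪ (Finset.range N).image fun i : ℕ => f.1.coeff i, fun T hT => hT.cl _ fun n => ?_⟩
  obtain ⟨g, h2, -, h3⟩ := sep_newton (lval M) T (fun i => by
      by_cases hi : i ∈ P.support
      · exact hs T ⟨hT.cl, hT.u, fun a ha => hT.c a (Finset.mem_union_left _ ha)⟩ i hi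
      · rw [notMem_support_iff.1 hi]
        exact zero_mem T) h0
    (g₀ := ∑ i ∈ Finset.range N, HahnSeries.C (f.1.coeff i) * HahnSeries.single 1 1 ^ i)
    (sum_mem fun i hi => mul_mem (hT.c _ (Finset.mem_union_right _
      (Finset.mem_image_of_mem _ hi))) (pow_mem hT.u i))
    (lt_of_le_of_lt ((LaurentSeries.valuation_le_iff_coeff_lt_eq_zero M).2 fun j hj => by
      simp only [HahnSeries.single_pow, HahnSeries.C_apply, HahnSeries.single_mul_single, one_pow,
        mul_one, zero_add, nsmul_one, HahnSeries.coeff_sub, HahnSeries.coeff_sum,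
        HahnSeries.coeff_single]
      obtain h | h := lt_or_ge j 0
      · rw [LaurentSeries.coeff_zero_of_lt_valuation M (D := 0) f.2 h, zero_sub, neg_eq_zero]
        exact Finset.sum_eq_zero fun i _ => if_neg (by omega)
      · lift j to ℕ using h
        simp [Int.ofNat_lt.1 hj]) hN) n
  exact ⟨g, h2, h3⟩

theorem sep_fld (K : Type) [Field K] [Algebra K M] [Algebra.IsAlgebraic K M] [IsAlgClosed M]
    (s : Finset M) : ∃ (L : IntermediateField K M) (Φ : Ls M →+* Ls M) (q : ℕ),
      FiniteDimensional K L ∧ IsGalois K L ∧ (∀ f, Φ f = f ^ q) ∧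
      SepT s ((lm (algebraMap L M)).fieldRange.comap Φ) := by
  obtain ⟨p, _⟩ := ExpChar.exists K
  have : ExpChar M p := expChar_of_injective_algebraMap (algebraMap K M).injective p
  have : ExpChar (Ls M) p :=
    expChar_of_injective_ringHom (f := (HahnSeries.C : M →+* Ls M)) (RingHom.injective _) p
  have : ExpChar (separableClosure K M) p :=
    expChar_of_injective_algebraMap (algebraMap K _).injective p
  have : IsAlgClosure K M := ⟨inferInstance, inferInstance⟩
  choose n hn using fun a : M => IsPurelyInseparable.pow_mem (separableClosure K M) p a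
  let L₀ := IntermediateField.adjoin K (↑(s.image fun a => a ^ p ^ s.sup n) : Set M)
  have : FiniteDimensional K L₀ := IntermediateField.finiteDimensional_adjoin fun x _ =>
    Algebra.IsIntegral.isIntegral x
  have h1 : L₀ ≤ separableClosure K M := IntermediateField.adjoin_le_iff.2 fun x hx => by
    obtain ⟨a, ha, rfl⟩ := Finset.mem_image.1 hx
    obtain ⟨b, hb⟩ := hn a
    obtain ⟨d, hd⟩ := Nat.exists_eq_add_of_le (Finset.le_sup (f := n) ha)
    rw [hd, pow_add, pow_mul, ← hb]
    exact pow_mem b.2 _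
  have : Algebra.IsSeparable K (IntermediateField.normalClosure K L₀ M) :=
    (le_separableClosure_iff K M _).1 (normalClosure_le_iff.2 fun f => by
      rintro _ ⟨x, rfl⟩
      exact IsSeparable.map f f.injective
        (((le_separableClosure_iff K M _).1 h1).isSeparable' x))
  refine ⟨IntermediateField.normalClosure K L₀ M, iterateFrobenius _ p (s.sup n), p ^ s.sup n,
    inferInstance, {}, fun _ => rfl, fun f h => (mem_lm_range (RingHom.injective _) _).2 fun j => ?_,
    (pow_mem (RingHom.mem_fieldRange.2 ⟨HahnSeries.single 1 1, ?_⟩) _ :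
      _ ^ _ ∈ RingHom.fieldRange _), fun a ha =>
      ⟨HahnSeries.C ⟨a ^ p ^ s.sup n, L₀.le_normalClosure (IntermediateField.subset_adjoin _ _
        (Finset.mem_image_of_mem _ ha))⟩, ?_⟩⟩
  · obtain ⟨g, hg, h2⟩ := h (j.toNat + 1)
    have h3 : lval M (iterateFrobenius _ p (s.sup n) f - iterateFrobenius _ p (s.sup n) g) ≤
        exp (-((j.toNat + 1 : ℕ) : ℤ)) := by
      rw [← map_sub, iterateFrobenius_def, map_pow]
      exact (pow_le_of_le_one zero_le (h2.trans (by rw [← exp_zero, exp_le_exp]; omega))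
        (pow_ne_zero _ (expChar_ne_zero K p))).trans h2
    exact (LaurentSeries.eq_coeff_of_valuation_sub_lt M (n := j) h3 (by omega)).symm ▸
      (mem_lm_range (RingHom.injective _) _).1 hg j
  · ext j
    simp only [lm_coeff, HahnSeries.coeff_single]
    split_ifs <;> rfl
  · rw [iterateFrobenius_def, ← map_pow]
    ext j
    simp only [lm_coeff, HahnSeries.C_apply, HahnSeries.coeff_single]
    split_ifs <;> rfl

theorem exists_dfd_sep {M F E : Type} (K : Type) [Field K] [Field M] [Field F] [Field E]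
    [Algebra K M] [Algebra.IsAlgebraic K M] [IsAlgClosed M] [Algebra M[X] F] [IsFractionRing M[X] F]
    [Algebra F E] [FiniteDimensional F E] [IsGalois F E] (ι : E →+* Ls M)
    (hι : ∀ p, ι (toF M[X] F E p) = tL M p) : ∃ L : IntermediateField K M,
      FiniteDimensional K L ∧ IsGalois K L ∧ Dfd F (algebraMap L M) ι := by
  have h1 : ∀ c : F, ∃ s, ∀ T, SepT s T → ι (algebraMap F E c) ∈ T := fun c => by
    obtain ⟨a, b, -, rfl⟩ := IsFractionRing.div_surjective M[X] c
    obtain ⟨s, hs⟩ := sep_all {a, b} fun p _ => sep_tL p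
    refine ⟨s, fun T hT => ?_⟩
    rw [map_div₀, map_div₀]
    exact div_mem ((hι a).symm ▸ hs T hT a (by simp)) ((hι b).symm ▸ hs T hT b (by simp))
  let b := IsGalois.normalBasis F E
  let u := (algebraMap F E (algebraMap M[X] F X))⁻¹
  have hu : ι u = HahnSeries.single 1 1 := by
    rw [map_inv₀, ← sep_inv]
    exact congrArg _ ((hι X).trans (eval₂_X _ _))
  have hv : lval M (ι u) = exp (-1) := hu ▸ lval_single M 1
  have hu0 : u ≠ 0 := fun e => by
    rw [e, map_zero, map_zero] at hv
    exact exp_ne_zero hv.symm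
  obtain ⟨k, hk⟩ : ∃ k : ℕ, ∀ g, lval M (ι (b g * u ^ k)) ≤ 1 := by
    refine ⟨Finset.univ.sup fun g => (log (lval M (ι (b g)))).toNat, fun g => ?_⟩
    have h2 := Finset.le_sup (f := fun g => (log (lval M (ι (b g)))).toNat) (Finset.mem_univ g)
    rw [map_mul, map_mul, map_pow, map_pow, hv, ← exp_nsmul]
    refine (mul_le_mul_left le_exp_log _).trans ?_
    rw [← exp_add, ← exp_zero, exp_le_exp, nsmul_eq_mul]
    omega
  have h2 : ∀ g : E ≃ₐ[F] E, g (b 1 * u ^ k) = b g * u ^ k := fun g => by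
    rw [map_mul, map_pow, map_inv₀, g.commutes, ← IsGalois.normalBasis_apply]
  have h3 : ∀ g g', ι (b g * u ^ k) = ι (b g' * u ^ k) → g = g' := fun g g' e =>
    b.injective (mul_right_cancel₀ (pow_ne_zero k hu0) (ι.injective e))
  let x : (E ≃ₐ[F] E) → (lval M).integer := fun g => ⟨_, hk g⟩
  obtain ⟨s, hs⟩ := sep_all Finset.univ fun g _ => sep_root (P := Lagrange.nodal Finset.univ x)
    (f := x g) (fun i => by
      obtain ⟨c, hc⟩ := (IsGalois.mem_range_algebraMap_iff_fixed (F := F) _).2
        (MulSemiringAction.smul_coeff_charpoly (b 1 * u ^ k) i)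
      have h4 : (Lagrange.nodal Finset.univ x).map (lval M).integer.subtype =
          (MulSemiringAction.charpoly (E ≃ₐ[F] E) (b 1 * u ^ k)).map ι := by
        simp only [Lagrange.nodal_eq, MulSemiringAction.charpoly_eq, Polynomial.map_prod,
          Polynomial.map_sub, map_X, map_C, AlgEquiv.smul_def, h2]
        rfl
      have h5 := congrArg (·.coeff i) h4
      simp only [coeff_map, ← hc] at h5
      exact (show ((Lagrange.nodal Finset.univ x).coeff i).1 = _ from h5) ▸ h1 c)
    (Lagrange.eval_nodal_at_node (Finset.mem_univ g)) (by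
      rw [Lagrange.eval_nodal_derivative_eval_node_eq (Finset.mem_univ g)]
      exact Lagrange.eval_nodal_not_at_node fun g' hg e =>
        (Finset.mem_erase.1 hg).1 (h3 _ _ (congrArg Subtype.val e)).symm)
  obtain ⟨L, Φ, q, h4, h5, h6, h7⟩ := sep_fld K s
  refine ⟨L, h4, h5, Finset.univ.image fun g => (b g * u ^ k) ^ q, fun g z hz => ?_,
    fun g hg => ?_, fun z hz => ?_⟩
  · obtain ⟨g', -, rfl⟩ := Finset.mem_image.1 hz
    exact Finset.mem_image.2 ⟨g * g', Finset.mem_univ _, by rw [← h2 g', ← h2, map_pow g]; rfl⟩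
  · have h8 := congrArg ι (hg _ (Finset.mem_image_of_mem _ (Finset.mem_univ 1)))
    rw [map_pow g, h2, map_pow, map_pow, ← h6, ← h6] at h8
    exact h3 _ _ (Φ.injective h8)
  · obtain ⟨g, -, rfl⟩ := Finset.mem_image.1 hz
    rw [map_pow, ← h6]
    exact hs _ h7 g (Finset.mem_univ g)

end Pool.Agent.ZFy.ZL
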