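import Pool.Agent.Lib.MP_751085_ag.ZF.Z.Dkk
import Pool.Agent.Lib.MP_751085_ag.ZF.Z.Sep
import Pool.Agent.Lib.MP_751085_ag.ZF.Z.Mdl
import Pool.Agent.Lib.MP_751085_ag.ZF.Z.Bc2

/-! Descent to a finite separable extension inside `KK`. -/

namespace Pool.Agent.ZFy.ZL

open Pool.Agent.ZCy
open scoped Classical WithZero Polynomial

set_option linter.unusedSectionVars false

variable {K KK F E : Type} [Field K] [Field KK] [Field F] [Field E] [Algebra K KK]
  [Algebra KK[X] F] [IsFractionRing KK[X] F] [Algebra F E] [FiniteDimensional F E] [IsGalois F E]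
  {ι : E →+* Ls KK}

theorem dsck_mono {F N : Type} [Field F] [Field N] [Algebra F N] {l : ℕ} {S S' : Set N}
    (h : LXt l F S) (hS : S ⊆ S') : LXt l F S' :=
  IsPGroup.to_le h fun _ hg x hx => hg x (hS hx)

theorem dsc_kk (hD : DSC) {l : ℕ} (hl : l.Prime) (h0 : (l : K) ≠ 0) {Th : K[X]} (hm : Th.Monic)
    (hι : ∀ p, ι (toF KK[X] F E p) = tL KK p)
    (hu : UnrOff F (toF KK[X] F E) (Th.map (algebraMap K KK)))
    (hx : LXt l F {z : E | ∀ i, IsAlgebraic K ((ι z).coeff i)}) :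
    ∃ L₀ : IntermediateField K KK, FiniteDimensional K L₀ ∧ Algebra.IsSeparable K L₀ ∧
      Dfd F (algebraMap L₀ KK) ι := by
  let M := AlgebraicClosure KK
  let M₀ := algebraicClosure K M
  have : IsAlgClosed M₀ := IsAlgClosure.isAlgClosed K
  obtain ⟨E', _, _, _, _, ⟨b⟩⟩ := exists_bcd (dg F ι hι) (algebraMap KK M) (Fr M[X])
  have h1 := b.unr ((gu_iff _ (dg_φ ι hι).symm).2 hu)
  rw [Polynomial.map_map, ← IsScalarTower.algebraMap_eq, IsScalarTower.algebraMap_eq K M₀ M,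
    ← Polynomial.map_map] at h1
  have h2 := hD M₀ M _ E' (algebraMap M₀ M) b.ι _ l hl
    (by rw [← map_natCast (algebraMap K M₀)]; exact (map_ne_zero _).2 h0) (hm.map _) b.hι h1
    (dsck_mono (b.lxt_iff.2 (dsck_mono hx Set.subset_union_left)) (by
      rintro _ ⟨z, hz, rfl⟩
      refine (mem_lm_range (algebraMap M₀ M).injective _).2 fun j => ?_
      rw [b.hj, lm_coeff]
      exact ⟨⟨_, mem_algebraicClosure_iff.2 (hz j).algebraMap⟩, rfl⟩))
  obtain ⟨E₀, _, _, _, _, ι₀, hι₀, b₀, hb⟩ := exists_bc_of_dfd (Fr M₀[X]) b.hι h2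
  obtain ⟨L, _, _, h3⟩ := exists_dfd_sep K ι₀ hι₀
  refine dkk b _ (fun a => ?_) (hb ▸ b₀.dfd _ h3)
  rw [RingHom.comp_apply, ← IsScalarTower.algebraMap_apply, ← IsScalarTower.algebraMap_apply,
    ← IsScalarTower.algebraMap_apply]

end Pool.Agent.ZFy.ZL
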