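import Pool.Agent.Lib.MP_751085_ag.ZF.Z.Defs
import Pool.Agent.Lib.MP_751085_ag.ZC.V.Gal
import Pool.Agent.Lib.MP_751085_ag.ZC.V.Red

/-! Finite Galois extensions and the Frobenius. -/

namespace Pool.Agent.ZFy.ZL

open Pool.Agent.ZCy
open scoped Classical WithZero Polynomial

set_option linter.unusedSectionVars false

theorem frb_pow {k A : Type} [Field k] [CommRing A] (c : k →+* A) (r : ℕ) :
    Frb (ringExpChar k ^ r) A := fun S _ f => by
  rcases subsingleton_or_nontrivial S with _ | _
  · exact ⟨RingHom.id S, fun _ => Subsingleton.elim _ _⟩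
  · have := expChar_of_injective_ringHom (f.comp c).injective (ringExpChar k)
    exact ⟨iterateFrobenius S (ringExpChar k) r, fun _ => rfl⟩

theorem cop_pow {k : Type} [Field k] {l : ℕ} (hl : l.Prime) (h : (l : k) ≠ 0) (r : ℕ) :
    (ringExpChar k ^ r).Coprime l := by
  obtain ⟨q, hq⟩ := ExpChar.exists k
  rw [ringExpChar.eq k q]
  refine Nat.Coprime.pow_left r ?_
  rcases hq with _ | hp
  · exact Nat.coprime_one_left l
  · exact (Nat.coprime_primes hp hl).2 fun e => h (e ▸ CharP.cast_eq_zero k q)

theorem pow_inj {k Ω : Type} [Field k] [Field Ω] (f : k →+* Ω) (r : ℕ) {x y : Ω}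
    (h : x ^ ringExpChar k ^ r = y ^ ringExpChar k ^ r) : x = y := by
  have := expChar_of_injective_ringHom f.injective (ringExpChar k)
  exact (iterateFrobenius Ω (ringExpChar k) r).injective h

variable (K : Type) [Field K]

theorem exists_gal_sup (N N' : Type) [Field N] [Field N'] [Algebra K N] [Algebra K N']
    [FiniteDimensional K N] [Algebra.IsSeparable K N] [FiniteDimensional K N']
    [Algebra.IsSeparable K N'] : ∃ (L : Type) (_ : Field L) (_ : Algebra K L)
      (_ : FiniteDimensional K L) (_ : IsGalois K L),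
      Nonempty (N →ₐ[K] L) ∧ Nonempty (N' →ₐ[K] L) := by
  let e : N →ₐ[K] SeparableClosure K := IsSepClosed.lift
  let e' : N' →ₐ[K] SeparableClosure K := IsSepClosed.lift
  have : FiniteDimensional K e.fieldRange := e.toLinearMap.finiteDimensional_range
  have : FiniteDimensional K e'.fieldRange := e'.toLinearMap.finiteDimensional_range
  have h := IntermediateField.le_normalClosure (e.fieldRange ⊔ e'.fieldRange)
  exact ⟨IntermediateField.normalClosure K (e.fieldRange ⊔ e'.fieldRange :) (SeparableClosure K),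
    inferInstance, inferInstance, inferInstance, inferInstance,
    ⟨e.codRestrict (IntermediateField.toSubalgebra _) fun x => le_sup_left.trans h ⟨x, rfl⟩⟩,
    ⟨e'.codRestrict (IntermediateField.toSubalgebra _) fun x => le_sup_right.trans h ⟨x, rfl⟩⟩⟩

/-- a power of the Frobenius maps a finite extension into a Galois extension -/
theorem exists_frob (K'' : Type) [Field K''] [Algebra K K''] [FiniteDimensional K K''] :
    ∃ (L : Type) (_ : Field L) (_ : Algebra K L) (_ : FiniteDimensional K L) (_ : IsGalois K L)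
      (r : ℕ) (θ : K'' →+* L),
      ∀ a, θ (algebraMap K K'' a) = algebraMap K L a ^ ringExpChar K ^ r := by
  obtain ⟨L, _, _, _, _, _, _, -⟩ := exists_gc K (separableClosure K K'')
  have := expChar_of_injective_algebraMap (algebraMap K (separableClosure K K'')).injective
    (ringExpChar K)
  refine ⟨L, inferInstance, inferInstance, inferInstance, inferInstance,
    IsPurelyInseparable.exponent (separableClosure K K'') K'', (algebraMap (separableClosure K K'') L).comp (IsPurelyInseparable.iterateFrobenius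
      (separableClosure K K'') K'' (ringExpChar K) le_rfl), fun a => ?_⟩
  rw [IsScalarTower.algebraMap_apply K (separableClosure K K'') K'', RingHom.comp_apply,
    IsPurelyInseparable.iterateFrobenius_algebraMap, map_pow, ← IsScalarTower.algebraMap_apply]

theorem exists_zeta {l : ℕ} (h : (l : K) ≠ 0) :
    ∃ (L : Type) (_ : Field L) (_ : Algebra K L) (_ : FiniteDimensional K L) (_ : IsGalois K L)
      (ζ : L), IsPrimitiveRoot ζ l := by
  have : NeZero (l : K) := ⟨h⟩
  have : NeZero l := .of_neZero_natCast K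
  exact ⟨CyclotomicField l K, inferInstance, inferInstance,
    IsCyclotomicExtension.finiteDimensional {l} K _, IsCyclotomicExtension.isGalois {l} K _, _,
    IsCyclotomicExtension.zeta_spec l K _⟩

variable {K}

/-- the roots of `μ` are purely inseparable over a finite Galois extension -/
theorem exists_gal_root {μ : K[X]} (h : μ ≠ 0) :
    ∃ (L : Type) (_ : Field L) (_ : Algebra K L) (_ : FiniteDimensional K L) (_ : IsGalois K L),
      ∀ (Ω : Type) [Field Ω] (e : L →+* Ω) (s : Ω →+* Ω) (a : Ω), (∀ b, s (e b) = e b) →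
        μ.eval₂ (e.comp (algebraMap K L)) a = 0 → s a = a := by
  induction μ using WfDvdMonoid.induction_on_irreducible with
  | zero => exact absurd rfl h
  | unit u hu =>
    exact ⟨K, inferInstance, inferInstance, inferInstance, inferInstance, fun Ω _ e s a _ h0 =>
      absurd h0 (hu.map (Polynomial.eval₂RingHom _ a)).ne_zero⟩
  | mul μ P h1 hP ih =>
    obtain ⟨L₁, _, _, _, _, H⟩ := ih h1
    obtain ⟨g, hg, m, rfl⟩ := hP.hasSeparableContraction (ringExpChar K)
    have := IsGalois.of_separable_splitting_field (E := g.SplittingField) hg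
    obtain ⟨L, _, _, _, _, ⟨i⟩, ⟨i'⟩⟩ := exists_gal_sup K L₁ g.SplittingField
    refine ⟨L, inferInstance, inferInstance, inferInstance, inferInstance,
      fun Ω _ e s a hs h0 => ?_⟩
    rw [Polynomial.eval₂_mul, mul_eq_zero] at h0
    rcases h0 with h0 | h0
    · obtain ⟨b, hb⟩ := (Polynomial.SplittingField.splits g).mem_range_of_isRoot
        (Polynomial.map_ne_zero hg.ne_zero) (i := e.comp (i' : g.SplittingField →+* L))
        (x := a ^ ringExpChar K ^ m) (by
          rw [Polynomial.IsRoot, Polynomial.map_map, Polynomial.eval_map, RingHom.comp_assoc,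
            i'.comp_algebraMap, ← Polynomial.eval_map, ← Polynomial.expand_eval,
            ← Polynomial.map_expand, Polynomial.eval_map]
          exact h0)
      refine pow_inj (e.comp (algebraMap K L)) m ?_
      rw [← map_pow, ← hb]
      exact hs _
    · exact H Ω (e.comp (i : L₁ →+* L)) s a (fun b => hs _)
        (by rwa [RingHom.comp_assoc, i.comp_algebraMap])

/-- a power of the Frobenius makes the roots of `μ` separable -/
theorem exists_pow_sep {μ : K[X]} (h : μ ≠ 0) : ∃ r : ℕ, ∀ (Ω : Type) [Field Ω] [Algebra K Ω]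
    (a : Ω), Polynomial.aeval a μ = 0 → IsSeparable K (a ^ ringExpChar K ^ r) := by
  induction μ using WfDvdMonoid.induction_on_irreducible with
  | zero => exact absurd rfl h
  | unit u hu => exact ⟨0, fun Ω _ _ a h0 => absurd h0 (hu.map (Polynomial.aeval a)).ne_zero⟩
  | mul μ P h1 hP ih =>
    obtain ⟨r, H⟩ := ih h1
    obtain ⟨g, hg, m, rfl⟩ := hP.hasSeparableContraction (ringExpChar K)
    refine ⟨m + r, fun Ω _ _ a h0 => mem_separableClosure_iff.1 ?_⟩
    rw [map_mul, mul_eq_zero, Polynomial.expand_aeval] at h0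
    rcases h0 with h0 | h0
    · rw [pow_add, pow_mul]
      exact pow_mem (mem_separableClosure_iff.2 (hg.of_dvd (minpoly.dvd K _ h0))) _
    · rw [pow_add, mul_comm, pow_mul]
      exact pow_mem (mem_separableClosure_iff.2 (H Ω a h0)) _

/-- extension of embeddings into an algebraically closed field -/
theorem exists_ext {B Ω Ω' : Type} [Field B] [Field Ω] [Field Ω'] [IsAlgClosed Ω'] (f : B →+* Ω)
    (hf : ∀ x, f.IsIntegralElem x) (f' : B →+* Ω') : ∃ s : Ω →+* Ω', ∀ b, s (f b) = f' b := by
  let := f.toAlgebra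
  have : Algebra.IsIntegral B Ω := ⟨hf⟩
  exact exists_emb (E := Ω) f'

/-- an endomorphism of an algebraic extension is an automorphism -/
theorem exists_equiv {B Ω : Type} [Field B] [Field Ω] (f : B →+* Ω) (hf : ∀ x, f.IsIntegralElem x)
    (s : Ω →+* Ω) (hs : ∀ b, s (f b) = f b) : ∃ e : Ω ≃+* Ω, ∀ x, e x = s x := by
  let := f.toAlgebra
  have : Algebra.IsIntegral B Ω := ⟨hf⟩
  exact ⟨RingEquiv.ofBijective s (Algebra.IsAlgebraic.algHom_bijective
    ({ s with commutes' := hs } : Ω →ₐ[B] Ω)), fun _ => rfl⟩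

/-- two residue maps differ by an embedding -/
theorem exists_red_ext {N Ω Ω' : Type} [Field N] [Field Ω] [Field Ω'] [IsAlgClosed Ω'] {W : Vl N}
    {ρ : W.integer →+* Ω} {ρ' : W.integer →+* Ω'} (hρ : IsRed W ρ) (hρ' : IsRed W ρ')
    (h : ∀ x, ρ.IsIntegralElem x) : ∃ s : Ω →+* Ω', ∀ x, s (ρ x) = ρ' x := by
  obtain ⟨κ, _, ρ₀, h0, h1⟩ := exists_resf W
  obtain ⟨i, hi⟩ := h0.factor h1 hρ
  obtain ⟨i', hi'⟩ := h0.factor h1 hρ'
  obtain ⟨s, hs⟩ := exists_ext i (fun x => by
    obtain ⟨P, hm, hP⟩ := h x
    exact ⟨P.map ρ₀, hm.map _, by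
      rwa [Polynomial.eval₂_map, show i.comp ρ₀ = ρ from RingHom.ext hi]⟩) i'
  exact ⟨s, fun x => by rw [← hi, hs, hi']⟩

end Pool.Agent.ZFy.ZL
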