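import Pool.Agent.Lib.MP_751085_ag.ZF.Z.Defs
import Pool.Agent.Lib.MP_751085_ag.ZC.V.Tam
import Pool.Agent.Lib.MP_751085_ag.ZC.V.IntB
import Pool.Agent.Lib.MP_751085_ag.ZC.Z.Cen

/-! Small facts on inertia groups. -/

namespace Pool.Agent.ZFy.ZL

open Pool.Agent.ZCy
open scoped Classical WithZero Polynomial

set_option linter.unusedSectionVars false

theorem mem_fixS {F N : Type} [Field F] [Field N] [Algebra F N] {S : Set N} {g : N ≃ₐ[F] N} :
    g ∈ fixS F S ↔ ∀ x ∈ S, g x = x := Iff.rfl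

theorem mem_fixS_union {F N B B' : Type} [Field F] [Field N] [Algebra F N] {f : B → N}
    {f' : B' → N} {g : N ≃ₐ[F] N} : g ∈ fixS F (Set.range f ∪ Set.range f') ↔
      (∀ x, g (f x) = f x) ∧ ∀ x, g (f' x) = f' x :=
  ⟨fun h => ⟨fun x => h _ (Or.inl ⟨x, rfl⟩), fun x => h _ (Or.inr ⟨x, rfl⟩)⟩, fun h => by
    rintro _ (⟨x, rfl⟩ | ⟨x, rfl⟩)
    exacts [h.1 x, h.2 x]⟩

theorem mem_fixS_range {F N B : Type} [Field F] [Field N] [Algebra F N] {f : B → N}
    {g : N ≃ₐ[F] N} : g ∈ fixS F (Set.range f) ↔ ∀ x, g (f x) = f x :=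
  Set.forall_mem_range

theorem LXt.mono' {l : ℕ} {F N : Type} [Field F] [Field N] [Algebra F N] {S S' : Set N}
    (h : LXt l F S) (hS : ∀ g ∈ fixS F S', g ∈ fixS F S) : LXt l F S' :=
  IsPGroup.to_le h hS

theorem lxt_iff {l : ℕ} {F N : Type} [Field F] [Field N] [Algebra F N] {S : Set N} :
    LXt l F S ↔ ∀ g ∈ fixS F S, ∃ n : ℕ, g ^ l ^ n = 1 :=
  ⟨fun h g hg => (h ⟨g, hg⟩).imp fun _ e => congrArg Subtype.val e,
    fun h g => (h g g.2).imp fun _ e => Subtype.ext e⟩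

theorem ring_factor {A B C : Type} [CommRing A] [CommRing B] [CommRing C] (f : A →+* C)
    (i : B →+* C) (hi : Function.Injective i) (h : ∀ z, f z ∈ i.range) :
    ∃ f' : A →+* B, ∀ z, i (f' z) = f z := by
  choose J hJ using fun x => RingHom.mem_range.1 (h x)
  exact ⟨⟨⟨⟨J, hi (by simp [hJ])⟩, fun a b => hi (by simp [hJ])⟩, hi (by simp [hJ]),
    fun a b => hi (by simp [hJ])⟩, hJ⟩

theorem misc1_int {A B C : Type} [CommRing A] [CommRing B] [CommRing C] {φ : A →+* B} {x : B}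
    (hx : φ.IsIntegralElem x) (e : B →+* C) : (e.comp φ).IsIntegralElem (e x) := by
  obtain ⟨p, hp, h⟩ := hx
  exact ⟨p, hp, by rw [← Polynomial.hom_eval₂, h, map_zero]⟩

/-- an inertia element of `l`-power order is trivial if the index is prime to `l` -/
theorem unrl {K E : Type} [Field K] [Field E] [Algebra K E] [FiniteDimensional K E] {w : Vl E}
    {g : E ≃ₐ[K] E} (hg : g ∈ Ine K w) {l n m : ℕ} (hl : w (l : E) = 1) (hn : g ^ l ^ n = 1)
    (hm : m.Coprime l) (h : ∀ x, x ≠ 0 → ∃ a, g a = a ∧ w x ^ m = w a) : g = 1 := by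
  refine eq_one_of_graded (w := w) (vtam_dvd (orderOf_dvd_of_pow_eq_one hn)
    (by rw [Nat.cast_pow, map_pow, hl, one_pow])) fun x hx => vtam_lt hx ?_
  have hw := w.ne_zero_iff.2 hx
  have h0 : g x ≠ 0 := (map_ne_zero g).2 hx
  obtain ⟨a, ha, e⟩ := h x hx
  have a0 : a ≠ 0 := w.ne_zero_iff.1 (e ▸ pow_ne_zero m hw)
  have h1 := vtam_unit hg (u := x ^ m / a)
    (by rw [map_div₀, map_pow, e, div_self (w.ne_zero_iff.2 a0)])
  rw [map_div₀, ha, div_div_div_cancel_right₀ a0, map_pow, ← div_pow] at h1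
  have h2 : ∀ i : ℕ, w ((g ^ i) x / x / (g x / x) ^ i - 1) < 1 := fun i => by
    induction i with
    | zero => simp [hx]
    | succ i ih =>
      have h3 : (g ^ i) x ≠ 0 := (map_ne_zero _).2 hx
      have h4 := vtam_mul ih (vtam_unit hg (u := (g ^ i) x / x)
        (by rw [map_div₀, pow_mem hg.1 i x, div_self hw]))
      have h5 : (g ^ i) x / x / (g x / x) ^ i * (g ((g ^ i) x / x) / ((g ^ i) x / x)) =
          (g ^ (i + 1)) x / x / (g x / x) ^ (i + 1) := by
        rw [pow_succ' g, AlgEquiv.mul_apply, map_div₀, pow_succ]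
        field_simp
      rwa [h5] at h4
  have h3 := h2 (l ^ n)
  rw [hn, AlgEquiv.one_apply, div_self hx, one_div] at h3
  have h4 := vtam_mul (vtam_zpow h1 (Nat.gcdA m (l ^ n))) (vtam_zpow h3 (-Nat.gcdB m (l ^ n)))
  rwa [inv_zpow', neg_neg, ← zpow_natCast, ← zpow_natCast, ← zpow_mul, ← zpow_mul,
    ← zpow_add₀ (div_ne_zero h0 hx), ← Nat.gcd_eq_gcd_ab, hm.pow_right n, Nat.cast_one,
    zpow_one] at h4

/-- inertia fixes the elements that are integral over a field of constants -/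
theorem ine_fix_int {k F N : Type} [Field k] [Field F] [Field N] [Algebra F N] {w : Vl N}
    {g : N ≃ₐ[F] N} (hg : g ∈ Ine F w) (φ : k →+* N) (hφ : ∀ a, g (φ a) = φ a)
    (hw : ∀ a, w (φ a) ≤ 1) {x : N} (hx : φ.IsIntegralElem x) : g x = x := by
  by_contra hne
  have h1 := misc1_int hx (g : N →+* N)
  rw [show (g : N →+* N).comp φ = φ from RingHom.ext hφ] at h1
  exact (hg.2 x (le_one_of_integral hw hx)).ne
    (triv_of_algebraic hw (h1.sub φ hx) (sub_ne_zero.2 hne))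

theorem val_nat {k N : Type} [Field k] [Field N] {w : Vl N} (φ : k →+* N) (hw : ∀ a, w (φ a) ≤ 1)
    {l : ℕ} (hl : (l : k) ≠ 0) : w (l : N) = 1 := by
  rw [← map_natCast φ]
  exact triv_of_algebraic hw φ.isIntegralElem_map ((map_ne_zero φ).2 hl)

section

variable {k A K K₁ : Type} [Field k] [CommRing A] [Field K] [Field K₁] [Algebra A K] [Algebra K K₁]
  {c : k →+* A}

theorem gen_ext (h : IntermediateField.adjoin K (Cst K c K₁) = ⊤) {N : Type} [Field N]
    (e e' : K₁ →+* N) (h1 : ∀ a : K, e (algebraMap K K₁ a) = e' (algebraMap K K₁ a))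
    (h2 : ∀ x ∈ Cst K c K₁, e x = e' x) (x : K₁) : e x = e' x := by
  have hx : x ∈ IntermediateField.adjoin K (Cst K c K₁) := h ▸ IntermediateField.mem_top
  induction hx using IntermediateField.adjoin_induction with
  | mem x hx => exact h2 x hx
  | algebraMap a => exact h1 a
  | add x y _ _ hx hy => rw [map_add, map_add, hx, hy]
  | inv x _ hx => rw [map_inv₀, map_inv₀, hx]
  | mul x y _ _ hx hy => rw [map_mul, map_mul, hx, hy]

theorem ine_of_gen (h : IntermediateField.adjoin K (Cst K c K₁) = ⊤) {w : Vl K₁}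
    (hw : ∀ a, w (toF A K K₁ a) ≤ 1) : Ine K w = ⊥ :=
  eq_bot_iff.2 fun g hg => AlgEquiv.ext (gen_ext h (g : K₁ →+* K₁) (RingHom.id K₁) g.commutes
    fun _ hx => ine_fix_int hg ((toF A K K₁).comp c) (fun _ => g.commutes _) (fun _ => hw _) hx)

/-- inertia fixes an extension of the constants -/
theorem ine_fix_gen (h : IntermediateField.adjoin K (Cst K c K₁) = ⊤) {F N : Type} [Field F]
    [Field N] [Algebra F N] {w : Vl N} {g : N ≃ₐ[F] N} (hg : g ∈ Ine F w) (e : K₁ →+* N)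
    (he : ∀ a : K, g (e (algebraMap K K₁ a)) = e (algebraMap K K₁ a))
    (hw : ∀ a, w (e (toF A K K₁ (c a))) ≤ 1) (x : K₁) : g (e x) = e x :=
  gen_ext h ((g : N →+* N).comp e) e he (fun _ hx =>
    ine_fix_int hg (e.comp ((toF A K K₁).comp c)) (fun _ => he _) hw (misc1_int hx e)) x

end

theorem sep_fix {A K F T N : Type} [CommRing A] [Field K] [Field F] [Field T] [Field N]
    [Algebra A K] [Algebra K[X] F] [Algebra F T] [FiniteDimensional F T] [IsGalois F T] {Δ : A}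
    (h : SepOK K T F Δ) (j : T →+* N) {W : Vl N} (g : N →+* N)
    (hg : ∀ a : F, g (j (algebraMap F T a)) = j (algebraMap F T a))
    (hi : ∀ x, W x ≤ 1 → W (g x - x) < 1) {P : A} (hP : ¬P ∣ Δ)
    (hc : Cen (j.comp (pA A K F T)) W (Polynomial.C P)) (x : T) : g (j x) = j x := by
  obtain ⟨g₀, h0⟩ := exists_restrict j g hg
  rcases eq_or_ne g₀ 1 with rfl | hne
  · exact (h0 x).symm
  obtain ⟨θ, z, p, i, h1, h2, h3, h4⟩ := h g₀ hne
  refine absurd (((Polynomial.C_dvd_iff_dvd_coeff P p).1 ((hc.2 p).1 ?_) i).trans h4) hP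
  rw [RingHom.comp_apply, ← h3, map_mul, map_mul, map_sub, h0]
  exact (mul_le_of_le_one_right' (le_one_of_integral hc.1 (misc1_int h2 j))).trans_lt
    (hi _ (le_one_of_integral hc.1 (misc1_int h1 j)))

end Pool.Agent.ZFy.ZL
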