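import Pool.Agent.Lib.MP_751085_ag.ZF.Z.Red
import Pool.Agent.Lib.MP_751085_ag.ZF.Z.Misc1
import Pool.Agent.Lib.MP_751085_ag.ZF.Z.GalX
import Pool.Agent.Lib.MP_751085_ag.ZC.V.Hns

/-! The local model along the hyperplane. -/

namespace Pool.Agent.ZFy.ZL

open Pool.Agent.ZCy
open scoped Classical WithZero Polynomial

set_option linter.unusedSectionVars false

variable {l q : ℕ} {k A K F T N₁ : Type} [Field k] [CommRing A] [IsDomain A]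
  [UniqueFactorizationMonoid A] [Field K] [Field F] [Field T] [Field N₁] [Algebra A K]
  [IsFractionRing A K] [Algebra K[X] F] [IsFractionRing K[X] F] [Algebra F T]
  [FiniteDimensional F T] [IsGalois F T] [Algebra K N₁] [FiniteDimensional K N₁] [IsGalois K N₁]
  {c : k →+* A} {Th : A[X]} {Δ : A} {τ : T →+* Ls N₁}
variable {K₁ κ₀ κ₁ : Type} [Field K₁] [Field κ₀] [Field κ₁] [Algebra K K₁] [FiniteDimensional K K₁]
  [IsGalois K K₁] [Algebra κ₀ κ₁] [FiniteDimensional κ₀ κ₁] [IsGalois κ₀ κ₁]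
  {H : Hy K c K₁ κ₀ κ₁}

theorem loce_lm {R L M : Type} [CommRing R] [Field L] [Field M] (f : L →+* M) (ι : R →+* L)
    (g : Ps R) : lm f (lau ι g) = lid M (PowerSeries.map (f.comp ι) g) := by
  ext n
  change f ((PowerSeries.map ι g : Ls L).coeff n) =
    (PowerSeries.map (RingHom.id M) (PowerSeries.map (f.comp ι) g) : Ls M).coeff n
  rw [PowerSeries.coeff_coe, PowerSeries.coeff_coe]
  split_ifs <;> simp

theorem loce_le {L M : Type} [Field L] [Field M] (f : L →+* M) {x : Ls L}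
    (h : lval M (lm f x) ≤ 1) : lval L x ≤ 1 :=
  (LaurentSeries.valuation_le_iff_coeff_lt_eq_zero L (D := 0)).2 fun n hn => (map_eq_zero f).1
    ((LaurentSeries.valuation_le_iff_coeff_lt_eq_zero M (D := 0)).1 h n hn)

theorem loce_cen {M : Type} [Field M] (H : Hy K c K₁ κ₀ κ₁) {η : A →+* Ps M} {f : κ₀ → M}
    (hf : ∀ b, f b = 0 ↔ b = 0) (h : ∀ a, cc M (η a) = f (H.h a)) :
    Cen ((lid M).comp η) (lval M) H.y :=
  ⟨fun _ => (isVR_lval M).le_one _, fun a => (cc_eq_zero _).symm.trans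
    (h a ▸ (hf _).trans (H.ker a))⟩

theorem exists_loc (C : Crt K F l q c Th Δ τ) (H : Hy K c K₁ κ₀ κ₁) (hy : ¬H.y ∣ Δ) :
    ∃ (κ : Type) (_ : Field κ) (_ : IsAlgClosed κ), Nonempty (Loc H T N₁ F l q Th κ) := by
  obtain ⟨κ, _, _, f, hf⟩ : ∃ (κ : Type) (_ : Field κ) (_ : IsAlgClosed κ) (f : κ₁ →+* κ),
      ∀ x, (f.comp (algebraMap κ₀ κ₁)).IsIntegralElem x :=
    ⟨AlgebraicClosure κ₁, _, inferInstance, algebraMap _ _, fun x =>
      isIntegral_trans (R := κ₀) x (Algebra.IsIntegral.isIntegral (R := κ₁) x)⟩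
  obtain ⟨η, hη⟩ : ∃ η, η = (PowerSeries.map (f.comp (algebraMap κ₀ κ₁))).comp H.η := ⟨_, rfl⟩
  have h1 : ∀ a, lm f (H.γ (toF A K K₁ a)) = lid κ (η a) := fun a => by
    rw [H.hγ, loce_lm, hη, RingHom.comp_apply]
  have h2 : ∀ a, cc κ (η a) = f (algebraMap κ₀ κ₁ (H.h a)) := fun a => hη ▸ rfl
  have h3 := loce_cen H (f := fun b => f (algebraMap κ₀ κ₁ b)) (by simp) h2
  obtain ⟨w, hw⟩ := exists_cen (K := K) (E := N₁) H.prime
  obtain ⟨j, hj, -⟩ := haveI := isAlgClosed_res_ps κ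
    hens_closed (φ := (lm f).comp (H.γ.comp (algebraMap K K₁))) (cen_over H.prime
      ⟨fun a => (congrArg _ (h1 a)).trans_le (h3.1 a),
        fun a => (iff_of_eq (congrArg (lval κ · < 1) (h1 a))).trans (h3.2 a)⟩ hw)
      (C.unr _ w H.prime hy hw) (isVR_lval κ) (Over.comap _ _)
  obtain ⟨Φ, hΦ⟩ := C.frb κ ((cc κ).comp η)
  obtain ⟨Ψ, hΨ⟩ := C.frb (Ps κ) η
  obtain ⟨Θ, hΘ⟩ := C.frb (Ls κ) ((lid κ).comp η)
  have h4 : ∀ a, j (toF A K N₁ a) ^ q = lid κ (Ψ.comp η a) := fun a => by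
    rw [RingHom.comp_apply, hj, RingHom.comp_apply Ψ, hΨ, map_pow, ← h1]; rfl
  have h5 : ∀ a, cc κ (Ψ.comp η a) = Φ.comp f (algebraMap κ₀ κ₁ (H.h a)) := fun a => by
    rw [RingHom.comp_apply, RingHom.comp_apply, hΨ, hΦ, map_pow, h2]
  obtain ⟨hg, hs⟩ := C.gd (Ps κ) (Ls κ) κ (Ψ.comp η) (lid κ) (lval κ) (cc κ) j (isVR_lval κ)
    PowerSeries.constantCoeff_surj h4 (PowerSeries.isUnit_iff_constantCoeff.2 (Ne.isUnit (by
      rw [h5, map_ne_zero, map_ne_zero]; exact mt (H.ker Δ).1 hy)))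
  refine ⟨κ, _, inferInstance, ⟨Φ.comp f, Ψ.comp η, Θ.comp ((lm f).comp H.γ), Θ.comp j,
    fun x => ?_, fun a => ?_, fun a => (hΘ _).trans (h4 a), h5, fun a b ⟨g, e1, e2⟩ => ?_,
    fun a g e => ?_, ?_, fun s hs a => ?_, hg, hs⟩⟩
  · obtain ⟨z, rfl⟩ := IsAlgClosed.exists_pow_nat_eq x (Nat.pos_of_ne_zero C.qne)
    exact hΦ z ▸ misc1_int (hf z) Φ
  · rw [RingHom.comp_apply, RingHom.comp_apply, h1, hΘ, RingHom.comp_apply Ψ, hΨ, map_pow]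
  · refine ⟨PowerSeries.map f g ^ q, ?_, by rw [map_pow, ← hΦ, ← e2]; rfl⟩
    rw [RingHom.comp_apply, RingHom.comp_apply, e1, loce_lm, hΘ, map_pow, RingHom.comp_id]
  · have h6 := (isVR_lval κ).le_one g
    rw [← e, RingHom.comp_apply, hΘ, map_pow, pow_le_one_iff C.qne] at h6
    obtain ⟨g', e'⟩ := ((isVR_lval κ₁).2.2 _).1 (loce_le f h6)
    exact ⟨_, g', e'.symm, rfl⟩
  · rw [RingHom.comp_apply, hΨ, hη, RingHom.comp_apply, H.hy, PowerSeries.map_X]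
  · have h6 : s.comp (f.comp (algebraMap κ₀ κ₁)) = f.comp (algebraMap κ₀ κ₁) :=
      RingHom.ext fun b => Φ.injective (by simpa [hΦ] using hs b)
    rw [RingHom.comp_apply, hΨ, map_pow, hη, RingHom.comp_apply, ← RingHom.comp_apply,
      ← PowerSeries.map_comp, h6]

variable {κ : Type} [Field κ] (Λ : Loc H T N₁ F l q Th κ)

theorem Loc.cen : Cen ((lid κ).comp Λ.η) (lval κ) H.y :=
  loce_cen H (f := fun b => Λ.f (algebraMap κ₀ κ₁ b)) (by simp) Λ.hcc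

theorem Loc.cen₁ : Cen (toF A K K₁) ((lval κ).comap Λ.γ₁) H.y :=
  ⟨fun a => (congrArg _ (Λ.h₁ a)).trans_le (Λ.cen.1 a),
    fun a => (iff_of_eq (congrArg (lval κ · < 1) (Λ.h₁ a))).trans (Λ.cen.2 a)⟩

theorem Loc.inj : Function.Injective ((lid κ).comp Λ.η) :=
  fun a b e => IsFractionRing.injective A K ((algebraMap K K₁).injective
    (Λ.γ₁.injective ((Λ.h₁ a).trans (e.trans (Λ.h₁ b).symm))))

theorem Loc.res₁ : ∃ ρ₁ : ((lval κ).comap Λ.γ₁).integer →+* κ₁, Function.Surjective ρ₁ ∧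
    IsRed ((lval κ).comap Λ.γ₁) ρ₁ ∧
    (∀ (a : ((lval κ).comap Λ.γ₁).integer) (g : Ps κ), Λ.γ₁ a = lid κ g →
      cc κ g = Λ.f (ρ₁ a)) ∧ ∀ a b, H.Rel a b → ∃ h, ρ₁ ⟨a, h⟩ = b := by
  obtain ⟨δ, hδ, hr⟩ := exists_ls_int Λ.γ₁
  have hi : ∀ (a : ((lval κ).comap Λ.γ₁).integer) (g : Ps κ), Λ.γ₁ a = lid κ g → g = δ a :=
    fun a g e => (isVR_lval κ).2.1 (e.symm.trans (hδ a).symm)
  obtain ⟨ρ, hρ⟩ := ring_factor ((cc κ).comp δ) Λ.f Λ.f.injective fun a => by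
    obtain ⟨b, hb⟩ := Λ.rel' a _ (hδ a).symm
    obtain ⟨g, e1, e2⟩ := Λ.rel a b hb
    exact ⟨b, e2.symm.trans (congrArg _ (hi a g e1))⟩
  have h1 : ∀ (a : ((lval κ).comap Λ.γ₁).integer) (g : Ps κ), Λ.γ₁ a = lid κ g →
      cc κ g = Λ.f (ρ a) := fun a g e => (congrArg _ (hi a g e)).trans (hρ a).symm
  have h2 : ∀ a b, H.Rel a b → ∃ h, ρ ⟨a, h⟩ = b := fun a b hb => by
    obtain ⟨g, e1, e2⟩ := Λ.rel a b hb
    exact ⟨(congrArg _ e1).trans_le ((isVR_lval κ).le_one g),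
      Λ.f.injective ((h1 ⟨a, _⟩ g e1).symm.trans e2)⟩
  refine ⟨ρ, fun b => ?_, fun a => by rw [← hr, ← hρ, map_eq_zero Λ.f], h1, h2⟩
  obtain ⟨a, hb⟩ := H.onto b
  exact (h2 a b hb).elim fun h e => ⟨_, e⟩

/-- an endomorphism of `κ` that fixes the residues of `A` fixes `κ₀` -/
theorem Loc.fix₀ (s : κ →+* κ) (hs : ∀ a, s (cc κ (Λ.η a)) = cc κ (Λ.η a)) (b : κ₀) :
    s (Λ.f (algebraMap κ₀ κ₁ b)) = Λ.f (algebraMap κ₀ κ₁ b) := by
  obtain ⟨a, a', h0, e⟩ := H.frac b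
  have h1 : Λ.f (algebraMap κ₀ κ₁ b) * cc κ (Λ.η a') = cc κ (Λ.η a) := by
    rw [Λ.hcc, Λ.hcc, ← map_mul, ← map_mul]
    exact congrArg _ (congrArg _ e)
  refine mul_right_cancel₀ (b := cc κ (Λ.η a')) ?_ ?_
  · rwa [Λ.hcc, map_ne_zero, map_ne_zero]
  · rw [h1, ← hs a', ← map_mul, h1, hs]

end Pool.Agent.ZFy.ZL
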