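import Pool.Agent.Lib.MP_751085_ag.ZF.Z.Defs2
import Pool.Agent.Lib.MP_751085_ag.ZF.Z.DscK
import Pool.Agent.Lib.MP_751085_ag.ZF.Z.LocE

/-! A model over a finite separable extension. -/

namespace Pool.Agent.ZFy.ZL

open Pool.Agent.ZCy
open scoped Classical WithZero Polynomial

set_option linter.unusedSectionVars false

variable {l q : ℕ} {k A K F T N₁ : Type} [Field k] [CommRing A] [IsDomain A]
  [UniqueFactorizationMonoid A] [Field K] [Field F] [Field T] [Field N₁] [Algebra A K]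
  [IsFractionRing A K] [Algebra K[X] F] [IsFractionRing K[X] F] [Algebra F T]
  [FiniteDimensional F T] [IsGalois F T] [Algebra K N₁] [FiniteDimensional K N₁] [IsGalois K N₁]
  {c : k →+* A} {Th : A[X]} {Δ : A} {τ : T →+* Ls N₁}
variable {K₁ κ₀ κ₁ : Type} [Field K₁] [Field κ₀] [Field κ₁] [Algebra K K₁] [FiniteDimensional K K₁]
  [IsGalois K K₁] [Algebra κ₀ κ₁] [FiniteDimensional κ₀ κ₁] [IsGalois κ₀ κ₁]
  {H : Hy K c K₁ κ₀ κ₁}
variable {F₀ E₀ : Type} [Field F₀] [Field E₀] [Algebra κ₀[X] F₀] [IsFractionRing κ₀[X] F₀]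
  [Algebra F₀ E₀] [FiniteDimensional F₀ E₀] [IsGalois F₀ E₀] {d₀ : SecD 1 κ₀ κ₁ F₀ E₀} {wT : Vl T}
  {ρT : wT.integer →+* E₀}
variable {κ FK ER : Type} [Field κ] [IsAlgClosed κ] [Field FK] [Field ER] [Algebra (Ls κ)[X] FK]
  [IsFractionRing (Ls κ)[X] FK] [Algebra FK ER] [FiniteDimensional FK ER] [IsGalois FK ER]
  {Λ : Loc H T N₁ F l q Th κ}

theorem Lft.exists_model (hD : DSC) (C : Crt K F l q c Th Δ τ) (𝓛 : Lft H Λ τ d₀ wT ρT FK ER) :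
    ∃ (L₀ F' E' : Type) (_ : Field L₀) (_ : Field F') (_ : Field E') (_ : Algebra K L₀)
      (_ : FiniteDimensional K L₀) (_ : Algebra.IsSeparable K L₀) (_ : Algebra L₀[X] F')
      (_ : IsFractionRing L₀[X] F') (_ : Algebra F' E') (_ : FiniteDimensional F' E')
      (_ : IsGalois F' E') (γ₀ : L₀ →+* Ls κ) (e₁ : N₁ →ₐ[K] L₀) (eK : K₁ →ₐ[K] L₀)
      (ι' : E' →+* Ls L₀) (hι : ∀ p, ι' (toF L₀[X] F' E' p) = tL L₀ p),
      (∀ a, γ₀ (e₁ a) = Λ.γN a) ∧ (∀ a, γ₀ (eK a) = Λ.γ₁ a) ∧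
      Nonempty (Mo 𝓛 (dg F' ι' hι) γ₀) := by
  let : Algebra K (Ls κ) := (Λ.γ₁.comp (algebraMap K K₁)).toAlgebra
  let g₁ : K₁ →ₐ[K] Ls κ := ⟨Λ.γ₁, fun _ => rfl⟩
  let gN : N₁ →ₐ[K] Ls κ := ⟨Λ.γN, RingHom.congr_fun ((isFr_alg A K).hom_ext
    (φ := Λ.γN.comp (algebraMap K N₁)) (φ' := Λ.γ₁.comp (algebraMap K K₁))
    fun a => (Λ.hN a).trans (Λ.h₁ a).symm)⟩
  have e0 : (algebraMap K (Ls κ)).comp (algebraMap A K) = (lid κ).comp Λ.η := RingHom.ext Λ.h₁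
  obtain ⟨L₀, _, _, h⟩ := dsc_kk (K := K) hD C.prime
    (by rw [← map_natCast ((algebraMap A K).comp c)]; exact (map_ne_zero _).2 C.lne)
    (C.monic.map (algebraMap A K)) 𝓛.c.hι (by rw [Polynomial.map_map, e0]; exact 𝓛.c.unr)
    (dsck_mono 𝓛.c.lext (by
      rintro _ ⟨x, rfl⟩ i
      rw [𝓛.hτ, lm_coeff]
      exact (Algebra.IsAlgebraic.isAlgebraic _).algHom gN))
  have := gN.equivFieldRange.toLinearEquiv.finiteDimensional
  have := g₁.equivFieldRange.toLinearEquiv.finiteDimensional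
  have := AlgEquiv.Algebra.isSeparable gN.equivFieldRange
  have := AlgEquiv.Algebra.isSeparable g₁.equivFieldRange
  let L := L₀ ⊔ (gN.fieldRange ⊔ g₁.fieldRange)
  have hN : ∀ a, gN a ∈ L := fun a => (le_sup_left.trans le_sup_right : gN.fieldRange ≤ L) ⟨a, rfl⟩
  have h₁ : ∀ a, g₁ a ∈ L := fun a => (le_sup_right.trans le_sup_right : g₁.fieldRange ≤ L) ⟨a, rfl⟩
  obtain ⟨E', _, _, _, _, ι', hι, b, hb⟩ := exists_bc_of_dfd (Fr L[X]) 𝓛.c.hι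
    (dfd_mono (γ' := algebraMap L (Ls κ)) h fun a => ⟨⟨a, (le_sup_left : L₀ ≤ L) a.2⟩, rfl⟩)
  obtain ⟨j, hj⟩ := ring_factor 𝓛.c.j b.j b.j.injective fun x => b.mem (by
    rw [hb, 𝓛.hτ]
    exact (mem_lm_range (algebraMap L (Ls κ)).injective _).2 fun i => ⟨⟨_, hN _⟩, rfl⟩)
  exact ⟨L, Fr L[X], E', inferInstance, inferInstance, inferInstance, inferInstance, inferInstance,
    inferInstance, inferInstance, inferInstance, inferInstance, inferInstance, inferInstance,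
    algebraMap L (Ls κ), gN.codRestrict L.toSubalgebra hN, g₁.codRestrict L.toSubalgebra h₁, ι', hι,
    fun _ => rfl, fun _ => rfl, ⟨⟨b, j, hb, RingHom.ext fun x => (hj x).symm⟩⟩⟩

end Pool.Agent.ZFy.ZL
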