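import Pool.Agent.Lib.MP_751085_ag.ZF.Z.Gr1
import Pool.Agent.Lib.MP_751085_ag.ZC.Z.Grp

/-! The Galois group of the field of definition. -/

namespace Pool.Agent.ZFy.ZL

open Pool.Agent.ZCy
open scoped Classical WithZero Polynomial

set_option linter.unusedSectionVars false

variable {l q : ℕ} {k A K F T N₁ : Type} [Field k] [CommRing A] [IsDomain A]
  [UniqueFactorizationMonoid A] [Field K] [Field F] [Field T] [Field N₁] [Algebra A K]
  [IsFractionRing A K] [Algebra K[X] F] [IsFractionRing K[X] F] [Algebra F T]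
  [FiniteDimensional F T] [IsGalois F T] [Algebra K N₁] [FiniteDimensional K N₁] [IsGalois K N₁]
  {c : k →+* A} {Th : A[X]} {Δ : A} {τ : T →+* Ls N₁}
variable {L : Type} [Field L] [Algebra K L] [FiniteDimensional K L] [IsGalois K L]

theorem grp1_rs (U : Subgroup (L ≃ₐ[K] L)) [U.Normal] :
    ∃ r, Rs (K := K) (K' := K) (algebraMap (IntermediateField.fixedField U) L) r ∧
      ∀ g, r g = 1 ↔ g ∈ U := by
  obtain ⟨r, hr⟩ := exists_rs (φ := RingHom.id K)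
    (j := algebraMap (IntermediateField.fixedField U) L) fun _ => rfl
  refine ⟨r, hr, fun g => ⟨fun h => ?_, fun h => AlgEquiv.ext fun x => Subtype.ext ?_⟩⟩
  · rw [← IntermediateField.fixingSubgroup_fixedField U, IntermediateField.mem_fixingSubgroup_iff]
    intro x hx
    have e := hr g ⟨x, hx⟩
    rw [h] at e
    exact e.symm
  · exact (hr g x).trans (x.2 ⟨g, h⟩)

theorem desc_unr1 (U : Subgroup (L ≃ₐ[K] L)) [U.Normal]
    (h : ∀ (P : A) (w : Vl L), Prime P → ¬P ∣ Δ → Cen (toF A K L) w P → Ine K w ≤ U) :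
    UnrOff K (toF A K (IntermediateField.fixedField U)) Δ := by
  intro P w' hP hd hc
  obtain ⟨w, hw⟩ := exists_over (E := L) w'
  obtain ⟨r, hr, hk⟩ := grp1_rs U
  refine eq_bot_iff.2 fun g hg => ?_
  obtain ⟨g', h1, rfl⟩ := hr.ine_onto (fun _ => rfl) hw hg
  exact (hk g').2 (h P w hP hd ((cen_of_over hw).2 hc) h1)

theorem normal_fix (e : N₁ →ₐ[K] L) : (fixS K (Set.range e ∪ Cst K c L)).Normal := by
  refine ⟨fun δ hδ g x hx => ?_⟩
  rw [AlgEquiv.mul_apply, AlgEquiv.mul_apply, hδ, ← AlgEquiv.mul_apply, mul_inv_cancel,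
    AlgEquiv.one_apply]
  rcases hx with ⟨a, rfl⟩ | hx
  · obtain ⟨g₀, h⟩ := exists_restrict (K := K) (e : N₁ →+* L) (g⁻¹ : L ≃ₐ[K] L) fun a => by
      simp
    exact .inl ⟨g₀ a, h a⟩
  · have h := misc1_int hx ((g⁻¹ : L ≃ₐ[K] L) : L →+* L)
    rw [show ((g⁻¹ : L ≃ₐ[K] L) : L →+* L).comp ((toF A K L).comp c) = (toF A K L).comp c from
      RingHom.ext fun a => g⁻¹.commutes _] at h
    exact .inr h

theorem dec_mul_of_in {y : A} (_hy : Prime y) (hI : INe K l c N₁ Δ y) (e : N₁ →ₐ[K] L)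
    (U : Subgroup (L ≃ₐ[K] L)) [U.Normal] (h1 : U ≤ fixS K (Set.range e ∪ Cst K c L))
    (h2 : ∀ (P : A) (w : Vl L), Prime P → ¬P ∣ Δ → Cen (toF A K L) w P → Ine K w ≤ U)
    (h3 : ∀ δ ∈ fixS K (Set.range e ∪ Cst K c L), ∃ n : ℕ, δ ^ l ^ n ∈ U) {w : Vl L}
    (hw : Cen (toF A K L) w y) (γ : L ≃ₐ[K] L) : ∃ δ ∈ Dec K w, ∃ u ∈ U, γ = δ * u := by
  obtain ⟨r, hr, hk⟩ := grp1_rs U
  have hm : ∀ x ∈ Set.range e ∪ Cst K c L, x ∈ IntermediateField.fixedField U :=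
    fun x hx u => h1 u.2 x hx
  let e' : N₁ →ₐ[K] IntermediateField.fixedField U :=
    e.codRestrict (IntermediateField.fixedField U).toSubalgebra fun a => hm _ (.inl ⟨a, rfl⟩)
  have hL : LXt l K (Set.range e' ∪ Cst K c (IntermediateField.fixedField U)) := by
    rintro ⟨g, hg⟩
    obtain ⟨δ, rfl⟩ := hr.surj (fun x hx g => by
      obtain ⟨a, ha⟩ := mem_range_of_fix hx
      rw [show x = algebraMap K _ a from Subtype.ext ha.symm, g.commutes]) g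
    obtain ⟨n, hn⟩ := h3 δ fun x hx => (hr δ ⟨x, hm x hx⟩).symm.trans
      (congrArg Subtype.val (hg ⟨x, hm x hx⟩ (hx.imp (fun ⟨a, ha⟩ => ⟨a, Subtype.ext ha⟩) fun hx =>
        RingHom.IsIntegralElem.of_map (g := algebraMap _ L) Subtype.val_injective hx)))
    exact ⟨n, Subtype.ext ((map_pow r δ _).symm.trans ((hk _).2 hn))⟩
  have ho := Over.comap (algebraMap (IntermediateField.fixedField U) L) w
  have hd := hI _ e' (desc_unr1 U h2) hL _ ((cen_of_over ho).1 hw)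
  obtain ⟨δ, h4, h5⟩ := hr.dec_onto (fun _ => rfl) ho (hd ▸ Subgroup.mem_top (r γ))
  exact ⟨δ, h4, δ⁻¹ * γ, (hk _).1 (by rw [map_mul, map_inv, h5, inv_mul_cancel]),
    (mul_inv_cancel_left δ γ).symm⟩

variable {N : Type} [Field N] [Algebra F N] [FiniteDimensional F N] [IsGalois F N]
  {d : SecD 1 K L F N} {π : (N ≃ₐ[F] N) →* (L ≃ₐ[K] L)} {σ : (L ≃ₐ[K] L) →* (N ≃ₐ[F] N)}

/-- the monodromy action factors through the decomposition group at `y` -/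
theorem clo_glob (C : Crt K F l q c Th Δ τ) {y : A} (hy : Prime y) (hI : INe K l c N₁ Δ y)
    (hs : d.Spl π σ) (e : N₁ →ₐ[K] L) {j : T →+* N}
    (hj : ∀ x, d.ι (j x) = lm (e : N₁ →+* L) (τ x))
    (h : SC l F (Th.map (algebraMap A K)) d (algebraMap K L) j) {w : Vl L}
    (hw : Cen (toF A K L) w y) : ∃ U : Subgroup (L ≃ₐ[K] L),
      U ≤ fixS K (Set.range e ∪ Cst K c L) ∧ (∀ γ ∈ U, ∀ g ∈ geo d, σ γ * g = g * σ γ) ∧
      ∀ γ, ∃ δ ∈ Dec K w, ∃ u ∈ U, γ = δ * u := by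
  obtain ⟨C₀, _, hC⟩ := grp_cent π σ
  have := normal_fix (c := c) e
  have : (geo d).Normal := ker_eq_geo d hs ▸ π.normal_ker
  rw [ker_eq_geo d hs] at hC
  refine ⟨C₀ ⊓ fixS K (Set.range e ∪ Cst K c L), inf_le_right, fun γ hγ => (hC γ).1 hγ.1,
    dec_mul_of_in hy hI e _ inf_le_right (fun P w' hP hΔ hc δ hδ => ?_) (fun δ hδ => ?_) hw⟩
  · obtain ⟨W, h1, h2, h3⟩ := C.gr1 h hP hΔ hc
    refine ⟨(hC δ).2 fun g hg =>
      comm_of_ine W (geo d) h2 h3 ((h1.dec_ine d.hc (hs.hσ δ)).2 hδ) hg, ?_⟩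
    rintro x (⟨a, rfl⟩ | hx)
    · have e1 : (e : N₁ →+* L).comp (toF A K N₁) = toF A K L := RingHom.ext fun a => e.commutes _
      exact fix_of_ine (K := K) (e : N₁ →+* L) δ.toRingEquiv (fun a => by simp) w' hδ.1 hδ.2
        (C.unr P _ hP hΔ ((cen_of_over (Over.comap _ w')).1 (e1 ▸ hc))) a
    · exact ine_fix_int hδ ((toF A K L).comp c) (fun a => δ.commutes _) (fun a => hc.1 _) hx
  · obtain ⟨n, hn⟩ := C.mon L N d e j (σ δ) δ hj h (hs.hσ δ) fun a => hδ _ (.inl ⟨a, rfl⟩)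
    exact ⟨n, (hC _).2 (by rwa [map_pow]), pow_mem hδ _⟩

end Pool.Agent.ZFy.ZL
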