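import Pool.Agent.Lib.MP_751085_ag.ZF.Z.Defs

/-! Automorphisms that are trivial on the Frattini quotient. -/

namespace Pool.Agent.ZFy.ZL

open Pool.Agent.ZCy
open scoped Classical WithZero Polynomial

set_option linter.unusedSectionVars false

theorem hall_fix {G : Type} [Group G] [Finite G] {r : ℕ} (hr : r.Prime) {K : Subgroup G}
    (hK : ¬r ∣ Nat.card K) {u g : G} (h1 : ∀ k ∈ K, u * (k * g) * u⁻¹ * g⁻¹ ∈ K)
    (h2 : ∀ k ∈ K, u ^ r * (k * g) = k * g * u ^ r) : ∃ k ∈ K, u * (k * g) = k * g * u := by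
  have := Fact.mk hr
  have := Fintype.ofFinite K
  let f : K → K := fun k => ⟨_, h1 k k.2⟩
  have hf : Function.Injective f := fun a b e => Subtype.ext (by
    simpa [f] using congrArg Subtype.val e)
  have h3 : ∀ (j : ℕ) (k : K), (f^[j] k : G) = u ^ j * (k * g) * (u ^ j)⁻¹ * g⁻¹ := fun j k => by
    induction j with
    | zero => simp
    | succ j ih =>
      rw [Function.iterate_succ_apply']
      change u * (_ * g) * u⁻¹ * g⁻¹ = _
      rw [ih, pow_succ']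
      group
  obtain ⟨k, hk⟩ := Equiv.Perm.exists_fixed_point_of_prime (p := r) (n := 1)
    (by rwa [← Nat.card_eq_fintype_card])
    (σ := Equiv.ofBijective f (Finite.injective_iff_bijective.1 hf)) (Equiv.ext fun k => by
      rw [pow_one, Equiv.Perm.coe_pow]
      refine Subtype.ext ((h3 r k).trans ?_)
      rw [h2 k k.2]
      simp)
  refine ⟨k, k.2, ?_⟩
  have h4 : u * (k * g) * u⁻¹ * g⁻¹ = k := congrArg Subtype.val hk
  rwa [mul_inv_eq_iff_eq_mul, mul_inv_eq_iff_eq_mul] at h4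

theorem hall_chr {P : Type} [Group P] [Finite P] {l : ℕ} (hl : l.Prime) (hP : IsPGroup l P)
    {F : Subgroup P} (hF : F ≠ ⊤) :
    ∃ χ : P →* Multiplicative (ZMod l), F ≤ χ.ker ∧ ∃ g, χ g ≠ 1 := by
  have := Fact.mk hl
  obtain ⟨M, hM, hle⟩ := (eq_top_or_exists_le_coatom F).resolve_left hF
  have := hP.isNilpotent
  have : M.Normal := Subgroup.NormalizerCondition.normal_of_coatom M
    Group.normalizerCondition_of_isNilpotent hM
  have : Nontrivial (P ⧸ M) := QuotientGroup.nontrivial_iff.2 hM.1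
  obtain ⟨n, hn, e⟩ := (hP.to_quotient M).nontrivial_iff_card.1 this
  obtain ⟨x, hx⟩ := exists_prime_orderOf_dvd_card' (G := P ⧸ M) l (e ▸ dvd_pow_self l hn.ne')
  obtain ⟨g, rfl⟩ := QuotientGroup.mk'_surjective M x
  have h0 : QuotientGroup.mk' M g ≠ 1 := fun h => hl.ne_one (by rw [← hx, h, orderOf_one])
  have h1 : (Subgroup.zpowers (QuotientGroup.mk' M g)).comap (QuotientGroup.mk' M) = ⊤ :=
    hM.2 _ (lt_of_le_of_ne (QuotientGroup.le_comap_mk' M _) fun h => h0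
      ((QuotientGroup.eq_one_iff g).2 (h ▸ Subgroup.mem_zpowers _)))
  have h2 : Nat.card (P ⧸ M) = l := by
    rw [← hx, ← Nat.card_zpowers, ← Subgroup.map_comap_eq_self_of_surjective
      (QuotientGroup.mk'_surjective M) (Subgroup.zpowers _), h1,
      Subgroup.map_top_of_surjective _ (QuotientGroup.mk'_surjective M), Subgroup.card_top]
  let e := mulEquivOfPrimeCardEq (G := P ⧸ M) (G' := Multiplicative (ZMod l)) h2 (by simp)
  refine ⟨e.toMonoidHom.comp (QuotientGroup.mk' M), fun y hy => ?_, g,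
    fun h => h0 (e.injective (h.trans (map_one e).symm))⟩
  rw [MonoidHom.mem_ker, MonoidHom.comp_apply, QuotientGroup.mk'_apply,
    (QuotientGroup.eq_one_iff y).2 (hle hy), map_one]

theorem hall_step {G : Type} [Group G] [Finite G] {l r : ℕ} (hl : l.Prime) (hr : r.Prime)
    (hne : r ≠ l) {H P : Subgroup G} [P.Normal] (hP : IsPGroup l P) (hle : P ≤ H) {u : G}
    (h1 : ∀ g ∈ H, u * g * u⁻¹ * g⁻¹ ∈ P)
    (h2 : ∀ (χ : P →* Multiplicative (ZMod l)) (g g' : P), (g' : G) = u * g * u⁻¹ → χ g' = χ g)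
    (h3 : ∀ g ∈ H, u ^ r * g = g * u ^ r) : ∀ g ∈ H, u * g = g * u := by
  have := Fact.mk hl
  have h4 : ∀ K ≤ P, ¬r ∣ Nat.card K := fun K hK h => by
    obtain ⟨n, e⟩ := IsPGroup.iff_card.1 (hP.to_le hK)
    exact hne ((Nat.prime_dvd_prime_iff_eq hr hl).1 (hr.dvd_of_dvd_pow (e ▸ h)))
  have h5 : ∀ g ∈ P, u * g = g * u := by
    by_contra hc
    obtain ⟨χ, hχ, g, hg⟩ := hall_chr hl hP (F := (Subgroup.centralizer {u}).subgroupOf P)
      fun e => hc fun g hg => (Subgroup.mem_centralizer_singleton_iff.1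
        (Subgroup.subgroupOf_eq_top.1 e hg)).symm
    obtain ⟨_, ⟨k, hk, rfl⟩, e⟩ := hall_fix hr (h4 _ (Subgroup.map_subtype_le χ.ker)) (u := u)
      (g := g) (by
        rintro _ ⟨k, hk, rfl⟩
        have h6 : u * ((k * g : P) : G) * u⁻¹ ∈ P := Subgroup.Normal.conj_mem ‹_› _ (k * g).2 u
        refine ⟨⟨_, h6⟩ * g⁻¹, ?_, rfl⟩
        rw [SetLike.mem_coe, MonoidHom.mem_ker] at hk ⊢
        rw [map_mul, h2 χ (k * g) _ rfl, map_mul, hk, one_mul, map_inv, mul_inv_cancel])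
      (by
        rintro _ ⟨k, -, rfl⟩
        exact h3 _ (hle (k * g).2))
    have h7 : χ (k * g) = 1 := hχ (Subgroup.mem_centralizer_singleton_iff.2 e.symm)
    rw [map_mul, MonoidHom.mem_ker.1 hk, one_mul] at h7
    exact hg h7
  intro g hg
  obtain ⟨k, hk, e⟩ := hall_fix hr (h4 P le_rfl) (u := u) (g := g) (fun k hk => by
    have := mul_mem (h1 _ (mul_mem (hle hk) hg)) hk
    rwa [mul_inv_rev, ← mul_assoc, inv_mul_cancel_right] at this)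
    fun k hk => h3 _ (mul_mem (hle hk) hg)
  rwa [← mul_assoc, h5 k hk, mul_assoc, mul_assoc, mul_left_cancel_iff] at e

theorem hall {G : Type} [Group G] [Finite G] {l : ℕ} (hl : l.Prime) (H P : Subgroup G) [H.Normal]
    [P.Normal] (hP : IsPGroup l P) (hle : P ≤ H) (s : G) (h1 : ∀ g ∈ H, s * g * s⁻¹ * g⁻¹ ∈ P)
    (h2 : ∀ (χ : P →* Multiplicative (ZMod l)) (g g' : P), (g' : G) = s * g * s⁻¹ → χ g' = χ g) :
    ∃ n : ℕ, ∀ g ∈ H, s ^ l ^ n * g = g * s ^ l ^ n := by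
  have h3 : ∀ k : ℕ, ∀ g ∈ H, s ^ k * g * (s ^ k)⁻¹ * g⁻¹ ∈ P := fun k g hg => by
    induction k with
    | zero => simp
    | succ k ih =>
      have := mul_mem (h1 _ (Subgroup.Normal.conj_mem ‹_› g hg (s ^ k))) ih
      rwa [show s * (s ^ k * g * (s ^ k)⁻¹) * s⁻¹ * (s ^ k * g * (s ^ k)⁻¹)⁻¹ *
        (s ^ k * g * (s ^ k)⁻¹ * g⁻¹) = s ^ (k + 1) * g * (s ^ (k + 1))⁻¹ * g⁻¹ by group] at this
  have h4 : ∀ (k : ℕ) (χ : P →* Multiplicative (ZMod l)) (g g' : P),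
      (g' : G) = s ^ k * g * (s ^ k)⁻¹ → χ g' = χ g := fun k χ g => by
    induction k with
    | zero => exact fun g' e => congrArg χ (Subtype.ext (by simpa using e))
    | succ k ih =>
      exact fun g' e => (h2 χ ⟨_, Subgroup.Normal.conj_mem ‹_› _ g.2 (s ^ k)⟩ g'
        (e.trans (by group))).trans (ih _ rfl)
  have h5 : ∀ m : ℕ, m ≠ 0 → ¬l ∣ m → ∀ k : ℕ, (∀ g ∈ H, s ^ (k * m) * g = g * s ^ (k * m)) →
      ∀ g ∈ H, s ^ k * g = g * s ^ k := fun m => by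
    induction m using induction_on_primes with
    | zero => exact fun h => absurd rfl h
    | one => exact fun _ _ k h => by rwa [mul_one] at h
    | prime_mul r a hr ih =>
      refine fun h0 h k e => hall_step hl hr (fun e => h (e ▸ dvd_mul_right _ _)) hP hle (h3 k)
        (h4 k) ?_
      rw [← pow_mul]
      exact ih (right_ne_zero_of_mul h0) (fun e => h (e.mul_left _)) _ (by rwa [mul_assoc])
  obtain ⟨n, m, h6, h7⟩ := Nat.exists_eq_pow_mul_and_not_dvd (orderOf_pos s).ne' l hl.ne_one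
  refine ⟨n, h5 m (fun e => h6 (e ▸ dvd_zero l)) h6 _ fun g _ => ?_⟩
  rw [← h7, pow_orderOf_eq_one, one_mul, mul_one]

/-- the group theory of the descent -/
theorem grp_core {G Γ G₀ : Type} [Group G] [Group Γ] [Group G₀] (π : G →* Γ) (σ : Γ →* G)
    (hs : ∀ γ, π (σ γ) = γ) (D : Subgroup G) (hD : π.ker ≤ D) (r : D →* G₀) (DΓ C Γ₁ : Subgroup Γ)
    (h1 : ∀ δ ∈ DΓ, σ δ ∈ D) (h2 : ∀ γ ∈ C, ∀ g ∈ π.ker, σ γ * g = g * σ γ)
    (h3 : ∀ γ, ∃ δ ∈ DΓ, ∃ c ∈ C, γ = δ * c) (h4 : C ≤ Γ₁)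
    (h5 : ∀ δ (hδ : δ ∈ DΓ), δ ∈ Γ₁ → r ⟨σ δ, h1 δ hδ⟩ = 1) (U : Subgroup G)
    (h6 : ∀ g (hg : g ∈ π.ker), r ⟨g, hD hg⟩ = 1 ↔ g ∈ U)
    (h7 : ∀ g ∈ π.ker, (∀ h, h⁻¹ * g * h ∈ U) → g = 1) :
    (∀ g ∈ π.ker, g ∈ U → g = 1) ∧ (∀ γ ∈ Γ₁, ∀ g ∈ π.ker, σ γ * g = g * σ γ) ∧
      ∀ V : Subgroup G, (∀ γ ∈ C, σ γ ∈ V) → (∀ g : D, r g = 1 → (g : G) ∈ V) →
        ∀ γ ∈ Γ₁, σ γ ∈ V := by
  have a1 : ∀ g ∈ π.ker, g ∈ U → g = 1 := fun g hg hU => h7 g hg fun h => by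
    obtain ⟨δ, hδ, c, hc, e⟩ := h3 (π h)
    have hk : h * (σ (π h))⁻¹ ∈ π.ker := by
      rw [MonoidHom.mem_ker, map_mul, map_inv, hs, mul_inv_cancel]
    obtain ⟨d, hd⟩ : ∃ d : D, h = d * σ c :=
      ⟨⟨_, mul_mem (hD hk) (h1 δ hδ)⟩, by rw [mul_assoc, ← map_mul, ← e, inv_mul_cancel_right]⟩
    have h8 : (d : G)⁻¹ * g * d ∈ π.ker := Subgroup.Normal.conj_mem' inferInstance g hg d
    have h9 : h⁻¹ * g * h = (d : G)⁻¹ * g * d := by
      rw [hd, mul_inv_rev, ← mul_assoc, mul_assoc (σ c)⁻¹, mul_assoc (σ c)⁻¹, mul_assoc (σ c)⁻¹,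
        ← h2 c hc _ h8, inv_mul_cancel_left]
    rw [h9, ← h6 _ h8]
    change r (d⁻¹ * ⟨g, hD hg⟩ * d) = 1
    rw [map_mul, map_mul, (h6 g hg).2 hU, mul_one, map_inv, inv_mul_cancel]
  have a2 : ∀ γ ∈ Γ₁, ∃ δ, ∃ hδ : δ ∈ DΓ, r ⟨σ δ, h1 δ hδ⟩ = 1 ∧ ∃ c ∈ C, γ = δ * c := fun γ hγ => by
    obtain ⟨δ, hδ, c, hc, rfl⟩ := h3 γ
    exact ⟨δ, hδ, h5 δ hδ ((mul_mem_cancel_right (h4 hc)).1 hγ), c, hc, rfl⟩
  refine ⟨a1, fun γ hγ g hg => ?_, fun V b1 b2 γ hγ => ?_⟩ <;>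
    obtain ⟨δ, hδ, e, c, hc, rfl⟩ := a2 γ hγ
  · have h8 : σ δ * g * (σ δ)⁻¹ * g⁻¹ ∈ π.ker :=
      mul_mem (Subgroup.Normal.conj_mem inferInstance g hg _) (inv_mem hg)
    have h9 := a1 _ h8 ((h6 _ h8).1 (by
      change r (⟨σ δ, h1 δ hδ⟩ * ⟨g, hD hg⟩ * ⟨σ δ, h1 δ hδ⟩⁻¹ * ⟨g, hD hg⟩⁻¹) = 1
      rw [map_mul, map_mul, map_mul, map_inv, map_inv, e, one_mul, inv_one, mul_one,
        mul_inv_cancel]))
    rw [mul_inv_eq_one, mul_inv_eq_iff_eq_mul] at h9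
    rw [map_mul, mul_assoc, h2 c hc g hg, ← mul_assoc, h9, mul_assoc]
  · rw [map_mul]
    exact mul_mem (b2 _ e) (b1 c hc)

end Pool.Agent.ZFy.ZL
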