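import Pool.Agent.Lib.MP_751085_ag.ZF.Z.DscL
import Pool.Agent.Lib.MP_751085_ag.ZF.Z.Grp1
import Pool.Agent.Lib.MP_751085_ag.ZF.Z.Hall

/-! The monodromy action is trivial over `K₁`. -/

namespace Pool.Agent.ZFy.ZL

open Pool.Agent.ZCy
open scoped Classical WithZero Polynomial

set_option linter.unusedSectionVars false

variable {l q : ℕ} {k A K F T N₁ : Type} [Field k] [CommRing A] [IsDomain A]
  [UniqueFactorizationMonoid A] [Field K] [Field F] [Field T] [Field N₁] [Algebra A K]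
  [IsFractionRing A K] [Algebra K[X] F] [IsFractionRing K[X] F] [Algebra F T]
  [FiniteDimensional F T] [IsGalois F T] [Algebra K N₁] [FiniteDimensional K N₁] [IsGalois K N₁]
  {c : k →+* A} {Th : A[X]} {Δ : A} {τ : T →+* Ls N₁}
variable {K₁ κ₀ κ₁ : Type} [Field K₁] [Field κ₀] [Field κ₁] [Algebra K K₁] [FiniteDimensional K K₁]
  [IsGalois K K₁] [Algebra κ₀ κ₁] [FiniteDimensional κ₀ κ₁] [IsGalois κ₀ κ₁]
  {H : Hy K c K₁ κ₀ κ₁}
variable {F₀ E₀ : Type} [Field F₀] [Field E₀] [Algebra κ₀[X] F₀] [IsFractionRing κ₀[X] F₀]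
  [Algebra F₀ E₀] [FiniteDimensional F₀ E₀] [IsGalois F₀ E₀] {d₀ : SecD 1 κ₀ κ₁ F₀ E₀} {wT : Vl T}
  {ρT : wT.integer →+* E₀}
variable {κ FK ER : Type} [Field κ] [IsAlgClosed κ] [Field FK] [Field ER] [Algebra (Ls κ)[X] FK]
  [IsFractionRing (Ls κ)[X] FK] [Algebra FK ER] [FiniteDimensional FK ER] [IsGalois FK ER]
  {Λ : Loc H T N₁ F l q Th κ}
variable {𝓛 : Lft H Λ τ d₀ wT ρT FK ER}
variable {L₀ F' E' : Type} [Field L₀] [Field F'] [Field E'] [Algebra K L₀] [FiniteDimensional K L₀]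
  [Algebra.IsSeparable K L₀] [Algebra L₀[X] F'] [IsFractionRing L₀[X] F'] [Algebra F' E']
  [FiniteDimensional F' E'] [IsGalois F' E'] {ι' : E' →+* Ls L₀}
variable {L N : Type} [Field L] [Field N] [Algebra K L] [FiniteDimensional K L] [IsGalois K L]
  [Algebra F N] [FiniteDimensional F N] [IsGalois F N] {d : SecD 1 K L F N} {e : L₀ →ₐ[K] L}
  {m : E' →+* N}
variable {hι : ∀ p, ι' (toF L₀[X] F' E' p) = tL L₀ p} {γ₀ : L₀ →+* Ls κ}
  {π : (N ≃ₐ[F] N) →* (L ≃ₐ[K] L)} {σ : (L ≃ₐ[K] L) →* (N ≃ₐ[F] N)}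

theorem dsc2 (C : Crt K F l q c Th Δ τ) (hy : ¬H.y ∣ Δ) (hI : INe K l c N₁ Δ H.y)
    (S : Spc H F l Th d₀ wT ρT) (M : Mo 𝓛 (dg F' ι' hι) γ₀) {e₁ : N₁ →ₐ[K] L₀}
    {eK : K₁ →ₐ[K] L₀} (h₁ : ∀ a, γ₀ (e₁ a) = Λ.γN a) (hK : ∀ a, γ₀ (eK a) = Λ.γ₁ a)
    (h : Cl ι' d e m) (hs : d.Spl π σ) :
    (∀ g ∈ geo d, (∀ z, g (m z) = m z) → g = 1) ∧
      ∀ γ : L ≃ₐ[K] L, (∀ a, γ (e (eK a)) = e (eK a)) →
        (∀ g ∈ geo d, σ γ * g = g * σ γ) ∧ ∀ x, σ γ (m (M.j x)) = m (M.j x) := by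
  have sc := h.sc (M.sc C (γK := algebraMap K L₀) fun a => by
    rw [← eK.commutes, hK]; exact Λ.h₁ a)
  have hj : ∀ x, d.ι ((m.comp M.j) x) = lm (e.comp e₁ : N₁ →+* L) (τ x) := fun x =>
    (h.hm _).trans ((congrArg _ (M.ι_j (e := (e₁ : N₁ →+* L₀)) h₁ x)).trans (clo_lm_lm _ _ _))
  obtain ⟨w, W, r, hc, hD, h1, h5, h6, h8⟩ := clo_loc C hy S M hK h hs
  obtain ⟨U, hU, h2, h3⟩ := clo_glob C H.prime hI hs (e.comp e₁) hj sc hc
  have hk := ker_eq_geo d hs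
  obtain ⟨a1, a2, a3⟩ := grp_core π σ hs.sec (Dec F W) (hk ▸ hD) r (Dec K w) U
    (fixS K (Set.range fun a => e (eK a))) h1 (hk ▸ h2) h3
    (fun γ hγ => mem_fixS_range.2 (gen_ext H.gen
      ((γ : L →+* L).comp (e.comp eK : K₁ →+* L)) (e.comp eK : K₁ →+* L)
      (fun a => ((γ : L →ₐ[K] L).comp (e.comp eK)).commutes a |>.trans
        ((e.comp eK).commutes a).symm) fun x hx => hU hγ _ (Or.inr (by
          obtain ⟨p, hm, hp⟩ := hx
          refine ⟨p, hm, ?_⟩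
          have := congrArg (e.comp eK : K₁ →+* L) hp
          rw [Polynomial.hom_eval₂, map_zero] at this
          refine (congrArg (fun u => p.eval₂ u _) (RingHom.ext fun a => ?_)).trans this
          exact ((e.comp eK).commutes _).symm))))
    (fun δ hδ h' => h5 δ hδ (mem_fixS_range.1 h') _) (fixS F (Set.range m))
    (fun g hg => (h6 g (hk ▸ hg) _).trans mem_fixS_range.symm)
    fun g hg h' => h.gen g (hk ▸ hg) fun u z => by
      have := congrArg u (mem_fixS_range.1 (h' u) z)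
      rwa [← AlgEquiv.mul_apply, ← mul_assoc, mul_inv_cancel_left, AlgEquiv.mul_apply] at this
  refine ⟨fun g hg h' => a1 g (hk ▸ hg) (mem_fixS_range.2 h'), fun γ hγ =>
    ⟨fun g hg => a2 γ (mem_fixS_range.2 hγ) g (hk ▸ hg), mem_fixS_range.1
      (a3 (fixS F (Set.range fun x => m (M.j x))) (fun δ hδ => mem_fixS_range.2 fun x => ?_)
        (fun g hg => mem_fixS_range.2 (h8 g hg)) γ (mem_fixS_range.2 hγ))⟩⟩
  refine d.ι.injective ((hs.hσ δ _).trans ((congrArg _ (hj x)).trans (Eq.trans ?_ (hj x).symm)))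
  ext i
  exact hU hδ _ (Or.inl ⟨_, rfl⟩)

end Pool.Agent.ZFy.ZL
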