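import Pool.Agent.Lib.MP_751085_ag.ZF.Z.Clo1
import Pool.Agent.Lib.MP_751085_ag.ZF.Z.Misc1

/-! The model over `K₁`. -/

namespace Pool.Agent.ZFy.ZL

open Pool.Agent.ZCy
open scoped Classical WithZero Polynomial

set_option linter.unusedSectionVars false

variable {l q : ℕ} {k A K F T N₁ : Type} [Field k] [CommRing A] [IsDomain A]
  [UniqueFactorizationMonoid A] [Field K] [Field F] [Field T] [Field N₁] [Algebra A K]
  [IsFractionRing A K] [Algebra K[X] F] [IsFractionRing K[X] F] [Algebra F T]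
  [FiniteDimensional F T] [IsGalois F T] [Algebra K N₁] [FiniteDimensional K N₁] [IsGalois K N₁]
  {c : k →+* A} {Th : A[X]} {Δ : A} {τ : T →+* Ls N₁}
variable {K₁ κ₀ κ₁ : Type} [Field K₁] [Field κ₀] [Field κ₁] [Algebra K K₁] [FiniteDimensional K K₁]
  [IsGalois K K₁] [Algebra κ₀ κ₁] [FiniteDimensional κ₀ κ₁] [IsGalois κ₀ κ₁]
  {H : Hy K c K₁ κ₀ κ₁}
variable {F₀ E₀ : Type} [Field F₀] [Field E₀] [Algebra κ₀[X] F₀] [IsFractionRing κ₀[X] F₀]
  [Algebra F₀ E₀] [FiniteDimensional F₀ E₀] [IsGalois F₀ E₀] {d₀ : SecD 1 κ₀ κ₁ F₀ E₀} {wT : Vl T}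
  {ρT : wT.integer →+* E₀}
variable {κ FK ER : Type} [Field κ] [IsAlgClosed κ] [Field FK] [Field ER] [Algebra (Ls κ)[X] FK]
  [IsFractionRing (Ls κ)[X] FK] [Algebra FK ER] [FiniteDimensional FK ER] [IsGalois FK ER]
  {Λ : Loc H T N₁ F l q Th κ}
variable {𝓛 : Lft H Λ τ d₀ wT ρT FK ER}
variable {L₀ F' E' : Type} [Field L₀] [Field F'] [Field E'] [Algebra K L₀] [FiniteDimensional K L₀]
  [Algebra.IsSeparable K L₀] [Algebra L₀[X] F'] [IsFractionRing L₀[X] F'] [Algebra F' E']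
  [FiniteDimensional F' E'] [IsGalois F' E'] {ι' : E' →+* Ls L₀}
variable {L N : Type} [Field L] [Field N] [Algebra K L] [FiniteDimensional K L] [IsGalois K L]
  [Algebra F N] [FiniteDimensional F N] [IsGalois F N] {d : SecD 1 K L F N} {e : L₀ →ₐ[K] L}
  {m : E' →+* N}
variable {hι : ∀ p, ι' (toF L₀[X] F' E' p) = tL L₀ p} {γ₀ : L₀ →+* Ls κ}
  {π : (N ≃ₐ[F] N) →* (L ≃ₐ[K] L)} {σ : (L ≃ₐ[K] L) →* (N ≃ₐ[F] N)}

theorem dsc3 (M : Mo 𝓛 (dg F' ι' hι) γ₀) {eK : K₁ →ₐ[K] L₀} (hK : ∀ a, γ₀ (eK a) = Λ.γ₁ a)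
    (h : Cl ι' d e m) (hs : d.Spl π σ) (h1 : ∀ g ∈ geo d, (∀ z, g (m z) = m z) → g = 1)
    (h2 : ∀ γ : L ≃ₐ[K] L, (∀ a, γ (e (eK a)) = e (eK a)) →
      (∀ g ∈ geo d, σ γ * g = g * σ γ) ∧ ∀ x, σ γ (m (M.j x)) = m (M.j x)) :
    ∃ (E : Type) (_ : Field E) (_ : Algebra F E) (_ : FiniteDimensional F E) (_ : IsGalois F E)
      (dE : SecD 1 K K₁ F E), Nonempty (Mo 𝓛 dE Λ.γ₁) := by
  obtain ⟨V, hV⟩ : ∃ V : Subgroup (N ≃ₐ[F] N), ∀ g, g ∈ V ↔
      ∃ γ, (∀ a, γ (e (eK a)) = e (eK a)) ∧ σ γ = g :=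
    ⟨(fixS K (Set.range fun a => e (eK a))).map σ, fun g =>
      exists_congr fun γ => and_congr_left' mem_fixS_range⟩
  have hk := ker_eq_geo d hs
  have : V.Normal := ⟨fun g hg u => by
    obtain ⟨γ, hγ, rfl⟩ := (hV g).1 hg
    obtain ⟨δ, hδ⟩ := exists_restrict (K := K) ((e.comp eK : K₁ →ₐ[K] L) : K₁ →+* L)
      (((π u)⁻¹ : L ≃ₐ[K] L) : L →+* L) fun a => by simp
    have h3 : ∀ a, (π u * γ * (π u)⁻¹) (e (eK a)) = e (eK a) := fun a => by
      have e1 : e (eK (δ a)) = (π u)⁻¹ (e (eK a)) := hδ a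
      rw [AlgEquiv.mul_apply, AlgEquiv.mul_apply, ← e1, hγ, e1, ← AlgEquiv.mul_apply, mul_inv_cancel,
        AlgEquiv.one_apply]
    refine (hV _).2 ⟨_, h3, ?_⟩
    have h4 := (h2 _ h3).1 (u * (σ (π u))⁻¹) (hk ▸ by simp [hs.sec])
    rw [eq_mul_inv_of_mul_eq h4]
    simp only [map_mul, map_inv]
    group⟩
  have hE : ∀ x, x ∈ IntermediateField.fixedField V ↔
      ∀ γ : L ≃ₐ[K] L, (∀ a, γ (e (eK a)) = e (eK a)) → σ γ x = x := fun x =>
    (IntermediateField.mem_fixedField_iff V x).trans ⟨fun H γ hγ => H _ ((hV _).2 ⟨γ, hγ, rfl⟩),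
      fun H g hg => by
        obtain ⟨γ, hγ, rfl⟩ := (hV g).1 hg
        exact H γ hγ⟩
  set E := IntermediateField.fixedField V
  have hi := lm_injective (f := ((e.comp eK : K₁ →ₐ[K] L) : K₁ →+* L)) (RingHom.injective _)
  obtain ⟨ιE, hιE⟩ := ring_factor (d.ι.comp E.val.toRingHom) _ hi fun x =>
    (mem_lm_range (RingHom.injective _) _).2 fun j => by
      change _ ∈ (e.comp eK).fieldRange
      rw [← IsGalois.fixedField_fixingSubgroup (e.comp eK).fieldRange,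
        IntermediateField.mem_fixedField_iff]
      intro γ hγ
      exact congrArg (fun y => y.coeff j) ((hs.hσ γ x).symm.trans
        (congrArg d.ι ((hE x).1 x.2 γ fun a => hγ ⟨_, a, rfl⟩)))
  have h5 : ∀ x, lm (e : L₀ →+* L) (lm (eK : K₁ →+* L₀) (ιE x)) = d.ι x := fun x =>
    (HahnSeries.ext rfl).trans (hιE x)
  obtain ⟨i, hi'⟩ := ring_factor E.val.toRingHom m m.injective fun x => h.mem hι h1 ⟨_, h5 x⟩
  have h6 : ∀ x, ι' (i x) = lm (eK : K₁ →+* L₀) (ιE x) := fun x =>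
    lm_injective (RingHom.injective _) (by rw [← h.hm, h5, hi']; rfl)
  refine ⟨E, inferInstance, inferInstance, inferInstance,
    IsGalois.of_fixedField_normal_subgroup V,
    ⟨(d.c.comp ((e.comp eK : K₁ →ₐ[K] L) : K₁ →+* L)).codRestrict E fun a => (hE _).2 fun γ hγ =>
      (hs.hπ _ _).trans (by rw [hs.sec]; exact congrArg d.c (hγ a)), ιE, fun a => hi ?_,
      fun p => hi ?_⟩, ⟨⟨⟨M.b.j.comp i, M.b.ι, M.b.hι, fun z => ?_, fun g hg => ?_⟩,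
        (m.comp M.j).codRestrict E fun x => (hE _).2 fun γ hγ => (h2 γ hγ).2 x, M.hι, ?_⟩⟩⟩
  · rw [hιE, ← sec_tM_C (M := 1), lm_tM, Polynomial.map_C, sec_tM_C]
    exact d.hc _
  · rw [hιE, lm_tM, Polynomial.map_map, AlgHom.comp_algebraMap]
    exact d.ht p
  · exact (M.b.hj _).trans ((congrArg (lm γ₀) (h6 z)).trans (HahnSeries.ext (funext fun j => hK _)))
  · obtain ⟨g', -, h7⟩ := M.b.restr g
    obtain ⟨g'', h8, h9⟩ := h.ext hι h1 g'
    have h10 : g'' ∈ E.fixingSubgroup := fun x => by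
      have e1 : m (i x) = x := hi' x
      change g'' x = x
      rw [← e1, h9, M.b.j.injective ((h7 _).trans (hg x))]
    rw [IntermediateField.fixingSubgroup_fixedField] at h10
    obtain ⟨γ, -, rfl⟩ := (hV _).1 h10
    rw [← hk, MonoidHom.mem_ker, hs.sec] at h8
    refine M.b.span g fun z => ?_
    rw [h8, map_one] at h9
    rw [← h7, ← m.injective (h9 z)]
  · exact M.hj.trans (RingHom.ext fun x => congrArg M.b.j (m.injective (hi' ⟨m (M.j x), _⟩).symm))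

end Pool.Agent.ZFy.ZL
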