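import Pool.Agent.Lib.MP_751085_ag.ZF.Z.Defs
import Pool.Agent.Lib.MP_751085_ag.ZC.V.Cv
import Pool.Agent.Lib.MP_751085_ag.ZC.Z.Sec1
import Pool.Agent.Lib.MP_751085_ag.ZC.Z.GalFr

/-! Sup norms and coefficientwise reduction. -/

namespace Pool.Agent.ZFy.ZL

open Pool.Agent.ZCy
open scoped Classical WithZero Polynomial

set_option linter.unusedSectionVars false

variable {L N R κ : Type} [Field L] [Field N] [CommRing R] [Field κ] {ι : N →+* Ls L} {w : Vl L}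
  {W : Vl N}

theorem red_fr (w : Vl L) : IsFr w.integer.subtype := by
  refine ⟨Subtype.val_injective, fun x => ?_⟩
  rcases le_total (w x) 1 with hx | hx
  · exact ⟨⟨x, hx⟩, 1, one_ne_zero, mul_one x⟩
  · have h0 : x ≠ 0 := fun e => by simp [e] at hx
    refine ⟨1, ⟨x⁻¹, ?_⟩, fun e => inv_ne_zero h0 (congrArg Subtype.val e), mul_inv_cancel₀ h0⟩
    change w x⁻¹ ≤ 1
    rw [map_inv₀]
    exact inv_le_one_of_one_le₀ hx

theorem red_C (a : R) (f : Ls R) (i : ℤ) : (HahnSeries.C a * f).coeff i = a * f.coeff i := by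
  rw [HahnSeries.C_mul_eq_smul, HahnSeries.coeff_smul, smul_eq_mul]

theorem red_sm {α : R →+* L} {ρ : R →+* κ} (hρ : ∀ a, ρ a = 0 ↔ w (α a) < 1) (f : Ls R) :
    lm ρ f = 0 ↔ ∀ i, w ((lm α f).coeff i) < 1 := by
  rw [HahnSeries.ext_iff, funext_iff]
  exact forall_congr' fun i => hρ _

theorem red_lift {f : Ls L} (h : ∀ i, w (f.coeff i) ≤ 1) :
    ∃ g : Ls w.integer, lm w.integer.subtype g = f :=
  (mem_lm_range (f := w.integer.subtype) Subtype.val_injective f).2 fun i => ⟨⟨_, h i⟩, rfl⟩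

theorem red_mul {f g : Ls L} (hf : ∀ i, w (f.coeff i) ≤ 1) (hg : ∀ i, w (g.coeff i) ≤ 1) :
    (∀ i, w ((f * g).coeff i) ≤ 1) ∧ ((∀ i, w ((f * g).coeff i) < 1) ↔
      (∀ i, w (f.coeff i) < 1) ∨ ∀ i, w (g.coeff i) < 1) := by
  obtain ⟨κ, _, ρ, hρ, -⟩ := exists_resf w
  obtain ⟨f, rfl⟩ := red_lift hf
  obtain ⟨g, rfl⟩ := red_lift hg
  have e := fun f => red_sm (α := w.integer.subtype) (ρ := ρ) (w := w) hρ f
  rw [← map_mul, ← e, ← e, ← e, map_mul (lm ρ), mul_eq_zero]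
  exact ⟨fun i => ((f * g).coeff i).2, Iff.rfl⟩

theorem red_lm_lm {S T : Type} [CommRing S] [CommRing T] {S' : Type} [CommRing S'] {f : R →+* S}
    {g : S →+* T} {f' : R →+* S'} {g' : S' →+* T} (h : ∀ a, g (f a) = g' (f' a)) (x : Ls R) :
    lm g (lm f x) = lm g' (lm f' x) := by
  ext j
  exact h _

/-- every element is a quotient of an integral element by a polynomial -/
theorem exists_int_mul {F : Type} [Field F] [Algebra L[X] F] [IsFractionRing L[X] F] [Algebra F N]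
    [FiniteDimensional F N] (w : Vl L) (x : N) : ∃ b : (w.integer)[X], b ≠ 0 ∧
      ((toF L[X] F N).comp (Polynomial.mapRingHom w.integer.subtype)).IsIntegralElem
        (x * toF L[X] F N (b.map w.integer.subtype)) := by
  have h := (red_fr w).poly (isFr_alg L[X] F)
  let := ((algebraMap L[X] F).comp (Polynomial.mapRingHom w.integer.subtype)).toAlgebra
  have := h.frac
  let := ((toF L[X] F N).comp (Polynomial.mapRingHom w.integer.subtype)).toAlgebra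
  have : IsScalarTower (w.integer)[X] F N := IsScalarTower.of_algebraMap_eq fun _ => rfl
  obtain ⟨y, hy, hi⟩ := ((IsFractionRing.isAlgebraic_iff (w.integer)[X] F N).2
    (Algebra.IsAlgebraic.isAlgebraic x)).exists_integral_multiple
  refine ⟨y, hy, ?_⟩
  rw [Algebra.smul_def, mul_comm] at hi
  exact hi

theorem supN_of_gauss {F : Type} [Field F] [Algebra L[X] F] [IsFractionRing L[X] F] [Algebra F N]
    [FiniteDimensional F N] (hι : ∀ p, ι (toF L[X] F N p) = tL L p) (h : GaussW F ι w W) :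
    SupN ι w W := by
  have _ := hι
  have key : ∀ x : N, ∃ B : N, B ≠ 0 ∧
      ((∀ j, w ((ι B).coeff j) ≤ W B) ∧ ∃ j, w ((ι B).coeff j) = W B) ∧
      ((∀ j, w ((ι (x * B)).coeff j) ≤ W (x * B)) ∧ ∃ j, w ((ι (x * B)).coeff j) = W (x * B)) := by
    intro x
    obtain ⟨b, hb, hi⟩ := exists_int_mul (F := F) w x
    refine ⟨_, ?_, h.2.1 _ (RingHom.isIntegralElem_map _), h.2.1 _ hi⟩
    exact (map_ne_zero (algebraMap F N)).2 (((red_fr w).poly (isFr_alg L[X] F)).vfrc_ne hb)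
  refine ⟨fun z hz => ?_, fun x => ?_⟩
  · obtain ⟨B, hB, ⟨h1, j, hj⟩, h2, k, hk⟩ := key z
    have hW : W B ≠ 0 := W.ne_zero_iff.2 hB
    have hc : (ι B).coeff j ≠ 0 := w.ne_zero_iff.1 (hj ▸ hW)
    have hg : ∀ i, w ((HahnSeries.C ((ι B).coeff j)⁻¹ * ι B).coeff i) =
        (W B)⁻¹ * w ((ι B).coeff i) := fun i => by rw [red_C, map_mul, map_inv₀, hj]
    obtain ⟨m1, m2⟩ := red_mul hz (g := HahnSeries.C ((ι B).coeff j)⁻¹ * ι B) fun i => by
      rw [hg, inv_mul_le_one₀ (zero_lt_iff.2 hW)]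
      exact h1 i
    have e : ∀ i, w ((ι z * (HahnSeries.C ((ι B).coeff j)⁻¹ * ι B)).coeff i) =
        (W B)⁻¹ * w ((ι (z * B)).coeff i) := fun i => by
      rw [mul_left_comm, red_C, map_mul, map_inv₀, hj, map_mul ι]
    have e1 : W z = (W B)⁻¹ * W (z * B) := by
      rw [map_mul, mul_comm (W z), inv_mul_cancel_left₀ hW]
    refine ⟨by rw [e1, ← hk, ← e]; exact m1 k, fun hl => ?_, fun hl => ?_⟩
    · refine (m2.1 fun i => ?_).resolve_right fun hh => ?_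
      · rw [e]
        exact (mul_le_mul_right (h2 i) _).trans_lt (e1 ▸ hl)
      · have := hh j
        rw [hg, hj, inv_mul_cancel₀ hW] at this
        exact lt_irrefl _ this
    · rw [e1, ← hk, ← e]
      exact m2.2 (Or.inl hl) k
  · obtain ⟨B, hB, ⟨h1, -⟩, h2, -⟩ := key x
    obtain ⟨a, ha⟩ := h.1 B
    obtain ⟨a', ha'⟩ := h.1 (x * B)
    exact ⟨B, a, a', hB, fun i => ha ▸ h1 i, fun i => ha' ▸ h2 i⟩

/-- normalisation by a constant -/
theorem exists_unit_coeff {f : Ls L} (h0 : f ≠ 0) {a : L} (h : ∀ i, w (f.coeff i) ≤ w a) :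
    ∃ i, f.coeff i ≠ 0 ∧ ∀ i', w (f.coeff i') ≤ w (f.coeff i) := by
  have hp : ∀ i, f.coeff i ≠ 0 → w (f.coeff i) ≠ 0 := fun i hi => w.ne_zero_iff.2 hi
  obtain ⟨n, ⟨i, hi, rfl⟩, hn⟩ := Int.exists_greatest_of_bdd
    (P := fun n => ∃ i, f.coeff i ≠ 0 ∧ WithZero.log (w (f.coeff i)) = n)
    ⟨WithZero.log (w a), by
      rintro _ ⟨i, hi, rfl⟩
      exact (WithZero.log_le_log (hp i hi)
        ((zero_lt_iff.2 (hp i hi)).trans_le (h i)).ne').2 (h i)⟩
    (by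
      by_contra hc
      refine h0 (HahnSeries.ext (funext fun i => ?_))
      by_contra hi
      exact hc ⟨_, i, hi, rfl⟩)
  refine ⟨i, hi, fun i' => ?_⟩
  by_cases h' : f.coeff i' = 0
  · simp [h']
  · exact (WithZero.log_le_log (hp i' h') (hp i hi)).1 (hn _ ⟨i', h', rfl⟩)

theorem SupN.over (h : SupN ι w W) {c : L →+* N} (hc : ∀ a, ι (c a) = HahnSeries.C a) :
    Over c w W := by
  have e : ∀ (a : L) (i : ℤ), w ((ι (c a)).coeff i) ≤ w a := fun a i => by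
    rw [hc, HahnSeries.C_apply, HahnSeries.coeff_single]
    split_ifs <;> simp
  refine fun a => ⟨fun ha => ?_, fun ha => (h.le _ fun i => (e a i).trans ha).1⟩
  by_contra hl
  have h1 : 1 < w a := not_le.1 hl
  have h0 : a ≠ 0 := fun e => by simp [e] at h1
  have h2 : w a⁻¹ < 1 := by rw [map_inv₀]; exact inv_lt_one_of_one_lt₀ h1
  have h3 := (h.le _ fun i => (e a⁻¹ i).trans h2.le).2.2 fun i => (e a⁻¹ i).trans_lt h2
  have h4 := mul_lt_one_of_nonneg_of_lt_one_right ha zero_le h3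
  rw [← map_mul, ← map_mul, mul_inv_cancel₀ h0, map_one, map_one] at h4
  exact lt_irrefl _ h4

theorem red_unit (h : SupN ι w W) {c : L →+* N} (hc : ∀ a, ι (c a) = HahnSeries.C a) {b : N}
    (hb : b ≠ 0) {a : L} (ha : ∀ i, w ((ι b).coeff i) ≤ w a) : ∃ a', a' ≠ 0 ∧
      (∀ i, w ((ι b).coeff i) ≤ w a') ∧ (∀ i, w ((ι (c a'⁻¹ * b)).coeff i) ≤ 1) ∧
      W (c a'⁻¹ * b) = 1 ∧ W b = W (c a') := by
  obtain ⟨j, hj, h1⟩ := exists_unit_coeff ((map_ne_zero ι).2 hb) ha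
  have h0 : w ((ι b).coeff j) ≠ 0 := w.ne_zero_iff.2 hj
  have e : ∀ i, w ((ι (c ((ι b).coeff j)⁻¹ * b)).coeff i) =
      (w ((ι b).coeff j))⁻¹ * w ((ι b).coeff i) := fun i => by
    rw [map_mul, hc, red_C, map_mul, map_inv₀]
  have h2 : ∀ i, w ((ι (c ((ι b).coeff j)⁻¹ * b)).coeff i) ≤ 1 := fun i => by
    rw [e, inv_mul_le_one₀ (zero_lt_iff.2 h0)]
    exact h1 i
  have h3 : W (c ((ι b).coeff j)⁻¹ * b) = 1 := (h.le _ h2).1.eq_of_not_lt fun hl => by
    have := (h.le _ h2).2.1 hl j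
    rw [e, inv_mul_cancel₀ h0] at this
    exact lt_irrefl _ this
  refine ⟨_, hj, h1, h2, h3, ?_⟩
  rw [map_mul, map_inv₀, map_inv₀,
    inv_mul_eq_one₀ (W.ne_zero_iff.2 ((map_ne_zero c).2 hj))] at h3
  exact h3.symm

theorem red_frac (h : SupN ι w W) {c : L →+* N} (hc : ∀ a, ι (c a) = HahnSeries.C a) {x : N}
    (hx : W x ≤ 1) : ∃ b, W b = 1 ∧ (∀ i, w ((ι b).coeff i) ≤ 1) ∧
      ∀ i, w ((ι (x * b)).coeff i) ≤ 1 := by
  obtain ⟨b, a, a', hb, ha, ha'⟩ := h.frac x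
  obtain ⟨a₁, -, -, h1, h2, -⟩ := red_unit h hc hb ha
  refine ⟨_, h2, h1, ?_⟩
  by_cases h0 : x * (c a₁⁻¹ * b) = 0
  · intro i
    rw [h0]
    simp
  obtain ⟨a₂, -, h3, -, -, h4⟩ := red_unit h hc h0 (a := a₁⁻¹ * a') fun i => by
    rw [mul_left_comm, map_mul, hc, red_C, map_mul w, map_mul w]
    exact mul_le_mul_right (ha' i) _
  refine fun i => (h3 i).trans ((h.over hc a₂).1 ?_)
  rw [← h4, map_mul, h2, mul_one]
  exact hx

theorem SupN.e1 (h : SupN ι w W) {c : L →+* N} (hc : ∀ a, ι (c a) = HahnSeries.C a) (x : N) :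
    ∃ a, W x = W (c a) := by
  by_cases hx : x = 0
  · exact ⟨0, by rw [hx, map_zero c]⟩
  obtain ⟨b, a, a', hb, ha, ha'⟩ := h.frac x
  obtain ⟨a₁, -, -, -, -, h1⟩ := red_unit h hc hb ha
  obtain ⟨a₂, -, -, -, -, h2⟩ := red_unit h hc (mul_ne_zero hx hb) ha'
  refine ⟨a₂ / a₁, ?_⟩
  rw [map_div₀, map_div₀, ← h1, ← h2, map_mul, mul_div_cancel_right₀ _ (W.ne_zero_iff.2 hb)]

theorem SupN.cen (h : SupN ι w W) {A : Type} [CommRing A] {γ : A →+* L} {P : A} (hP : Cen γ w P)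
    {φ : A[X] →+* N} (hφ : ∀ p, ι (φ p) = tL L (p.map γ)) : Cen φ W (Polynomial.C P) := by
  have e : ∀ (p : A[X]) (i : ℤ), (ι (φ p)).coeff i = 0 ∨
      ∃ n, (ι (φ p)).coeff i = γ (p.coeff n) := fun p i => by
    rw [hφ]
    exact (tM_coeff_cases one_pos _ i).imp id fun ⟨n, hn⟩ => ⟨n, by rw [hn, Polynomial.coeff_map]⟩
  have h1 : ∀ (p : A[X]) (i : ℤ), w ((ι (φ p)).coeff i) ≤ 1 := fun p i => by
    rcases e p i with h0 | ⟨n, hn⟩
    · simp [h0]
    · exact hn ▸ hP.1 _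
  refine ⟨fun p => (h.le _ (h1 p)).1, fun p => ?_⟩
  rw [(h.le _ (h1 p)).2, Polynomial.C_dvd_iff_dvd_coeff]
  refine ⟨fun hl n => (hP.2 _).1 ?_, fun hl i => ?_⟩
  · have := hl (-((1 * n : ℕ) : ℤ))
    rwa [hφ, tM_coeff one_pos, Polynomial.coeff_map] at this
  · rcases e p i with h0 | ⟨n, hn⟩
    · simp [h0]
    · exact hn ▸ (hP.2 _).2 (hl n)

theorem SupN.exists_red (h : SupN ι w W) {c : L →+* N} (hc : ∀ a, ι (c a) = HahnSeries.C a)
    {α : R →+* L} (hα : Function.Injective α) (hr : ∀ x, w x ≤ 1 ↔ x ∈ α.range) {ρ : R →+* κ}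
    (hρ : ∀ a, ρ a = 0 ↔ w (α a) < 1) : ∃ ρW, GRed ι α ρ W ρW := by
  have h1 : ∀ f : Ls R, ∀ i, w ((lm α f).coeff i) ≤ 1 := fun f i => (hr _).2 ⟨_, rfl⟩
  have hfr : ∀ x : W.integer, ∃ (b : N) (f g : Ls R), ι ((x : N) * b) = lm α f ∧ ι b = lm α g ∧
      lm ρ g ≠ 0 ∧ W b = 1 := fun x => by
    obtain ⟨b, hb, h2, h3⟩ := red_frac h hc (x := x) x.2
    obtain ⟨g, hg⟩ := (mem_lm_range hα _).2 fun i => (hr _).1 (h2 i)
    obtain ⟨f, hf⟩ := (mem_lm_range hα _).2 fun i => (hr _).1 (h3 i)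
    refine ⟨b, f, g, hf.symm, hg.symm, fun e => ?_, hb⟩
    rw [red_sm hρ, hg, ← (h.le _ h2).2, hb] at e
    exact lt_irrefl _ e
  choose b f g hf hg hn hb using hfr
  have key : ∀ (x : W.integer) (b' : N) (f' g' : Ls R), ι ((x : N) * b') = lm α f' →
      ι b' = lm α g' → lm ρ g' ≠ 0 → lm ρ (f x) / lm ρ (g x) = lm ρ f' / lm ρ g' := by
    intro x b' f' g' e1 e2 e3
    have : f x * g' = f' * g x := lm_injective hα (by
      rw [map_mul, map_mul, ← hf, ← hg, ← e1, ← e2, map_mul, map_mul]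
      ring)
    rw [div_eq_div_iff (hn x) e3, ← map_mul, ← map_mul, this]
  have key1 : ∀ (x : W.integer) (f' : Ls R), ι (x : N) = lm α f' →
      lm ρ (f x) / lm ρ (g x) = lm ρ f' := fun x f' e => by
    rw [key x 1 f' 1 (by rwa [mul_one]) (by rw [map_one, map_one]) (by simp), map_one, div_one]
  let r : W.integer →+* Ls κ :=
    { toFun := fun x => lm ρ (f x) / lm ρ (g x)
      map_one' := (key1 1 1 (by simp)).trans (map_one _)
      map_zero' := (key1 0 0 (by simp)).trans (map_zero _)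
      map_mul' := fun x y => by
        rw [key (x * y) (b x * b y) (f x * f y) (g x * g y)
          (by rw [map_mul (lm α), ← hf, ← hf, ← map_mul, Subring.coe_mul, mul_mul_mul_comm])
          (by rw [map_mul, map_mul, hg, hg]) (by rw [map_mul]; exact mul_ne_zero (hn x) (hn y)),
          map_mul, map_mul, div_mul_div_comm]
      map_add' := fun x y => by
        rw [key (x + y) (b x * b y) (f x * g y + g x * f y) (g x * g y)
          (by
            rw [map_add (lm α), map_mul (lm α), map_mul (lm α), ← hf, ← hf, ← hg, ← hg,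
              Subring.coe_add]
            simp only [map_mul, map_add]
            ring)
          (by rw [map_mul, map_mul, hg, hg]) (by rw [map_mul]; exact mul_ne_zero (hn x) (hn y)),
          map_add, map_mul, map_mul, map_mul, div_add_div _ _ (hn x) (hn y)] }
  refine ⟨r, fun x => ?_, fun z f' e => ⟨(h.le z fun i => e ▸ h1 f' i).1, key1 _ f' e⟩,
    fun x => ⟨b x, f x, g x, hf x, hg x, hn x⟩⟩
  change lm ρ (f x) / lm ρ (g x) = 0 ↔ _
  rw [div_eq_zero_iff, or_iff_left (hn x), red_sm hρ, ← hf,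
    ← (h.le _ fun i => hf x ▸ h1 (f x) i).2, map_mul, hb, mul_one]

theorem SupN.exists_red' (h : SupN ι w W) {c : L →+* N} (hc : ∀ a, ι (c a) = HahnSeries.C a)
    {ρ : w.integer →+* κ} (hρ : IsRed w ρ) : ∃ ρW, GRed ι w.integer.subtype ρ W ρW :=
  h.exists_red hc Subtype.val_injective
    (fun x => ⟨fun hx => ⟨⟨x, hx⟩, rfl⟩, by rintro ⟨y, rfl⟩; exact y.2⟩) hρ

variable {α : R →+* L} {ρ : R →+* κ} {ρW : W.integer →+* Ls κ}

theorem GRed.map (h : GRed ι α ρ W ρW) {L' N' R' κ' : Type} [Field L'] [Field N'] [CommRing R']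
    [Field κ'] {ι' : N' →+* Ls L'} {α' : R' →+* L'} {ρ' : R' →+* κ'} {W' : Vl N'}
    {ρW' : W'.integer →+* Ls κ'} (h' : GRed ι' α' ρ' W' ρW') (s : N →+* N') (δ : L →+* L')
    (δR : R →+* R') (δκ : κ →+* κ') (hs : ∀ z, ι' (s z) = lm δ (ι z))
    (h1 : ∀ a, δ (α a) = α' (δR a)) (h2 : ∀ a, ρ' (δR a) = δκ (ρ a)) :
    ∃ ho : Over s W W', ∀ x, ρW' (ho.int x) = lm δκ (ρW x) := by
  have key : ∀ x : W.integer, ∃ hx : W' (s x) ≤ 1, ρW' ⟨s x, hx⟩ = lm δκ (ρW x) := fun x => by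
    obtain ⟨b, f, g, hf, hg, hn⟩ := h.frac x
    have k : ∀ z f, ι z = lm α f → ∃ hz, ρW' ⟨s z, hz⟩ = lm δκ (lm ρ f) := fun z f e => by
      obtain ⟨hz, e'⟩ := h'.val (s z) (lm δR f) (by rw [hs, e, red_lm_lm h1])
      exact ⟨hz, e'.trans (red_lm_lm h2 f)⟩
    obtain ⟨a1, e1⟩ := k _ _ hf
    obtain ⟨a2, e2⟩ := k _ _ hg
    obtain ⟨a3, e3⟩ := h.val _ _ hf
    obtain ⟨a4, e4⟩ := h.val _ _ hg
    have n2 : lm δκ (lm ρ g) ≠ 0 := (map_ne_zero _).2 hn
    have n3 : W' (s b) = 1 := (h'.red.ne_zero ⟨s b, a2⟩).1 (e2 ▸ n2)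
    have hx : W' (s x) ≤ 1 := by
      have : W' (s (x * b)) ≤ 1 := a1
      rwa [map_mul, map_mul, n3, mul_one] at this
    refine ⟨hx, mul_right_cancel₀ n2 ?_⟩
    have q1 : ρW x * lm ρ g = lm ρ f := by
      rw [← e3, ← e4, ← map_mul]
      rfl
    rw [← map_mul, q1, ← e1, ← e2, ← map_mul]
    exact congrArg ρW' (Subtype.ext (map_mul s _ _).symm)
  refine ⟨fun x => ⟨fun hx => ?_, fun hx => (key ⟨x, hx⟩).1⟩, fun x => (key x).2⟩
  by_contra hl
  have g1 : 1 < W x := not_le.1 hl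
  have g0 : x ≠ 0 := fun e => by simp [e] at g1
  have g2 : W x⁻¹ < 1 := by rw [map_inv₀]; exact inv_lt_one_of_one_lt₀ g1
  obtain ⟨a, e⟩ := key ⟨x⁻¹, g2.le⟩
  rw [(h.red ⟨x⁻¹, g2.le⟩).2 g2, map_zero] at e
  have g4 := mul_lt_one_of_nonneg_of_lt_one_right hx zero_le ((h'.red _).1 e)
  rw [← map_mul, ← map_mul, mul_inv_cancel₀ g0, map_one, map_one] at g4
  exact lt_irrefl _ g4

theorem GRed.poly (h : GRed ι α ρ W ρW) {A : Type} [CommRing A] (η : A →+* R) {φ : A[X] →+* N}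
    (hφ : ∀ p, ι (φ p) = tL L (p.map (α.comp η))) (p : A[X]) :
    ∃ hp, ρW ⟨φ p, hp⟩ = tL κ (p.map (ρ.comp η)) := by
  obtain ⟨hp, e⟩ := h.val (φ p) (tL R (p.map η)) (by rw [hφ, lm_tM, Polynomial.map_map])
  exact ⟨hp, by rw [e, lm_tM, Polynomial.map_map]⟩

/-- the action on the coefficients respects decomposition and inertia groups -/
theorem SupN.dec_ine {K F : Type} [Field K] [Field F] [Algebra K L] [Algebra F N] (h : SupN ι w W)
    {c : L →+* N} (hc : ∀ a, ι (c a) = HahnSeries.C a) {s : N ≃ₐ[F] N} {δ : L ≃ₐ[K] L}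
    (hs : ∀ z, ι (s z) = lm (δ : L →+* L) (ι z)) :
    (δ ∈ Dec K w → s ∈ Dec F W) ∧ (δ ∈ Ine K w → s ∈ Ine F W) := by
  have e : ∀ z i, (ι (s z)).coeff i = δ ((ι z).coeff i) := fun z i => by rw [hs]; rfl
  have k : δ ∈ Dec K w → ∀ z, (∀ i, w ((ι z).coeff i) ≤ 1) → W z = 1 → W (s z) = 1 := by
    intro hδ z hz h1
    have h2 : ∀ i, w ((ι (s z)).coeff i) = w ((ι z).coeff i) := fun i => by rw [e, hδ]
    have h3 := h.le (s z) fun i => (h2 i).trans_le (hz i)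
    refine h3.1.eq_of_not_lt fun hl => h1.not_lt ((h.le z hz).2.2 fun i => ?_)
    exact h2 i ▸ h3.2.1 hl i
  have d : δ ∈ Dec K w → s ∈ Dec F W := fun hδ x => by
    by_cases hx : x = 0
    · rw [hx, map_zero]
    obtain ⟨a, ha⟩ := h.e1 hc x
    have h0 : W (c a) ≠ 0 := ha ▸ W.ne_zero_iff.2 hx
    have h1 : W (x / c a) = 1 := by rw [map_div₀, ha, div_self h0]
    obtain ⟨b, hb, h2, h3⟩ := red_frac h hc h1.le
    have h4 := k hδ _ h3 (by rw [map_mul, h1, hb, mul_one])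
    have h5 : s (c a) = c (δ a) := ι.injective (by
      ext i
      rw [e, hc, hc, HahnSeries.C_apply, HahnSeries.C_apply, HahnSeries.coeff_single,
        HahnSeries.coeff_single]
      split_ifs <;> simp)
    have h6 : W (c (δ a)) = W (c a) := ((h.over hc).eq_iff _ _).2 (hδ a)
    rw [map_mul, map_mul, k hδ b h2 hb, mul_one, map_div₀, map_div₀, h5, h6,
      div_eq_one_iff_eq h0] at h4
    rw [h4, ha]
  refine ⟨d, fun hδ => ⟨d hδ.1, fun x hx => ?_⟩⟩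
  obtain ⟨b, hb, h2, h3⟩ := red_frac h hc hx
  have k2 : ∀ z, (∀ i, w ((ι z).coeff i) ≤ 1) → W (s z - z) < 1 := fun z hz => by
    have : ∀ i, w ((ι (s z - z)).coeff i) < 1 := fun i => by
      rw [map_sub, HahnSeries.coeff_sub, e]
      exact hδ.2 _ (hz i)
    exact (h.le _ fun i => (this i).le).2.2 this
  have h4 : (s x - x) * s b = (s (x * b) - x * b) - x * (s b - b) := by
    rw [map_mul]; ring
  have h5 := W.map_sub_lt (k2 _ h3) (show W (x * (s b - b)) < 1 by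
    rw [map_mul]; exact mul_lt_one_of_nonneg_of_lt_one_right hx zero_le (k2 _ h2))
  rwa [← h4, map_mul, d hδ.1 b, hb, mul_one] at h5

theorem red_cc (g : Ps κ) : cc κ g = 0 ↔ lval κ (lid κ g) < 1 := by
  rw [← not_iff_not, ← ne_eq, ← isUnit_iff_ne_zero, ← PowerSeries.isUnit_iff_constantCoeff,
    ← (isVR_lval κ).eq_one]
  exact ⟨fun e => e.not_lt, ((isVR_lval κ).le_one g).eq_of_not_lt⟩

/-- the valuation ring of an embedding into a Laurent series field -/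
theorem exists_ls_int (γ : L →+* Ls κ) : ∃ δ : ((lval κ).comap γ).integer →+* Ps κ,
    (∀ a, lid κ (δ a) = γ a) ∧ IsRed ((lval κ).comap γ) ((cc κ).comp δ) := by
  obtain ⟨e, he⟩ := (isVR_lval κ).exists_equiv
  have h : ∀ a, lid κ (((e.symm : _ →+* Ps κ).comp (Over.comap γ (lval κ)).int) a) = γ a :=
    fun a => (he _).symm.trans (congrArg Subtype.val (e.apply_symm_apply _))
  exact ⟨_, h, fun a => (red_cc _).trans (iff_of_eq (congrArg (fun t => lval κ t < 1) (h a)))⟩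

theorem cc_eq_zero (g : Ps κ) : cc κ g = 0 ↔ lval κ (lid κ g) < 1 := by
  exact red_cc g

end Pool.Agent.ZFy.ZL
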