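import Pool.Agent.Lib.MP_751085_ag.ZF.Z.Bc2
import Pool.Agent.Lib.MP_751085_ag.ZF.Z.Red
import Pool.Agent.Lib.MP_751085_ag.ZC.V.Zor
import Pool.Agent.Lib.MP_751085_ag.ZC.V.Hns

/-! Good reduction at the primes off `Δ`. -/

namespace Pool.Agent.ZFy.ZL

open Pool.Agent.ZCy
open scoped Classical WithZero Polynomial

set_option linter.unusedSectionVars false

variable {l q : ℕ} {k A K F T N₁ : Type} [Field k] [CommRing A] [IsDomain A]
  [UniqueFactorizationMonoid A] [Field K] [Field F] [Field T] [Field N₁] [Algebra A K]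
  [IsFractionRing A K] [Algebra K[X] F] [IsFractionRing K[X] F] [Algebra F T]
  [FiniteDimensional F T] [IsGalois F T] [Algebra K N₁] [FiniteDimensional K N₁] [IsGalois K N₁]
  {c : k →+* A} {Th : A[X]} {Δ : A} {τ : T →+* Ls N₁}

/-- the complete model at a valuation over a prime off `Δ` -/
theorem Crt.model (C : Crt K F l q c Th Δ τ) {L : Type} [Field L] {γ : K →+* L} {w : Vl L} {P : A}
    (hP : Prime P) (hΔ : ¬P ∣ Δ) (hw : Cen (γ.comp (algebraMap A K)) w P) :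
    ∃ (R KK : Type) (_ : CommRing R) (_ : IsDomain R) (_ : CDVR R)
      (_ : IsAlgClosed (IsLocalRing.ResidueField R)) (_ : Field KK) (α : R →+* KK) (v : Vl KK)
      (η : A →+* R) (γ' : L →+* KK) (γN : N₁ →+* KK), IsVR α v ∧ Over γ' w v ∧
      (∀ a, γ' (γ (algebraMap A K a)) = α (η a)) ∧ (∀ a, γN (toF A K N₁ a) = α (η a)) ∧
      (∀ x, ∃ a, v x ^ q = v (γ' a)) ∧
      Gd l (pA A K F T) Th η α v (IsLocalRing.residue R) ∧ (Th.map (α.comp η)).Splits := by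
  obtain ⟨w₀, e, hn, he, hi⟩ := exists_nrm (v := w) (x := γ (algebraMap A K P))
    ((map_ne_zero γ).2 ((map_ne_zero_iff _ (IsFractionRing.injective A K)).2 hP.ne_zero))
    ((hw.2 P).2 dvd_rfl).ne
  obtain ⟨R, _, _, _, v, γ₀, _, hα, h1⟩ := zorn hn
  have ho : Over γ₀ w v := fun x => (h1.over one_ne_zero x).trans (hi.over he x).symm
  obtain ⟨η₀, hη⟩ := ring_factor (γ₀.comp (γ.comp (algebraMap A K))) _ hα.2.1 fun z =>
    (hα.2.2 _).1 ((ho _).2 (hw.1 z))
  obtain ⟨w₁, hw₁⟩ := exists_cen (K := K) (E := N₁) hP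
  obtain ⟨ψ, hψ, -⟩ := hens_closed (cen_over (v := w.comap γ) hP hw hw₁) (C.unr P w₁ hP hΔ hw₁) hα
    (φ := γ₀.comp γ) fun x => ho (γ x)
  obtain ⟨Φ, hΦ⟩ := C.frb R η₀
  obtain ⟨Φ', hΦ'⟩ := C.frb (Fr R) ((algebraMap R _).comp η₀)
  have ho' : Over (Φ'.comp γ₀) w v := fun x => by
    rw [RingHom.comp_apply, hΦ', map_pow, pow_le_one_iff_of_nonneg zero_le C.qne, ho]
  have e1 : ∀ a, (Φ'.comp γ₀) (γ (algebraMap A K a)) = algebraMap R _ ((Φ.comp η₀) a) := fun a => by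
    rw [RingHom.comp_apply, RingHom.comp_apply, hΦ', hΦ, map_pow, hη]
    rfl
  have e2 : ∀ a, (Φ'.comp ψ) (toF A K N₁ a) = algebraMap R _ ((Φ.comp η₀) a) := fun a =>
    (congrArg Φ' (hψ _)).trans (e1 a)
  refine ⟨R, Fr R, _, _, inferInstance, inferInstance, _, _, v, Φ.comp η₀, Φ'.comp γ₀, Φ'.comp ψ,
    hα, ho', e1, e2, fun x => ?_, C.gd R _ _ _ _ v _ ψ hα IsLocalRing.residue_surjective
      (fun a => (hΦ' _).symm.trans (e2 a)) ((hα.eq_one _).1 ?_)⟩
  · obtain ⟨a, ha⟩ := hn.surj (v x)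
    refine ⟨a, ?_⟩
    rw [RingHom.comp_apply, hΦ', map_pow, ← ha]
    rcases eq_or_ne a 0 with rfl | h0
    · rw [map_zero, map_zero, map_zero]
    · rw [h1 a h0, pow_one]
  · rw [← e1, ho'.eq_one]
    exact (hw.eq_one Δ).2 hΔ

variable {K' L F' N : Type} [Field K'] [Field L] [Field F'] [Field N] [Algebra K' L]
  [Algebra K'[X] F'] [IsFractionRing K'[X] F'] [Algebra F' N] [FiniteDimensional F' N]
  [IsGalois F' N]

theorem Crt.gr1 (C : Crt K F l q c Th Δ τ) {d : SecD 1 K' L F' N} {γ : K →+* L} {j : T →+* N}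
    (h : SC l F (Th.map (algebraMap A K)) d γ j) {w : Vl L} {P : A} (hP : Prime P) (hΔ : ¬P ∣ Δ)
    (hw : Cen (γ.comp (algebraMap A K)) w P) :
    ∃ W : Vl N, SupN d.ι w W ∧ geo d ≤ Dec F' W ∧ Ine F' W ⊓ geo d = ⊥ := by
  obtain ⟨R, KK, _, _, _, _, _, α, v, η, γ', -, -, ho, h1, -, hq, hG, -⟩ := C.model hP hΔ hw
  obtain ⟨N', _, _, _, _, ⟨b⟩⟩ := exists_bcd d γ' (Fr KK[X])
  obtain ⟨c', hι, -⟩ := b.cov h (β := α.comp η) h1
  obtain ⟨W, hW⟩ := hG.ta _ N' c'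
  rw [hι] at hW
  have hg := gauss_of_int one_pos _ b.ι b.hι v W hW.2.1
  have key : ∀ z, (d.φ.comp (Polynomial.mapRingHom w.integer.subtype)).IsIntegralElem z →
      ∀ i, w ((d.ι z).coeff i) ≤ w 1 := fun z hz i => by
    have hz' : ((toF KK[X] (Fr KK[X]) N').comp
        (Polynomial.mapRingHom v.integer.subtype)).IsIntegralElem (b.j z) := by
      refine .of_comp (f := Polynomial.mapRingHom ho.int) ?_
      refine (congrArg (RingHom.IsIntegralElem · _) (RingHom.ext fun p => ?_)).mp (hz.map b.j)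
      simp only [RingHom.comp_apply, Polynomial.coe_mapRingHom, Polynomial.map_map, b.hφ]
      rfl
    have := ((hW.2.1 _ hz').1 i).trans (le_one_of_integral (fun p => by
      obtain ⟨i, hi⟩ := (hg (p.map v.integer.subtype)).2
      rw [Polynomial.coeff_map] at hi
      exact hi.ge.trans (p.coeff i).2) hz')
    rwa [b.hj, lm_coeff, ho, ← map_one w] at this
  have hS : SupN d.ι w (W.comap b.j) := by
    refine ⟨fun z hz => ?_, fun x => ?_⟩
    · have := (supN_of_gauss b.hι hW).le (b.j z) fun i => by rw [b.hj, lm_coeff, ho]; exact hz i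
      simpa only [b.hj, lm_coeff, ho.lt_one, Valuation.comap_apply] using this
    · obtain ⟨_, _, _, e⟩ := exists_geo d (Fr L[X])
      obtain ⟨p, h0, hp⟩ := exists_int_mul (F := Fr L[X]) w x
      rw [e] at hp
      exact ⟨_, 1, 1, (map_ne_zero_iff _ (sd_inj d)).2 ((Polynomial.map_ne_zero_iff
        Subtype.val_injective).2 h0), key _ (RingHom.isIntegralElem_map _), key _ hp⟩
  refine ⟨_, hS, fun g hg x => ?_, eq_bot_iff.2 fun g ⟨hi, hg'⟩ => ?_⟩
  · obtain ⟨g', e⟩ := b.ext hg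
    exact (congrArg W (e x).symm).trans ((hW.2.2.1.ge (Subgroup.mem_top g')) _)
  · obtain ⟨n, hn⟩ := lxt_iff.1 h.lxt g (mem_fixS_union.2 ⟨sep_fix C.sep j (g : N →+* N)
      (h.fix hg') hi.2 hΔ (hS.cen hw fun p => by
        rw [← Polynomial.map_map, ← d.ι_φ, ← h.hj]
        rfl), mem_fixS_range.1 hg'⟩)
    refine unrl hi (val_nat (d.c.comp ((γ.comp (algebraMap A K)).comp c))
      (fun a => (hS.over d.hc _).2 (hw.1 (c a))) C.lne) hn C.cop fun x _ => ?_
    obtain ⟨a₀, h0⟩ := hW.1 (b.j x)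
    obtain ⟨a, ha⟩ := hq a₀
    refine ⟨d.c a, mem_fixS_range.1 hg' a, ?_⟩
    obtain ⟨h2, i, h3⟩ := hg (Polynomial.C (γ' a))
    rw [Valuation.comap_apply, Valuation.comap_apply, h0, ha, ← d.φ_C, b.hφ, Polynomial.map_C]
    refine le_antisymm (by simpa only [Polynomial.coeff_C_zero] using h2 0) (h3.ge.trans ?_)
    rw [Polynomial.coeff_C]
    split_ifs <;> simp

end Pool.Agent.ZFy.ZL
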