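import Pool.Agent.Lib.MP_751085_ag.ZF.Z.Defs
import Pool.Agent.Lib.MP_751085_ag.ZC.V.DecB
import Pool.Agent.Lib.MP_751085_ag.ZC.V.Har

/-! The action on a subfield of the residue field. -/

namespace Pool.Agent.ZFy.ZL

open Pool.Agent.ZCy
open scoped Classical WithZero Polynomial

set_option linter.unusedSectionVars false

theorem ract_hom {F N κ : Type} [Field F] [Field N] [Field κ] [Algebra F N] {W : Vl N}
    {ρ : W.integer →+* κ} (hρ : IsRed W ρ) (hs : Function.Surjective ρ) (g : Dec F W) :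
    ∃ a : κ →+* κ, ∀ x x' : W.integer, (x' : N) = (g : N ≃ₐ[F] N) x → ρ x' = a (ρ x) := by
  have h1 : Over ((g : N ≃ₐ[F] N) : N →+* N) W W := mem_dec.1 g.2
  obtain ⟨a, ha⟩ := hρ.factor hs (hρ.comp_int h1)
  exact ⟨a, fun x x' e => (congrArg ρ (Subtype.ext e)).trans (ha x).symm⟩

theorem ract_mk {F N F₀ E₀ Ω : Type} [Field F] [Field N] [Field F₀] [Field E₀] [Field Ω]
    [Algebra F N] [Algebra F₀ E₀] {W : Vl N} {ρ : W.integer →+* Ω} (J : E₀ →+* Ω)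
    (hJ : ∀ y, J y ∈ ρ.range) (h : ∀ g : Dec F W, ∃ r : E₀ ≃ₐ[F₀] E₀,
      ∀ (x x' : W.integer) (y : E₀), (x' : N) = (g : N ≃ₐ[F] N) x → ρ x = J y → ρ x' = J (r y)) :
    ∃ r : Dec F W →* (E₀ ≃ₐ[F₀] E₀), ∀ (g : Dec F W) (x x' : W.integer) (y : E₀),
      (x' : N) = (g : N ≃ₐ[F] N) x → ρ x = J y → ρ x' = J (r g y) := by
  choose r hr using h
  refine ⟨MonoidHom.mk' r fun g g' => AlgEquiv.ext fun y => J.injective ?_, hr⟩
  obtain ⟨x, hx⟩ := hJ y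
  exact (hr (g * g') x ((stab_int W).act g.2 ((stab_int W).act g'.2 x)) y rfl hx).symm.trans
    (hr g _ _ _ rfl (hr g' x _ y rfl hx))

theorem exists_ract {F N F₀ E₀ Ω : Type} [Field F] [Field N] [Field F₀] [Field E₀] [Field Ω]
    [Algebra F N] [Algebra F₀ E₀] [Normal F₀ E₀] {W : Vl N} {ρ : W.integer →+* Ω} (hρ : IsRed W ρ)
    (J : E₀ →+* Ω) (hJ : ∀ y, J y ∈ ρ.range)
    (h0 : ∀ a : F₀, ∃ (b : F) (h : _), ρ ⟨algebraMap F N b, h⟩ = J (algebraMap F₀ E₀ a)) :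
    ∃ r : Dec F W →* (E₀ ≃ₐ[F₀] E₀), ∀ (g : Dec F W) (x x' : W.integer) (y : E₀),
      (x' : N) = (g : N ≃ₐ[F] N) x → ρ x = J y → ρ x' = J (r g y) := by
  refine ract_mk J hJ fun g => ?_
  obtain ⟨κ, _, ρ₀, h1, hs⟩ := exists_resf W
  obtain ⟨i, hi⟩ := h1.factor hs hρ
  obtain ⟨a, ha⟩ := ract_hom h1 hs g
  have h2 : ∀ y, J y ∈ i.range := fun y => by
    obtain ⟨x, hx⟩ := hJ y
    exact ⟨_, (hi x).trans hx⟩
  obtain ⟨J₀, hJ₀⟩ : ∃ J₀ : E₀ →+* κ, ∀ y, i (J₀ y) = J y :=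
    ⟨(RingEquiv.ofBijective i.rangeRestrict ⟨fun _ _ e => i.injective (congrArg Subtype.val e),
        i.rangeRestrict_surjective⟩).symm.toRingHom.comp (J.codRestrict _ h2), fun y =>
      congrArg Subtype.val ((RingEquiv.ofBijective i.rangeRestrict ⟨fun _ _ e =>
        i.injective (congrArg Subtype.val e), i.rangeRestrict_surjective⟩).apply_symm_apply _)⟩
  let _ : Algebra F₀ κ := (J₀.comp (algebraMap F₀ E₀)).toAlgebra
  let _ : Algebra E₀ κ := J₀.toAlgebra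
  have : IsScalarTower F₀ E₀ κ := .of_algebraMap_eq fun _ => rfl
  let a' : κ →ₐ[F₀] κ := ⟨a, fun t => by
    obtain ⟨b, hb, e⟩ := h0 t
    have e' : ρ₀ ⟨_, hb⟩ = algebraMap F₀ κ t := i.injective ((hi _).trans (e.trans (hJ₀ _).symm))
    rw [← e']
    exact (ha _ _ ((g : N ≃ₐ[F] N).commutes b).symm).symm⟩
  refine ⟨a'.restrictNormal' E₀, fun x x' y e e' => ?_⟩
  rw [← hi, ← hJ₀, ha x x' e, i.injective ((hi x).trans (e'.trans (hJ₀ y).symm))]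
  exact congrArg i (a'.restrictNormal_commutes E₀ y).symm

/-- an inert and unramified valuation with residue field `E₀` -/
theorem exists_riso {F N F₀ E₀ : Type} [Field F] [Field N] [Field F₀] [Field E₀] [Algebra F N]
    [FiniteDimensional F N] [IsGalois F N] [Algebra F₀ E₀] {W : Vl N} {ρ : W.integer →+* E₀}
    (hρ : IsRed W ρ) (hs : Function.Surjective ρ) (hd : Dec F W = ⊤) (hi : Ine F W = ⊥)
    (h0 : ∀ a : F₀, ∃ (b : F) (h : _), ρ ⟨algebraMap F N b, h⟩ = algebraMap F₀ E₀ a)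
    (h1 : ∀ (b : F) (h : _), ∃ a : F₀, ρ ⟨algebraMap F N b, h⟩ = algebraMap F₀ E₀ a) :
    ∃ r : (N ≃ₐ[F] N) ≃* (E₀ ≃ₐ[F₀] E₀), ∀ (g : N ≃ₐ[F] N) (x y : W.integer),
      (y : N) = g x → ρ y = r g (ρ x) := by
  obtain ⟨r, hr⟩ := ract_mk (F := F) (F₀ := F₀) (ρ := ρ) (RingHom.id E₀) hs fun g => by
    obtain ⟨a, ha⟩ := ract_hom hρ hs g
    refine ⟨AlgEquiv.ofBijective ⟨a, fun t => ?_⟩ ⟨a.injective, fun y => ?_⟩, fun x x' y e e' => ?_⟩
    · obtain ⟨b, hb, e⟩ := h0 t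
      rw [← e]
      exact (ha _ _ ((g : N ≃ₐ[F] N).commutes b).symm).symm
    · obtain ⟨x, rfl⟩ := hs y
      exact ⟨_, (ha ((stab_int W).act g⁻¹.2 x) x
        ((g : N ≃ₐ[F] N).apply_symm_apply _).symm).symm⟩
    · exact (ha x x' e).trans (congrArg a e')
  have hm : ∀ g, g ∈ Dec F W := fun g => hd ▸ Subgroup.mem_top g
  refine ⟨MulEquiv.ofBijective (r.comp ((MonoidHom.id _).codRestrict _ hm))
    ⟨(injective_iff_map_eq_one _).2 fun g hg => ?_, fun γ => ?_⟩,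
    fun g x y e => hr ⟨g, hm g⟩ x y _ e rfl⟩
  · refine Subgroup.mem_bot.1 (hi ▸ ⟨hm g, fun x hx => ?_⟩)
    have hg' : r ⟨g, hm g⟩ = 1 := hg
    have := hr ⟨g, hm g⟩ ⟨x, hx⟩ ((stab_int W).act (hm g) ⟨x, hx⟩) _ rfl rfl
    rw [hg'] at this
    exact (hρ.eq_iff _ _).1 this
  · obtain ⟨g, -, e⟩ := red_onto (K := F) hρ (γ : E₀ →+* E₀) fun b hb => by
      obtain ⟨a, ha⟩ := h1 b hb
      rw [ha]
      exact γ.commutes a
    refine ⟨g, AlgEquiv.ext fun y => ?_⟩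
    obtain ⟨x, rfl⟩ := hs y
    exact (hr ⟨g, hm g⟩ x ((stab_int W).act (hm g) x) _ rfl rfl).symm.trans (e x x.2 _)

variable {k A K F N K₁ κ₀ κ₁ F₀ E₀ Ω : Type} [Field k] [CommRing A] [IsDomain A]
  [UniqueFactorizationMonoid A] [Field K] [Field F] [Field N] [Field K₁] [Field κ₀] [Field κ₁]
  [Field F₀] [Field E₀] [Field Ω] [Algebra A K] [IsFractionRing A K] [Algebra K[X] F]
  [IsFractionRing K[X] F] [Algebra F N] [Algebra K K₁] [Algebra κ₀ κ₁] [Algebra κ₀[X] F₀]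
  [IsFractionRing κ₀[X] F₀] [Algebra F₀ E₀] {c : k →+* A} (H : Hy K c K₁ κ₀ κ₁) {W : Vl N}
  {ρ : W.integer →+* Ω} {J : E₀ →+* Ω}

theorem Hy.map_eq_zero (p : A[X]) : p.map H.h = 0 ↔ Polynomial.C H.y ∣ p := by
  simp only [Polynomial.ext_iff, Polynomial.coeff_map, Polynomial.coeff_zero,
    Polynomial.C_dvd_iff_dvd_coeff]
  exact forall_congr' fun n => H.ker _

theorem ract_inj : Function.Injective (toF κ₀[X] F₀ E₀) :=
  (algebraMap F₀ E₀).injective.comp (IsFractionRing.injective κ₀[X] F₀)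

theorem Hy.cen (hρ : IsRed W ρ)
    (h : ∀ p : A[X], ∃ hp, ρ ⟨pA A K F N p, hp⟩ = J (toF κ₀[X] F₀ E₀ (p.map H.h))) :
    Cen (pA A K F N) W (Polynomial.C H.y) := by
  refine ⟨fun p => (h p).1, fun p => ?_⟩
  obtain ⟨hp, e⟩ := h p
  rw [← H.map_eq_zero, ← map_eq_zero_iff _ (ract_inj (F₀ := F₀) (E₀ := E₀)), ← _root_.map_eq_zero J,
    ← e]
  exact (hρ ⟨_, hp⟩).symm

theorem ract_poly (p : κ₀[X]) :
    ∃ d q : A[X], d.map H.h ≠ 0 ∧ q.map H.h = d.map H.h * p := by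
  induction p using Polynomial.induction_on' with
  | add p q hp hq =>
    obtain ⟨d, p', hd, e1⟩ := hp
    obtain ⟨c, q', hc, e2⟩ := hq
    refine ⟨d * c, p' * c + q' * d, by rw [Polynomial.map_mul]; exact mul_ne_zero hd hc, ?_⟩
    simp only [Polynomial.map_add, Polynomial.map_mul, e1, e2]
    ring
  | monomial n x =>
    obtain ⟨a, b, hb, hx⟩ := H.frac x
    have hb' : H.h b ≠ 0 := hb
    have hx' : x * H.h b = H.h a := hx
    refine ⟨Polynomial.C b, Polynomial.monomial n a, by simpa using hb', ?_⟩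
    simp [Polynomial.C_mul_monomial, ← hx', mul_comm x]

theorem ract_div
    (h : ∀ p : A[X], ∃ hp, ρ ⟨pA A K F N p, hp⟩ = J (toF κ₀[X] F₀ E₀ (p.map H.h))) {b : F}
    (hb : algebraMap F N b ∈ W.integer) {p q : A[X]} (hq : q.map H.h ≠ 0)
    (e : algebraMap F N b * pA A K F N q = pA A K F N p) : ρ ⟨algebraMap F N b, hb⟩ =
      J (algebraMap F₀ E₀ (algebraMap _ F₀ (p.map H.h) / algebraMap _ F₀ (q.map H.h))) := by
  obtain ⟨h1, e1⟩ := h p
  obtain ⟨h2, e2⟩ := h q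
  rw [map_div₀, map_div₀]
  refine eq_div_of_mul_eq ((map_ne_zero J).2 ((map_ne_zero_iff _ ract_inj).2 hq)) ?_
  exact ((congrArg _ e2.symm).trans (map_mul ρ _ _).symm).trans
    ((congrArg ρ (Subtype.ext e)).trans e1)

theorem Hy.lift (hρ : IsRed W ρ)
    (h : ∀ p : A[X], ∃ hp, ρ ⟨pA A K F N p, hp⟩ = J (toF κ₀[X] F₀ E₀ (p.map H.h))) (a : F₀) :
    ∃ (b : F) (hb : _), ρ ⟨algebraMap F N b, hb⟩ = J (algebraMap F₀ E₀ a) := by
  obtain ⟨p, q, hq, e⟩ := (isFr_alg κ₀[X] F₀).2 a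
  obtain ⟨d, p', hd, e1⟩ := ract_poly H p
  obtain ⟨d', q', hd', e2⟩ := ract_poly H q
  have h1 : (q' * d).map H.h ≠ 0 := by
    rw [Polynomial.map_mul, e2]
    exact mul_ne_zero (mul_ne_zero hd' hq) hd
  have h2 := ((H.cen hρ h).eq_one _).2 (mt (H.map_eq_zero _).2 h1)
  have h3 : pA A K F N (q' * d) ≠ 0 := W.ne_zero_iff.1 (h2 ▸ one_ne_zero)
  have e3 : algebraMap F N (algebraMap _ F ((p' * d').map (algebraMap A K)) /
      algebraMap _ F ((q' * d).map (algebraMap A K))) =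
      pA A K F N (p' * d') / pA A K F N (q' * d) := map_div₀ _ _ _
  have h4 : algebraMap F N (algebraMap _ F ((p' * d').map (algebraMap A K)) /
      algebraMap _ F ((q' * d).map (algebraMap A K))) ∈ W.integer := by
    rw [e3, Valuation.mem_integer_iff, map_div₀, h2, div_one]
    exact (H.cen hρ h).1 _
  refine ⟨_, h4, (ract_div H h h4 h1 (e3 ▸ div_mul_cancel₀ _ h3)).trans
    (congrArg _ (congrArg _ ?_))⟩
  refine div_eq_of_eq_mul ((isFr_alg κ₀[X] F₀).vfrc_ne h1) ?_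
  simp only [Polynomial.map_mul, e1, e2, map_mul, ← e]
  ring

theorem Hy.down (hρ : IsRed W ρ)
    (h : ∀ p : A[X], ∃ hp, ρ ⟨pA A K F N p, hp⟩ = J (toF κ₀[X] F₀ E₀ (p.map H.h))) (b : F)
    (hb : _) : ∃ a : F₀, ρ ⟨algebraMap F N b, hb⟩ = J (algebraMap F₀ E₀ a) := by
  have h1 : Cen ((algebraMap K[X] F).comp (Polynomial.mapRingHom (algebraMap A K)))
      (W.comap (algebraMap F N)) (Polynomial.C H.y) := H.cen hρ h
  obtain ⟨p, q, hq, e⟩ := (h1.le_one_iff ((isFr_alg A K).poly (isFr_alg K[X] F))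
    (Polynomial.prime_C_iff.2 H.prime) b).1 hb
  exact ⟨_, ract_div H h hb (mt (H.map_eq_zero _).1 hq)
    ((map_mul _ _ _).symm.trans (congrArg (algebraMap F N) e))⟩

end Pool.Agent.ZFy.ZL
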