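import Pool.Agent.Lib.MP_751085_ag.ZF.Z.Rsj
import Pool.Agent.Lib.MP_751085_ag.ZF.Z.Gr1
import Pool.Agent.Lib.MP_751085_ag.ZF.Z.Ract
import Pool.Agent.Lib.MP_751085_ag.ZF.Z.LocE

/-! The residue field of the model over `K₁`. -/

namespace Pool.Agent.ZFy.ZL

open Pool.Agent.ZCy
open scoped Classical WithZero Polynomial

set_option linter.unusedSectionVars false

variable {l q : ℕ} {k A K F T N₁ : Type} [Field k] [CommRing A] [IsDomain A]
  [UniqueFactorizationMonoid A] [Field K] [Field F] [Field T] [Field N₁] [Algebra A K]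
  [IsFractionRing A K] [Algebra K[X] F] [IsFractionRing K[X] F] [Algebra F T]
  [FiniteDimensional F T] [IsGalois F T] [Algebra K N₁] [FiniteDimensional K N₁] [IsGalois K N₁]
  {c : k →+* A} {Th : A[X]} {Δ : A} {τ : T →+* Ls N₁}
variable {K₁ κ₀ κ₁ : Type} [Field K₁] [Field κ₀] [Field κ₁] [Algebra K K₁] [FiniteDimensional K K₁]
  [IsGalois K K₁] [Algebra κ₀ κ₁] [FiniteDimensional κ₀ κ₁] [IsGalois κ₀ κ₁]
  {H : Hy K c K₁ κ₀ κ₁}
variable {F₀ E₀ : Type} [Field F₀] [Field E₀] [Algebra κ₀[X] F₀] [IsFractionRing κ₀[X] F₀]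
  [Algebra F₀ E₀] [FiniteDimensional F₀ E₀] [IsGalois F₀ E₀] {d₀ : SecD 1 κ₀ κ₁ F₀ E₀} {wT : Vl T}
  {ρT : wT.integer →+* E₀}
variable {κ FK ER : Type} [Field κ] [IsAlgClosed κ] [Field FK] [Field ER] [Algebra (Ls κ)[X] FK]
  [IsFractionRing (Ls κ)[X] FK] [Algebra FK ER] [FiniteDimensional FK ER] [IsGalois FK ER]
  {Λ : Loc H T N₁ F l q Th κ}
variable {𝓛 : Lft H Λ τ d₀ wT ρT FK ER}
variable {E : Type} [Field E] [Algebra F E] [FiniteDimensional F E] [IsGalois F E]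

theorem fin_C {R S : Type} [CommRing R] [CommRing S] (f : R →+* S) (a : R) :
    lm f (HahnSeries.C a) = HahnSeries.C (f a) := HahnSeries.map_C a f

theorem Mo.fin (C : Crt K F l q c Th Δ τ) (hy : ¬H.y ∣ Δ) {d : SecD 1 K K₁ F E}
    (M : Mo 𝓛 d Λ.γ₁) : ∃ Z : Res H F l Th F₀ (E₀ := E₀) T E, Z.Ok d₀ wT ρT := by
  have sc := M.sc C (γK := algebraMap K K₁) Λ.h₁
  obtain ⟨W, hN, hD, hI⟩ := C.gr1 sc H.prime hy Λ.cen₁
  obtain ⟨π, σ, hs⟩ := d.exists_spl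
  have hk := ker_eq_geo d hs
  have hdec : Dec F W = ⊤ := eq_top_iff.2 fun g _ => by
    rw [← mul_inv_cancel_right g (σ (π g))⁻¹, inv_inv]
    refine mul_mem (hD (hk ▸ ?_)) ((hN.dec_ine d.hc (hs.hσ _)).1
      (H.inert _ Λ.cen₁ ▸ Subgroup.mem_top _))
    rw [MonoidHom.mem_ker, map_mul, map_inv, hs.sec, mul_inv_cancel]
  obtain ⟨ρ₁, h1, h2, h3, h4⟩ := Λ.res₁
  obtain ⟨ρW, hW⟩ := hN.exists_red' d.hc h2
  obtain ⟨a1, a2, ho, a3⟩ := M.rsj hD hI h1 Λ.f (RingHom.id κ₁) (fun _ => rfl) h3 hW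
  have hid : lm (RingHom.id κ₁) = RingHom.id _ := by ext; rfl
  rw [hid] at a1 a2
  obtain ⟨ρ, hρ⟩ := ring_factor ρW d₀.ι d₀.ι.injective fun x => clo_sd d₀ (a2 x)
  have hred : IsRed W ρ := fun x => by
    rw [← hW.red, ← hρ, map_eq_zero d₀.ι]
  have hsurj : Function.Surjective ρ := fun y => by
    obtain ⟨x, hx⟩ := a1 y
    exact ⟨x, d₀.ι.injective ((hρ x).trans hx)⟩
  have hres : ∀ p : A[X], ∃ h, ρ ⟨pA A K F E p, h⟩ = toF κ₀[X] F₀ E₀ (p.map H.h) := fun p => by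
    obtain ⟨hp, e⟩ := hW.poly ((toF A K K₁).codRestrict _ Λ.cen₁.1) (φ := pA A K F E)
      (fun p => (d.ht _).trans (by rw [Polynomial.coe_mapRingHom, Polynomial.map_map]; rfl)) p
    refine ⟨hp, d₀.ι.injective ((hρ _).trans (e.trans ?_))⟩
    rw [d₀.ht, Polynomial.map_map]
    exact congrArg (fun u => tL κ₁ (p.map u)) (RingHom.ext fun a => Λ.f.injective
      ((h3 ⟨_, Λ.cen₁.1 a⟩ _ (Λ.h₁ a)).symm.trans (Λ.hcc a)))
  have hc : ∀ a, d.c (algebraMap K K₁ a) = toF K[X] F E (Polynomial.C a) := fun a => by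
    rw [← d.φ_C, ← Polynomial.map_C, d.φ_map]
  have hine : Ine F W = ⊥ := eq_bot_iff.2 fun g hg => hI.le ⟨hg, mem_fixS_range.2
    (ine_fix_gen H.gen hg d.c (fun a => by rw [hc]; exact g.commutes _) fun a =>
      (hN.over d.hc _).2 (Λ.cen₁.1 _))⟩
  obtain ⟨r, hr⟩ := exists_riso (F₀ := F₀) hred hsurj hdec hine
    (H.lift (J := RingHom.id E₀) hred hres) (H.down (J := RingHom.id E₀) hred hres)
  have hov : Over M.j wT W := fun x => (ho _).symm.trans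
    ((congrArg (𝓛.W · ≤ 1) (RingHom.congr_fun M.hj x)).to_iff.symm.trans (𝓛.ov x))
  refine ⟨⟨d, M.j, W, ρ, r, sc, hred, hsurj, hdec, hine, hres, hr⟩, hov, fun x => ?_,
    fun a b hab => ?_⟩
  · refine d₀.ι.injective ((lm Λ.f).injective ?_)
    exact (congrArg _ (hρ _)).trans ((a3 _).symm.trans ((congrArg 𝓛.ρ
      (Subtype.ext (RingHom.congr_fun M.hj x).symm)).trans (𝓛.resT x)))
  · obtain ⟨h, e⟩ := h4 a b hab
    obtain ⟨h', e'⟩ := hW.val (d.c a) (HahnSeries.C ⟨a, h⟩) ((d.hc a).trans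
      (fin_C ((lval κ).comap Λ.γ₁).integer.subtype ⟨a, h⟩).symm)
    exact ⟨h', d₀.ι.injective ((hρ _).trans (e'.trans ((fin_C _ _).trans
      ((congrArg _ e).trans (d₀.hc b).symm))))⟩

end Pool.Agent.ZFy.ZL
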