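import Pool.Agent.Lib.MP_751085_ag.ZF.Z.Misc1
import Pool.Agent.Lib.MP_751085_ag.ZC.V.Ctr

/-! The geometric Galois group. -/

namespace Pool.Agent.ZFy.ZL

open Pool.Agent.ZCy
open scoped Classical WithZero Polynomial

set_option linter.unusedSectionVars false

variable {K L F N : Type} [Field K] [Field L] [Field F] [Field N] [Algebra K L] [Algebra K[X] F]
  [IsFractionRing K[X] F] [Algebra F N] [FiniteDimensional F N] [IsGalois F N]

theorem dg_φ {L F N : Type} [Field L] [Field F] [Field N] [Algebra L[X] F] [Algebra F N]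
    (ι : N →+* Ls L) (h : ∀ p, ι (toF L[X] F N p) = tL L p) : (dg F ι h).φ = toF L[X] F N := by
  refine RingHom.ext fun p => ?_
  have e := (dg F ι h).φ_map p
  rwa [Algebra.algebraMap_self, Polynomial.map_id] at e

theorem geo_dg {L F N : Type} [Field L] [Field F] [Field N] [Algebra L[X] F] [Algebra F N]
    (ι : N →+* Ls L) (h : ∀ p, ι (toF L[X] F N p) = tL L p) : geo (dg F ι h) = ⊤ := by
  exact eq_top_iff.2 fun g _ => mem_fixS_range.2 fun a => g.commutes _

variable (d : SecD 1 K L F N)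

theorem sd_inj : Function.Injective d.φ := by
  exact fun p q e => tL_injective (by rw [← d.ι_φ, ← d.ι_φ, e])

theorem geo_φ {g : N ≃ₐ[F] N} (hg : g ∈ geo d) (p : L[X]) : g (d.φ p) = d.φ p := by
  refine RingHom.congr_fun (f := (g : N →+* N).comp d.φ) (Polynomial.ringHom_ext (fun a => ?_) ?_) p
  · rw [RingHom.comp_apply, d.φ_C]
    exact mem_fixS_range.1 hg a
  · rw [RingHom.comp_apply, ← Polynomial.map_X (algebraMap K L), d.φ_map]
    exact g.commutes _

theorem ker_eq_geo {π : (N ≃ₐ[F] N) →* (L ≃ₐ[K] L)} {σ : (L ≃ₐ[K] L) →* (N ≃ₐ[F] N)}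
    (hs : d.Spl π σ) : π.ker = geo d := by
  ext g
  rw [MonoidHom.mem_ker, mem_fixS_range]
  refine ⟨fun h a => by rw [hs.hπ, h, AlgEquiv.one_apply], fun h => ?_⟩
  exact AlgEquiv.ext fun a => d.c.injective ((hs.hπ g a).symm.trans (h a))

theorem geo_tower {F' : Type} [Field F'] [Algebra L[X] F'] [IsFractionRing L[X] F'] [Algebra F' N]
    (h : toF L[X] F' N = d.φ) : ∃ _ : Algebra F F', IsScalarTower F F' N := by
  have hm : Function.Injective
      ((algebraMap L[X] F').comp (Polynomial.mapRingHom (algebraMap K L))) :=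
    (IsFractionRing.injective L[X] F').comp (Polynomial.map_injective _ (algebraMap K L).injective)
  let _ : Algebra F F' := (IsFractionRing.lift hm : F →+* F').toAlgebra
  refine ⟨inferInstance, IsScalarTower.of_algebraMap_eq' <|
    IsFractionRing.ringHom_ext (A := K[X]) fun p => (d.φ_map p).symm.trans ?_⟩
  rw [← h]
  exact congrArg (algebraMap F' N) (IsFractionRing.lift_algebraMap hm p).symm

theorem exists_geo (F' : Type) [Field F'] [Algebra L[X] F'] [IsFractionRing L[X] F'] :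
    ∃ _ : Algebra F' N, FiniteDimensional F' N ∧ IsGalois F' N ∧ toF L[X] F' N = d.φ := by
  let _ : Algebra F' N := (IsFractionRing.lift (sd_inj d) : F' →+* N).toAlgebra
  have h : toF L[X] F' N = d.φ := RingHom.ext fun p => IsFractionRing.lift_algebraMap (sd_inj d) p
  obtain ⟨_, _⟩ := geo_tower d h
  exact ⟨inferInstance, Module.Finite.of_restrictScalars_finite F F' N,
    IsGalois.tower_top_of_isGalois F F' N, h⟩

section

variable {F' : Type} [Field F'] [Algebra L[X] F'] [IsFractionRing L[X] F'] [Algebra F' N]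

theorem geo_iso (h : toF L[X] F' N = d.φ) :
    ∃ u : (N ≃ₐ[F'] N) ≃* geo d, ∀ g x, (u g : N ≃ₐ[F] N) x = g x := by
  obtain ⟨_, _⟩ := geo_tower d h
  have hr : ∀ g : N ≃ₐ[F'] N, g.restrictScalars F ∈ geo d := fun g => mem_fixS_range.2 fun a => by
    rw [← d.φ_C, ← h]
    exact g.commutes _
  refine ⟨MulEquiv.ofBijective (MonoidHom.mk' (fun g => (⟨_, hr g⟩ : geo d)) fun _ _ => rfl)
    ⟨fun g g' e => AlgEquiv.restrictScalars_injective F (congrArg Subtype.val e), fun g => ?_⟩,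
    fun _ _ => rfl⟩
  have e : ((g : N ≃ₐ[F] N) : N →+* N).comp (algebraMap F' N) = algebraMap F' N :=
    IsFractionRing.ringHom_ext (A := L[X]) fun p => by
      show (g : N ≃ₐ[F] N) (toF L[X] F' N p) = toF L[X] F' N p
      rw [h, geo_φ d g.2]
  exact ⟨{ (g : N ≃ₐ[F] N).toRingEquiv with commutes' := DFunLike.congr_fun e }, rfl⟩

theorem geo_ine (h : toF L[X] F' N = d.φ) (w : Vl N) : Ine F w ⊓ geo d = ⊥ ↔ Ine F' w = ⊥ := by
  obtain ⟨u, hu⟩ := geo_iso d h
  have key : ∀ g, (u g : N ≃ₐ[F] N) ∈ Ine F w ↔ g ∈ Ine F' w := fun g =>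
    and_congr (forall_congr' fun x => by rw [hu]) (forall_congr' fun x => by rw [hu])
  simp only [Subgroup.eq_bot_iff_forall]
  refine ⟨fun H g hg => AlgEquiv.ext fun x => ?_, fun H g hg => ?_⟩
  · rw [← hu, H _ ⟨(key g).2 hg, (u g).2⟩]
    rfl
  · obtain ⟨g', e⟩ := u.surjective ⟨g, hg.2⟩
    have e' : (u g' : N ≃ₐ[F] N) = g := congrArg Subtype.val e
    rw [← e', H g' ((key g').1 (e' ▸ hg.1)), map_one]
    rfl

theorem gu_iff (h : toF L[X] F' N = d.φ) {Θ : L[X]} :
    GU d Θ ↔ UnrOff F' (toF L[X] F' N) Θ := by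
  simp only [GU, UnrOff, geo_ine d h, h]

end

/-- the elements fixed by the geometric group are the rational functions -/
theorem geo_fix {x : N} (hx : ∀ g ∈ geo d, g x = x) : ∃ a b : L[X], b ≠ 0 ∧ x * d.φ b = d.φ a := by
  obtain ⟨_, _, _, h⟩ := exists_geo d (Fr L[X])
  obtain ⟨u, hu⟩ := geo_iso d h
  obtain ⟨y, rfl⟩ := (IsGalois.mem_range_algebraMap_iff_fixed (F := Fr L[X]) x).2 fun g => by
    rw [← hu]
    exact hx _ (u g).2
  obtain ⟨a, b, hb, rfl⟩ := IsFractionRing.div_surjective (A := L[X]) y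
  have hb0 := nonZeroDivisors.ne_zero hb
  refine ⟨a, b, hb0, ?_⟩
  have h0 : d.φ b ≠ 0 := (map_ne_zero_iff _ (sd_inj d)).2 hb0
  rw [← h] at h0 ⊢
  rw [map_div₀]
  exact div_mul_cancel₀ _ h0

theorem GU.ine {d : SecD 1 K L F N} {Θ : L[X]} (h : GU d Θ) {w : Vl N} (h1 : ∀ p, w (d.φ p) ≤ 1)
    (h2 : w (d.φ Θ) = 1) : Ine F w ⊓ geo d = ⊥ := by
  obtain ⟨_, _, _, e⟩ := exists_geo d (Fr L[X])
  exact (geo_ine d e w).2 (unr_of_le ((gu_iff d e).1 h) (by rwa [e]) (by rwa [e]))

theorem gu_of_unrOff {Θ : K[X]} (h : UnrOff F (toF K[X] F N) Θ) :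
    GU d (Θ.map (algebraMap K L)) := by
  intro P w _ hP hc
  rw [unr_of_le h (fun a => d.φ_map a ▸ hc.1 _) (d.φ_map Θ ▸ cen1_one hc hP), bot_inf_eq]

theorem unrOff_of_gu [Algebra.IsAlgebraic K L] {Θ : K[X]} (h : GU d (Θ.map (algebraMap K L))) :
    UnrOff F (toF K[X] F N) Θ := by
  intro P w _ hP hc
  have hi : ∀ a, ((toF K[X] F N).comp Polynomial.C).IsIntegralElem (d.c a) := fun a => by
    have e : d.c.comp (algebraMap K L) = (toF K[X] F N).comp Polynomial.C := RingHom.ext fun b => by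
      rw [RingHom.comp_apply, RingHom.comp_apply, ← d.φ_map, Polynomial.map_C, d.φ_C]
    exact e ▸ RingHom.IsIntegralElem.map (Algebra.IsIntegral.isIntegral (R := K) a) d.c
  have h1 : ∀ p, w (d.φ p) ≤ 1 := fun p => by
    induction p using Polynomial.induction_on' with
    | add p q hp hq => exact map_add d.φ p q ▸ w.map_add_le hp hq
    | monomial n a =>
      rw [← Polynomial.C_mul_X_pow_eq_monomial, map_mul, map_mul, map_pow, map_pow, d.φ_C,
        ← Polynomial.map_X (algebraMap K L), d.φ_map]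
      exact mul_le_one' (le_one_of_integral (fun b => hc.1 _) (hi a).of_comp) (pow_le_one' (hc.1 _) n)
  rw [← h.ine h1 (d.φ_map Θ ▸ cen1_one hc hP)]
  exact (inf_eq_left.2 fun g hg => mem_fixS_range.2 fun a =>
    ine_fix_int hg _ (fun b => g.commutes _) (fun b => hc.1 _) (hi a)).symm

/-- the map `j` of an `SC` is compatible with the base fields -/
theorem SC.alg {l : ℕ} {T : Type} [Field T] [Algebra F T] {Th : K[X]} {d : SecD 1 K L F N}
    {j : T →+* N} (h : SC l F Th d (algebraMap K L) j) (a : F) :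
    j (algebraMap F T a) = algebraMap F N a := by
  exact RingHom.congr_fun (f := j.comp (algebraMap F T))
    (IsFractionRing.ringHom_ext (A := K[X]) fun p => (h.hj p).trans (d.φ_map p)) a

/-- elements of the geometric group fix the image of the base field of `T` -/
theorem SC.fix {l : ℕ} {K₁ F₁ T : Type} [Field K₁] [Field F₁] [Field T] [Algebra K₁[X] F₁]
    [IsFractionRing K₁[X] F₁] [Algebra F₁ T] {Th : K₁[X]} {d : SecD 1 K L F N} {γ : K₁ →+* L}
    {j : T →+* N} (h : SC l F₁ Th d γ j) {g : N ≃ₐ[F] N} (hg : g ∈ geo d) (a : F₁) :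
    g (j (algebraMap F₁ T a)) = j (algebraMap F₁ T a) := by
  refine RingHom.congr_fun (f := (g : N →+* N).comp (j.comp (algebraMap F₁ T)))
    (g := j.comp (algebraMap F₁ T)) (IsFractionRing.ringHom_ext (A := K₁[X]) fun p => ?_) a
  show g (j (toF K₁[X] F₁ T p)) = j (toF K₁[X] F₁ T p)
  rw [h.hj, geo_φ d hg]

end Pool.Agent.ZFy.ZL
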