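import Pool.Agent.Lib.MP_751085_ag.ZF.Z.Hall
import Pool.Agent.Lib.MP_751085_ag.ZF.Z.Geo

/-! Kummer theory and the monodromy action. -/

namespace Pool.Agent.ZFy.ZL

open Pool.Agent.ZCy
open scoped Classical WithZero Polynomial

set_option linter.unusedSectionVars false

/-- characters of order `l` come from radicals -/
theorem exists_radical {F N : Type} [Field F] [Field N] [Algebra F N] [FiniteDimensional F N]
    (P : Subgroup (N ≃ₐ[F] N)) {l : ℕ} [NeZero l] {ζ : N} (hζ : IsPrimitiveRoot ζ l)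
    (hP : ∀ g ∈ P, g ζ = ζ) (χ : P →* Multiplicative (ZMod l)) :
    ∃ r : N, r ≠ 0 ∧ ∀ g : P, (g : N ≃ₐ[F] N) r = ζ ^ (χ g).toAdd.val * r := by
  have h0 : ∀ g : P, ζ ^ (χ g).toAdd.val ≠ 0 := fun g => pow_ne_zero _ (hζ.ne_zero (NeZero.ne l))
  have h1 : ∀ g g' : P, ζ ^ (χ (g * g')).toAdd.val = ζ ^ (χ g).toAdd.val * ζ ^ (χ g').toAdd.val :=
    fun g g' => by
      rw [map_mul, toAdd_mul, ZMod.val_add, ← pow_eq_pow_mod _ hζ.pow_eq_one, pow_add]
  have h2 := Fintype.linearIndependent_iff.1 ((linearIndependent_monoidHom N N).comp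
    (fun g : P => ((g : N ≃ₐ[F] N) : N →* N)) fun g g' e =>
      Subtype.ext (AlgEquiv.ext fun x => DFunLike.congr_fun e x))
    fun g => (ζ ^ (χ g).toAdd.val)⁻¹
  obtain ⟨x, hx⟩ : ∃ x, ∑ g : P, (ζ ^ (χ g).toAdd.val)⁻¹ * (g : N ≃ₐ[F] N) x ≠ 0 := by
    by_contra! H
    exact inv_ne_zero (h0 1) (h2 (funext fun x => by
      rw [Finset.sum_apply]
      exact H x) 1)
  refine ⟨_, hx, fun g => ?_⟩
  rw [map_sum, Finset.mul_sum]
  refine Fintype.sum_equiv (Equiv.mulLeft g) _ _ fun g' => ?_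
  rw [Equiv.coe_mulLeft, h1, map_mul, map_inv₀, map_pow, hP _ g.2, mul_inv, ← mul_assoc,
    mul_inv_cancel_left₀ (h0 g)]
  rfl

variable {l : ℕ} {K F T N₁ : Type} [Field K] [Field F] [Field T] [Field N₁] [Algebra K[X] F]
  [IsFractionRing K[X] F] [Algebra F T] [FiniteDimensional F T] [IsGalois F T] [Algebra K N₁]
  {Th : K[X]} {τ : T →+* Ls N₁}

theorem monOK_of (hl : l.Prime) {ζ : N₁} (hζ : IsPrimitiveRoot ζ l) (h : KumOK F l Th τ) :
    MonOK F l Th τ := by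
  intro L N _ _ _ _ _ _ _ _ d e j s δ hj hsc hs hδ
  have : NeZero l := ⟨hl.ne_zero⟩
  obtain ⟨π, σ, hπ⟩ := d.exists_spl
  have hH : (geo d).Normal := ker_eq_geo d hπ ▸ π.normal_ker
  have hJ : (fixS F (Set.range j)).Normal := ⟨fun g hg k => mem_fixS_range.2 fun x => by
    obtain ⟨k₀, hk⟩ := exists_restrict (K := F) j ((k⁻¹ : N ≃ₐ[F] N) : N →+* N) fun a => by
      rw [hsc.alg]
      exact AlgEquiv.commutes _ a
    have h1 : k⁻¹ (j x) = j (k₀ x) := (hk x).symm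
    rw [AlgEquiv.mul_apply, AlgEquiv.mul_apply, h1, mem_fixS_range.1 hg, ← h1,
      ← AlgEquiv.mul_apply, mul_inv_cancel, AlgEquiv.one_apply]⟩
  have hP : fixS F (Set.range j ∪ Set.range d.c) = fixS F (Set.range j) ⊓ geo d :=
    Subgroup.ext fun g => mem_fixS_union.trans (and_congr mem_fixS_range.symm mem_fixS_range.symm)
  have : (fixS F (Set.range j ∪ Set.range d.c)).Normal := by
    rw [hP]
    infer_instance
  have h1 : s ∈ fixS F (Set.range j) := mem_fixS_range.2 fun x => d.ι.injective (by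
    rw [hs, hj]
    ext i
    exact hδ _)
  have h2 : s (d.c (e ζ)) = d.c (e ζ) := d.ι.injective (by
    rw [hs, d.hc, ← sec_tM_C (M := 1), lm_tM, Polynomial.map_C, hδ])
  refine hall hl (geo d) _ hsc.lxt (hP ▸ inf_le_right) s (fun g hg => ?_) fun χ g g' hg => ?_
  · rw [hP]
    refine ⟨?_, (geo d).mul_mem (hH.conj_mem g hg s) ((geo d).inv_mem hg)⟩
    have := mul_mem h1 (hJ.conj_mem _ (inv_mem h1) g)
    rwa [← mul_assoc, ← mul_assoc] at this
  · have hz : IsPrimitiveRoot (d.c (e ζ)) l :=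
      (hζ.map_of_injective (e : N₁ →+* L).injective).map_of_injective d.c.injective
    obtain ⟨r, h0, hr⟩ := exists_radical _ hz (fun g hg => (mem_fixS_union.1 hg).2 _) χ
    have h3 := h L N d e j s δ r hj hsc.unr hs hδ (fun k hk => by
      rw [map_pow, hr ⟨k, hk⟩, mul_pow, ← pow_mul, mul_comm _ l, pow_mul, hz.pow_eq_one, one_pow,
        one_mul]) g' g'.2
    have h4 : (g' : N ≃ₐ[F] N) (s r) = d.c (e ζ) ^ (χ g).toAdd.val * s r := by
      rw [hg, ← AlgEquiv.mul_apply, inv_mul_cancel_right, AlgEquiv.mul_apply, hr, map_mul, map_pow,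
        h2]
    rw [map_div₀, h4, hr, mul_div_mul_comm, mul_eq_right₀ (div_ne_zero ((map_ne_zero s).2 h0) h0),
      div_eq_one_iff_eq (pow_ne_zero _ (hz.ne_zero hl.ne_zero))] at h3
    exact (Multiplicative.toAdd.injective (ZMod.val_injective l
      (hz.pow_inj (ZMod.val_lt _) (ZMod.val_lt _) h3))).symm

theorem MonOK.twist (h : MonOK F l Th τ) (g : T ≃ₐ[F] T) :
    MonOK F l Th (τ.comp (g : T →+* T)) := by
  intro L N _ _ _ _ _ _ _ _ d e j s δ hj hsc hs hδ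
  refine h L N d e (j.comp (g.symm : T →+* T)) s δ (fun x => (hj _).trans ?_)
    ⟨fun p => (congrArg j (g.symm.commutes _)).trans (hsc.hj p),
      LXt.mono' hsc.lxt fun k hk => ?_, hsc.unr⟩ hs hδ
  · exact congrArg (fun y => lm (e : N₁ →+* L) (τ y)) (g.apply_symm_apply x)
  · obtain ⟨h1, h2⟩ := mem_fixS_union.1 hk
    refine mem_fixS_union.2 ⟨fun x => ?_, h2⟩
    obtain ⟨y, rfl⟩ := g.symm.surjective x
    exact h1 y

variable {N₂ : Type} [Field N₂] [Algebra K N₂] (e : N₁ →ₐ[K] N₂)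

theorem KumOK.mono (h : KumOK F l Th τ) : KumOK F l Th ((lm (e : N₁ →+* N₂)).comp τ) := by
  intro L N _ _ _ _ _ _ _ _ d e' j s δ r hj hu hs hδ
  refine h L N d (e'.comp e) j s δ r (fun x => (hj x).trans ?_) hu hs fun a => hδ (e a)
  ext i
  rfl

include e in
theorem ResOK.mono (h : ResOK T N₁ F Th) : ResOK T N₂ F Th := by
  intro P Ξ Ω _ ρ e' s h1 h2 h3 h4 h5 h6
  exact h P Ξ Ω ρ (e'.comp (e : N₁ →+* N₂)) s h1 h2 h3 h4
    (fun a x hx => (h5 a x hx).trans (congrArg e' (e.commutes a).symm)) fun a => h6 (e a)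

end Pool.Agent.ZFy.ZL
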