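import Pool.Agent.Lib.MP_751085_ag.ZF.Z.GalX
import Pool.Agent.Lib.MP_751085_ag.ZC.V.IntB

/-! A field that contains the residue fields at the boundary. -/

namespace Pool.Agent.ZFy.ZL

open Pool.Agent.ZCy
open scoped Classical WithZero Polynomial

set_option linter.unusedSectionVars false

theorem rese_ev {K Ω : Type} [Field K] [Field Ω] (ψ : K[X] →+* Ω) (p : K[X]) :
    p.eval₂ (ψ.comp Polynomial.C) (ψ Polynomial.X) = ψ p := by
  rw [← Polynomial.hom_eval₂, Polynomial.eval₂_C_X]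

/-- the points of a finite cover of the line over the zeros of `Th` -/
theorem rese_poly {K : Type} [Field K] {Th : K[X]} (h0 : Th ≠ 0) {χ : K[X][X]} (hm : χ.Monic) :
    ∃ μ : K[X], μ ≠ 0 ∧ ∀ (Ω : Type) [Field Ω] (ψ : K[X] →+* Ω) (β : Ω), ψ Th = 0 →
      χ.eval₂ ψ β = 0 → μ.eval₂ (ψ.comp Polynomial.C) β = 0 := by
  have : Module.Finite K (AdjoinRoot Th) := (AdjoinRoot.powerBasis h0).finite
  have := (AdjoinRoot.powerBasis' (hm.map (AdjoinRoot.mk Th))).finite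
  have := Module.Finite.trans (R := K) (AdjoinRoot Th) (AdjoinRoot (χ.map (AdjoinRoot.mk Th)))
  obtain ⟨μ, h2, h3⟩ := IsIntegral.of_finite K (AdjoinRoot.root (χ.map (AdjoinRoot.mk Th)))
  refine ⟨μ, h2.ne_zero, fun Ω _ ψ β h4 h5 => ?_⟩
  have h6 := (rese_ev ψ Th).trans h4
  have e0 : (AdjoinRoot.lift _ _ h6).comp (AdjoinRoot.mk Th) = ψ :=
    RingHom.ext fun p => (AdjoinRoot.lift_mk h6 p).trans (rese_ev ψ p)
  have h7 : (χ.map (AdjoinRoot.mk Th)).eval₂ (AdjoinRoot.lift _ _ h6) β = 0 := by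
    rwa [Polynomial.eval₂_map, e0]
  have h8 := congrArg (AdjoinRoot.lift _ _ h7) h3
  rwa [Polynomial.hom_eval₂, map_zero, AdjoinRoot.lift_root, AdjoinRoot.algebraMap_eq',
    ← RingHom.comp_assoc, AdjoinRoot.lift_comp_of, AdjoinRoot.algebraMap_eq,
    AdjoinRoot.lift_comp_of] at h8

theorem exists_resOK {K : Type} (F T : Type) [Field K] [Field F] [Field T] [Algebra K[X] F]
    [IsFractionRing K[X] F] [Algebra F T] [FiniteDimensional F T] [IsGalois F T] {Th : K[X]}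
    (h0 : Th ≠ 0) : ∃ (N : Type) (_ : Field N) (_ : Algebra K N) (_ : FiniteDimensional K N)
      (_ : IsGalois K N), ResOK T N F Th := by
  have hα := isFr_alg K[X] F
  obtain ⟨m, b, hb, hg⟩ := exists_gen (E := T) hα
  choose χ hm hχ using fun i => (mem_intOff_one hα).1 (hb i)
  choose μ h1 hμ using fun i => rese_poly h0 (hm i)
  obtain ⟨N, _, _, _, _, H⟩ := exists_gal_root
    (mul_ne_zero h0 (Finset.prod_ne_zero_iff.2 fun i (_ : i ∈ Finset.univ) => h1 i))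
  refine ⟨N, inferInstance, inferInstance, inferInstance, inferInstance,
    fun P Ξ Ω _ ρ e s hP hd hc hρ hK hs x => ?_⟩
  let φ : K[X] →+* Ξ.integer := (toF K[X] F T).codRestrict _ hc.1
  have h2 : (ρ.comp φ).comp Polynomial.C = e.comp (algebraMap K N) :=
    RingHom.ext fun a => hK a _ rfl
  have h3 : ρ.comp φ Th = 0 := (hρ _).2 ((hc.2 Th).2 hd)
  have h4 : ∀ p, s (ρ (φ p)) = ρ (φ p) := fun p => DFunLike.congr_fun (Polynomial.ringHom_ext
    (f := s.comp (ρ.comp φ)) (g := ρ.comp φ) (fun a => by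
      have e1 : ρ (φ (Polynomial.C a)) = e (algebraMap K N a) := hK a _ rfl
      simp only [RingHom.comp_apply, e1, hs]) (H Ω e s _ hs (by
      rw [← h2, Polynomial.eval₂_mul, rese_ev, h3, zero_mul]))) p
  have h5 : ∀ y ∈ IntOff (toF K[X] F T) 1, y ∈ Ξ.integer := fun y hy =>
    hy P Ξ hP hP.not_dvd_one hc
  have h6 : ∀ i, s (ρ ⟨b i, h5 _ (hb i)⟩) = ρ ⟨b i, h5 _ (hb i)⟩ := fun i => H Ω e s _ hs (by
    have e1 : (χ i).eval₂ φ ⟨b i, h5 _ (hb i)⟩ = 0 := Subtype.ext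
      ((Polynomial.hom_eval₂ _ φ Ξ.integer.subtype _).trans (hχ i))
    rw [← h2, Polynomial.eval₂_mul, Polynomial.eval₂_finsetProd, Finset.prod_eq_zero
      (Finset.mem_univ i) (hμ i Ω _ _ h3 (by rw [← Polynomial.hom_eval₂, e1, map_zero])),
      mul_zero])
  have h7 : ∀ y (hy : y ∈ IntOff (toF K[X] F T) 1), s (ρ ⟨y, h5 y hy⟩) = ρ ⟨y, h5 y hy⟩ :=
    fun y hy => by
      obtain ⟨a, ha⟩ := hg y hy
      have e1 : (⟨y, h5 y hy⟩ : Ξ.integer) = ∑ i, φ (a i) * ⟨b i, h5 _ (hb i)⟩ :=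
        Subtype.ext (ha.trans (map_sum Ξ.integer.subtype
          (fun i => φ (a i) * ⟨b i, h5 _ (hb i)⟩) _).symm)
      simp only [e1, map_sum, map_mul, h4, h6]
  obtain ⟨z, hz, h8, h9⟩ := Cen.exists_frac hα hP hc x.2
  have e1 : (⟨z * x, h5 _ h9⟩ : Ξ.integer) = ⟨z, h5 z hz⟩ * x := rfl
  have h10 := h7 _ h9
  rw [e1, map_mul, map_mul, h7 z hz] at h10
  exact mul_left_cancel₀ ((hρ.ne_zero _).2 h8) h10

end Pool.Agent.ZFy.ZL
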