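import Pool.Agent.Lib.MP_751085_ag.ZF.Z.Kum
import Pool.Agent.Lib.MP_751085_ag.ZF.Z.Mon
import Pool.Agent.Lib.MP_751085_ag.ZF.Z.ResE

/-! Existence of the certificate. -/

namespace Pool.Agent.ZFy.ZL

open Pool.Agent.ZCy
open scoped Classical WithZero Polynomial

set_option linter.unusedSectionVars false

variable {l q : ℕ} {k A K F T N₁ : Type} [Field k] [CommRing A] [IsDomain A]
  [UniqueFactorizationMonoid A] [Field K] [Field F] [Field T] [Field N₁] [Algebra A K]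
  [IsFractionRing A K] [Algebra K[X] F] [IsFractionRing K[X] F] [Algebra F T]
  [FiniteDimensional F T] [IsGalois F T] [Algebra K N₁] [FiniteDimensional K N₁] [IsGalois K N₁]
  {c : k →+* A} {Th : A[X]} {Δ : A} {τ : T →+* Ls N₁}

variable (A K F T) in
theorem exists_sepOK : ∃ Δ : A, Δ ≠ 0 ∧ SepOK K T F Δ := by
  have hα := isFr_pA A K F
  have key : ∀ g : T ≃ₐ[F] T, ∃ a : A, a ≠ 0 ∧ (g ≠ 1 → ∃ (θ z : T) (p : A[X]) (i : ℕ),
      (pA A K F T).IsIntegralElem θ ∧ (pA A K F T).IsIntegralElem z ∧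
        (g θ - θ) * z = pA A K F T p ∧ p.coeff i ∣ a) := fun g => by
    by_cases hg : g = 1
    · exact ⟨1, one_ne_zero, fun h => absurd hg h⟩
    obtain ⟨z, hz⟩ := not_forall.1 fun u => hg (AlgEquiv.ext u)
    obtain ⟨b, hb, hb'⟩ := exists_mul_mem_intOff hα z
    obtain ⟨a, ha, ha'⟩ := exists_mul_mem_intOff hα (g (pA A K F T b * z) - pA A K F T b * z)⁻¹
    have h0 : g (pA A K F T b * z) - pA A K F T b * z ≠ 0 := by
      rw [map_mul g, RingHom.comp_apply, RingHom.comp_apply, g.commutes, ← mul_sub]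
      exact mul_ne_zero ((map_ne_zero _).2 fun u => hb (hα.1 (u.trans (map_zero _).symm)))
        (sub_ne_zero.2 hz)
    exact ⟨a.leadingCoeff, Polynomial.leadingCoeff_ne_zero.2 ha, fun _ =>
      ⟨_, _, a, a.natDegree, (mem_intOff_one hα).1 hb', (mem_intOff_one hα).1 ha',
        (mul_comm _ _).trans (inv_mul_cancel_right₀ h0 _), dvd_rfl⟩⟩
  choose a ha H using key
  refine ⟨∏ g, a g, Finset.prod_ne_zero_iff.2 fun g _ => ha g, fun g hg => ?_⟩
  obtain ⟨θ, z, p, i, h1, h2, h3, h4⟩ := H g hg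
  exact ⟨θ, z, p, i, h1, h2, h3, h4.trans (Finset.dvd_prod_of_mem a (Finset.mem_univ g))⟩

theorem SepOK.mono {Δ' : A} (h : SepOK K T F Δ) (hd : Δ ∣ Δ') : SepOK K T F Δ' := by
  intro g hg
  obtain ⟨θ, z, p, i, h1, h2, h3, h4⟩ := h g hg
  exact ⟨θ, z, p, i, h1, h2, h3, h4.trans hd⟩

theorem Crt.twist (C : Crt K F l q c Th Δ τ) (g : T ≃ₐ[F] T) :
    Crt K F l q c Th Δ (τ.comp (g : T →+* T)) := by
  exact { C with
    hτ := fun p => (congrArg τ (g.commutes _)).trans (C.hτ p)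
    mon := C.mon.twist g }

theorem crte_lm (hτ : ∀ p, τ (toF K[X] F T p) = tL N₁ (p.map (algebraMap K N₁))) {N₂ : Type}
    [Field N₂] [Algebra K N₂] (e : N₁ →ₐ[K] N₂) (p : K[X]) :
    ((lm (e : N₁ →+* N₂)).comp τ) (toF K[X] F T p) = tL N₂ (p.map (algebraMap K N₂)) := by
  rw [RingHom.comp_apply, hτ, lm_tM, Polynomial.map_map, e.comp_algebraMap]

theorem exists_crt (hS : SPR) (hF : FNT) (c : k →+* A) (hl : l.Prime) (h0 : (l : k) ≠ 0)
    (hm : Th.Monic) (hu : UnrOff F (toF K[X] F T) (Th.map (algebraMap A K)))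
    (hτ : ∀ p, τ (toF K[X] F T p) = tL N₁ (p.map (algebraMap K N₁))) :
    ∃ (N₂ : Type) (_ : Field N₂) (_ : Algebra K N₂) (_ : FiniteDimensional K N₂)
      (_ : IsGalois K N₂) (q : ℕ) (Δ : A) (τ' : T →+* Ls N₂), Crt K F l q c Th Δ τ' := by
  have hk : ∀ {S : Type} [Field S] (_ : k →+* S), (l : S) ≠ 0 := fun f h =>
    h0 (f.injective ((map_natCast f l).trans (h.trans f.map_zero.symm)))
  have hK := hk ((algebraMap A K).comp c)
  have := expChar_of_injective_ringHom ((algebraMap A K).comp c).injective (ringExpChar k)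
  have hp : ringExpChar K = ringExpChar k := ringExpChar.eq K _
  obtain ⟨K'', _, _, _, Δ₁, h1, h2, H⟩ := hS A K F T Th hm hu ⟨N₁, inferInstance, _, τ, hτ⟩
  obtain ⟨L, _, _, _, _, r, θ, hθ⟩ := exists_frob K K''
  obtain ⟨Z, _, _, _, _, ζ, hζ⟩ := exists_zeta K hK
  obtain ⟨N, _, _, _, _, hN⟩ := exists_resOK F T (hm.map (algebraMap A K)).ne_zero
  obtain ⟨M₁, _, _, _, _, ⟨e₁⟩, ⟨e₂⟩⟩ := exists_gal_sup K N₁ L
  obtain ⟨M₂, _, _, _, _, ⟨e₃⟩, ⟨e₄⟩⟩ := exists_gal_sup K Z N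
  obtain ⟨M, _, _, _, _, ⟨e₅⟩, ⟨e₆⟩⟩ := exists_gal_sup K M₁ M₂
  have h3 := crte_lm hτ (e₅.comp e₁)
  obtain ⟨N₂, _, _, _, _, e, he⟩ := exists_kum hF hl hK (hm.map (algebraMap A K)) h3
  obtain ⟨Δ₂, h4, h5⟩ := exists_sepOK A K F T
  obtain ⟨Δ₃, h6, h7⟩ := exists_unrOff (E := N₂) (isFr_alg A K)
  refine ⟨N₂, inferInstance, inferInstance, inferInstance, inferInstance, ringExpChar k ^ r,
    Δ₁ * Δ₂ * Δ₃, _, hl, h0, hm, hu, mul_ne_zero (mul_ne_zero h1 h4) h6,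
    pow_ne_zero _ (expChar_ne_zero k _), cop_pow hl h0 r, frb_pow c r, crte_lm h3 e,
    unrOff_mono (n := 1) (by rw [pow_one]; exact dvd_mul_left _ _) h7, ?_,
    h5.mono ((dvd_mul_left _ _).mul_right _), monOK_of hl (hζ.map_of_injective
      (e.comp (e₆.comp e₃) : Z →+* N₂).injective) he, hN.mono (e.comp (e₆.comp e₄))⟩
  intro R KK κ _ _ _ _ _ _ η α v ρ ψ a1 a2 a3 a4
  have h8 : ∀ a, (ψ.comp ((e.comp (e₅.comp e₂) : L →+* N₂).comp θ)) (toF A K K'' a) = α (η a) :=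
    fun a => by
      rw [← a3, ← map_pow, ← hp]
      exact congrArg ψ ((congrArg (e.comp (e₅.comp e₂)) (hθ _)).trans
        ((map_pow _ _ _).trans (congrArg (· ^ _) (AlgHom.commutes _ _))))
  refine ⟨H R KK κ η α v ρ _ a1 a2 h8 (isUnit_of_dvd_unit
    (map_dvd η ((dvd_mul_right _ _).mul_right _)) a4) l hl (hk (ρ.comp (η.comp c))), ?_⟩
  have h9 := h2.map (ψ.comp ((e.comp (e₅.comp e₂) : L →+* N₂).comp θ))
  rwa [Polynomial.map_map, show RingHom.comp _ (toF A K K'') = α.comp η from RingHom.ext h8] at h9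

end Pool.Agent.ZFy.ZL
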