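import Pool.Agent.Lib.MP_751085_ag.ZF.Z.Lft1
import Pool.Agent.Lib.MP_751085_ag.ZF.Z.Bc2
import Pool.Agent.Lib.MP_751085_ag.ZF.Z.CrtE

/-! The lift over the complete local field. -/

namespace Pool.Agent.ZFy.ZL

open Pool.Agent.ZCy
open scoped Classical WithZero Polynomial

set_option linter.unusedSectionVars false

theorem lfte_res {B F N F₀ E₀ : Type} [CommRing B] [WfDvdMonoid B] [Field F] [Field N] [Field F₀]
    [Field E₀] [Algebra F N] [Algebra F₀ E₀] {β : B →+* F} (hβ : IsFr β) {P : B} (hP : Prime P)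
    {m : B →+* F₀} (hm : ∀ p, m p = 0 ↔ P ∣ p) (hs : ∀ a, ∃ p q, m q ≠ 0 ∧ a * m q = m p)
    {W : Vl N} {ρ : W.integer →+* E₀} (hρ : IsRed W ρ)
    (e : ∀ p, ∃ hp, ρ ⟨algebraMap F N (β p), hp⟩ = algebraMap F₀ E₀ (m p)) :
    (∀ a : F₀, ∃ (b : F) (h : _), ρ ⟨algebraMap F N b, h⟩ = algebraMap F₀ E₀ a) ∧
      ∀ (b : F) (h : _), ∃ a : F₀, ρ ⟨algebraMap F N b, h⟩ = algebraMap F₀ E₀ a := by
  choose e1 e2 using e
  have hc : Cen β (W.comap (algebraMap F N)) P := ⟨e1, fun p =>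
    (hρ ⟨_, e1 p⟩).symm.trans (by rw [e2, map_eq_zero, hm])⟩
  have key : ∀ (b : F) (h : _) (p q : B), m q ≠ 0 → b * β q = β p →
      ρ ⟨algebraMap F N b, h⟩ = algebraMap F₀ E₀ (m p / m q) := fun b h p q hq hb => by
    rw [map_div₀, eq_div_iff ((map_ne_zero _).2 hq), ← e2, ← e2, ← map_mul]
    exact congrArg ρ (Subtype.ext ((map_mul _ _ _).symm.trans (congrArg _ hb)))
  refine ⟨fun a => ?_, fun b h => ?_⟩
  · obtain ⟨p, q, hq, ha⟩ := hs a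
    have h2 : β p / β q * β q = β p := div_mul_cancel₀ _ (hβ.vfrc_ne fun h => hq (by simp [h]))
    exact ⟨_, (hc.le_one_iff hβ hP _).2 ⟨p, q, mt (hm q).2 hq, h2⟩,
      (key _ _ p q hq h2).trans (by rw [← ha, mul_div_cancel_right₀ _ hq])⟩
  · obtain ⟨p, q, hq, hb⟩ := (hc.le_one_iff hβ hP b).1 h
    exact ⟨_, key b h p q (mt (hm q).1 hq) hb⟩

variable {l q : ℕ} {k A K F T N₁ : Type} [Field k] [CommRing A] [IsDomain A]
  [UniqueFactorizationMonoid A] [Field K] [Field F] [Field T] [Field N₁] [Algebra A K]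
  [IsFractionRing A K] [Algebra K[X] F] [IsFractionRing K[X] F] [Algebra F T]
  [FiniteDimensional F T] [IsGalois F T] [Algebra K N₁] [FiniteDimensional K N₁] [IsGalois K N₁]
  {c : k →+* A} {Th : A[X]} {Δ : A} {τ : T →+* Ls N₁}
variable {K₁ κ₀ κ₁ : Type} [Field K₁] [Field κ₀] [Field κ₁] [Algebra K K₁] [FiniteDimensional K K₁]
  [IsGalois K K₁] [Algebra κ₀ κ₁] [FiniteDimensional κ₀ κ₁] [IsGalois κ₀ κ₁]
  {H : Hy K c K₁ κ₀ κ₁}
variable {F₀ E₀ : Type} [Field F₀] [Field E₀] [Algebra κ₀[X] F₀] [IsFractionRing κ₀[X] F₀]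
  [Algebra F₀ E₀] [FiniteDimensional F₀ E₀] [IsGalois F₀ E₀] {d₀ : SecD 1 κ₀ κ₁ F₀ E₀} {wT : Vl T}
  {ρT : wT.integer →+* E₀}
variable {κ : Type} [Field κ] [IsAlgClosed κ]

theorem lfte_red (Λ : Loc H T N₁ F l q Th κ) {FK ER : Type} [Field FK] [Field ER]
    [Algebra (Ls κ)[X] FK] [IsFractionRing (Ls κ)[X] FK] [Algebra FK ER] [FiniteDimensional FK ER]
    [IsGalois FK ER] (v : Cov l (pA A K F T) Th FK ER ((lid κ).comp Λ.η)) :
    ∃ (W : Vl ER) (ρ : W.integer →+* Ls κ), GaussW FK v.ι (lval κ) W ∧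
      GRed v.ι (lid κ) (cc κ) W ρ := by
  obtain ⟨W, hW⟩ := Λ.gd.ta FK ER v
  obtain ⟨ρ, hρ⟩ := (supN_of_gauss v.hι hW).exists_red (dg FK v.ι v.hι).hc (isVR_lval κ).2.1
    (isVR_lval κ).2.2 cc_eq_zero
  exact ⟨W, ρ, hW, hρ⟩

theorem lfte_mul {L N R κ : Type} [Field L] [Field N] [CommRing R] [Field κ] {ι : N →+* Ls L}
    {α : R →+* L} {ρ : R →+* κ} {W : Vl N} {ρW : W.integer →+* Ls κ} (h : GRed ι α ρ W ρW)
    {U : Subfield (Ls κ)} (hU : ∀ z f, ι z = lm α f → lm ρ f ∈ U) (x : W.integer) : ρW x ∈ U := by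
  obtain ⟨b, f, g, hf, hg, hn⟩ := h.frac x
  obtain ⟨a1, e1⟩ := h.val _ _ hf
  obtain ⟨a2, e2⟩ := h.val _ _ hg
  have : ρW x = lm ρ f / lm ρ g := by
    rw [eq_div_iff hn, ← e1, ← e2, ← map_mul]
    rfl
  exact this ▸ div_mem (hU _ _ hf) (hU _ _ hg)

theorem lfte_faith {FK ER F' E' : Type} [Field FK] [Field ER] [Field F'] [Field E']
    [Algebra (Ls κ)[X] FK] [IsFractionRing (Ls κ)[X] FK] [Algebra FK ER] [FiniteDimensional FK ER]
    [IsGalois FK ER] [Algebra κ[X] F'] [IsFractionRing κ[X] F'] [Algebra F' E']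
    [FiniteDimensional F' E'] [IsGalois F' E'] {f : κ₁ →+* κ} (b : Bc d₀ f F' E')
    {ι : ER →+* Ls (Ls κ)}
    (hι : ∀ p, ι (toF (Ls κ)[X] FK ER p) = tL (Ls κ) p) {W : Vl ER} {ρ : W.integer →+* Ls κ}
    (hW : GaussW FK ι (lval κ) W) (hρ : GRed ι (lid κ) (cc κ) W ρ) (hs : ∀ x, ρ x ∈ b.ι.range)
    (hn : Module.finrank F' E' ≤ Module.finrank FK ER) (g : ER ≃ₐ[FK] ER)
    (h : ∀ y : E₀, ∃ x x' : W.integer, (x' : ER) = g x ∧
      ρ x = lm f (d₀.ι y) ∧ ρ x' = lm f (d₀.ι y)) : g = 1 := by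
  obtain ⟨ρ', hρ'⟩ := ring_factor ρ b.ι b.ι.injective hs
  have hr : IsRed W ρ' := fun x => by rw [← map_eq_zero b.ι, hρ']; exact hρ.red x
  have hsj : Function.Surjective (Polynomial.map (cc κ)) :=
    Polynomial.map_surjective _ PowerSeries.constantCoeff_surj
  obtain ⟨h0, h1⟩ := lfte_res (N := ER) (E₀ := E') ((isVR_lval κ).isFr.poly (isFr_alg _ FK))
    (Polynomial.prime_C_iff.2 PowerSeries.X_prime)
    (m := (algebraMap κ[X] F').comp (Polynomial.mapRingHom (cc κ)))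
    (fun p => by
      rw [RingHom.comp_apply, map_eq_zero_iff _ (IsFractionRing.injective _ _),
        Polynomial.C_dvd_iff_dvd_coeff, Polynomial.ext_iff]
      simp [PowerSeries.X_dvd_iff])
    (fun a => by
      obtain ⟨p, q, hq, e⟩ := (isFr_alg κ[X] F').2 a
      obtain ⟨p, rfl⟩ := hsj p
      obtain ⟨q, rfl⟩ := hsj q
      exact ⟨p, q, (isFr_alg κ[X] F').vfrc_ne hq, e⟩) hr fun p => by
      obtain ⟨hp, e⟩ := hρ.poly (RingHom.id _)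
        (φ := (toF (Ls κ)[X] FK ER).comp (Polynomial.mapRingHom (lid κ))) (fun p => hι _) p
      exact ⟨hp, b.ι.injective ((hρ' _).trans (e.trans (b.hι _).symm))⟩
  obtain ⟨r, hr'⟩ := exists_riso hr (red_surjective hW.2.2.1 hW.2.2.2 ρ' hr h0 hn) hW.2.2.1
    hW.2.2.2 h0 h1
  refine (map_eq_one_iff r r.injective).1 (b.span _ fun y => ?_)
  obtain ⟨x, x', e1, e2, e3⟩ := h y
  have e4 : ρ' x = b.j y := b.ι.injective (by rw [hρ', e2, b.hj])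
  have e5 : ρ' x' = b.j y := b.ι.injective (by rw [hρ', e3, b.hj])
  rw [← e4, ← hr' g x x' e1, e4, e5]

theorem exists_lft (C : Crt K F l q c Th Δ τ) (Λ : Loc H T N₁ F l q Th κ)
    (S : Spc H F l Th d₀ wT ρT) (FK : Type) [Field FK] [Algebra (Ls κ)[X] FK]
    [IsFractionRing (Ls κ)[X] FK] : ∃ (g : T ≃ₐ[F] T) (ER : Type) (_ : Field ER)
      (_ : Algebra FK ER) (_ : FiniteDimensional FK ER) (_ : IsGalois FK ER),
      Nonempty (Lft H Λ (τ.comp (g : T →+* T)) d₀ wT ρT FK ER) := by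
  obtain ⟨g, hg⟩ := lft_twist C Λ S FK
  obtain ⟨E', _, _, _, _, ⟨b⟩⟩ := exists_bcd d₀ Λ.f (Fr κ[X])
  obtain ⟨N', _, _, _, _, v, hv, -⟩ := (C.twist g).exists_cov ((lid κ).comp Λ.η) Λ.γN Λ.hN FK
  obtain ⟨W₁, ρ₁, hW₁, hρ₁⟩ := lfte_red Λ v
  obtain ⟨ov₁, hr₁⟩ := hg N' v W₁ ρ₁ hv hρ₁
  have k1 : ∀ x f, (v.ι.comp v.j) x = lm (lid κ) f →
      ∃ hx, b.ι (b.j (ρT ⟨x, hx⟩)) = lm (cc κ) f := fun x f e => by
    obtain ⟨h1, h2⟩ := hρ₁.val _ _ e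
    exact ⟨(ov₁ x).1 h1, by rw [b.hj, ← hr₁, ← h2]; rfl⟩
  have hcen := H.cen (J := RingHom.id E₀) S.red S.res
  have k2 : ∀ z, (pA A K F T).IsIntegralElem z → ∃ f, (v.ι.comp v.j) z = lm (lid κ) f := by
    intro z hz
    have hz' : ((toF (Ls κ)[X] FK N').comp
        (Polynomial.mapRingHom (lval κ).integer.subtype)).IsIntegralElem (v.j z) := by
      refine .of_comp (f := Polynomial.mapRingHom (((lid κ).comp Λ.η).codRestrict
        (lval κ).integer fun a => (isVR_lval κ).le_one _)) ?_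
      refine (congrArg (RingHom.IsIntegralElem · _) (RingHom.ext fun p => ?_)).mp (hz.map v.j)
      refine (v.hj p).trans ?_
      simp only [RingHom.comp_apply, Polynomial.coe_mapRingHom, Polynomial.map_map]
      rfl
    obtain ⟨f, hf⟩ := (mem_lm_range (isVR_lval κ).2.1 (v.ι (v.j z))).2 fun i =>
      ((isVR_lval κ).2.2 _).1 (((hW₁.2.1 _ hz').1 i).trans ((ov₁ z).2 (le_one_of_int hcen.1 hz)))
    exact ⟨f, hf.symm⟩
  obtain ⟨E, _, _, _, _, u, h1, h2, h3⟩ := Λ.gd.lift FK (Fr κ[X]) E' (v.ι.comp v.j) b.ι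
    (fun p => (congrArg v.ι (v.hj p)).trans (v.hι _)) b.hι
    (by
      have := b.unr (gu_of_unrOff d₀ S.unr)
      rwa [Polynomial.map_map, Polynomial.map_map,
        show (Λ.f.comp (algebraMap κ₀ κ₁)).comp H.h = (cc κ).comp Λ.η from
          RingHom.ext fun a => (Λ.hcc a).symm] at this)
    (fun x f e => ⟨_, (k1 x f e).2⟩)
    (LXt.mono' (b.lxt_iff.2 S.lxt) fun s hs => by
      rintro _ ⟨_, ⟨x, rfl⟩, rfl⟩
      obtain ⟨y, hy, i1, i2⟩ := exists_den_cen (isFr_pA A K F)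
        (Polynomial.prime_C_iff.2 H.prime) hcen x.2
      obtain ⟨f₁, e₁⟩ := k2 _ i1
      obtain ⟨f₂, e₂⟩ := k2 _ i2
      have a1 := hs _ ⟨_, _, e₁, (k1 _ _ e₁).2⟩
      have a2 := hs _ ⟨_, _, e₂, (k1 _ _ e₂).2⟩
      have a3 : ρT ⟨x * y, (k1 _ _ e₂).1⟩ = ρT x * ρT ⟨y, hy.le⟩ := map_mul ρT x ⟨y, hy.le⟩
      rw [a3, map_mul, map_mul, a1] at a2
      exact mul_right_cancel₀ ((map_ne_zero _).2 ((S.red.ne_zero ⟨y, hy.le⟩).2 hy)) a2)
  obtain ⟨W, ρ, hW, hρ⟩ := lfte_red Λ u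
  have h4 : ∀ x, u.ι (u.j x) = lm Λ.γN (τ (g x)) := fun x => (h1 x).trans (hv x)
  obtain ⟨ov, hr⟩ := hg E u W ρ h4 hρ
  have h5 : ∀ x, ρ x ∈ b.ι.range := lfte_mul hρ (U := b.ι.fieldRange) h2
  obtain ⟨r, -⟩ := b.iso
  exact ⟨g, E, _, _, inferInstance, inferInstance, ⟨⟨u, W, ρ, h4, hρ, ov, hr,
    fun x => (b.range_iff _).1 (h5 x), by
      rwa [← Nat.card_congr r.toEquiv, IsGalois.card_aut_eq_finrank, IsGalois.card_aut_eq_finrank],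
    lfte_faith b u.hι hW hρ h5 h3⟩⟩⟩

end Pool.Agent.ZFy.ZL
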