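import Pool.Agent.Lib.MP_751085_ag.ZF.Z.DL
import Pool.Agent.Lib.MP_751085_ag.ZF.Z.LftE
import Pool.Agent.Lib.MP_751085_ag.ZF.Z.Dsc1
import Pool.Agent.Lib.MP_751085_ag.ZF.Z.Dsc2
import Pool.Agent.Lib.MP_751085_ag.ZF.Z.Dsc3
import Pool.Agent.Lib.MP_751085_ag.ZF.Z.Fin

/-! Covers of the special fibre lift to the generic fibre. -/

namespace Pool.Agent.ZFy.ZL

open Pool.Agent.ZCy
open scoped Classical WithZero Polynomial

set_option linter.unusedSectionVars false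

variable {l q : ℕ} {k A K F T N₁ : Type} [Field k] [CommRing A] [IsDomain A]
  [UniqueFactorizationMonoid A] [Field K] [Field F] [Field T] [Field N₁] [Algebra A K]
  [IsFractionRing A K] [Algebra K[X] F] [IsFractionRing K[X] F] [Algebra F T]
  [FiniteDimensional F T] [IsGalois F T] [Algebra K N₁] [FiniteDimensional K N₁] [IsGalois K N₁]
  {c : k →+* A} {Th : A[X]} {Δ : A} {τ : T →+* Ls N₁}
variable {K₁ κ₀ κ₁ : Type} [Field K₁] [Field κ₀] [Field κ₁] [Algebra K K₁] [FiniteDimensional K K₁]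
  [IsGalois K K₁] [Algebra κ₀ κ₁] [FiniteDimensional κ₀ κ₁] [IsGalois κ₀ κ₁]
  {H : Hy K c K₁ κ₀ κ₁}
variable {F₀ E₀ : Type} [Field F₀] [Field E₀] [Algebra κ₀[X] F₀] [IsFractionRing κ₀[X] F₀]
  [Algebra F₀ E₀] [FiniteDimensional F₀ E₀] [IsGalois F₀ E₀] {d₀ : SecD 1 κ₀ κ₁ F₀ E₀} {wT : Vl T}
  {ρT : wT.integer →+* E₀}

theorem core (hD : DSC) (C : Crt K F l q c Th Δ τ) (H : Hy K c K₁ κ₀ κ₁) (hy : ¬H.y ∣ Δ)
    (hI : INe K l c N₁ Δ H.y) (S : Spc H F l Th d₀ wT ρT) :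
    ∃ (E : Type) (_ : Field E) (_ : Algebra F E) (_ : FiniteDimensional F E) (_ : IsGalois F E)
      (Z : Res H F l Th F₀ (E₀ := E₀) T E), Z.Ok d₀ wT ρT ∧ Z.DL := by
  obtain ⟨κ, _, _, ⟨Λ⟩⟩ := exists_loc C H hy
  obtain ⟨g, ER, _, _, _, _, ⟨𝓛⟩⟩ := exists_lft C Λ S (Fr (Ls κ)[X])
  have C' := C.twist g
  obtain ⟨L₀, F', E', _, _, _, _, _, _, _, _, _, _, _, γ₀, e₁, eK, ι', hι, h₁, hK, ⟨M⟩⟩ :=
    𝓛.exists_model hD C'
  obtain ⟨L, _, _, _, _, N, _, _, _, _, d, e, m, h⟩ := exists_clo1 K F hι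
  obtain ⟨π, σ, hs⟩ := d.exists_spl
  obtain ⟨h1, h2⟩ := dsc2 C' hy hI S M h₁ hK h hs
  obtain ⟨E, _, _, _, _, dE, ⟨M'⟩⟩ := dsc3 M hK h hs h1 h2
  obtain ⟨Z, hZ⟩ := M'.fin C' hy
  exact ⟨E, _, _, inferInstance, inferInstance, Z, hZ, dl C hy hI Z⟩

end Pool.Agent.ZFy.ZL
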