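import Pool.Agent.Lib.MP_751085_ag.ZF.Z.Dsk
import Pool.Agent.Lib.MP_751085_ag.ZF.Z.Bc2
import Pool.Agent.Lib.MP_751085_ag.ZC.V.Cv

/-! The residue fields at the boundary embed in the good models. -/

namespace Pool.Agent.ZFy.ZL

open Pool.Agent.ZCy
open scoped Classical WithZero Polynomial

set_option linter.unusedSectionVars false

variable {l q : ℕ} {k A K F T N₁ : Type} [Field k] [CommRing A] [IsDomain A]
  [UniqueFactorizationMonoid A] [Field K] [Field F] [Field T] [Field N₁] [Algebra A K]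
  [IsFractionRing A K] [Algebra K[X] F] [IsFractionRing K[X] F] [Algebra F T]
  [FiniteDimensional F T] [IsGalois F T] [Algebra K N₁] [FiniteDimensional K N₁] [IsGalois K N₁]
  {c : k →+* A} {Th : A[X]} {Δ : A} {τ : T →+* Ls N₁}
variable {K₁ E : Type} [Field K₁] [Field E] [Algebra K K₁] [FiniteDimensional K K₁] [IsGalois K K₁]
  [Algebra F E] [FiniteDimensional F E] [IsGalois F E] {d : SecD 1 K K₁ F E} {j : T →+* E}
  {P : A[X]} {Ξ : Vl E}
variable {R KK κ : Type} [CommRing R] [IsDomain R] [CDVR R] [Field KK] [Field κ] {α : R →+* KK}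
  {v : Vl KK} {η : A →+* R} {ρR : R →+* κ}

theorem emb_res (hm : Th.Monic) (h : SC l F (Th.map (algebraMap A K)) d (algebraMap K K₁) j)
    (hP : Prime P) (hd : P ∣ Th) (hc : Cen (pA A K F E) Ξ P) (hα : IsVR α v)
    (hG : Gd l (pA A K F T) Th η α v ρR) (hs : (Th.map (α.comp η)).Splits) (γ₁ : K₁ →+* KK)
    (h₁ : ∀ a, γ₁ (toF A K K₁ a) = α (η a)) {Ω : Type} [Field Ω] (lam : KK →+* Ω)
    {ρ : Ξ.integer →+* Ω} (hρ : RO F Ξ (lam.comp (γ₁.comp (algebraMap K K₁))) ρ) (x : Ξ.integer) :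
    ρ x ∈ lam.range := by
  let ψ : A[X] →+* Ω := ρ.comp ((pA A K F E).codRestrict Ξ.integer hc.1)
  have h1 : ∀ p : A[X], p.eval₂ (lam.comp (α.comp η)) (ψ Polynomial.X) = ψ p := fun p => by
    rw [show lam.comp (α.comp η) = ψ.comp Polynomial.C from RingHom.ext fun a =>
      ((hρ.2 (algebraMap A K a) _ (congrArg (toF K[X] F E) (Polynomial.map_C _))).trans
        (congrArg lam (h₁ a))).symm, ← Polynomial.hom_eval₂, Polynomial.eval₂_C_X]
  have h2 : ∀ p, ψ p = 0 ↔ P ∣ p := fun p => (hρ.1 _).trans (hc.2 p)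
  obtain ⟨t, ht⟩ := root_mem_vr hα hm hs lam ((h1 Th).trans ((h2 Th).2 hd))
  have h3 : ∀ p : A[X], lam (α (p.eval₂ η t)) = ψ p := fun p => by
    rw [← h1, ← ht, Polynomial.hom_eval₂, Polynomial.hom_eval₂]
  obtain ⟨N', _, _, _, _, ⟨b⟩⟩ := exists_bcd d γ₁ (Fr KK[X])
  obtain ⟨c, -⟩ := b.cov (β := α.comp η) h h₁
  obtain ⟨e, ε, J, he, -, hJ⟩ := hG.le _ N' c t (hα.2.1 (lam.injective (by
    rw [h3, (h2 Th).2 hd, map_zero, map_zero]))) (Fr (Ps R)) _ (isFr_alg _ _)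
  obtain ⟨V, ρV, hV, h4, h5⟩ := exists_vs hα.isFr (isFr_alg (Ps R) (Fr (Ps R)))
  have h6 : ∀ p : A[X], J.comp b.j (pA A K F E p) = algebraMap (Ps R) (Fr (Ps R))
      ((p.map η).eval₂ PowerSeries.C (PowerSeries.C t + PowerSeries.X ^ e * ε)) := fun p => by
    rw [← hJ, Polynomial.map_map, ← bc2_map (β := α.comp η) h₁, ← b.hφ, d.φ_map]
    rfl
  have ho := Over.comap (J.comp b.j) V
  have h7 := (h4.comp_int ho).comp lam
  have h8 : ∀ p : A[X], V.comap (J.comp b.j) (pA A K F E p) ≤ 1 := fun p =>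
    (congrArg V (h6 p)).trans_le (hV.1 _)
  have h9 : ∀ p : A[X], lam.comp (ρV.comp ho.int) ⟨_, h8 p⟩ = ψ p := fun p => by
    rw [← h3, RingHom.comp_apply, RingHom.comp_apply,
      show ho.int ⟨_, h8 p⟩ = ⟨_, hV.1 _⟩ from Subtype.ext (h6 p), h5, Polynomial.hom_eval₂,
      Polynomial.eval₂_map]
    simp [he.ne']
  obtain ⟨g, h10, h11⟩ := place_conj_cen (isFr_pA A K F) hP h7 hρ.1
    ⟨h8, fun p => (h7 ⟨_, h8 p⟩).symm.trans (by rw [h9, h2])⟩ hc fun p => (h9 p).symm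
  exact ⟨_, (h11 x x.2 ((h10 x).1 x.2)).symm⟩

variable {N' : Type} [Field N'] [Algebra K N'] [FiniteDimensional K N'] [IsGalois K N']
  {ν : N' →ₐ[K] AlgebraicClosure K} {e₁ : N₁ →ₐ[K] N'} {eK : K₁ →ₐ[K] N'}

theorem RFd.emb (h' : RFd F Ξ ν e₁ eK) (hm : Th.Monic)
    (h : SC l F (Th.map (algebraMap A K)) d (algebraMap K K₁) j) (hP : Prime P) (hd : P ∣ Th)
    (hc : Cen (pA A K F E) Ξ P) (hα : IsVR α v) (hG : Gd l (pA A K F T) Th η α v ρR)
    (hs : (Th.map (α.comp η)).Splits) (γ₁ : K₁ →+* KK) (h₁ : ∀ a, γ₁ (toF A K K₁ a) = α (η a))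
    (γN : N₁ →+* KK) (hN : ∀ a, γN (toF A K N₁ a) = α (η a)) {Ω : Type} [Field Ω] (lam : KK →+* Ω)
    (θ : AlgebraicClosure K →+* Ω)
    (hθ : ∀ a, θ (algebraMap K (AlgebraicClosure K) a) = lam (γ₁ (algebraMap K K₁ a))) :
    ∃ γ' : N' →+* KK, ∀ a, lam (γ' a) = θ (ν a) := by
  have e : γN.comp (algebraMap K N₁) = γ₁.comp (algebraMap K K₁) :=
    IsFractionRing.ringHom_ext (A := A) fun a => (hN a).trans (h₁ a).symm
  refine ring_factor (θ.comp (ν : N' →+* AlgebraicClosure K)) lam lam.injective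
    (h'.gen (lam.fieldRange.comap (θ.comp (ν : N' →+* AlgebraicClosure K))) (fun a => ?_)
      (fun a => ?_) fun ρ x a hρ ha => ?_)
  · obtain ⟨g, hg⟩ := exists_twist (K := K) (lam.comp γN)
      (θ.comp (ν.comp e₁ : N₁ →+* AlgebraicClosure K)) fun a =>
        (congrArg θ ((ν.comp e₁).commutes a)).trans
          ((hθ a).trans (congrArg lam (RingHom.congr_fun e a).symm))
    exact ⟨_, (hg a).symm⟩
  · obtain ⟨g, hg⟩ := exists_twist (K := K) (lam.comp γ₁)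
      (θ.comp (ν.comp eK : K₁ →+* AlgebraicClosure K)) fun a =>
        (congrArg θ ((ν.comp eK).commutes a)).trans (hθ a)
    exact ⟨_, (hg a).symm⟩
  · obtain ⟨y, hy⟩ := emb_res hm h hP hd hc hα hG hs γ₁ h₁ lam (ρ := θ.comp ρ)
      ⟨hρ.1.comp θ, fun a x e => (congrArg θ (hρ.2 a x e)).trans (hθ a)⟩ x
    exact ⟨y, hy.trans (congrArg θ ha).symm⟩

end Pool.Agent.ZFy.ZL
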