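import Pool.Agent.Lib.MP_751085_ag.ZF.Z.Rf1
import Pool.Agent.Lib.MP_751085_ag.ZF.Z.Emb
import Pool.Agent.Lib.MP_751085_ag.ZF.Z.Gr1

/-! The residue fields at the boundary are unramified off `Δ`. -/

namespace Pool.Agent.ZFy.ZL

open Pool.Agent.ZCy
open scoped Classical WithZero Polynomial

set_option linter.unusedSectionVars false

variable {l q : ℕ} {k A K F T N₁ : Type} [Field k] [CommRing A] [IsDomain A]
  [UniqueFactorizationMonoid A] [Field K] [Field F] [Field T] [Field N₁] [Algebra A K]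
  [IsFractionRing A K] [Algebra K[X] F] [IsFractionRing K[X] F] [Algebra F T]
  [FiniteDimensional F T] [IsGalois F T] [Algebra K N₁] [FiniteDimensional K N₁] [IsGalois K N₁]
  {c : k →+* A} {Th : A[X]} {Δ : A} {τ : T →+* Ls N₁}
variable {K₁ E : Type} [Field K₁] [Field E] [Algebra K K₁] [FiniteDimensional K K₁] [IsGalois K K₁]
  [Algebra F E] [FiniteDimensional F E] [IsGalois F E] {d : SecD 1 K K₁ F E} {j : T →+* E}
  {P : A[X]} {Ξ : Vl E}
variable {N' : Type} [Field N'] [Algebra K N'] [FiniteDimensional K N'] [IsGalois K N']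
  {ν : N' →ₐ[K] AlgebraicClosure K} {e₁ : N₁ →ₐ[K] N'} {eK : K₁ →ₐ[K] N'}

theorem RFd.unr (h' : RFd F Ξ ν e₁ eK) (C : Crt K F l q c Th Δ τ)
    (hg : IntermediateField.adjoin K (Cst K c K₁) = ⊤)
    (h : SC l F (Th.map (algebraMap A K)) d (algebraMap K K₁) j) (hP : Prime P) (hd : P ∣ Th)
    (hc : Cen (pA A K F E) Ξ P) : UnrOff K (toF A K N') Δ := by
  intro Q w hQ hΔ hw
  obtain ⟨w₁, hw₁⟩ := exists_cen (K := K) (E := K₁) hQ
  obtain ⟨R, KK, _, _, _, _, _, α, v, η, γ₁, γN, hα, ho, h₁, hN, hq, hG, hs⟩ :=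
    C.model (γ := algebraMap K K₁) hQ hΔ hw₁
  let lam := algebraMap KK (AlgebraicClosure KK)
  obtain ⟨θ, hθ⟩ := exists_ext (algebraMap K (AlgebraicClosure K))
    (fun x => Algebra.IsIntegral.isIntegral x) (lam.comp (γ₁.comp (algebraMap K K₁)))
  obtain ⟨γ', hγ'⟩ := h'.emb C.monic h hP hd hc hα hG hs γ₁ h₁ γN hN lam θ hθ
  have hK : ∀ a, γ' (algebraMap K N' a) = γ₁ (algebraMap K K₁ a) := fun a => lam.injective
    ((hγ' _).trans ((congrArg θ (ν.commutes _)).trans (hθ a)))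
  have hw' : Cen (toF A K N') (v.comap γ') Q :=
    ⟨fun a => (congrArg v (hK _)).trans_le ((ho _).2 (hw₁.1 a)),
      fun a => (congrArg (v · < 1) (hK _)).to_iff.trans ((ho.lt_one _).trans (hw₁.2 a))⟩
  refine unr_of_one hQ hw hw' (eq_bot_iff.2 fun g hg' => ?_)
  obtain ⟨n, hn⟩ := lxt_iff.1 (h'.lxt C hg h hP hd hc) g fun x hx => by
    rcases hx with ⟨a, rfl⟩ | hx
    · refine fix_of_ine (K := K) (e₁ : N₁ →+* N') (g : N' ≃+* N') (fun a => ?_) _ hg'.1 hg'.2
        (C.unr Q _ hQ hΔ ?_) a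
      · rw [RingHom.coe_coe, e₁.commutes]
        exact g.commutes a
      · exact ⟨fun a => (congrArg (v.comap γ') (e₁.commutes _)).trans_le (hw'.1 a), fun a =>
          (congrArg (v.comap γ' · < 1) (e₁.commutes _)).to_iff.trans (hw'.2 a)⟩
    · exact ine_fix_int hg' ((toF A K N').comp c) (fun a => g.commutes _) (fun a => hw'.1 _) hx
  obtain ⟨u, hu⟩ := exists_twist (K := K) (γ'.comp (eK : K₁ →+* N')) γ₁ fun a =>
    ((congrArg γ' (eK.commutes a)).trans (hK a)).symm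
  refine unrl hg' (val_nat ((toF A K N').comp c) (fun a => hw'.1 _) C.lne) hn C.cop fun x _ => ?_
  obtain ⟨a, ha⟩ := hq (γ' x)
  refine ⟨eK (u a), ine_fix_gen hg hg' (eK : K₁ →+* N') (fun a => ?_) (fun a => ?_) _,
    ha.trans (congrArg v (hu a))⟩
  · rw [RingHom.coe_coe, eK.commutes]
    exact g.commutes a
  · exact (congrArg (v.comap γ') (eK.commutes _)).trans_le (hw'.1 _)

end Pool.Agent.ZFy.ZL
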