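import Pool.Agent.Lib.MP_751085_ag.ZF.Z.TypW
import Pool.Agent.Lib.MP_751085_ag.ZF.Z.Bc2
import Pool.Agent.Lib.MP_751085_ag.ZF.Z.GalX

/-! A field of definition of the Kummer classes. -/

namespace Pool.Agent.ZFy.ZL

open Pool.Agent.ZCy
open scoped Classical WithZero Polynomial

set_option linter.unusedSectionVars false

/-- an element of a compositum involves finitely many constants -/
theorem exists_fin_cst {T Ω : Type} [Field T] [Field Ω] (J : T →+* Ls Ω) {u : Ls Ω}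
    (h : u ∈ Subfield.closure (Set.range J ∪ Set.range (tL Ω))) : ∃ S : Finset Ω,
      ∀ s : Ω →+* Ω, (∀ x, lm s (J x) = J x) → (∀ a ∈ S, s a = a) → lm s u = u := by
  induction h using Subfield.closure_induction with
  | mem x hx =>
    rcases hx with ⟨z, rfl⟩ | ⟨p, rfl⟩
    · exact ⟨∅, fun s h _ => h z⟩
    · refine ⟨p.coeffs, fun s _ h => (lm_tM s 1 p).trans (congrArg _ (Polynomial.ext fun n => ?_))⟩
      rw [Polynomial.coeff_map]
      by_cases e : p.coeff n = 0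
      · rw [e, map_zero]
      · exact h _ (Polynomial.coeff_mem_coeffs e)
  | one => exact ⟨∅, fun s _ _ => map_one _⟩
  | add x y _ _ hx hy =>
    obtain ⟨S, hS⟩ := hx
    obtain ⟨S', hS'⟩ := hy
    exact ⟨S ∪ S', fun s h h' => by
      rw [map_add, hS s h fun a ha => h' a (Finset.mem_union_left _ ha),
        hS' s h fun a ha => h' a (Finset.mem_union_right _ ha)]⟩
  | neg x _ hx => exact hx.imp fun S hS s h h' => by rw [map_neg, hS s h h']
  | inv x _ hx => exact hx.imp fun S hS s h h' => by rw [map_inv₀, hS s h h']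
  | mul x y _ _ hx hy =>
    obtain ⟨S, hS⟩ := hx
    obtain ⟨S', hS'⟩ := hy
    exact ⟨S ∪ S', fun s h h' => by
      rw [map_mul, hS s h fun a ha => h' a (Finset.mem_union_left _ ha),
        hS' s h fun a ha => h' a (Finset.mem_union_right _ ha)]⟩

theorem kum_lm {A B C : Type} [CommRing A] [CommRing B] [CommRing C] {f : A →+* B} {g : B →+* C}
    {h : A →+* C} (e : ∀ a, g (f a) = h a) (x : Ls A) : lm g (lm f x) = lm h x :=
  HahnSeries.ext (funext fun _ => e _)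

theorem kum_root {M Ω : Type} [Field M] [IsAlgClosed M] [Field Ω] (φ : M →+* Ω) {l : ℕ}
    (hl : l ≠ 0) {x : Ω} (hx : x ^ l = 1) : x ∈ φ.range :=
  (IsAlgClosed.splits (Polynomial.X ^ l - Polynomial.C 1)).mem_range_of_isRoot
    (Polynomial.X_pow_sub_C_ne_zero (Nat.pos_of_ne_zero hl) 1) (by simp [hx])

theorem kum_fix {F T N : Type} [Field F] [Field T] [Field N] [Algebra F T] [Algebra F N]
    [FiniteDimensional F N] [IsGalois F N] (i : T →ₐ[F] N) {z : N}
    (h : ∀ g : N ≃ₐ[F] N, (∀ x, g (i x) = i x) → g z = z) : ∃ u, i u = z := by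
  change z ∈ i.fieldRange
  rw [← IsGalois.fixedField_fixingSubgroup i.fieldRange, IntermediateField.mem_fixedField_iff]
  exact fun g hg => h g fun x => hg ⟨_, x, rfl⟩

variable {l : ℕ} {K F T N₁ : Type} [Field K] [Field F] [Field T] [Field N₁] [Algebra K[X] F]
  [IsFractionRing K[X] F] [Algebra F T] [FiniteDimensional F T] [IsGalois F T] [Algebra K N₁]
  {Th : K[X]} {τ : T →+* Ls N₁}

theorem kum_comp {M : Type} [Field M] (F' : Type) [Field F'] [Algebra M[X] F']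
    [IsFractionRing M[X] F'] (γ : K →+* M) (J : T →+* Ls M)
    (hJ : ∀ p, J (toF K[X] F T p) = tL M (p.map γ)) :
    ∃ (T' : Type) (_ : Field T') (_ : Algebra F' T') (_ : FiniteDimensional F' T')
      (_ : IsGalois F' T') (ι : T' →+* Ls M), (∀ p, ι (toF M[X] F' T' p) = tL M p) ∧
      ι.fieldRange = Subfield.closure (Set.range J ∪ Set.range (tL M)) := by
  obtain ⟨l, hl⟩ := (isFr_alg M[X] F').exists_lift (tL_injective (R := M))
  obtain ⟨f, hf⟩ := (isFr_alg K[X] F).exists_lift (β := (algebraMap M[X] F').comp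
    (Polynomial.mapRingHom γ))
    ((isFr_alg M[X] F').1.comp (Polynomial.map_injective _ γ.injective))
  let := l.toAlgebra
  have hs : Sq f J := RingHom.congr_fun ((isFr_alg K[X] F).hom_ext
    (φ := J.comp (algebraMap F T)) (φ' := l.comp f) fun p =>
      (hJ p).trans ((congrArg l (hf p)).trans (hl _)).symm)
  obtain ⟨h1, h2, -⟩ := bc_in hs
  refine ⟨_, inferInstance, inferInstance, h1, h2, (IntermediateField.val _).toRingHom, hl,
    le_antisymm ?_ (Subfield.closure_le.2 ?_)⟩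
  · have h : ∀ a, algebraMap F' (Ls M) a ∈
        Subfield.closure (Set.range J ∪ Set.range (tL M)) := fun a => by
      obtain ⟨p, q, -, rfl⟩ := IsFractionRing.div_surjective (A := M[X]) a
      rw [map_div₀]
      exact div_mem (Subfield.subset_closure (Or.inr ⟨p, (hl p).symm⟩))
        (Subfield.subset_closure (Or.inr ⟨q, (hl q).symm⟩))
    rintro _ ⟨z, rfl⟩
    exact (IntermediateField.adjoin_le_iff (T := Subfield.toIntermediateField _ h)).2
      (fun x hx => Subfield.subset_closure (Or.inl hx)) z.2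
  · rintro _ (⟨z, rfl⟩ | ⟨p, rfl⟩)
    exacts [⟨⟨_, IntermediateField.subset_adjoin _ _ ⟨z, rfl⟩⟩, rfl⟩,
      ⟨toF M[X] F' _ p, hl p⟩]

theorem exists_kum [FiniteDimensional K N₁] [IsGalois K N₁] (hF : FNT) (hl : l.Prime)
    (h0 : (l : K) ≠ 0) (hm : Th.Monic)
    (hτ : ∀ p, τ (toF K[X] F T p) = tL N₁ (p.map (algebraMap K N₁))) :
    ∃ (N₂ : Type) (_ : Field N₂) (_ : Algebra K N₂) (_ : FiniteDimensional K N₂)
      (_ : IsGalois K N₂) (e : N₁ →ₐ[K] N₂), KumOK F l Th ((lm (e : N₁ →+* N₂)).comp τ) := by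
  let M := AlgebraicClosure N₁
  let F' := FractionRing M[X]
  let J := (lm (algebraMap N₁ M)).comp τ
  obtain ⟨T', _, _, _, _, ι, hι, hC⟩ := kum_comp (F := F) F' (algebraMap K M) J fun p => by
    rw [RingHom.comp_apply, hτ, lm_tM, Polynomial.map_map, ← IsScalarTower.algebraMap_eq]
  obtain ⟨U, hU⟩ := hF M F' T' ι (Th.map (algebraMap K M)) l hl
    (by rwa [← map_natCast (algebraMap K M), map_ne_zero]) (hm.map _) hι
  choose S hS using fun u : T' => exists_fin_cst J (u := ι u) (hC ▸ ⟨u, rfl⟩)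
  have : Algebra.IsIntegral K M := Algebra.IsIntegral.trans N₁
  obtain ⟨L', _, _, _, _, hL'⟩ := exists_gal_root (μ := ∏ a ∈ U.biUnion S, minpoly K a)
    (Finset.prod_ne_zero_iff.2 fun a _ => minpoly.ne_zero (Algebra.IsIntegral.isIntegral a))
  obtain ⟨N₂, _, _, _, _, ⟨e₁⟩, ⟨e'⟩⟩ := exists_gal_sup K N₁ L'
  refine ⟨N₂, inferInstance, inferInstance, inferInstance, inferInstance, e₁, ?_⟩
  intro L N _ _ _ _ _ _ _ _ d e j s δ r hj hu hs hδ hr g hg
  rcases eq_or_ne r 0 with rfl | r0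
  · rw [div_zero, map_zero]
  obtain ⟨γ, hγ⟩ := exists_ext ((e.comp e₁ : N₁ →ₐ[K] L) : N₁ →+* L) (fun x =>
    RingHom.IsIntegralElem.of_comp (f := algebraMap K N₁) (by
      rw [AlgHom.comp_algebraMap]; exact IsIntegral.of_finite K x)) (algebraMap N₁ M)
  have hK : γ.comp (algebraMap K L) = algebraMap K M := RingHom.ext fun a =>
    (congrArg γ ((e.comp e₁).commutes a).symm).trans (hγ _)
  obtain ⟨δ', hδ'⟩ := exists_ext γ (fun x => RingHom.IsIntegralElem.of_comp (f := algebraMap K L)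
    (hK ▸ Algebra.IsIntegral.isIntegral (R := K) x)) (γ.comp δ)
  have he : ∀ a, δ' (γ (e a)) = γ (e a) := fun a => (hδ' _).trans (congrArg γ (hδ a))
  have hJ : ∀ x, lm δ' (J x) = J x := fun x => kum_lm (fun a => hγ a ▸ he (e₁ a)) _
  have hfix : ∀ u ∈ U, lm δ' (ι u) = ι u := fun u hu => hS u δ' hJ fun a ha =>
    hL' M (γ.comp ((e.comp e' : L' →ₐ[K] L) : L' →+* L)) δ' a (fun b => he (e' b)) (by
      rw [RingHom.comp_assoc, AlgHom.comp_algebraMap, hK, ← Polynomial.aeval_def, map_prod]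
      exact Finset.prod_eq_zero (Finset.mem_biUnion.2 ⟨u, hu, ha⟩) (minpoly.aeval K a))
  obtain ⟨N', _, _, _, _, ⟨b⟩⟩ := exists_bcd d γ F'
  have hb : ∀ x, b.ι (b.j (j x)) = J x := fun x => by
    rw [b.hj, hj]
    exact HahnSeries.ext (funext fun _ => hγ _)
  obtain ⟨i₀, hi⟩ := ring_factor ι b.ι b.ι.injective fun z => by
    refine (Subfield.closure_le (t := b.ι.fieldRange)).2 ?_ (hC.le ⟨z, rfl⟩)
    rintro _ (⟨x, rfl⟩ | ⟨p, rfl⟩)
    exacts [⟨_, hb x⟩, ⟨_, b.hι p⟩]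
  let i : T' →ₐ[F'] N' := ⟨i₀, RingHom.congr_fun ((isFr_alg M[X] F').hom_ext
    (φ := i₀.comp (algebraMap F' T')) (φ' := algebraMap F' N') fun p =>
      b.ι.injective ((hi _).trans ((hι p).trans (b.hι p).symm)))⟩
  obtain ⟨u, hu'⟩ := kum_fix i (z := b.j r ^ l) fun g' hg' => by
    obtain ⟨g₀, h1, h2⟩ := b.restr g'
    rw [← map_pow, ← h2, hr g₀ (mem_fixS_union.2 ⟨fun x => b.j.injective ?_, mem_fixS_range.1 h1⟩)]
    obtain ⟨y, hy⟩ : J x ∈ ι.fieldRange := hC ▸ Subfield.subset_closure (Or.inl ⟨x, rfl⟩)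
    rw [h2, ← b.ι.injective ((hi y).trans (hy.trans (hb x).symm))]
    exact hg' y
  have r1 : b.j r ≠ 0 := (map_ne_zero _).2 r0
  have u0 : u ≠ 0 := fun e => pow_ne_zero l r1 (by rw [← hu', e, map_zero])
  obtain ⟨u', hU', w, rfl⟩ := hU u u0 fun P hP ht hΘ =>
    typW i b.ι b.hι (by simpa only [Polynomial.map_map, hK] using b.unr hu) hu' P hP ht hΘ
  have w0 : ι w ≠ 0 := (map_ne_zero _).2 ((pow_ne_zero_iff hl.ne_zero).1 (right_ne_zero_of_mul u0))
  have u1 : ι u' ≠ 0 := (map_ne_zero _).2 (left_ne_zero_of_mul u0)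
  have hρ : b.ι (b.j r) ^ l = ι u' * ι w ^ l := by
    rw [← map_pow, ← hu', ← map_pow, ← map_mul]
    exact hi _
  have hsr : b.ι (b.j (s r)) = lm δ' (b.ι (b.j r)) := by
    rw [b.hj, b.hj, hs, kum_lm hδ', kum_lm (f := δ) (g := γ) (h := γ.comp δ) fun _ => rfl]
  obtain ⟨ζ, hζ⟩ := kum_root ((tL M).comp Polynomial.C) hl.ne_zero
    (x := lm δ' (b.ι (b.j r) / ι w) / (b.ι (b.j r) / ι w)) (by
      have : (b.ι (b.j r) / ι w) ^ l = ι u' := by
        rw [div_pow, hρ, mul_div_cancel_right₀ _ (pow_ne_zero l w0)]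
      rw [div_pow, ← map_pow, this, hfix u' hU', div_self u1])
  have hw : lm δ' (ι w) ∈ ι.fieldRange := by
    refine (Subfield.closure_le (t := ι.fieldRange.comap (lm δ'))).2 ?_ (hC.le ⟨w, rfl⟩)
    rw [hC]
    rintro _ (⟨x, rfl⟩ | ⟨p, rfl⟩)
    exacts [Subfield.subset_closure (Or.inl ⟨x, (hJ x).symm⟩),
      Subfield.subset_closure (Or.inr ⟨_, (lm_tM δ' 1 p).symm⟩)]
  have hm' : b.ι (b.j (s r / r)) ∈ Subfield.closure (Set.range J ∪ Set.range (tL M)) := by
    have e : b.ι (b.j (s r / r)) = tL M (Polynomial.C ζ) * (lm δ' (ι w) / ι w) := by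
      have h1 : lm δ' (ι w) ≠ 0 := (map_ne_zero _).2 w0
      have h2 : b.ι (b.j r) ≠ 0 := (map_ne_zero _).2 r1
      rw [map_div₀, map_div₀, hsr, ← RingHom.comp_apply (tL M), hζ, map_div₀]
      field_simp
    rw [e]
    exact mul_mem (Subfield.subset_closure (Or.inr ⟨_, rfl⟩)) (hC ▸ div_mem hw ⟨w, rfl⟩)
  obtain ⟨h1, h2⟩ := mem_fixS_union.1 hg
  obtain ⟨g', hg'⟩ := b.ext (mem_fixS_range.2 h2)
  obtain ⟨z, hz, e⟩ := (Subfield.closure_le (t := (RingHom.eqLocusField (g' : N' →+* N')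
    (RingHom.id N')).map b.ι)).2 (by
      rintro _ (⟨x, rfl⟩ | ⟨p, rfl⟩)
      exacts [⟨_, (hg' _).trans (congrArg _ (h1 x)), hb x⟩, ⟨_, g'.commutes _, b.hι p⟩]) hm'
  obtain rfl := b.ι.injective e
  exact b.j.injective ((hg' _).symm.trans hz)

end Pool.Agent.ZFy.ZL
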