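import Pool.Agent.Lib.MP_751085_ag.ZF.Z.Ract
import Pool.Agent.Lib.MP_751085_ag.ZF.Z.Misc1
import Pool.Agent.Lib.MP_751085_ag.ZC.V.Dec

/-! Passage to a subfield of the residue field. -/

namespace Pool.Agent.ZFy.ZL

open Pool.Agent.ZCy
open scoped Classical WithZero Polynomial
open MvPolynomial

set_option linter.unusedSectionVars false

theorem exists_quot {L E LH EH E₀ : Type} [Field L] [Field E] [Field LH] [Field EH] [Field E₀]
    [Algebra L E] [FiniteDimensional L E] [IsGalois L E] [Algebra LH EH] [FiniteDimensional LH EH]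
    [IsGalois LH EH] [Algebra LH E₀] [FiniteDimensional LH E₀] [IsGalois LH E₀]
    (i : EH →ₐ[LH] E₀) {w : Vl E} {ρ : w.integer →+* E₀} (hρ : IsRed w ρ)
    (hs : Function.Surjective ρ) (hd : Dec L w = ⊤) (hi : Ine L w = ⊥)
    (r : (E ≃ₐ[L] E) ≃* (E₀ ≃ₐ[LH] E₀))
    (act : ∀ (g : E ≃ₐ[L] E) (x y : w.integer), (y : E) = g x → ρ y = r g (ρ x))
    (h0 : ∀ a : LH, ∃ (b : L) (h : _), ρ ⟨algebraMap L E b, h⟩ = algebraMap LH E₀ a)
    (h1 : ∀ (b : L) (h : _), ∃ a : LH, ρ ⟨algebraMap L E b, h⟩ = algebraMap LH E₀ a) :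
    ∃ (E' : Type) (_ : Field E') (_ : Algebra L E') (_ : FiniteDimensional L E')
      (_ : IsGalois L E') (e : E' →ₐ[L] E) (w' : Vl E') (ho : Over (e : E' →+* E) w' w)
      (ρ' : w'.integer →+* EH) (r' : (E' ≃ₐ[L] E') ≃* (EH ≃ₐ[LH] EH)),
      (∀ x : E, (∀ g : E ≃ₐ[L] E, (∀ y, r g (i y) = i y) → g x = x) → ∃ x', e x' = x) ∧
      (∀ x, i (ρ' x) = ρ (ho.int x)) ∧ Function.Surjective ρ' ∧ Dec L w' = ⊤ ∧ Ine L w' = ⊥ ∧
      (∀ (g : E' ≃ₐ[L] E') (x y : w'.integer), (y : E') = g x → ρ' y = r' g (ρ' x)) ∧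
      ∀ (g : E ≃ₐ[L] E) (g' : E' ≃ₐ[L] E'), (∀ x, e (g' x) = g (e x)) →
        ∀ y, i (r' g' y) = r g (i y) := by
  obtain ⟨s, hsr⟩ := exists_rs (φ := RingHom.id LH) (j := (i : EH →+* E₀)) i.commutes
  let N := (s.comp r.toMonoidHom).ker
  have hN : ∀ g, g ∈ N ↔ ∀ y, r g (i y) = i y := fun g =>
    ⟨fun h y => (hsr (r g) y).symm.trans (congrArg (fun u : EH ≃ₐ[LH] EH => i (u y)) h),
      fun h => AlgEquiv.ext fun y => i.injective ((hsr (r g) y).trans (h y))⟩
  let E' := IntermediateField.fixedField N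
  have hq : Sq (RingHom.id L) (E'.val : E' →+* E) := fun _ => rfl
  have ho := Over.comap (E'.val : E' →+* E) w
  have hD : ∀ (g : E ≃ₐ[L] E) x, w (g x) = w x := fun g => show g ∈ Dec L w from
    hd ▸ Subgroup.mem_top g
  obtain ⟨ρ', e⟩ := ring_factor (ρ.comp ho.int) (i : EH →+* E₀) i.injective fun x => by
    change _ ∈ i.fieldRange
    rw [← IsGalois.fixedField_fixingSubgroup i.fieldRange, IntermediateField.mem_fixedField_iff]
    intro h hh
    obtain ⟨g, rfl⟩ := r.surjective h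
    exact (act g _ _ ((IntermediateField.mem_fixedField_iff _ _).1 x.1.2 g ((hN g).2 fun y =>
      (IntermediateField.mem_fixingSubgroup_iff _ _).1 hh _ ⟨y, rfl⟩)).symm).symm
  have hρ' : IsRed _ ρ' := fun x =>
    (map_eq_zero (i : EH →+* E₀)).symm.trans (e x ▸ hρ.comp_int ho x)
  have hs' : Function.Surjective ρ' := fun y => by
    obtain ⟨x, hx⟩ := hs (i y)
    obtain ⟨a, ha⟩ := red_of_fix (K := E') (w := w) x.2 (fun g hg => by
      have : g.restrictScalars L ∈ Ine L w := hg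
      rw [hi, Subgroup.mem_bot] at this
      exact DFunLike.congr_fun this _) fun g hg => by
      have h2 : g.restrictScalars L ∈ N := IntermediateField.fixingSubgroup_fixedField N ▸
        (IntermediateField.mem_fixingSubgroup_iff _ _).2 fun z hz => g.commutes ⟨z, hz⟩
      refine (hρ.eq_iff ⟨g x, (hg x).trans_le x.2⟩ x).1 ((act (g.restrictScalars L) x _ rfl).trans ?_)
      rw [hx, (hN _).1 h2]
    have h3 : w (algebraMap E' E a) ≤ 1 := by
      rw [← sub_sub_cancel (x : E) (algebraMap E' E a)]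
      exact w.map_sub_le x.2 ha.le
    exact ⟨⟨a, h3⟩, i.injective ((e _).trans (((hρ.eq_iff x ⟨_, h3⟩).2 ha).symm.trans hx))⟩
  have hd' : Dec L (w.comap (E'.val : E' →+* E)) = ⊤ := eq_top_iff.2 fun g' _ x => by
    obtain ⟨g, hg⟩ := exists_twist_sub _ hq (RingHom.id E) ((E'.val : E' →+* E).comp g')
      fun a => congrArg Subtype.val (g'.commutes a)
    exact (congrArg w (hg x)).trans (hD g _)
  have hi' : Ine L (w.comap (E'.val : E' →+* E)) = ⊥ := eq_bot_iff.2 fun g' hg' => by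
    obtain ⟨t, ht⟩ := exists_rs hq
    obtain ⟨g, hg, rfl⟩ := ht.ine_onto hq ho hg'
    rw [hi, Subgroup.mem_bot] at hg
    rw [hg, map_one]
    exact one_mem _
  obtain ⟨r', act'⟩ := exists_riso (F₀ := LH) hρ' hs' hd' hi'
    (fun a => (h0 a).imp fun _ h => h.imp fun _ h =>
      i.injective ((e _).trans (h.trans (i.commutes a).symm)))
    fun b h => (h1 b h).imp fun a h => i.injective ((e _).trans (h.trans (i.commutes a).symm))
  refine ⟨E', inferInstance, inferInstance, inferInstance, inferInstance, E'.val, _, ho, ρ', r',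
    fun x hx => ⟨⟨x, (IntermediateField.mem_fixedField_iff _ _).2 fun g hg => hx g ((hN g).1 hg)⟩,
      rfl⟩, e, hs', hd', hi', act', fun g g' h y => ?_⟩
  obtain ⟨x, rfl⟩ := hs' y
  have h2 : w (E'.val (g' x)) ≤ 1 := (congrArg w (h x)).trans_le ((hD g _).trans_le x.2)
  rw [← act' g' x ⟨_, h2⟩ rfl]
  exact (e _).trans ((act g (ho.int x) _ (h x)).trans (congrArg (r g) (e x).symm))

/-- restriction of a normalised valuation to a subfield of finite index -/
theorem exists_nrm_sub {LH EH E₀ : Type} [Field LH] [Field EH] [Field E₀] [Algebra LH EH]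
    [Algebra LH E₀] [FiniteDimensional LH E₀] (i : EH →ₐ[LH] E₀) {Q : Vl E₀} (hQ : Nrm Q) :
    ∃ Q' : Vl EH, Nrm Q' ∧ Over (i : EH →+* E₀) Q' Q := by
  obtain ⟨x, h0, hx⟩ : ∃ x, x ≠ 0 ∧ Q.comap (i : EH →+* E₀) x ≠ 1 := by
    by_contra! h
    obtain ⟨π, hπ⟩ := hQ
    let := (i : EH →+* E₀).toAlgebra
    have : IsScalarTower LH EH E₀ := .of_algebraMap_eq fun a => (i.commutes a).symm
    have : FiniteDimensional EH E₀ := Module.Finite.of_restrictScalars_finite LH EH E₀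
    exact ((lt_one_iff_le_exp _).2 hπ.le).ne (Triv.eq_one (K := EH) (w := Q) h
      ((Valuation.ne_zero_iff Q).1 (hπ ▸ WithZero.exp_ne_zero)) (.of_finite EH π))
  obtain ⟨v, e, hv, he, h⟩ := exists_nrm h0 hx
  exact ⟨v, hv, h.over he⟩

end Pool.Agent.ZFy.ZL
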