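import Pool.Agent.Lib.MP_751085_ag.ZF.Z.TDefs
import Pool.Agent.Lib.MP_751085_ag.ZC.V.HarB
import Pool.Agent.Lib.MP_751085_ag.ZC.V.Red

/-! Polar coordinates. -/

namespace Pool.Agent.ZFy.ZL

open Pool.Agent.ZCy
open scoped Classical WithZero Polynomial
open MvPolynomial

set_option linter.unusedSectionVars false

variable {ι σ k L E : Type} [Fintype ι] [Fintype σ] [Field k] [Field L] [Field E]

/-- the coefficients of the branch polynomial are the homogeneous components -/
theorem flp_scale {S : Type} [CommRing S] (f : k →+* S) (y : ι → S) (c : S) (Θ : MP (Option ι) k)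
    {j : ℕ} (hj : j ≤ Θ.totalDegree + 1) :
    eval₂ f y ((tp (flp Θ)).coeff j) * c ^ (Θ.totalDegree + 1 - j) =
      eval₂ f (fun i : Option ι => i.elim c fun i => y i * c)
        (homogeneousComponent (Θ.totalDegree + 1 - j) Θ) := by
  rw [tp_flp_coeff Θ hj, homogeneousComponent_apply, eval₂_sum, eval₂_sum, Finset.sum_mul]
  refine Finset.sum_congr rfl fun m hm => ?_
  rw [← (Finset.mem_filter.1 hm).2, eval₂_monomial, eval₂_monomial,
    Finsupp.prod_fintype _ _ fun _ => pow_zero _, Finsupp.prod_fintype _ _ fun _ => pow_zero _,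
    Fintype.prod_option, Finsupp.degree_eq_sum, Fintype.sum_option]
  simp only [Option.elim, Finsupp.some_apply, mul_pow, Finset.prod_mul_distrib,
    Finset.prod_pow_eq_pow_sum, pow_add]
  ring

theorem exists_polA {α : MP (Option ι) k →+* L} (h : IsFr α) :
    ∃ _ : Algebra (RF ι k)[X] L, IsFractionRing (RF ι k)[X] L ∧ Pol α := by
  obtain ⟨ψ, hψ⟩ := exists_pol h.1
  let _ := ψ.toAlgebra
  refine ⟨_, isFrac_of (hψ.injective h.1) (hψ.frac h.1 fun z => ?_), h, hψ⟩
  obtain ⟨a, b, hb, e⟩ := h.2 z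
  exact ⟨a, b, eq_div_of_mul_eq (h.vfrc_ne hb) e⟩

/-- the expansion of the coordinates along the generic line through the origin -/
theorem pol_exp {M : Type} [Field M] {φ : MP (Option ι) k →+* E} {ψ : (RF ι k)[X] →+* E}
    (h : IsPol φ ψ) (hφ : Function.Injective φ) (J : E →+* Ls M) (γ : RF ι k →+* M)
    (hJ : ∀ p, J (ψ p) = tL M (p.map γ)) :
    (∀ a, J (φ (C a)) = HahnSeries.C (γ (rc ι k a))) ∧ J (φ (X none)) = HahnSeries.single 1 1 ∧
      ∀ j, J (φ (X (some j))) = HahnSeries.single 1 (γ (algebraMap (MP ι k) _ (X j))) := by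
  have hC : ∀ a, J (ψ (Polynomial.C a)) = HahnSeries.C (γ a) := fun a => by
    rw [hJ, Polynomial.map_C, sec_tM_C]
  have h0 : φ (X none) ≠ 0 := (map_ne_zero_iff _ hφ).2 (X_ne_zero _)
  have h1 : J (φ (X none)) = HahnSeries.single 1 1 := by
    have e := hJ Polynomial.X
    rw [h.X, map_inv₀] at e
    rw [← inv_inv (J _), e]
    refine inv_eq_of_mul_eq_one_right ?_
    simp [tM, HahnSeries.single_mul_single]
  refine ⟨fun a => ?_, h1, fun j => ?_⟩
  · rw [← hC, RingHom.comp_apply, h.C, up, rename_C, flpHom_C]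
  · have e : φ (X (some j)) = ψ (Polynomial.C (algebraMap (MP ι k) (RF ι k) (X j))) * φ (X none) := by
      rw [h.C, up, rename_X, flpHom_some, div_mul_cancel₀ _ h0]
    rw [e, map_mul, hC, h1, HahnSeries.C_apply, HahnSeries.single_mul_single, zero_add, mul_one]

/-- residues in the other coordinates -/
theorem res_flp' {EH : Type} [Field EH] {φ : MP (Option (Option σ)) k →+* E}
    {φH : MP (Option σ) k →+* EH} (hφH : Function.Injective φH) {w : Vl E}
    {ρ : w.integer →+* EH} (hρ : IsRed w ρ) (h : ∀ q, ∃ h, ρ ⟨φ q, h⟩ = φH (hyp q))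
    (p : MP (Option (Option σ)) k) : ∃ h, ρ ⟨flpHom φ p, h⟩ = flpHom φH (hyp p) := by
  have hh : (hyp (X none) : MP (Option σ) k) = X none := by simp [hyp]
  have h1 : φH (X none) ≠ 0 := (map_ne_zero_iff _ hφH).2 (X_ne_zero _)
  obtain ⟨ht, et⟩ := h (X none)
  rw [hh] at et
  have hw : w (φ (X none)) = 1 := (hρ.ne_zero ⟨_, ht⟩).1 (et ▸ h1)
  have e3 := flp_eval' φ (fun h0 => by simp [h0] at hw) p
  have e4 := flp_eval' (φH.comp hyp) (by rwa [RingHom.comp_apply, hh]) p
  rw [flpHom_hyp, RingHom.comp_apply, RingHom.comp_apply, RingHom.comp_apply, hh] at e4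
  obtain ⟨hq, eq⟩ := h (flp p)
  have hp : w (flpHom φ p) ≤ 1 := by
    have := congrArg w e3
    rw [map_mul, map_pow, hw, one_pow, mul_one] at this
    exact this.trans_le hq
  refine ⟨hp, mul_right_cancel₀ (pow_ne_zero (p.totalDegree + 1) h1) ?_⟩
  rw [e4, ← eq, ← et, ← map_pow, ← map_mul]
  exact congrArg ρ (Subtype.ext e3)

variable [Algebra (RF ι k)[X] L] [Algebra L E] {α : MP (Option ι) k →+* L}

theorem Pol.inj (h : Pol α) : Function.Injective (tE E α) :=
  (algebraMap L E).injective.comp h.fr.1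

theorem Pol.ext (h : Pol α) : IsPol (tE E α) (toF (RF ι k)[X] L E) := h.pol.comp _

theorem Pol.pA (h : Pol α) (p : MP (Option ι) k) :
    pA (MP ι k) (RF ι k) L E (tp p) = flpHom (tE E α) p := h.ext p

theorem Pol.unr (h : Pol α) {Θ : MP (Option ι) k} (hu : UnrOff L (tE E α) Θ) :
    UnrOff L (toF (RF ι k)[X] L E) (thK Θ) := by
  refine unrOff_pol h.ext h.inj hu
    ((congrArg (· * _) (h.ext _)).trans (flp_eval _ (pol_tau h.inj) Θ)) ?_
  obtain ⟨q, hq⟩ := X_dvd_flp Θ
  rw [thK, hq, tp, map_mul, optionEquivLeft_X_none, Polynomial.map_mul, Polynomial.map_X]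
  exact dvd_mul_right _ _

theorem Pol.unr_hyp (h : Pol α) {Θ : MP (Option (Option ι)) k} (hu : UnrOff L (tE E α) (hyp Θ)) :
    UnrOff L (toF (RF ι k)[X] L E)
      ((tp (hyp (flp Θ))).map (algebraMap (MP ι k) (RF ι k))) := by
  have hh : (hyp (X none) : MP (Option ι) k) = X none := by simp [hyp]
  have e := flp_eval ((tE E α).comp hyp) (by
    rw [RingHom.comp_apply, hh]
    exact pol_tau h.inj) Θ
  rw [flpHom_hyp, RingHom.comp_apply _ hyp, RingHom.comp_apply _ hyp, RingHom.comp_apply _ hyp, hh,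
    ← h.ext] at e
  refine unrOff_pol h.ext h.inj hu e ?_
  obtain ⟨q, hq⟩ := X_dvd_flp Θ
  rw [hq, map_mul, hh, tp, map_mul, optionEquivLeft_X_none, Polynomial.map_mul, Polynomial.map_X]
  exact dvd_mul_right _ _

end Pool.Agent.ZFy.ZL
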