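import Pool.Agent.Lib.MP_751085_ag.ZF.Z.Crd
import Pool.Agent.Lib.MP_751085_ag.ZF.Z.CrdP

/-! Linear forms and pencils. -/

namespace Pool.Agent.ZFy.ZL

open Pool.Agent.ZCy
open scoped Classical WithZero Polynomial
open MvPolynomial

set_option linter.unusedSectionVars false

variable {ι k L E : Type} [Fintype ι] [Field k] [Field L] [Field E]

theorem lin_cf (c : k) (a : ι → k) : coeff 0 (C c + lin a) = c ∧
    ∀ j, coeff (Finsupp.single j 1) (C c + lin a) = a j := by
  refine ⟨by simp [lin, coeff_sum], fun j => ?_⟩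
  simp [lin, coeff_sum, coeff_X, Finsupp.single_left_inj, coeff_C,
    (Finsupp.single_ne_zero.2 one_ne_zero : Finsupp.single j 1 ≠ 0).symm]

theorem lin_pr (c : k) {a : ι → k} (h : a ≠ 0) : Prime (C c + lin a) := by
  obtain ⟨j, hj⟩ := Function.ne_iff.1 h
  have h1 := (lin_cf c a).2 j
  refine (irreducible_of_totalDegree_eq_one (le_antisymm ?_ ?_) fun x hx => ?_).prime
  · refine (totalDegree_add _ _).trans (max_le (by simp) (totalDegree_finsetSum_le fun i _ => ?_))
    exact (totalDegree_mul _ _).trans (by simp)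
  · simpa using le_totalDegree (mem_support_iff.2 (h1.trans_ne hj))
  · exact (ne_zero_of_dvd_ne_zero (h1.trans_ne hj) (hx _)).isUnit

theorem lin_inj {a a' : Option ι → k} {c : k} (h : alin a' * C c = alin a) : a = c • a' := by
  funext i
  rw [mul_comm] at h
  rw [Pi.smul_apply, smul_eq_mul]
  cases i with
  | none => simpa only [coeff_C_mul, alin, (lin_cf _ _).1] using (congrArg (coeff 0) h).symm
  | some j =>
    simpa only [coeff_C_mul, alin, (lin_cf _ _).2] using
      (congrArg (coeff (Finsupp.single j 1)) h).symm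

theorem prime_lin {a : ι → k} (h : a ≠ 0) : Prime (lin a) := by
  simpa using lin_pr 0 h

theorem prime_alin {a : Option ι → k} (h : (fun j => a (some j)) ≠ 0) : Prime (alin a) := by
  exact lin_pr _ h

theorem map_lin {k₁ : Type} [Field k₁] (f : k →+* k₁) (a : ι → k) :
    map f (lin a) = lin fun j => f (a j) := by
  simp [lin]

theorem map_alin {k₁ : Type} [Field k₁] (f : k →+* k₁) (a : Option ι → k) :
    map f (alin a) = alin fun j => f (a j) := by
  simp [alin, map_lin]

/-- almost all members of a pencil do not divide a given polynomial -/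
theorem fin_lin {Δ : MP ι k} (h0 : Δ ≠ 0) {a μ : Option ι → k} (h : LinearIndependent k ![a, μ]) :
    ∀ᶠ ε : k in Filter.cofinite,
      (fun j => (a + ε • μ) (some j)) ≠ 0 ∧ ¬alin (a + ε • μ) ∣ Δ := by
  rw [LinearIndependent.pair_iff] at h
  have key : ∀ ε ε' c : k, a + ε • μ = c • (a + ε' • μ) → ε = ε' := fun ε ε' c e => by
    obtain ⟨h1, h2⟩ := h (1 - c) (ε - c * ε') (by linear_combination (norm := module) e)
    linear_combination h2 - ε' * h1
  have f1 : {ε : k | (fun j => (a + ε • μ) (some j)) = 0}.Subsingleton := fun ε h1 ε' h2 => by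
    have h3 : (a + ε' • μ) none ≠ 0 := fun e => one_ne_zero (h 1 ε' (by
      rw [one_smul]
      exact funext fun i => i.rec e (congrFun h2))).1
    refine key ε ε' ((a + ε • μ) none / (a + ε' • μ) none) (funext fun i => ?_)
    cases i with
    | none => exact (div_mul_cancel₀ _ h3).symm
    | some j => exact (congrFun h1 j).trans ((mul_eq_zero_of_right _ (congrFun h2 j)).symm)
  have f2 : ((fun ε : k => Associates.mk (alin (a + ε • μ))) ⁻¹'
      (Associates.mk '' {p | p ∈ UniqueFactorizationMonoid.factors Δ})).Finite :=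
    ((Multiset.finite_toSet _).image _).preimage fun ε _ ε' _ e => by
      obtain ⟨u, hu⟩ := (Associates.mk_eq_mk_iff_associated.1 e).symm
      obtain ⟨c, -, hc⟩ := isUnit_iff_eq_C_of_isReduced.1 u.isUnit
      exact key _ _ c (lin_inj (hc ▸ hu))
  refine (f1.finite.union f2).subset fun ε hε => or_iff_not_imp_left.2 fun h1 => ?_
  obtain ⟨p, hp, e⟩ := UniqueFactorizationMonoid.exists_mem_factors_of_dvd h0
    (prime_alin h1).irreducible (not_not.1 fun h2 => hε ⟨h1, h2⟩)
  exact ⟨p, hp, (Associates.mk_eq_mk_iff_associated.2 e).symm⟩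

theorem pen_all {B : Type} (s : Finset B) {P : B → (ι → k) → Prop} (h : ∀ b ∈ s, Pen (P b)) :
    Pen fun a => ∀ b ∈ s, P b a := by
  induction s using Finset.induction_on with
  | empty => exact ⟨1, one_ne_zero, fun _ _ _ _ _ _ _ => .of_forall (by simp)⟩
  | insert b s _ ih =>
    obtain ⟨δ, h1, h2⟩ := h b (Finset.mem_insert_self _ _)
    obtain ⟨δ', h3, h4⟩ := ih fun b hb => h b (Finset.mem_insert_of_mem hb)
    refine ⟨δ * δ', mul_ne_zero h1 h3, fun a' h5 a μ e1 e2 e3 => ?_⟩
    rw [map_mul, mul_ne_zero_iff] at h5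
    exact ((h2 a' h5.1 a μ e1 e2 e3).and (h4 a' h5.2 a μ e1 e2 e3)).mono fun ε hε =>
      Finset.forall_mem_insert _ _ _ |>.2 hε

theorem pen_mono {P Q : (ι → k) → Prop} (h : Pen P) (hQ : ∀ a, P a → Q a) : Pen Q := by
  obtain ⟨δ, h1, h2⟩ := h
  exact ⟨δ, h1, fun a' h5 a μ e1 e2 e3 => (h2 a' h5 a μ e1 e2 e3).mono fun _ => hQ _⟩

/-- the cone over a hyperplane -/
theorem cen_lin [Algebra (RF ι k)[X] L] [Algebra L E] {α : MP (Option ι) k →+* L} (h : Pol α)
    {b : Option ι → k} (hb : (fun j => b (some j)) ≠ 0) {W : Vl E}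
    (hW : Cen (pA (MP ι k) (RF ι k) L E) W (Polynomial.C (alin b))) :
    Cen (tE E α) W (lin b) := by
  have hφ := h.inj (E := E)
  have h0 := flp_tau hφ
  have hP := prime_alin hb
  generalize hf : tE E α = φ at hφ h0
  have e : ∀ p, pA (MP ι k) (RF ι k) L E (tp p) = flpHom φ p := hf ▸ h.pA
  have hc : Cen (flpHom φ) W (up (alin b)) := by
    rw [← tp_up] at hW
    have := (cen_equiv (optionEquivLeft k ι).toRingEquiv).2 hW
    rwa [show (pA (MP ι k) (RF ι k) L E).comp _ = flpHom φ from RingHom.ext e] at this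
  have ht : W (flpHom φ (X none)) = 1 := by
    rw [← e, hW.eq_one, tp, optionEquivLeft_X_none, Polynomial.C_dvd_iff_dvd_coeff]
    exact fun hd => hP.not_dvd_one (by simpa using hd 1)
  have hτ : W (φ (X none)) = 1 := by rwa [flpHom_none, map_inv₀, inv_eq_one] at ht
  have hv : ∀ a, W (φ a) = W (flpHom φ (flp a)) := fun a => by
    rw [← flp_eval φ h0 a, map_mul, map_pow, hτ, one_pow, mul_one]
  obtain ⟨Q, hQ, hc'⟩ := cen_loc hφ (flpHom_injective hφ)
    ((MulEquiv.prime_iff (optionEquivLeft k ι)).1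
      ((tp_up (alin b)).symm ▸ Polynomial.prime_C_iff.2 hP : Prime (tp (up (alin b))))) hc
    (fun a => hv a ▸ hc.1 _)
    (fun b => ⟨flp b, X none ^ (b.totalDegree + 1), by rw [map_pow, map_pow, hτ, one_pow],
      by rw [map_pow, flp_eval' φ h0]⟩)
    fun a => ⟨flp a, X none ^ (a.totalDegree + 1), by rw [map_pow, map_pow, ht, one_pow], by
      rw [map_pow, flpHom_none, ← flp_eval φ h0 a, mul_assoc, ← mul_pow, mul_inv_cancel₀ h0,
        one_pow, mul_one]⟩
  have h1 : φ (lin b) = flpHom φ (up (alin b)) * φ (X none) := by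
    simp only [lin, alin, up, Fintype.sum_option, map_add, map_sum, map_mul, rename_C, rename_X,
      flpHom_C, flpHom_some, add_mul, Finset.sum_mul, mul_assoc, div_mul_cancel₀ _ h0]
  refine hc'.assoc (hQ.associated_of_dvd (prime_lin fun h2 => hb (h2 ▸ rfl)) ((hc'.2 _).1 ?_))
  rw [h1, map_mul, hτ, mul_one]
  exact (hc.2 _).2 dvd_rfl

end Pool.Agent.ZFy.ZL
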