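import Pool.Agent.Lib.MP_751085_ag.ZF.Z.TDefs
import Pool.Agent.Lib.MP_751085_ag.ZF.Z.Misc1
import Pool.Agent.Lib.MP_751085_ag.ZC.Z.Cst
import Pool.Agent.Lib.MP_751085_ag.ZC.V.HarB
import Pool.Agent.Lib.MP_751085_ag.ZC.V.Cnj

/-! Extension of the constants of a rational function field. -/

namespace Pool.Agent.ZFy.ZL

open Pool.Agent.ZCy
open scoped Classical WithZero Polynomial
open MvPolynomial

set_option linter.unusedSectionVars false

variable {ι k k₁ : Type} [Fintype ι] [Field k] [Field k₁] [Algebra k k₁]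

variable (ι k k₁) in
theorem exists_rfA : ∃ _ : Algebra (RF ι k) (RF ι k₁), RfA ι k k₁ := by
  obtain ⟨g, hg⟩ := exists_rfMap ι (algebraMap k k₁)
  exact ⟨g.toAlgebra, hg⟩

/-- a field is algebraically closed in a rational function field -/
theorem rf_cst {b : RF ι k} (h : (rc ι k).IsIntegralElem b) : ∃ a, b = rc ι k a := by
  obtain ⟨q, hm, hq⟩ := h
  obtain ⟨p, rfl⟩ := IsIntegrallyClosed.algebraMap_eq_of_integral (R := MP ι k) (x := b)
    ⟨q.map C, hm.map _, by rw [Polynomial.eval₂_map]; exact hq⟩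
  have h1 : IsIntegral k p := ⟨q, hm, IsFractionRing.injective (MP ι k) (RF ι k) (by
    rw [Polynomial.hom_eval₂, map_zero]; exact hq)⟩
  rcases eq_or_ne p 0 with rfl | h0
  · exact ⟨0, by rw [map_zero, map_zero]⟩
  · obtain ⟨a, -, rfl⟩ := isUnit_iff_eq_C_of_isReduced.1 (h1.isUnit h0)
    exact ⟨a, rfl⟩

variable [Algebra (RF ι k) (RF ι k₁)] [FiniteDimensional k k₁]

theorem RfA.fin (h : RfA ι k k₁) : FiniteDimensional (RF ι k) (RF ι k₁) := rf_finite h

theorem RfA.map_rc (h : RfA ι k k₁) (a : k) :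
    algebraMap (RF ι k) (RF ι k₁) (rc ι k a) = rc ι k₁ (algebraMap k k₁ a) := by
  exact (h _).trans (congrArg _ (map_C _ a))

theorem RfA.mem (h : RfA ι k k₁) (a : k₁) :
    rc ι k₁ a ∈ Cst (RF ι k) (C : k →+* MP ι k) (RF ι k₁) := by
  obtain ⟨q, hm, hq⟩ := Algebra.IsIntegral.isIntegral (R := k) a
  refine ⟨q, hm, ?_⟩
  rw [show (toF (MP ι k) (RF ι k) (RF ι k₁)).comp C = (rc ι k₁).comp (algebraMap k k₁) from
    RingHom.ext h.map_rc, ← Polynomial.hom_eval₂, hq, map_zero]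

theorem RfA.cst (h : RfA ι k k₁) {b : RF ι k₁}
    (hb : b ∈ Cst (RF ι k) (C : k →+* MP ι k) (RF ι k₁)) : ∃ a, b = rc ι k₁ a := by
  obtain ⟨q, hm, hq⟩ := hb
  refine rf_cst ⟨q.map (algebraMap k k₁), hm.map _, ?_⟩
  rw [Polynomial.eval₂_map, ← show (toF (MP ι k) (RF ι k) (RF ι k₁)).comp C =
    (rc ι k₁).comp (algebraMap k k₁) from RingHom.ext h.map_rc, hq]

theorem cstx_gen (h : RfA ι k k₁) :
    IntermediateField.adjoin (RF ι k) (Set.range (rc ι k₁)) = ⊤ := by
  have h1 : ∀ p : MP ι k₁, algebraMap _ (RF ι k₁) p ∈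
      IntermediateField.adjoin (RF ι k) (Set.range (rc ι k₁)) := fun p => by
    induction p using MvPolynomial.induction_on with
    | C a => exact IntermediateField.subset_adjoin _ _ ⟨a, rfl⟩
    | add p q hp hq => rw [map_add]; exact add_mem hp hq
    | mul_X p i hp =>
      rw [map_mul, ← map_X (algebraMap k k₁), ← h]
      exact mul_mem hp (IntermediateField.algebraMap_mem _ _)
  refine eq_top_iff.2 fun x _ => ?_
  obtain ⟨a, b, -, rfl⟩ := IsFractionRing.div_surjective (A := MP ι k₁) x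
  exact div_mem (h1 a) (h1 b)

theorem RfA.gen (h : RfA ι k k₁) :
    IntermediateField.adjoin (RF ι k) (Cst (RF ι k) (C : k →+* MP ι k) (RF ι k₁)) = ⊤ := by
  exact top_le_iff.1 (cstx_gen h ▸ IntermediateField.adjoin.mono _ _ _
    (Set.range_subset_iff.2 h.mem))

theorem RfA.gal [IsGalois k k₁] (h : RfA ι k k₁) : IsGalois (RF ι k) (RF ι k₁) := by
  have h1 := (bc_in (φ := rc ι k) (j := rc ι k₁) fun a => (h.map_rc a).symm).2.1
  rw [cstx_gen h] at h1
  exact IsGalois.of_algEquiv IntermediateField.topEquiv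

theorem RfA.inert (h : RfA ι k k₁) {P : MP ι k} (hP : Prime P)
    (hP₁ : Prime (map (algebraMap k k₁) P)) :
    Inert (RF ι k) (toF (MP ι k) (RF ι k) (RF ι k₁)) P := by
  have e : toF (MP ι k) (RF ι k) (RF ι k₁) =
      (algebraMap (MP ι k₁) (RF ι k₁)).comp (map (algebraMap k k₁)) := RingHom.ext h
  have h1 : ∀ w, Cen (toF (MP ι k) (RF ι k) (RF ι k₁)) w P →
      Cen (algebraMap (MP ι k₁) (RF ι k₁)) w (map (algebraMap k k₁) P) := fun w hw => by
    rw [e] at hw
    obtain ⟨Q, hQ, hc⟩ := cen_up _ (map_injective _ (algebraMap k k₁).injective) cst_integral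
      (IsFractionRing.injective _ _) hP hw
    exact hc.assoc (hQ.associated_of_dvd hP₁ ((hc.2 _).1 ((hw.2 P).2 dvd_rfl)))
  refine fun w hw => eq_top_iff.2 fun g _ => mem_dec.2 (Cen.iff (isFr_alg _ _) hP₁ (h1 w hw)
    (h1 (w.comap (g : RF ι k₁ →+* RF ι k₁)) ⟨fun a => ?_, fun a => ?_⟩))
  · exact (congrArg w (g.commutes _)).trans_le (hw.1 a)
  · exact (congrArg (w · < 1) (g.commutes _)).to_iff.trans (hw.2 a)

end Pool.Agent.ZFy.ZL
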