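import Pool.Agent.Lib.MP_751085_ag.ZF.Z.CrdP
import Pool.Agent.Lib.MP_751085_ag.ZF.Z.CstX
import Pool.Agent.Lib.MP_751085_ag.ZC.Z.Cst1
import Pool.Agent.Lib.MP_751085_ag.ZC.V.Pur

/-! A cover that is unramified at the origin splits along the generic line. -/

namespace Pool.Agent.ZFy.ZL

open Pool.Agent.ZCy
open scoped Classical WithZero Polynomial
open MvPolynomial

set_option linter.unusedSectionVars false

variable {ι k L E : Type} [Fintype ι] [Field k] [Field L] [Field E] [Algebra (RF ι k)[X] L]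
  [IsFractionRing (RF ι k)[X] L] [Algebra L E] [FiniteDimensional L E] [IsGalois L E]
  {α : MP (Option ι) k →+* L} {Θ : MP (Option ι) k}

theorem exists_exp (h : Pol α) (h0 : constantCoeff Θ ≠ 0) (hu : UnrOff L (tE E α) Θ) :
    ∃ (k₁ : Type) (_ : Field k₁) (_ : Algebra k k₁) (_ : FiniteDimensional k k₁)
      (_ : IsGalois k k₁) (_ : Algebra (RF ι k) (RF ι k₁)) (J : E →+* Ls (RF ι k₁)), RfA ι k k₁ ∧
      ∀ p, J (toF (RF ι k)[X] L E p) = tL _ (p.map (algebraMap (RF ι k) (RF ι k₁))) := by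
  obtain ⟨k₁, _, _, _, _, j, hj, -⟩ := znp h.fr hu (RingHom.id k) 0 (by
    rw [eval₂_id, eval_zero]
    exact h0)
  obtain ⟨ω, hω, hC, hn, hs⟩ := exists_dir k₁ ι
  obtain ⟨_, hA⟩ := exists_rfA ι k k₁
  obtain ⟨l, hl⟩ := (isFr_alg (RF ι k)[X] L).exists_lift
    (β := (tL (RF ι k₁)).comp (Polynomial.mapRingHom (algebraMap (RF ι k) (RF ι k₁))))
    (tL_injective.comp (Polynomial.map_injective _ (algebraMap (RF ι k) (RF ι k₁)).injective))
  obtain ⟨lC, l0, l1⟩ := pol_exp h.pol h.fr.1 l _ hl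
  obtain ⟨m, hm⟩ := (isFr_alg (MvPowerSeries (Option ι) k₁)
    (Fr (MvPowerSeries (Option ι) k₁))).exists_lift hω
  have e : (m.comp j).comp (algebraMap L E) = l := h.fr.hom_ext fun p => by
    refine ((congrArg m (hj p)).trans (hm _)).trans (RingHom.congr_fun
      (f := ω.comp ((MvPowerSeries.map (algebraMap k k₁)).comp (pt (RingHom.id k) 0)))
      (g := l.comp α) (ringHom_ext (fun a => ?_) fun i => ?_) p)
    · rw [RingHom.comp_apply l, lC, hA.map_rc]
      simp [pt, hC]
    · cases i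
      · rw [RingHom.comp_apply l, l0]
        simp [pt, hn]
      · rw [RingHom.comp_apply l, l1, hA, map_X]
        simp [pt, hs]
  exact ⟨k₁, inferInstance, inferInstance, inferInstance, inferInstance, inferInstance, m.comp j, hA,
    fun p => (RingHom.congr_fun e _).trans (hl p)⟩

end Pool.Agent.ZFy.ZL
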