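import Pool.Agent.Lib.MP_751085_ag.ZF.Z.SplA
import Pool.Agent.Lib.MP_751085_ag.ZF.Z.SplE
import Pool.Agent.Lib.MP_751085_ag.ZF.Z.Geo
import Pool.Agent.Lib.MP_751085_ag.ZC.V.Cv

/-! The split cover. -/

namespace Pool.Agent.ZFy.ZL

open Pool.Agent.ZCy
open scoped Classical WithZero Polynomial
open MvPolynomial

set_option linter.unusedSectionVars false

theorem splb_const {M : Type} [Field M] {z : Ls M}
    (hz : (HahnSeries.C : M →+* Ls M).IsIntegralElem z) : ∃ a, z = HahnSeries.C a := by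
  have hC : ∀ a : M, lval M (HahnSeries.C a) ≤ 1 := fun a =>
    ((isVR_lval M).2.2 _).2 ⟨PowerSeries.C a, lau_C a⟩
  obtain ⟨g, rfl⟩ := ((isVR_lval M).2.2 z).1 (le_one_of_integral hC hz)
  refine ⟨cc M g, sub_eq_zero.1 (by_contra fun h0 => ?_)⟩
  have h1 := triv_of_algebraic hC (hz.sub _ (RingHom.isIntegralElem_map _)) h0
  have e : lid M g - HahnSeries.C (cc M g) = lid M (g - PowerSeries.C (cc M g)) := by
    rw [map_sub, lau_C, RingHom.id_apply]
  rw [e, (isVR_lval M).eq_one, PowerSeries.isUnit_iff_constantCoeff] at h1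
  simp at h1

variable {ι k L E : Type} [Fintype ι] [Field k] [Field L] [Field E] [Algebra (RF ι k)[X] L]
  [IsFractionRing (RF ι k)[X] L] [Algebra L E] [FiniteDimensional L E] [IsGalois L E]
  {α : MP (Option ι) k →+* L} {Θ : MP (Option ι) k}

theorem splb_c {K K₁ F N : Type} [Field K] [Field K₁] [Field F] [Field N] [Algebra K K₁]
    [Algebra K[X] F] [Algebra F N] (d : SecD 1 K K₁ F N) (a : K) :
    d.c (algebraMap K K₁ a) = toF K[X] F N (Polynomial.C a) := by
  rw [← d.φ_map, Polynomial.map_C, d.φ_C]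

theorem splb_rc (h : Pol α) {K₁ N : Type} [Field K₁] [Field N] [Algebra (RF ι k) K₁] [Algebra L N]
    (d : SecD 1 (RF ι k) K₁ L N) (a : k) :
    d.c (toF (MP ι k) (RF ι k) K₁ (C a)) = tE N α (C a) := by
  refine (splb_c d _).trans ((IsPol.C (Pol.ext h) (C a)).trans ?_)
  rw [up, rename_C, flpHom_C]

theorem splb_tE {N : Type} [Field N] [Algebra L N] (j : E →ₐ[L] N) (p : MP (Option ι) k) :
    j (tE E α p) = tE N α p :=
  j.commutes _

theorem exists_split (h : Pol α) (h0 : constantCoeff Θ ≠ 0) (hu : UnrOff L (tE E α) Θ) :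
    Nonempty (Split α Θ E) := by
  obtain ⟨k₁, _, _, _, _, _, J, hrf, hJ⟩ := exists_exp h h0 hu
  have := hrf.fin
  have := hrf.gal
  obtain ⟨N, _, _, _, _, j, d, hs⟩ := exists_sd J hJ
  refine ⟨{ k₁ := k₁, N := N, j := j, d := d, rf := hrf, span := hs, unr := ?_ }⟩
  intro P w hP hd hc
  refine eq_bot_iff.2 fun g hg => Subgroup.mem_bot.2 (hs g (fun x => ?_) fun a => ?_)
  · refine fix_of_ine (K := L) (j : E →+* N) (g : N ≃+* N) (fun a => ?_) w hg.1 hg.2
      (hu P _ hP hd ?_) x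
    · have e : (j : E →+* N) (algebraMap L E a) = algebraMap L N a := j.commutes a
      rw [e]
      exact g.commutes a
    · have e : ∀ p, w.comap (j : E →+* N) (tE E α p) = w (tE N α p) := fun p =>
        congrArg w (splb_tE j p)
      exact ⟨fun p => (e p).trans_le (hc.1 p), fun p => e p ▸ hc.2 p⟩
  · refine ine_fix_gen hrf.gen hg d.c (fun a => ?_) (fun a => ?_) a
    · rw [splb_c]
      exact g.commutes _
    · rw [splb_rc h]
      exact hc.1 _

theorem Split.cst (h : Pol α) (s : Split α Θ E) {y : s.N} (hy : y ∈ cstS (tE s.N α)) :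
    ∃ b, y = s.d.c (rc ι s.k₁ b) := by
  have e1 : (tE s.N α).comp C =
      s.d.c.comp ((toF (MP ι k) (RF ι k) (RF ι s.k₁)).comp C) :=
    RingHom.ext fun a => (splb_rc h s.d a).symm
  have h1 : (s.d.c.comp ((toF (MP ι k) (RF ι k) (RF ι s.k₁)).comp C)).IsIntegralElem y := e1 ▸ hy
  have h2 : s.d.c.IsIntegralElem y := RingHom.IsIntegralElem.of_comp h1
  have e2 : s.d.ι.comp s.d.c = HahnSeries.C := RingHom.ext s.d.hc
  obtain ⟨m, hm⟩ := splb_const (e2 ▸ misc1_int h2 s.d.ι)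
  obtain rfl : y = s.d.c m := s.d.ι.injective (hm.trans (s.d.hc m).symm)
  obtain ⟨p, hp, e⟩ := h1
  rw [← Polynomial.hom_eval₂, map_eq_zero] at e
  obtain ⟨b, rfl⟩ := s.rf.cst ⟨p, hp, e⟩
  exact ⟨b, rfl⟩

theorem Split.lxt (h : Pol α) (s : Split α Θ E) {l : ℕ} {B : Type} [CommRing B] {f : B →+* E}
    (hx : LXt l L (Set.range f ∪ cstS (tE E α))) :
    LXt l L (Set.range ((s.j : E →+* s.N).comp f) ∪ Set.range s.d.c) := by
  refine lxt_iff.2 fun g hg => ?_
  obtain ⟨h1, h2⟩ := mem_fixS_union.1 hg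
  obtain ⟨g₀, h₀⟩ := exists_restrict (K := L) (s.j : E →+* s.N) (g : s.N →+* s.N) fun a => by
    have e : (s.j : E →+* s.N) (algebraMap L E a) = algebraMap L s.N a := s.j.commutes a
    rw [e]
    exact g.commutes a
  have h₁ : ∀ z, s.j (g₀ z) = g (s.j z) := h₀
  have hg₀ : g₀ ∈ fixS L (Set.range f ∪ cstS (tE E α)) := by
    rintro x (⟨b, rfl⟩ | hx')
    · exact s.j.injective ((h₁ _).trans (h1 b))
    · have e : (s.j : E →+* s.N).comp ((tE E α).comp C) = (tE s.N α).comp C :=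
        RingHom.ext fun a => splb_tE s.j (C a)
      have hi := misc1_int hx' (s.j : E →+* s.N)
      rw [e] at hi
      obtain ⟨b, hb⟩ := s.cst h (y := s.j x) hi
      refine s.j.injective ((h₁ _).trans ?_)
      change g (s.j x) = s.j x
      rw [hb, h2]
  obtain ⟨n, hn⟩ := lxt_iff.1 hx g₀ hg₀
  have hp : ∀ (m : ℕ) z, s.j ((g₀ ^ m) z) = (g ^ m) (s.j z) := fun m => by
    induction m with
    | zero => exact fun _ => rfl
    | succ m ih =>
      exact fun z => by rw [pow_succ', pow_succ', AlgEquiv.mul_apply, h₁, ih, AlgEquiv.mul_apply]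
  refine ⟨n, s.span _ (fun x => ?_) (mem_fixS_union.1 (pow_mem hg _)).2⟩
  rw [← hp, hn, AlgEquiv.one_apply]

theorem Split.sc (h : Pol α) (s : Split α Θ E) {l : ℕ} {T : Type} [Field T] [Algebra L T]
    (e : T →ₐ[L] E) (hx : LXt l L (Set.range (e : T →+* E) ∪ cstS (tE E α))) :
    SC l L (thK Θ) s.d (algebraMap _ _) ((s.j : E →+* s.N).comp (e : T →+* E)) := by
  refine ⟨fun p => ?_, s.lxt h hx, gu_of_unrOff s.d (h.unr s.unr)⟩
  rw [s.d.φ_map]
  exact (s.j.comp e).commutes _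

end Pool.Agent.ZFy.ZL
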