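import Pool.Agent.Lib.MP_751085_ag.ZF.Z.TDefs
import Pool.Agent.Lib.MP_751085_ag.ZC.V.Gal

/-! The compositum with the constants. -/

namespace Pool.Agent.ZFy.ZL

open Pool.Agent.ZCy
open scoped Classical WithZero Polynomial
open MvPolynomial

set_option linter.unusedSectionVars false

theorem spla_sup {K K₁ F E Ω : Type} [Field K] [Field K₁] [Field F] [Field E] [Field Ω]
    [Algebra K K₁] [FiniteDimensional K K₁] [IsGalois K K₁] [Algebra F E] [FiniteDimensional F E]
    [IsGalois F E] (φ : K →+* F) (c : K₁ →+* Ω) (J : E →+* Ω)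
    (h : ∀ a, c (algebraMap K K₁ a) = J (algebraMap F E (φ a))) :
    ∃ (N : Type) (_ : Field N) (_ : Algebra F N) (_ : FiniteDimensional F N) (_ : IsGalois F N)
      (j : E →ₐ[F] N) (c' : K₁ →+* N) (i : N →+* Ω), (∀ x, i (j x) = J x) ∧ (∀ a, i (c' a) = c a) ∧
      ∀ g : N ≃ₐ[F] N, (∀ x, g (j x) = j x) → (∀ a, g (c' a) = c' a) → g = 1 := by
  let _ : Algebra F Ω := (J.comp (algebraMap F E)).toAlgebra
  obtain ⟨_, _, -⟩ := bc_in (K' := F) (φ := φ) (j := c) h
  obtain ⟨_, _, -⟩ := bc_in (K' := F) (φ := RingHom.id F) (j := J) fun _ => rfl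
  let N := IntermediateField.adjoin F (Set.range c) ⊔ IntermediateField.adjoin F (Set.range J)
  have h1 : ∀ a, c a ∈ N := fun a =>
    (le_sup_left : _ ≤ N) (IntermediateField.subset_adjoin _ _ ⟨a, rfl⟩)
  have h2 : ∀ x, J x ∈ N := fun x =>
    (le_sup_right : _ ≤ N) (IntermediateField.subset_adjoin _ _ ⟨x, rfl⟩)
  have : Algebra.IsSeparable F N := IntermediateField.isSeparable_sup _ _ _ _
  refine ⟨N, inferInstance, inferInstance, inferInstance, ⟨⟩, ⟨J.codRestrict N h2, fun _ => rfl⟩,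
    c.codRestrict N h1, N.val.toRingHom, fun _ => rfl, fun _ => rfl, fun g g1 g2 => ?_⟩
  have e : g.toAlgHom = AlgHom.id _ _ :=
    IntermediateField.algHom_ext_of_eq_adjoin F (IntermediateField.adjoin_union _).symm
      fun x hx => by
        rcases hx with ⟨a, rfl⟩ | ⟨a, rfl⟩
        exacts [g2 a, g1 a]
  exact AlgEquiv.ext (AlgHom.congr_fun e)

/-- the compositum with the constants -/
theorem exists_sd {K K₁ F E : Type} [Field K] [Field K₁] [Field F] [Field E] [Algebra K K₁]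
    [FiniteDimensional K K₁] [IsGalois K K₁] [Algebra K[X] F] [IsFractionRing K[X] F] [Algebra F E]
    [FiniteDimensional F E] [IsGalois F E] (J : E →+* Ls K₁)
    (hJ : ∀ p, J (toF K[X] F E p) = tL K₁ (p.map (algebraMap K K₁))) :
    ∃ (N : Type) (_ : Field N) (_ : Algebra F N) (_ : FiniteDimensional F N) (_ : IsGalois F N)
      (j : E →ₐ[F] N) (d : SecD 1 K K₁ F N),
      ∀ g : N ≃ₐ[F] N, (∀ x, g (j x) = j x) → (∀ a, g (d.c a) = d.c a) → g = 1 := by
  obtain ⟨N, _, _, _, _, j, c, i, h1, h2, h3⟩ := spla_sup ((algebraMap K[X] F).comp Polynomial.C)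
    (HahnSeries.C : K₁ →+* Ls K₁) J fun a =>
      ((hJ _).trans ((congrArg _ (Polynomial.map_C _)).trans (sec_tM_C _))).symm
  exact ⟨N, inferInstance, inferInstance, inferInstance, inferInstance, j, ⟨c, i, h2, fun p =>
    (congrArg i (j.commutes _).symm).trans ((h1 _).trans (hJ p))⟩, h3⟩

end Pool.Agent.ZFy.ZL
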