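import Pool.Agent.Lib.MP_751085_ag.ZF.Z.Lin
import Pool.Agent.Lib.MP_751085_ag.ZF.Z.CstX

/-! A hyperplane through the origin in the space of directions. -/

namespace Pool.Agent.ZFy.ZL

open Pool.Agent.ZCy
open scoped Classical WithZero Polynomial
open MvPolynomial

set_option linter.unusedSectionVars false

theorem hye_up {σ k : Type} [Field k] (a : MP σ k) :
    eta σ k (up a) = PowerSeries.C (algebraMap (MP σ k) (RF σ k) a) := by
  change ((((tp (up a)).map (algebraMap (MP σ k) (RF σ k)) : (RF σ k)[X])) : Ps (RF σ k)) = _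
  rw [tp_up, Polynomial.map_C, Polynomial.coe_C]

theorem hye_map {σ k k₁ : Type} [Field k] [Field k₁] [Algebra k k₁] [Algebra (RF σ k) (RF σ k₁)]
    (h : RfA σ k k₁) (p : MP (Option σ) k) : eta σ k₁ (map (algebraMap k k₁) p) =
      PowerSeries.map (algebraMap (RF σ k) (RF σ k₁)) (eta σ k p) := by
  have e : ∀ a, eta σ k₁ (map (algebraMap k k₁) (up a)) =
      PowerSeries.map (algebraMap (RF σ k) (RF σ k₁)) (eta σ k (up a)) := fun a => by
    rw [map_up, hye_up, hye_up, PowerSeries.map_C, h]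
  refine DFunLike.congr_fun (f := (eta σ k₁).comp (map _))
    (g := (PowerSeries.map _).comp (eta σ k)) (ringHom_ext (fun a => ?_) ?_) p
  · simpa using e (C a)
  · rintro (_ | i)
    · simp [eta_X]
    · simpa using e (X i)

theorem hye_aff {ι k k₁ : Type} [Fintype ι] [Field k] [Field k₁] (f : k →+* k₁) (M : Matrix ι ι k)
    (p : MP ι k) : map f (aff 0 M p) = aff 0 (M.map f) (map f p) :=
  DFunLike.congr_fun (f := (map f).comp (aff 0 M : MP ι k →+* MP ι k))
    (g := (aff 0 (M.map f) : MP ι k₁ →+* MP ι k₁).comp (map f))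
    (ringHom_ext (fun a => by simp) fun i => by simp [aff]) p

theorem hye_lin {σ k : Type} [Fintype σ] [Field k] {M M' : Matrix (Option σ) (Option σ) k}
    (h : M * M' = 1) : Prime (lin (M' none)) ∧ aff 0 M (lin (M' none)) = X none ∧
      ∃ e : MP (Option σ) k ≃+* MP (Option σ) k, ∀ G, e G = aff 0 M G := by
  have h' := h.trans (Matrix.ext fun i j => by simp [Matrix.one_apply] :
    _ = @OfNat.ofNat _ 1 (@One.toOfNat1 _ (@Matrix.one _ _ (Classical.decEq _) _ _)))
  have e := aff_lin h' none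
  obtain ⟨e', he, -⟩ := exists_affE 0 h'
  exact ⟨prime_lin fun h0 => X_ne_zero none (e.symm.trans (by simp [h0, lin])), e, e', he⟩

theorem exists_hy {σ k k₁ : Type} [Fintype σ] [Field k] [Field k₁] [Algebra k k₁]
    [FiniteDimensional k k₁] [Algebra (RF (Option σ) k) (RF (Option σ) k₁)]
    [Algebra (RF σ k) (RF σ k₁)] (h₁ : RfA (Option σ) k k₁) (h₀ : RfA σ k k₁)
    {M M' : Matrix (Option σ) (Option σ) k} (h : M * M' = 1) :
    ∃ H : Hy (RF (Option σ) k) (C : k →+* MP (Option σ) k) (RF (Option σ) k₁) (RF σ k) (RF σ k₁),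
      H.y = lin (M' none) ∧ (∀ p, H.h p = algebraMap (MP σ k) (RF σ k) (hyp0 (aff 0 M p))) ∧
      ∀ b : k₁, H.Rel (rc _ k₁ b) (rc σ k₁ b) := by
  obtain ⟨p0, x0, e, he⟩ := hye_lin h
  obtain ⟨p1, -, e₁, he₁⟩ := hye_lin (M := M.map (algebraMap k k₁)) (M' := M'.map (algebraMap k k₁))
    (by rw [← Matrix.map_mul, h, Matrix.map_one _ (map_zero _) (map_one _)])
  obtain ⟨γ, hγ⟩ := (isFr_alg (MP (Option σ) k₁) (RF (Option σ) k₁)).exists_lift
    (β := (lid _).comp ((eta σ k₁).comp (e₁ : MP (Option σ) k₁ →+* MP (Option σ) k₁)))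
    ((lau_inj fun _ _ h => h).comp ((eta_injective σ k₁).comp e₁.injective))
  replace hγ : ∀ p, γ (algebraMap _ _ p) = lid _ (eta σ k₁ (e₁ p)) := hγ
  have h2 : ∀ p, cc _ ((eta σ k).comp (e : MP (Option σ) k →+* MP (Option σ) k) (e.symm (up p))) =
      algebraMap _ _ p := fun p => by simp [hye_up]
  refine ⟨⟨lin (M' none), (eta σ k).comp (e : MP (Option σ) k →+* MP (Option σ) k), γ, p0,
    (congrArg _ ((he _).trans x0)).trans (eta_X σ k), fun a => ?_, fun a => ?_, fun b => ?_,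
    fun b => ?_, h₁.gen, h₁.inert p0 (by rw [map_lin]; exact p1)⟩, rfl,
    fun p => (eta_constantCoeff _).trans (by rw [← he]; rfl), fun b => ⟨_, hγ _, ?_⟩⟩
  · rw [← map_dvd_iff e, he, x0, ← hyp0_eq_zero,
      ← map_eq_zero_iff _ (isFr_alg (MP σ k) (RF σ k)).1 (x := hyp0 _), ← eta_constantCoeff]
    rfl
  · refine (congrArg γ (h₁ a)).trans ?_
    rw [hγ, he₁, ← hye_aff, hye_map h₀, ← he]
    simp [lau]
  · obtain ⟨p, q, hq, e1⟩ := (isFr_alg (MP σ k) (RF σ k)).2 b
    exact ⟨e.symm (up p), e.symm (up q), by rw [h2]; exact (isFr_alg _ _).vfrc_ne hq,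
      by rw [h2, h2, e1]⟩
  · obtain ⟨p, q, hq, e1⟩ := (isFr_alg (MP σ k₁) (RF σ k₁)).2 b
    refine ⟨algebraMap _ _ (e₁.symm (up p)) / algebraMap _ _ (e₁.symm (up q)), PowerSeries.C b, ?_,
      PowerSeries.constantCoeff_C _⟩
    rw [map_div₀, hγ, hγ, e₁.apply_symm_apply, e₁.apply_symm_apply, hye_up, hye_up, ← e1, map_mul,
      map_mul, mul_div_cancel_right₀]
    rw [lau_C]
    exact (map_ne_zero _).2 ((isFr_alg (MP σ k₁) _).vfrc_ne hq)
  · rw [eta_constantCoeff, he₁]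
    simp [hyp0]

end Pool.Agent.ZFy.ZL
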