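import Pool.Agent.Lib.MP_751085_ag.ZF.Z.TDefs
import Pool.Agent.Lib.MP_751085_ag.ZC.V.HarB

/-! Linear changes of coordinates. -/

namespace Pool.Agent.ZFy.ZL

open Pool.Agent.ZCy
open scoped Classical WithZero Polynomial
open MvPolynomial

set_option linter.unusedSectionVars false

variable {ι σ k L E : Type} [Fintype ι] [Fintype σ] [Field k] [Field L] [Field E]

theorem exists_affE {M M' : Matrix ι ι k} (p : ι → k) (h : M * M' = 1) :
    ∃ e : MP ι k ≃+* MP ι k, (∀ G, e G = aff p M G) ∧
      ∀ G, e.symm G = aff (-(M'.mulVec p)) M' G := by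
  have h2 : ∀ G, aff p M (aff (-(M'.mulVec p)) M' G) = G := fun G => by
    rw [aff_aff, neg_add_cancel, mul_eq_one_comm.1 h, aff_one]
  exact ⟨⟨⟨aff p M, aff (-(M'.mulVec p)) M', caff_left p h, h2⟩, map_mul _, map_add _⟩,
    fun _ => rfl, fun _ => rfl⟩

theorem aff_X (M : Matrix ι ι k) (i : ι) : aff 0 M (X i) = lin (M i) := by
  rw [aff, aeval_X, Pi.zero_apply, map_zero, zero_add, lin]

theorem aff_lin {M M' : Matrix ι ι k} (h : M * M' = 1) (i : ι) : aff 0 M (lin (M' i)) = X i := by
  rw [← aff_X, aff_aff, mul_eq_one_comm.1 h, Matrix.mulVec_zero, add_zero, aff_one]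

theorem aff_shift (p a : ι → k) (h : a ⬝ᵥ p = 0) : aff p 1 (lin a) = lin a := by
  have : ∀ j, aff p 1 (X j) = C (p j) + X j := fun j => by
    simp [aff, Matrix.one_apply, apply_ite C]
  simp only [lin, map_sum, map_mul, algHom_C, algebraMap_eq, this, mul_add, Finset.sum_add_distrib]
  rw [add_eq_right, ← C_0, ← h, dotProduct, map_sum]
  simp only [map_mul]

theorem eval_lin (a p : ι → k) : eval p (lin a) = a ⬝ᵥ p := by
  simp [lin, dotProduct]

theorem const_aff (p : ι → k) (M : Matrix ι ι k) (G : MP ι k) :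
    constantCoeff (aff p M G) = eval p G := by
  rw [← eval_zero, ← eval₂_id, eval₂_aff, eval₂_id]
  simp

theorem const_hyp (p : MP (Option (Option σ)) k) : constantCoeff (hyp p) = constantCoeff p := by
  refine RingHom.congr_fun (f := constantCoeff.comp (hyp : MP (Option (Option σ)) k →+* _))
    (ringHom_ext (fun a => ?_) fun i => ?_) p
  · simp [hyp]
  · rcases i with _ | _ | i <;> simp [hyp]

theorem flpHom_aff (φ : MP (Option ι) k →+* E) (M : Matrix ι ι k) :
    flpHom (φ.comp (aff 0 (extM M) : MP (Option ι) k →+* MP (Option ι) k)) =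
      (flpHom φ).comp (aff 0 (extM M) : MP (Option ι) k →+* MP (Option ι) k) := by
  have h0 : aff 0 (extM M) (X none) = (X none : MP (Option ι) k) := by simp [aff, extM]
  refine ringHom_ext (fun a => ?_) fun i => ?_
  · simp [flpHom]
  · cases i
    · rw [flpHom_none, RingHom.comp_apply, RingHom.comp_apply, RingHom.coe_coe, h0, flpHom_none]
    · rw [flpHom_some, RingHom.comp_apply, RingHom.comp_apply, RingHom.comp_apply, RingHom.coe_coe,
        h0]
      simp [aff, extM, flpHom, Finset.sum_div, mul_div_assoc]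

theorem flp_aff {M M' : Matrix ι ι k} (h : M * M' = 1) (Θ : MP (Option ι) k) :
    flp (aff 0 (extM M) Θ) = aff 0 (extM M) (flp Θ) := by
  have hi := IsFractionRing.injective (MP (Option ι) k) (RF (Option ι) k)
  have h0 : aff 0 (extM M) (X none) = (X none : MP (Option ι) k) := by simp [aff, extM]
  have e1 := flp_eval _ (flp_tau hi) (aff 0 (extM M) Θ)
  have e2 := flp_eval ((algebraMap (MP (Option ι) k) (RF (Option ι) k)).comp
    (aff 0 (extM M) : MP (Option ι) k →+* MP (Option ι) k)) (by
      rw [RingHom.comp_apply, RingHom.coe_coe, h0]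
      exact flp_tau hi) Θ
  rw [flpHom_aff, RingHom.comp_apply, RingHom.comp_apply, RingHom.comp_apply, RingHom.coe_coe, h0,
    ← e1, totalDegree_aff (L' := extM M') 0 (by
      rw [extM_mul, h, extM_one]
      exact congrArg (fun d => @OfNat.ofNat _ 1 (@One.toOfNat1 _ (@Matrix.one _ k d _ _)))
        (Subsingleton.elim _ _))] at e2
  exact (flpHom_injective hi (mul_right_cancel₀ (pow_ne_zero _ (flp_tau hi)) e2)).symm

theorem flp_smul {c : k} (h : c ≠ 0) (Θ : MP (Option ι) k) : flp (C c * Θ) = C c * flp Θ := by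
  have hs : (C c * Θ).support = Θ.support := by
    ext m
    rw [mem_support_iff, mem_support_iff, coeff_C_mul, mul_ne_zero_iff_left h]
  simp only [flp, totalDegree, hs, Finset.mul_sum, C_mul_monomial, coeff_C_mul]

theorem tp_hyp_aff (M : Matrix (Option σ) (Option σ) k) (q : MP (Option (Option σ)) k) :
    tp (hyp (aff 0 (extM M) q)) =
      (tp q).map (hyp0.comp (aff 0 M : MP (Option σ) k →+* MP (Option σ) k)) := by
  rw [tp_hyp, tp_aff, Pi.zero_apply, map_zero, map_zero, add_zero, Polynomial.comp_X,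
    Polynomial.map_map]
  rfl

end Pool.Agent.ZFy.ZL
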