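import Pool.Agent.Lib.MP_751085_ag.ZF.Z.Red
import Pool.Agent.Lib.MP_751085_ag.ZF.Z.Geo
import Pool.Agent.Lib.MP_751085_ag.ZC.V.DecB
import Pool.Agent.Lib.MP_751085_ag.ZC.V.HarB

/-! Inert primes and subextensions. -/

namespace Pool.Agent.ZFy.ZL

open Pool.Agent.ZCy
open scoped Classical WithZero Polynomial
open MvPolynomial

set_option linter.unusedSectionVars false

theorem dec_top_of_geo {K L F N : Type} [Field K] [Field L] [Field F] [Field N] [Algebra K L]
    [FiniteDimensional K L] [IsGalois K L] [Algebra K[X] F] [IsFractionRing K[X] F] [Algebra F N]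
    [FiniteDimensional F N] [IsGalois F N] {d : SecD 1 K L F N} {w : Vl L} {W : Vl N}
    (h : SupN d.ι w W) (hg : geo d ≤ Dec F W) (hw : Dec K w = ⊤) : Dec F W = ⊤ := by
  obtain ⟨π, σ, hs⟩ := d.exists_spl
  refine eq_top_iff.2 fun g _ => ?_
  have h1 : g * (σ (π g))⁻¹ ∈ geo d := by
    rw [← ker_eq_geo d hs, MonoidHom.mem_ker, map_mul, map_inv, hs.sec, mul_inv_cancel]
  rw [← inv_mul_cancel_right g (σ (π g))]
  exact mul_mem (hg h1) ((h.dec_ine d.hc (hs.hσ _)).1 (hw ▸ Subgroup.mem_top _))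

variable {A L E N : Type} [CommRing A] [Field L] [Field E] [Field N] [Algebra L E] [Algebra L N]
  [FiniteDimensional L N] [IsGalois L N] {α : A →+* L} {P Θ : A}

theorem inert_of_one [WfDvdMonoid A] (hα : IsFr α) (hP : Prime P) {W : Vl N}
    (hW : Cen (tE N α) W P) (h : Dec L W = ⊤) : Inert L (tE N α) P := by
  intro w hw
  obtain ⟨g, hg⟩ := hW.conj hα hP hw
  exact dec_top_of_conj hg h

theorem ine_of_one [WfDvdMonoid A] (hα : IsFr α) (hP : Prime P) {W w : Vl N}
    (hW : Cen (tE N α) W P) (h : Ine L W = ⊥) (hw : Cen (tE N α) w P) : Ine L w = ⊥ := by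
  obtain ⟨g, hg⟩ := hW.conj hα hP hw
  exact ine_bot_of_conj hg h

theorem exists_cen_over (j : E →ₐ[L] N) {φ : A →+* E} {w : Vl E} (hw : Cen φ w P) :
    ∃ W : Vl N, Over (j : E →+* N) w W ∧ Cen ((j : E →+* N).comp φ) W P := by
  let _ := (j : E →+* N).toAlgebra
  have : IsScalarTower L E N := .of_algebraMap_eq fun a => (j.commutes a).symm
  have : FiniteDimensional E N := Module.Finite.of_restrictScalars_finite L E N
  obtain ⟨W, hW⟩ := exists_over (E := N) w
  exact ⟨W, hW, (cen_of_over hW).2 hw⟩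

variable [FiniteDimensional L E] [IsGalois L E]

theorem inert_sub (j : E →ₐ[L] N) (h : Inert L (tE N α) P) : Inert L (tE E α) P := by
  intro w hw
  obtain ⟨W, ho, hW⟩ := exists_cen_over j hw
  rw [show (j : E →+* N).comp (tE E α) = tE N α from RingHom.ext fun _ => j.commutes _] at hW
  obtain ⟨r, hr⟩ := exists_rs (K' := L) (φ := RingHom.id L) (j := (j : E →+* N)) j.commutes
  refine eq_top_iff.2 fun g _ => ?_
  obtain ⟨s, hs⟩ := exists_twist_sub (K := L) (j : E →+* N) j.commutes (RingHom.id N)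
    ((j : E →+* N).comp (g : E →+* E)) fun a => (congrArg j (g.commutes a)).trans (j.commutes a)
  obtain rfl : r s = g := AlgEquiv.ext fun x => j.injective ((hr s x).trans (hs x).symm)
  exact hr.dec ho (h W hW ▸ Subgroup.mem_top _)

theorem unrOff_sub (j : E →ₐ[L] N) (h : UnrOff L (tE N α) Θ) : UnrOff L (tE E α) Θ := by
  intro P w hP hΘ hw
  obtain ⟨W, ho, hW⟩ := exists_cen_over j hw
  rw [show (j : E →+* N).comp (tE E α) = tE N α from RingHom.ext fun _ => j.commutes _] at hW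
  obtain ⟨r, hr⟩ := exists_rs (K' := L) (φ := RingHom.id L) (j := (j : E →+* N)) j.commutes
  refine eq_bot_iff.2 fun g hg => ?_
  obtain ⟨s, hs, rfl⟩ := hr.ine_onto j.commutes ho hg
  rw [h P W hP hΘ hW, Subgroup.mem_bot] at hs
  rw [hs, map_one]
  exact one_mem _

theorem inert_equiv {A' : Type} [CommRing A'] {φ : A →+* E} (e : A' ≃+* A) {Q : A'} :
    Inert L (φ.comp (e : A' →+* A)) Q ↔ Inert L φ (e Q) := by
  exact forall_congr' fun _ => imp_congr (cen_equiv e) Iff.rfl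

/-- the residue field of the base field at a prime `P` with `A / P = B` -/
theorem lift_down [WfDvdMonoid A] {B LH EH : Type} [CommRing B] [Field LH] [Field EH]
    [Algebra LH EH] (hα : IsFr α) {β : B →+* LH} (hβ : IsFr β) {h : A →+* B}
    (hs : Function.Surjective h) (hP : Prime P) (hk : ∀ a, h a = 0 ↔ P ∣ a) {w : Vl E}
    {ρ : w.integer →+* EH} (hρ : IsRed w ρ) (hr : ∀ p, ∃ hp, ρ ⟨tE E α p, hp⟩ = tE EH β (h p)) :
    Cen (tE E α) w P ∧ (∀ a : LH, ∃ (b : L) (hb : _), ρ ⟨algebraMap L E b, hb⟩ = algebraMap LH EH a) ∧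
      ∀ (b : L) (hb : _), ∃ a : LH, ρ ⟨algebraMap L E b, hb⟩ = algebraMap LH EH a := by
  choose h1 h2 using hr
  have hi : ∀ b, tE EH β b = 0 ↔ b = 0 := fun b =>
    map_eq_zero_iff (tE EH β) ((algebraMap LH EH).injective.comp hβ.1)
  have hc : Cen (tE E α) w P := ⟨h1, fun a => (hρ ⟨_, h1 a⟩).symm.trans (by rw [h2, hi, hk])⟩
  have key : ∀ (b : L) (hb : algebraMap L E b ∈ w.integer) (p q : A), b * α q = α p →
      ρ ⟨_, hb⟩ * tE EH β (h q) = tE EH β (h p) := fun b hb p q e => by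
    rw [← h2, ← h2, ← map_mul]
    exact congrArg ρ (Subtype.ext ((map_mul (algebraMap L E) _ _).symm.trans (congrArg _ e)))
  have hv := hc.le_one_iff (v := w.comap (algebraMap L E)) hα hP
  refine ⟨hc, fun a => ?_, fun b hb => ?_⟩
  · obtain ⟨x, y, hy, e⟩ := hβ.2 a
    obtain ⟨p, rfl⟩ := hs x
    obtain ⟨q, rfl⟩ := hs y
    have e1 : α p / α q * α q = α p := div_mul_cancel₀ _
      (hα.vfrc_ne fun h0 => hy (by rw [h0, map_zero]))
    have hb := (hv _).2 ⟨p, q, mt (hk q).2 hy, e1⟩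
    refine ⟨_, hb, mul_right_cancel₀ (mt (hi _).1 hy) ((key _ hb p q e1).trans ?_)⟩
    exact ((map_mul (algebraMap LH EH) _ _).symm.trans (congrArg _ e)).symm
  · obtain ⟨p, q, hq, e⟩ := (hv b).1 hb
    refine ⟨β (h p) / β (h q), ?_⟩
    rw [map_div₀]
    exact eq_div_of_mul_eq (mt (hi _).1 (mt (hk q).1 hq)) (key b hb p q e)

end Pool.Agent.ZFy.ZL
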