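import Pool.Agent.Lib.MP_751085_ag.ZF.Z.Quot1
import Pool.Agent.Lib.MP_751085_ag.ZF.Z.Inr
import Pool.Agent.Lib.MP_751085_ag.ZF.Z.Crd

/-! Passage to a subfield of the residue field, second part. -/

namespace Pool.Agent.ZFy.ZL

open Pool.Agent.ZCy
open scoped Classical WithZero Polynomial
open MvPolynomial

set_option linter.unusedSectionVars false

variable {k σ L T LH EH : Type} [Field k] [Fintype σ] [Field L] [Field T] [Field LH] [Field EH]
  [Algebra L T] [FiniteDimensional L T] [IsGalois L T] [Algebra LH EH] [FiniteDimensional LH EH]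
  [IsGalois LH EH] {α : MP (Option (Option σ)) k →+* L} {Θ : MP (Option (Option σ)) k}
  {αH : MP (Option σ) k →+* LH} {wT : Vl T} {ρT : wT.integer →+* EH}

theorem quot2_dec {K A B : Type} [Field K] [Field A] [Field B] [Algebra K A] [Algebra K B]
    {i : A →+* B} {u : Vl A} {v : Vl B} (ho : Over i u v) {s : B ≃ₐ[K] B} {t : A ≃ₐ[K] A}
    (h : ∀ y, i (t y) = s (i y)) (hs : s ∈ Dec K v) : t ∈ Dec K u :=
  mem_dec.2 fun y => by rw [← ho, ← ho, h, hs]

theorem quot2_ine {K A B : Type} [Field K] [Field A] [Field B] [Algebra K A] [Algebra K B]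
    {i : A →+* B} {u : Vl A} {v : Vl B} (ho : Over i u v) {s : B ≃ₐ[K] B} {t : A ≃ₐ[K] A}
    (h : ∀ y, i (t y) = s (i y)) (hs : s ∈ Ine K v) : t ∈ Ine K u :=
  ⟨quot2_dec ho h hs.1, fun y hy => (ho.lt_one _).1 (by
    rw [map_sub, h]; exact hs.2 _ ((ho y).2 hy))⟩

theorem quot2_int {A B D : Type} [CommRing A] [Field B] [Field D] {φ : A →+* B} {x : B}
    (e : B →+* D) (hx : (e.comp φ).IsIntegralElem (e x)) : φ.IsIntegralElem x := by
  obtain ⟨p, hp, h⟩ := hx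
  exact ⟨p, hp, e.injective (by rw [Polynomial.hom_eval₂, h, map_zero])⟩

theorem quot2_fix {E : Type} [Field E] [Algebra L E] {w : Vl E} (g : E ≃ₐ[L] E) (φ : k →+* E)
    (hφ : ∀ a, g (φ a) = φ a) (hw : ∀ a, w (φ a) ≤ 1) {x : E} (hx : φ.IsIntegralElem x)
    (h : w (g x - x) < 1) : g x = x := by
  by_contra hne
  have h1 := misc1_int hx (g : E →+* E)
  rw [show (g : E →+* E).comp φ = φ from RingHom.ext hφ] at h1
  exact h.ne (triv_of_algebraic hw (h1.sub φ hx) (sub_ne_zero.2 hne))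

theorem quot2_lt {E E₀ : Type} [Field E] [Field E₀] [Algebra L E] [Algebra LH E₀]
    {ρ₀ : wT.integer →+* E₀} (Z : ZOut α Θ αH wT ρ₀ E) (g : E ≃ₐ[L] E) (x : Z.w.integer)
    (h : Z.r g (Z.ρ x) = Z.ρ x) : Z.w (g x - x) < 1 := by
  have hg : g ∈ Dec L Z.w := Z.dec ▸ Subgroup.mem_top g
  have h1 : Z.w (g x) ≤ 1 := (hg x).trans_le x.2
  exact (Z.red.eq_iff ⟨g x, h1⟩ x).1 ((Z.act g x ⟨g x, h1⟩ rfl).trans h)

theorem quot2_j {E E₀ : Type} [Field E] [Field E₀] [Algebra L E] [FiniteDimensional L E]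
    [IsGalois L E] [Algebra LH E₀] {ρ₀ : wT.integer →+* E₀} (Z : ZOut α Θ αH wT ρ₀ E)
    (g : E ≃ₐ[L] E) (h : ∀ x, Z.r g (ρ₀ x) = ρ₀ x) (t : T) : g (Z.j t) = Z.j t := by
  have hs : Sq (RingHom.id L) Z.j := Z.hj
  obtain ⟨rT, hT⟩ := exists_rs hs
  have h1 : rT g ∈ Ine L wT :=
    ⟨hT.dec Z.ov (Z.dec ▸ Subgroup.mem_top g), fun x hx => (Z.ov.lt_one _).1 (by
      rw [map_sub, hT]
      exact quot2_lt Z g (Z.ov.int ⟨x, hx⟩) (by rw [Z.hρ, h]))⟩
  obtain ⟨g', hg', e⟩ := hT.ine_onto hs Z.ov h1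
  rw [Z.ine, Subgroup.mem_bot] at hg'
  rw [← hT, ← e, hg', map_one, AlgEquiv.one_apply]

theorem zout_quot {E E₀ : Type} [Field E] [Field E₀] [Algebra L E] [FiniteDimensional L E]
    [IsGalois L E] [Algebra LH E₀] [FiniteDimensional LH E₀] [IsGalois LH E₀] (hα : IsFr α)
    (hH : IsFr αH) (hr : ResH α αH wT ρT) (i : EH →ₐ[LH] E₀)
    (Z : ZOut α Θ αH wT ((i : EH →+* E₀).comp ρT) E) :
    ∃ (E' : Type) (_ : Field E') (_ : Algebra L E') (_ : FiniteDimensional L E')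
      (_ : IsGalois L E'), Nonempty (ZOut α Θ αH wT ρT E') := by
  have hres : ∀ p, ∃ hp, Z.ρ ⟨tE E α p, hp⟩ = tE E₀ αH (hyp p) := fun p => by
    obtain ⟨hp, e⟩ := hr.2 p
    have e1 : Z.j (tE T α p) = tE E α p := Z.hj _
    refine ⟨e1 ▸ (Z.ov _).2 hp, ?_⟩
    have e2 : _ = i (ρT ⟨tE T α p, hp⟩) := Z.hρ ⟨tE T α p, hp⟩
    rw [e] at e2
    exact (congrArg Z.ρ (Subtype.ext e1.symm)).trans (e2.trans (i.commutes _))
  obtain ⟨hc, h0, h1⟩ := lift_down hα hH hyp_surjective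
    (MvPolynomial.X_prime : Prime (X (some none) : MP (Option (Option σ)) k))
    (fun a => hyp_eq_zero) Z.red hres
  obtain ⟨E', _, _, _, _, e, w', ho, ρ', r', hfix, hρ, hsj, hd, hi, hact, hcp⟩ :=
    exists_quot i Z.red Z.surj Z.dec Z.ine Z.r Z.act h0 h1
  obtain ⟨j', hj'⟩ := ring_factor Z.j (e : E' →+* E) (e : E' →+* E).injective fun t =>
    RingHom.mem_range.2 (hfix _ fun g hg => quot2_j Z g (fun x => hg _) t)
  have he : (e : E' →+* E).comp (tE E' α) = tE E α := RingHom.ext fun a => e.commutes _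
  have hI : (i : EH →+* E₀).comp (tE EH αH) = tE E₀ αH := RingHom.ext fun a => i.commutes _
  have hs : Sq (RingHom.id L) (e : E' →+* E) := e.commutes
  obtain ⟨rE, hE⟩ := exists_rs hs
  have ov : Over j' wT w' := fun t => by rw [← ho, hj', Z.ov]
  refine ⟨E', inferInstance, inferInstance, inferInstance, inferInstance, ⟨
    { j := j', w := w', ρ := ρ', r := r', ov := ov, surj := hsj, dec := hd, ine := hi
      act := hact, unr := unrOff_sub e Z.unr
      hj := fun a => (e : E' →+* E).injective ((hj' _).trans ((Z.hj a).trans (e.commutes a).symm))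
      hρ := fun x => (i : EH →+* E₀).injective ((hρ _).trans
        ((congrArg Z.ρ (Subtype.ext (hj' _))).trans (Z.hρ x)))
      red := fun x => ((map_eq_zero i).symm.trans (by rw [hρ]; rfl)).trans (Z.red.comp_int ho x)
      cst := fun y hy => ?_
      dl := fun P Ξ hP hd hc' => ?_ }⟩⟩
  · have h2 := misc1_int hy (i : EH →+* E₀)
    rw [← RingHom.comp_assoc, hI] at h2
    obtain ⟨x, hx, hxy⟩ := Z.cst _ h2
    obtain ⟨x', hx'⟩ := hfix x fun g hg => quot2_fix g ((tE E α).comp C)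
      (fun a => g.commutes _) (fun a => hc.1 _) hx (quot2_lt Z g x (by rw [hxy]; exact hg y))
    have h3 : w' x' ≤ 1 := (ho x').1 (by
      rw [show (e : E' →+* E) x' = x from hx']; exact x.2)
    refine ⟨⟨x', h3⟩, quot2_int (e : E' →+* E) ?_, (i : EH →+* E₀).injective
      ((hρ _).trans ((congrArg Z.ρ (Subtype.ext hx')).trans hxy))⟩
    rw [← RingHom.comp_assoc, he, show (e : E' →+* E) x' = x from hx']
    exact hx
  · obtain ⟨W, hW, hcW⟩ := exists_cen_over e hc'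
    rw [← flpHom_comp, he] at hcW
    obtain ⟨Q, hQ, hT, hD, hN⟩ := Z.dl P W hP hd hcW
    obtain ⟨Q', hQ', hq⟩ := exists_nrm_sub i hQ
    refine ⟨Q', hQ', fun a ha => (hq.eq_one _).1 ?_, fun g hg => ?_, fun g hg => ?_⟩
    · exact (congrArg Q (i.commutes _)).trans (hT a ha)
    · obtain ⟨g', hg', rfl⟩ := hE.dec_onto hs hW hg
      exact quot2_dec hq (hcp g' _ (hE g')) (hD g' hg')
    · obtain ⟨g', hg', rfl⟩ := hE.ine_onto hs hW hg
      exact quot2_ine hq (hcp g' _ (hE g')) (hN g' hg')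

theorem zlef_smul {l : ℕ} {c : k} (hc : c ≠ 0) (h : ZLef T l α (C c * Θ)) : ZLef T l α Θ := by
  intro LH EH _ _ _ _ _ αH wT ρT hH hu hr hl
  obtain ⟨E, _, _, _, _, ⟨Z⟩⟩ := h LH EH αH wT ρT hH
    (unrOff_mono (n := 1) (by rw [pow_one, map_mul]; exact dvd_mul_left _ _) hu) hr hl
  refine ⟨E, inferInstance, inferInstance, inferInstance, inferInstance, ⟨
    { Z with
      unr := unrOff_mono (n := 1) ⟨C c⁻¹, ?_⟩ Z.unr
      dl := fun P Ξ hP hd => Z.dl P Ξ hP (by rw [flp_smul hc]; exact hd.mul_left _) }⟩⟩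
  rw [pow_one, mul_right_comm, ← C_mul, mul_inv_cancel₀ hc, C_1, one_mul]

end Pool.Agent.ZFy.ZL
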