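import Pool.Agent.Lib.MP_751085_ag.ZF.Z.VertC
import Pool.Agent.Lib.MP_751085_ag.ZF.Z.HyE
import Pool.Agent.Lib.MP_751085_ag.ZF.Z.SplB
import Pool.Agent.Lib.MP_751085_ag.ZF.Z.Quot2
import Pool.Agent.Lib.MP_751085_ag.ZF.Z.Core

/-! Lifting of covers of a hyperplane. -/

namespace Pool.Agent.ZFy.ZL

open Pool.Agent.ZCy
open scoped Classical WithZero Polynomial
open MvPolynomial

set_option linter.unusedSectionVars false

theorem mat_cl {ι k : Type} [Fintype ι] [CommRing k] {d d' : DecidableEq ι} {M : Matrix ι ι k}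
    (h : M = @OfNat.ofNat _ 1 (@One.toOfNat1 _ (@Matrix.one ι k d _ _))) :
    M = @OfNat.ofNat _ 1 (@One.toOfNat1 _ (@Matrix.one ι k d' _ _)) :=
  Subsingleton.elim d d' ▸ h

theorem exists_extE {ι k : Type} [Fintype ι] [Field k] {M M' : Matrix ι ι k} (h : M * M' = 1) :
    ∃ e : MP (Option ι) k ≃+* MP (Option ι) k, (∀ G, e G = aff 0 (extM M') G) ∧
      ∀ G, e.symm G = aff 0 (extM M) G := by
  obtain ⟨e, he, he'⟩ := exists_affE (M := extM M') (M' := extM M) 0 (mat_cl (by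
    rw [extM_mul, mul_eq_one_comm.1 h, extM_one]))
  exact ⟨e, he, fun G => by rw [he', Matrix.mulVec_zero, neg_zero]⟩

variable {l q : ℕ} {σ k L T N₁ : Type} [Fintype σ] [Field k] [Field L] [Field T] [Field N₁]
  [Algebra (RF (Option σ) k)[X] L] [IsFractionRing (RF (Option σ) k)[X] L] [Algebra L T]
  [FiniteDimensional L T] [IsGalois L T] [Algebra (RF (Option σ) k) N₁]
  [FiniteDimensional (RF (Option σ) k) N₁] [IsGalois (RF (Option σ) k) N₁]
  {α : MP (Option (Option σ)) k →+* L} {Θ : MP (Option (Option σ)) k} {Δ : MP (Option σ) k}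
  {τ : T →+* Ls N₁}

theorem zlef_of (hR : RIG1) (hD : DSC) (h : Pol α) (h1 : constantCoeff Θ = 1)
    (hu : UnrOff L (tE T α) Θ)
    (c : Crt (RF (Option σ) k) L l q (C : k →+* MP (Option σ) k) (tp (flp Θ)) Δ τ)
    {a : Option σ → k} (hy : ¬lin a ∣ Δ)
    (hI : INe (RF (Option σ) k) l (C : k →+* MP (Option σ) k) N₁ Δ (lin a)) :
    ZHyp T l α Θ a := by
  intro M M' hM ha LH EH _ _ _ _ _ αH wT ρT hH huH hr hx
  subst ha
  have hM1 := mat_cl (d' := fun a b => Classical.propDecidable (a = b)) hM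
  obtain ⟨e, he, he'⟩ := exists_extE hM1
  have ee : (aff 0 (extM M') : MP (Option (Option σ)) k →+* MP (Option (Option σ)) k) = e :=
    RingHom.ext fun G => (he G).symm
  have hf : ∀ {E : Type} [Field E] [Algebra L E], flpHom (tE E (α.comp
      (aff 0 (extM M') : MP (Option (Option σ)) k →+* MP (Option (Option σ)) k))) =
      (flpHom (tE E α)).comp (e : _ →+* _) := fun {E} _ _ => ee ▸ flpHom_aff (tE E α) M'
  have hα' := h.fr.comp_equiv e
  rw [← ee] at hα'
  obtain ⟨_, _, hp⟩ := exists_polA hH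
  obtain ⟨s⟩ := exists_split hp (by
    rw [const_hyp, const_aff, eval_zero, h1]
    exact one_ne_zero) huH
  obtain ⟨_, hA⟩ := exists_rfA (Option σ) k s.k₁
  have := hA.fin
  have := hA.gal
  obtain ⟨H, hy', hh, hrel⟩ := exists_hy hA s.rf hM
  have key : ∀ p, (tp p).map H.h =
      (tp (hyp (e.symm p))).map (algebraMap (MP σ k) (RF σ k)) := fun p => by
    rw [he', tp_hyp_aff, Polynomial.map_map]
    exact congrArg (Polynomial.map · _) (RingHom.ext hh)
  have S : Spc H L l (tp (flp Θ)) s.d wT ((s.j : EH →+* s.N).comp ρT) := by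
    refine ⟨?_, hr.1.comp _, fun p => ?_, s.lxt hp hx⟩
    · rw [key, he', ← flp_aff hM1]
      exact hp.unr_hyp s.unr
    · obtain ⟨p, rfl⟩ := (optionEquivLeft k (Option σ)).surjective p
      obtain ⟨h2, h3⟩ := res_flp' (hp.inj (E := s.N)) (hr.1.comp (s.j : EH →+* s.N))
        (fun p => (hr.2 p).imp fun _ h => (congrArg s.j h).trans (s.j.commutes _)) (e.symm p)
      have h4 : pA (MP (Option σ) k) (RF (Option σ) k) L T (tp p) = flpHom (tE T (α.comp
          (aff 0 (extM M') : MP (Option (Option σ)) k →+* MP (Option (Option σ)) k))) (e.symm p) := by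
        rw [hf, h.pA]
        exact congrArg _ (e.apply_symm_apply p).symm
      exact ⟨h4 ▸ h2, (congrArg _ (Subtype.ext h4)).trans
        (h3.trans ((hp.ext _).symm.trans (congrArg _ (key p).symm)))⟩
  obtain ⟨E, _, _, _, _, Z, ok, dl⟩ := core hD c H (hy' ▸ hy) (hy' ▸ hI) S
  refine zout_quot hα' hH hr s.j (E := E) ⟨Z.j, Z.w, Z.ρ, Z.r, Z.sc.alg, ok.ov, ok.resT, Z.red,
    Z.surj, Z.dec, Z.ine, Z.act, ?_, fun y hy => ?_, fun P Ξ hP hd hc => ?_⟩
  · rw [ee, ← he']
    exact (unrOff_equiv (φ := tE E α) e).2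
      ((e.apply_symm_apply Θ).symm ▸ unr_vert1 hR h h1 hu c.prime c.lne hA.gen Z.sc)
  · obtain ⟨b, rfl⟩ := s.cst hp hy
    obtain ⟨h2, h3⟩ := ok.cst _ _ (hrel b)
    refine ⟨⟨_, h2⟩, ?_, h3⟩
    have h4 := RingHom.IsIntegralElem.map (hA.mem b) Z.d.c
    rwa [show Z.d.c.comp ((toF (MP (Option σ) k) (RF (Option σ) k) _).comp C) = _ from
      RingHom.ext fun a => ?_] at h4
    refine ((Z.d.φ_C _).symm.trans ((congrArg _ (Polynomial.map_C _).symm).trans
      ((Z.d.φ_map _).trans (h.cst a)))).trans (congrArg (tE E α) ?_)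
    exact (algHom_C (aff 0 (extM M')) a).symm
  · rw [hf, cen_equiv] at hc
    rw [flp_aff hM1, ← he'] at hd
    let t := (optionEquivLeft k (Option σ)).toRingEquiv
    have e2 : flpHom (tE E α) = (pA _ (RF (Option σ) k) L E).comp
        (t : MP (Option (Option σ)) k →+* (MP (Option σ) k)[X]) :=
      RingHom.ext fun p => (h.pA p).symm
    obtain ⟨Q, h2, h3, h4⟩ := dl (t (e P)) Ξ ((MulEquiv.prime_iff t).2 ((MulEquiv.prime_iff e).2 hP))
      (map_dvd t (e.apply_symm_apply (flp Θ) ▸ map_dvd e hd))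
      ((cen_equiv t).1 (e2 ▸ hc))
    exact ⟨Q, h2, fun x hx => (congrArg Q (hp.cst x).symm).trans
      (h3 _ ((map_ne_zero (rc σ k)).2 hx)), h4⟩

end Pool.Agent.ZFy.ZL
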