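import Pool.Agent.Lib.MP_751085_ag.ZF.Z.Geo
import Pool.Agent.Lib.MP_751085_ag.ZC.Z.Sec1
import Pool.Agent.Lib.MP_751085_ag.ZC.V.Gal

/-! Base change of covers inside Laurent series fields. -/

namespace Pool.Agent.ZFy.ZL

open Pool.Agent.ZCy
open scoped Classical WithZero Polynomial

set_option linter.unusedSectionVars false

/-- descent of the coefficients in a compositum -/
theorem mem_clo {N κ M : Type} [Field N] [Field κ] [Field M] (ι : N →+* Ls κ) (i : κ →+* M)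
    {u : Ls κ} (h : lm i u ∈ Subfield.closure (Set.range ((lm i).comp ι) ∪ Set.range (tL M))) :
    u ∈ Subfield.closure (Set.range ι ∪ Set.range (tL κ)) := by
  let := i.toAlgebra
  obtain ⟨S, hS⟩ : ∃ S, S = Subfield.closure (Set.range ι ∪ Set.range (tL κ)) := ⟨_, rfl⟩
  have s1 : ∀ z, ι z ∈ S := fun z => hS ▸ Subfield.subset_closure (Or.inl ⟨z, rfl⟩)
  have s2 : ∀ p, tL κ p ∈ S := fun p => hS ▸ Subfield.subset_closure (Or.inr ⟨p, rfl⟩)
  let P : Ls M → Prop := fun y => ∀ l : M →ₗ[κ] κ, ∃ y' ∈ S, ∀ (g : Ls κ) (j : ℤ),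
    (g * y').coeff j = l ((lm i g * y).coeff j)
  have p1 : ∀ s ∈ S, ∀ y, P y → P (lm i s * y) := fun s hs y hy l => by
    obtain ⟨y', h1, h2⟩ := hy l
    exact ⟨s * y', mul_mem hs h1, fun g j => by rw [← mul_assoc, h2, map_mul, mul_assoc]⟩
  have p2 : ∀ x y, P x → P y → P (x + y) := fun x y hx hy l => by
    obtain ⟨x', h1, h2⟩ := hx l
    obtain ⟨y', h3, h4⟩ := hy l
    exact ⟨x' + y', add_mem h1 h3, fun g j => by
      simp only [mul_add, HahnSeries.coeff_add, h2, h4, map_add]⟩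
  have p3 : ∀ (c : M) y, P y → P (HahnSeries.C c * y) := fun c y hy l => by
    obtain ⟨y', h1, h2⟩ := hy (l ∘ₗ LinearMap.mulLeft κ c)
    exact ⟨y', h1, fun g j => by
      rw [h2, mul_left_comm, HahnSeries.C_mul_eq_smul, HahnSeries.coeff_smul]
      rfl⟩
  have p4 : P 1 := fun l => ⟨tL κ (Polynomial.C (l 1)), s2 _, fun g j => by
    rw [sec_tM_C, mul_comm, HahnSeries.C_mul_eq_smul, HahnSeries.coeff_smul, mul_one, lm_coeff,
      smul_eq_mul, mul_comm, ← smul_eq_mul, ← map_smul, Algebra.smul_def, mul_one]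
    rfl⟩
  have p5 : ∀ x ∈ Subring.closure (Set.range ((lm i).comp ι) ∪ Set.range (tL M)),
      ∀ y, P y → P (x * y) := fun x hx => by
    induction hx using Subring.closure_induction with
    | mem x hx =>
      rcases hx with ⟨z, rfl⟩ | ⟨p, rfl⟩
      · exact p1 _ (s1 z)
      · intro y hy
        induction p using Polynomial.induction_on' with
        | add p q hp hq => rw [map_add, add_mul]; exact p2 _ _ hp hq
        | monomial n c =>
          have := p3 c _ (p1 _ (s2 (Polynomial.X ^ n)) y hy)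
          rwa [lm_tM, Polynomial.map_pow, Polynomial.map_X, ← mul_assoc, ← sec_tM_C (M := 1),
            ← map_mul, Polynomial.C_mul_X_pow_eq_monomial] at this
    | zero => exact fun y hy => by simpa using p1 0 (zero_mem S) y hy
    | one => exact fun y hy => by rwa [one_mul]
    | add x x' _ _ h1 h2 => exact fun y hy => by rw [add_mul]; exact p2 _ _ (h1 y hy) (h2 y hy)
    | neg x _ h1 => exact fun y hy => by simpa using p1 (-1) (neg_mem (one_mem S)) _ (h1 y hy)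
    | mul x x' _ _ h1 h2 => exact fun y hy => by rw [mul_assoc]; exact h1 _ (h2 y hy)
  obtain ⟨y, hy, z, hz, e⟩ := Subfield.mem_closure_iff.1 h
  rw [← hS]
  rcases eq_or_ne z 0 with rfl | h0
  · rw [div_zero, eq_comm, map_eq_zero] at e
    exact e ▸ zero_mem S
  obtain ⟨l, hl⟩ := Module.Projective.exists_dual_eq_one κ (HahnSeries.coeff_order_eq_zero.not.2 h0)
  obtain ⟨y', y1, y2⟩ := p5 y hy 1 p4 l
  obtain ⟨z', z1, z2⟩ := p5 z hz 1 p4 l
  have h1 : z' ≠ 0 := fun e => by simpa [e, hl] using z2 1 z.order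
  have h2 : u * z' = y' := HahnSeries.ext (funext fun j => by
    rw [z2, ← e, mul_one, div_mul_cancel₀ _ h0, ← one_mul y', y2, map_one, one_mul, mul_one])
  exact eq_div_of_mul_eq h1 h2 ▸ div_mem y1 z1

variable {K L F N : Type} [Field K] [Field L] [Field F] [Field N] [Algebra K L] [Algebra K[X] F]
  [IsFractionRing K[X] F] [Algebra F N] [FiniteDimensional F N] [IsGalois F N]

theorem exists_bcd {M : Type} [Field M] (d : SecD 1 K L F N) (γ : L →+* M) (F' : Type) [Field F']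
    [Algebra M[X] F'] [IsFractionRing M[X] F'] :
    ∃ (N' : Type) (_ : Field N') (_ : Algebra F' N') (_ : FiniteDimensional F' N')
      (_ : IsGalois F' N'), Nonempty (Bc d γ F' N') := by
  obtain ⟨l, hl⟩ := (isFr_alg M[X] F').exists_lift (tL_injective (R := M))
  obtain ⟨f, hf⟩ := (isFr_alg K[X] F).exists_lift (β := (algebraMap M[X] F').comp
    (Polynomial.mapRingHom (γ.comp (algebraMap K L))))
    ((isFr_alg M[X] F').1.comp (Polynomial.map_injective _ (RingHom.injective _)))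
  let := l.toAlgebra
  have hs : Sq f ((lm γ).comp d.ι) := RingHom.congr_fun ((isFr_alg K[X] F).hom_ext
    (φ := ((lm γ).comp d.ι).comp (algebraMap F N)) (φ' := l.comp f) fun p => by
      change lm γ (d.ι (toF K[X] F N p)) = l (f _)
      rw [d.ht, lm_tM, hf, RingHom.comp_apply, hl, Polynomial.map_map]
      rfl)
  obtain ⟨h1, h2, j, r, h3, -⟩ := bc_in hs
  exact ⟨_, inferInstance, inferInstance, h1, h2, ⟨⟨j, (IntermediateField.val _).toRingHom, hl, h3,
    fun g hg => eq_one_of_adjoin (vgal_top h3) (by rintro _ ⟨z, rfl⟩; exact hg z)⟩⟩⟩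

theorem clo_sd (d : SecD 1 K L F N) {u : Ls L}
    (h : u ∈ Subfield.closure (Set.range d.ι ∪ Set.range (tL L))) : u ∈ d.ι.range := by
  refine (Subfield.closure_le (t := d.ι.fieldRange)).2 ?_ h
  rintro _ (⟨z, rfl⟩ | ⟨p, rfl⟩)
  exacts [⟨z, rfl⟩, ⟨_, d.ι_φ p⟩]

variable {M F' N' : Type} [Field M] [Field F'] [Field N'] [Algebra M[X] F'] [IsFractionRing M[X] F']
  [Algebra F' N'] [FiniteDimensional F' N'] [IsGalois F' N'] {d : SecD 1 K L F N} {γ : L →+* M}

theorem Bc.hφ (b : Bc d γ F' N') (p : L[X]) : b.j (d.φ p) = toF M[X] F' N' (p.map γ) := by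
  exact b.ι.injective (by rw [b.hj, b.hι, d.ι_φ, lm_tM])

theorem Bc.bc1_top (b : Bc d γ F' N') :
    Subfield.closure (Set.range b.j ∪ Set.range (toF M[X] F' N')) = ⊤ := by
  have h : ∀ a, algebraMap F' N' a ∈
      Subfield.closure (Set.range b.j ∪ Set.range (toF M[X] F' N')) := fun a => by
    obtain ⟨p, q, -, rfl⟩ := IsFractionRing.div_surjective (A := M[X]) a
    rw [map_div₀]
    exact div_mem (Subfield.subset_closure (Or.inr ⟨p, rfl⟩))
      (Subfield.subset_closure (Or.inr ⟨q, rfl⟩))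
  refine top_unique fun x _ => ?_
  change x ∈ Subfield.toIntermediateField _ h
  rw [← IsGalois.fixedField_fixingSubgroup (Subfield.toIntermediateField _ h),
    IntermediateField.mem_fixedField_iff]
  intro g hg
  rw [b.span g fun z => hg ⟨_, Subfield.subset_closure (Or.inl ⟨z, rfl⟩)⟩]
  rfl

theorem Bc.range_iff (b : Bc d γ F' N') (u : Ls M) : u ∈ b.ι.range ↔
    u ∈ Subfield.closure (Set.range ((lm γ).comp d.ι) ∪ Set.range (tL M)) := by
  refine ⟨?_, fun h => (Subfield.closure_le (t := b.ι.fieldRange)).2 ?_ h⟩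
  · rintro ⟨z, rfl⟩
    refine Subfield.mem_comap.1 (Subfield.closure_le.2 ?_ (b.bc1_top ▸ Subfield.mem_top z :))
    rintro _ (⟨z, rfl⟩ | ⟨p, rfl⟩)
    exacts [Subfield.subset_closure (Or.inl ⟨z, (b.hj z).symm⟩),
      Subfield.subset_closure (Or.inr ⟨p, (b.hι p).symm⟩)]
  · rintro _ (⟨z, rfl⟩ | ⟨p, rfl⟩)
    exacts [⟨_, b.hj z⟩, ⟨_, b.hι p⟩]

theorem Bc.hom_ext (b : Bc d γ F' N') {Ω : Type} [Field Ω] (f f' : N' →+* Ω)
    (h1 : ∀ z, f (b.j z) = f' (b.j z))
    (h2 : ∀ p, f (toF M[X] F' N' p) = f' (toF M[X] F' N' p)) : f = f' := by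
  refine RingHom.eq_of_eqOn_of_field_closure_eq_top b.bc1_top ?_
  rintro _ (⟨z, rfl⟩ | ⟨p, rfl⟩)
  exacts [h1 z, h2 p]

theorem Bc.mem (b : Bc d γ F' N') {z : N'} (h : b.ι z ∈ (lm γ).range) : z ∈ b.j.range := by
  obtain ⟨u, hu⟩ := h
  obtain ⟨x, rfl⟩ := clo_sd d (mem_clo d.ι γ (hu ▸ (b.range_iff _).1 ⟨z, rfl⟩))
  exact ⟨x, b.ι.injective ((b.hj x).trans hu)⟩

theorem Bc.restr (b : Bc d γ F' N') (g' : N' ≃ₐ[F'] N') :
    ∃ g ∈ geo d, ∀ z, b.j (g z) = g' (b.j z) := by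
  have h : ∀ p, g' (b.j (d.φ p)) = b.j (d.φ p) := fun p => by
    rw [b.hφ]
    exact g'.commutes _
  obtain ⟨g, hg⟩ := exists_restrict (K := F) b.j (g' : N' →+* N') (RingHom.congr_fun
    ((isFr_alg K[X] F).hom_ext (φ := ((g' : N' →+* N').comp b.j).comp (algebraMap F N))
      (φ' := b.j.comp (algebraMap F N)) fun p => by
        have := h (p.map (algebraMap K L))
        rwa [d.φ_map] at this))
  refine ⟨g, mem_fixS_range.2 fun a => b.j.injective ((hg _).trans ?_), hg⟩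
  rw [← d.φ_C]
  exact h _

theorem Bc.bc1_hom (b : Bc d γ F' N') :
    ∃ r : (N' ≃ₐ[F'] N') →* geo d, ∀ g z, b.j ((r g : N ≃ₐ[F] N) z) = g (b.j z) := by
  choose r h1 h2 using b.restr
  exact ⟨MonoidHom.mk' (fun g => ⟨r g, h1 g⟩) fun g g' => Subtype.ext (AlgEquiv.ext fun z =>
    b.j.injective (by simp only [Subgroup.coe_mul, AlgEquiv.mul_apply, h2])), h2⟩

theorem Bc.ext (b : Bc d γ F' N') {g : N ≃ₐ[F] N} (hg : g ∈ geo d) :
    ∃ g' : N' ≃ₐ[F'] N', ∀ z, g' (b.j z) = b.j (g z) := by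
  obtain ⟨r, hr⟩ := b.bc1_hom
  have h : g ∈ (IntermediateField.fixedField ((geo d).subtype.comp r).range).fixingSubgroup := by
    rintro ⟨z, hz⟩
    obtain ⟨a, ha⟩ := mem_range_of_fix (K := F') (x := b.j z) fun g' =>
      (hr g' z).symm.trans (congrArg b.j (hz ⟨_, g', rfl⟩))
    obtain ⟨p, q, hq, e⟩ := (isFr_alg M[X] F').2 a
    obtain ⟨p', q', hq', e'⟩ := frac_of_coeff γ one_pos (d.ι z) p q hq (by
      rw [← b.hj, ← ha, ← b.hι, ← b.hι, ← map_mul, RingHom.comp_apply, ← map_mul, e]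
      rfl)
    rw [← d.ι_φ, ← d.ι_φ, ← map_mul] at e'
    have e1 := d.ι.injective e'
    have e2 := congrArg g e1
    rw [map_mul, geo_φ d hg, geo_φ d hg, ← e1] at e2
    exact mul_right_cancel₀ ((map_ne_zero_iff _ (sd_inj d)).2 hq') e2
  rw [IntermediateField.fixingSubgroup_fixedField] at h
  obtain ⟨g', rfl⟩ := h
  exact ⟨g', fun z => (hr g' z).symm⟩

theorem Bc.iso (b : Bc d γ F' N') :
    ∃ r : (N' ≃ₐ[F'] N') ≃* geo d, ∀ g z, b.j ((r g : N ≃ₐ[F] N) z) = g (b.j z) := by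
  obtain ⟨r, hr⟩ := b.bc1_hom
  refine ⟨MulEquiv.ofBijective r ⟨(injective_iff_map_eq_one r).2 fun g hg => b.span g fun z => ?_,
    fun g => ?_⟩, hr⟩
  · rw [← hr, hg]
    rfl
  · obtain ⟨g', h⟩ := b.ext g.2
    exact ⟨g', Subtype.ext (AlgEquiv.ext fun z => b.j.injective ((hr g' z).trans (h z)))⟩

/-- endomorphisms of the constants act on the base change -/
theorem Bc.semi (b : Bc d γ F' N') (s : M →+* M)
    (hs : ∀ a : K, s (γ (algebraMap K L a)) = γ (algebraMap K L a)) :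
    ∃ (s' : N' →+* N') (g : N ≃ₐ[F] N), (∀ z, b.ι (s' z) = lm s (b.ι z)) ∧
      ∀ z, s' (b.j z) = b.j (g z) := by
  obtain ⟨g, hg⟩ := exists_restrict (K := F) ((lm γ).comp d.ι) (lm s) (RingHom.congr_fun
    ((isFr_alg K[X] F).hom_ext (φ := ((lm s).comp ((lm γ).comp d.ι)).comp (algebraMap F N))
      (φ' := ((lm γ).comp d.ι).comp (algebraMap F N)) fun p => by
        change lm s (lm γ (d.ι (toF K[X] F N p))) = lm γ (d.ι (toF K[X] F N p))
        rw [d.ht, lm_tM, lm_tM, Polynomial.map_map, Polynomial.map_map, Polynomial.map_map]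
        congr 2
        exact RingHom.ext hs))
  obtain ⟨s', h⟩ := ring_factor ((lm s).comp b.ι) b.ι b.ι.injective fun z => by
    refine (Subfield.closure_le (t := b.ι.fieldRange.comap (lm s))).2 ?_
      ((b.range_iff _).1 ⟨z, rfl⟩)
    rintro _ (⟨z, rfl⟩ | ⟨p, rfl⟩)
    exacts [⟨_, (b.hj _).trans (hg z)⟩, ⟨_, (b.hι _).trans (lm_tM s 1 p).symm⟩]
  refine ⟨s', g, h, fun z => b.ι.injective ((h _).trans ?_)⟩
  rw [RingHom.comp_apply, b.hj, b.hj]
  exact (hg z).symm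

end Pool.Agent.ZFy.ZL
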