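import Pool.Agent.Lib.MP_751085_ag.ZF.Z.Defs2
import Pool.Agent.Lib.MP_751085_ag.ZF.Z.Bc1
import Pool.Agent.Lib.MP_751085_ag.ZC.Z.Clo

/-! The Galois closure of a model. -/

namespace Pool.Agent.ZFy.ZL

open Pool.Agent.ZCy
open scoped Classical WithZero Polynomial

set_option linter.unusedSectionVars false

theorem clo1_root {B F Ω E : Type} [Field B] [Field F] [Field Ω] [Field E] [Algebra F Ω]
    [Algebra B E] (f : B →+* F) (J : E →+* Ω)
    (h : ∀ a, algebraMap F Ω (f a) = J (algebraMap B E a)) {z : E} (hz : IsSeparable B z) :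
    IsSeparable F (J z) := by
  refine (Polynomial.Separable.map hz (f := f)).of_dvd (minpoly.dvd F _ ?_)
  rw [Polynomial.aeval_def, Polynomial.eval₂_map,
    show (algebraMap F Ω).comp f = J.comp (algebraMap B E) from RingHom.ext h,
    ← Polynomial.hom_eval₂, ← Polynomial.aeval_def, minpoly.aeval, map_zero]

section

variable {K L F : Type} [Field K] [Field L] [Field F] [Algebra K L] [FiniteDimensional K L]
  [IsGalois K L] [Algebra K[X] F] [IsFractionRing K[X] F] [Algebra F (Ls L)]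
  (hβ : ∀ p, algebraMap F (Ls L) (algebraMap K[X] F p) = tL L (p.map (algebraMap K L)))

include hβ

theorem clo1_C (a : L) : IsSeparable F (HahnSeries.C a : Ls L) :=
  clo1_root ((algebraMap K[X] F).comp Polynomial.C) (HahnSeries.C : L →+* Ls L)
    (fun b => by rw [RingHom.comp_apply, hβ, Polynomial.map_C, clo_tL_C])
    (Algebra.IsSeparable.isSeparable K a)

theorem clo1_sep {L₀ F₀ E₀ : Type} [Field L₀] [Field F₀] [Field E₀] [Algebra L₀[X] F₀]
    [IsFractionRing L₀[X] F₀] [Algebra F₀ E₀] [FiniteDimensional F₀ E₀] [IsGalois F₀ E₀]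
    (ι₀ : E₀ →+* Ls L₀) (hι : ∀ p, ι₀ (toF L₀[X] F₀ E₀ p) = tL L₀ p) (e : L₀ →+* L) (z : E₀) :
    IsSeparable F (lm e (ι₀ z)) := by
  have h1 := clo_tL_mem hβ (separableClosure F (Ls L)) fun a =>
    mem_separableClosure_iff.2 (clo1_C hβ a)
  have h2 : ∀ c, (((lm e).comp ι₀).comp (algebraMap F₀ E₀)) c ∈ separableClosure F (Ls L) :=
    fun c => by
      obtain ⟨a, b, -, hab⟩ := clo_frac ι₀ hι e c
      exact hab ▸ div_mem (h1 a) (h1 b)
  exact IsSeparable.of_algebra_isSeparable_of_isSeparable F (E := separableClosure F (Ls L))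
    (clo1_root (RingHom.codRestrict _ _ h2) ((lm e).comp ι₀) (fun _ => rfl)
      (Algebra.IsSeparable.isSeparable F₀ z))

end

theorem clo1_main {K L F L₀ F₀ E₀ : Type} [Field K] [Field L] [Field F] [Algebra K L]
    [FiniteDimensional K L] [IsGalois K L] [Algebra K[X] F] [IsFractionRing K[X] F]
    [Algebra F (Ls L)]
    (hβ : ∀ p, algebraMap F (Ls L) (algebraMap K[X] F p) = tL L (p.map (algebraMap K L)))
    [Field L₀] [Field F₀] [Field E₀] [Algebra L₀[X] F₀] [IsFractionRing L₀[X] F₀] [Algebra F₀ E₀]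
    [FiniteDimensional F₀ E₀] [IsGalois F₀ E₀] (ι₀ : E₀ →+* Ls L₀)
    (hι : ∀ p, ι₀ (toF L₀[X] F₀ E₀ p) = tL L₀ p) (e : L₀ →+* L) :
    ∃ (N : Type) (_ : Field N) (_ : Algebra F N) (_ : FiniteDimensional F N) (_ : IsGalois F N)
      (d : SecD 1 K L F N) (κ : E₀ →+* N), (∀ z, d.ι (κ z) = lm e (ι₀ z)) ∧
      ∀ g : N ≃ₐ[F] N, (∀ a, g (d.c a) = d.c a) →
        (∀ (h : N ≃ₐ[F] N) (z : E₀), g (h (κ z)) = h (κ z)) → g = 1 := by
  set S : Set (Ls L) := (Set.range fun i => HahnSeries.C (Module.finBasis K L i)) ∪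
    Set.range fun q : (L ≃ₐ[K] L) × Fin (Module.finrank F₀ E₀) =>
      lm ((q.1 : L →+* L).comp e) (ι₀ (Module.finBasis F₀ E₀ q.2)) with hS
  set N := IntermediateField.adjoin F S with hN
  have hC : ∀ a : L, HahnSeries.C a ∈ N := clo_C_mem hβ N fun i =>
    IntermediateField.subset_adjoin _ _ (Or.inl ⟨i, rfl⟩)
  have hκ : ∀ (γ : L ≃ₐ[K] L) (z : E₀), lm ((γ : L →+* L).comp e) (ι₀ z) ∈ N := fun γ =>
    clo_mem hβ ι₀ hι N hC _ fun i => IntermediateField.subset_adjoin _ _ (Or.inr ⟨(γ, i), rfl⟩)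
  let c : L →+* N := (HahnSeries.C : L →+* Ls L).codRestrict N hC
  let κ : (L ≃ₐ[K] L) → E₀ →+* N := fun γ =>
    ((lm ((γ : L →+* L).comp e)).comp ι₀).codRestrict N (hκ γ)
  have hsp : ∀ x ∈ S, IsIntegral F x ∧ ((minpoly F x).map (algebraMap F N)).Splits := by
    rintro x (⟨i, rfl⟩ | ⟨⟨γ, i⟩, rfl⟩)
    · set a := Module.finBasis K L i
      have ha : IsIntegral K a := .of_finite K a
      refine clo_splits (ι := Unit) N _ (fun _ => ((minpoly K a).map (algebraMap K L)).map c)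
        (fun _ => ((minpoly.monic ha).map _).map _)
        (fun _ => (Normal.splits inferInstance a).map _) ?_ ?_
      · refine (Polynomial.mem_lifts _).2
          ⟨(minpoly K a).map ((algebraMap K[X] F).comp Polynomial.C), ?_⟩
        rw [Fintype.prod_unique, Polynomial.map_map, Polynomial.map_map, Polynomial.map_map]
        congr 1
        refine RingHom.ext fun k => ?_
        simp only [RingHom.comp_apply]
        rw [hβ, Polynomial.map_C, clo_tL_C]
        rfl
      · rw [Fintype.prod_unique, Polynomial.map_map]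
        have : (N.val.toRingHom.comp c) = (HahnSeries.C : L →+* Ls L) := RingHom.ext fun _ => rfl
        rw [this, Polynomial.eval_map, Polynomial.eval₂_at_apply, Polynomial.eval_map,
          ← Polynomial.aeval_def, minpoly.aeval, map_zero]
    · set z := Module.finBasis F₀ E₀ i
      have hz : IsIntegral F₀ z := .of_finite F₀ z
      have h1 : (∏ δ : L ≃ₐ[K] L, ((minpoly F₀ z).map (algebraMap F₀ E₀)).map (κ δ)).map
          N.val.toRingHom = ∏ δ : L ≃ₐ[K] L, (minpoly F₀ z).map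
            (((lm ((δ : L →+* L).comp e)).comp ι₀).comp (algebraMap F₀ E₀)) := by
        rw [Polynomial.map_prod]
        refine Finset.prod_congr rfl fun δ _ => ?_
        rw [Polynomial.map_map, Polynomial.map_map]
        rfl
      refine clo_splits N _ (fun δ => ((minpoly F₀ z).map (algebraMap F₀ E₀)).map (κ δ))
        (fun _ => ((minpoly.monic hz).map _).map _)
        (fun _ => (Normal.splits inferInstance z).map _) ?_ ?_
      · rw [h1]
        exact clo_lifts hβ ι₀ hι e _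
      · rw [h1, Polynomial.eval_prod]
        refine Finset.prod_eq_zero (Finset.mem_univ γ) ?_
        rw [← Polynomial.map_map, Polynomial.eval_map]
        refine (Polynomial.eval₂_at_apply ((lm ((γ : L →+* L).comp e)).comp ι₀) z).trans ?_
        rw [Polynomial.eval_map, ← Polynomial.aeval_def, minpoly.aeval, map_zero]
  have : Finite S := ((Set.finite_range _).union (Set.finite_range _)).to_subtype
  have hfd : FiniteDimensional F N :=
    IntermediateField.finiteDimensional_adjoin fun x hx => (hsp x hx).1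
  have : Normal F N := normal_iff.2 fun x => ⟨.of_finite F x, by
    rw [IntermediateField.minpoly_eq]
    exact IntermediateField.splits_of_mem_adjoin F _ hsp x.2⟩
  have : Algebra.IsSeparable F N := by
    refine (IntermediateField.isSeparable_adjoin_iff_isSeparable F _).2 ?_
    rintro x (⟨i, rfl⟩ | ⟨⟨γ, i⟩, rfl⟩)
    exacts [clo1_C hβ _, clo1_sep hβ ι₀ hι _ _]
  have hG : IsGalois F N := {}
  let d : SecD 1 K L F N := ⟨c, N.val.toRingHom, fun _ => rfl, fun p => hβ p⟩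
  have hd : ∀ z, d.ι (κ 1 z) = lm e (ι₀ z) := fun z => rfl
  refine ⟨N, inferInstance, inferInstance, hfd, hG, d, κ 1, hd, fun g hc hk => ?_⟩
  obtain ⟨π, σ, hs⟩ := d.exists_spl
  have key : (g : N →ₐ[F] N) = AlgHom.id F N := by
    refine IntermediateField.adjoin_algHom_ext F ?_
    rintro x (⟨i, rfl⟩ | ⟨⟨γ, i⟩, rfl⟩)
    · exact hc _
    · have h1 : σ γ (κ 1 (Module.finBasis F₀ E₀ i)) = κ γ (Module.finBasis F₀ E₀ i) := by
        apply d.ι.injective
        rw [hs.hσ, hd, clo_lm_lm]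
        rfl
      have h2 := hk (σ γ) (Module.finBasis F₀ E₀ i)
      rw [h1] at h2
      exact h2
  exact AlgEquiv.ext fun x => DFunLike.congr_fun key x

variable {K F : Type} [Field K] [Field F] [Algebra K[X] F] [IsFractionRing K[X] F]
variable {L₀ F' E' : Type} [Field L₀] [Field F'] [Field E'] [Algebra K L₀] [FiniteDimensional K L₀]
  [Algebra.IsSeparable K L₀] [Algebra L₀[X] F'] [IsFractionRing L₀[X] F'] [Algebra F' E']
  [FiniteDimensional F' E'] [IsGalois F' E'] {ι' : E' →+* Ls L₀}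

variable (K F) in
theorem exists_clo1 (hι : ∀ p, ι' (toF L₀[X] F' E' p) = tL L₀ p) :
    ∃ (L : Type) (_ : Field L) (_ : Algebra K L) (_ : FiniteDimensional K L) (_ : IsGalois K L)
      (N : Type) (_ : Field N) (_ : Algebra F N) (_ : FiniteDimensional F N) (_ : IsGalois F N)
      (d : SecD 1 K L F N) (e : L₀ →ₐ[K] L) (m : E' →+* N), Cl ι' d e m := by
  obtain ⟨L, _, _, _, _, _, _, -⟩ := exists_gc K L₀
  have hinj : Function.Injective ((tL L).comp (Polynomial.mapRingHom (algebraMap K L))) :=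
    tL_injective.comp (Polynomial.map_injective _ (algebraMap K L).injective)
  let : Algebra F (Ls L) := (IsFractionRing.lift (K := F) hinj).toAlgebra
  obtain ⟨N, _, _, _, _, d, m, h1, h2⟩ := clo1_main (K := K) (F := F)
    (fun p => IsFractionRing.lift_algebraMap hinj p) ι' hι (algebraMap L₀ L)
  exact ⟨L, _, _, inferInstance, inferInstance, N, _, _, inferInstance, inferInstance, d,
    IsScalarTower.toAlgHom K L₀ L, m, h1, fun g hg => h2 g (mem_fixS_range.1 hg)⟩

variable {L N : Type} [Field L] [Field N] [Algebra K L] [FiniteDimensional K L] [IsGalois K L]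
  [Algebra F N] [FiniteDimensional F N] [IsGalois F N] {d : SecD 1 K L F N} {e : L₀ →ₐ[K] L}
  {m : E' →+* N}

theorem Cl.φ (h : Cl ι' d e m) (hι : ∀ p, ι' (toF L₀[X] F' E' p) = tL L₀ p) (p : L₀[X]) :
    m (toF L₀[X] F' E' p) = d.φ (p.map (e : L₀ →+* L)) :=
  d.ι.injective (by rw [h.hm, hι, lm_tM, d.ι_φ])

theorem Cl.clo1_fix (h : Cl ι' d e m) (hι : ∀ p, ι' (toF L₀[X] F' E' p) = tL L₀ p)
    {g : N ≃ₐ[F] N} (hg : g ∈ geo d) (a : F') :
    g (m (algebraMap F' E' a)) = m (algebraMap F' E' a) :=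
  RingHom.congr_fun (f := (g : N →+* N).comp (m.comp (algebraMap F' E')))
    (g := m.comp (algebraMap F' E')) (IsFractionRing.ringHom_ext (A := L₀[X]) fun p => by
      change g (m (toF L₀[X] F' E' p)) = m (toF L₀[X] F' E' p)
      rw [h.φ hι, geo_φ d hg]) a

theorem Cl.restr (h : Cl ι' d e m) (hι : ∀ p, ι' (toF L₀[X] F' E' p) = tL L₀ p) {g : N ≃ₐ[F] N}
    (hg : g ∈ geo d) : ∃ g' : E' ≃ₐ[F'] E', ∀ z, m (g' z) = g (m z) :=
  exists_restrict m (g : N →+* N) (h.clo1_fix hι hg)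

theorem clo1_φ {π : (N ≃ₐ[F] N) →* (L ≃ₐ[K] L)} {σ : (L ≃ₐ[K] L) →* (N ≃ₐ[F] N)}
    (hs : d.Spl π σ) (h : N ≃ₐ[F] N) (q : L[X]) :
    h (d.φ q) = d.φ (q.map (π h : L →+* L)) :=
  RingHom.congr_fun (f := (h : N →+* N).comp d.φ)
    (g := d.φ.comp (Polynomial.mapRingHom (π h : L →+* L)))
    (Polynomial.ringHom_ext (fun a => by simp [SecD.φ, hs.hπ]) (by simp [SecD.φ])) q

theorem Cl.sc (h : Cl ι' d e m) {hι : ∀ p, ι' (toF L₀[X] F' E' p) = tL L₀ p} {l : ℕ} {T : Type}
    [Field T] [Algebra F T] [FiniteDimensional F T] [IsGalois F T] {Th : K[X]} {j : T →+* E'}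
    (hs : SC l F Th (dg F' ι' hι) (algebraMap K L₀) j) :
    SC l F Th d (algebraMap K L) (m.comp j) := by
  obtain ⟨π, σ, hπ⟩ := d.exists_spl
  have hn : (geo d).Normal := ker_eq_geo d hπ ▸ π.normal_ker
  have h0 : ∀ p : K[X], m (toF L₀[X] F' E' (p.map (algebraMap K L₀))) = toF K[X] F N p :=
    fun p => by rw [h.φ hι, Polynomial.map_map, e.comp_algebraMap, d.φ_map]
  have hj : ∀ p, m.comp j (toF K[X] F T p) = toF K[X] F N p := fun p => by
    rw [RingHom.comp_apply, hs.hj, dg_φ, h0]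
  refine ⟨fun p => (hj p).trans (d.φ_map p).symm, lxt_iff.2 fun g hg => ?_, fun P w _ hd hc => ?_⟩
  · obtain ⟨h1, h2⟩ := mem_fixS_union.1 hg
    replace h2 : g ∈ geo d := mem_fixS_range.2 h2
    have key : ∀ s : N ≃ₐ[F] N, ∃ n : ℕ, ∀ z, ((s⁻¹ * g * s) ^ l ^ n) (m z) = m z := fun s => by
      obtain ⟨s₀, h3⟩ := exists_restrict (K := F) (m.comp j) (s : N →+* N) (RingHom.congr_fun
        (f := (s : N →+* N).comp ((m.comp j).comp (algebraMap F T)))
        (g := (m.comp j).comp (algebraMap F T))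
        (IsFractionRing.ringHom_ext (A := K[X]) fun p => by
          change s (m.comp j (toF K[X] F T p)) = m.comp j (toF K[X] F T p)
          rw [hj]
          exact s.commutes _))
      obtain ⟨g', hg'⟩ := h.restr hι (hn.conj_mem' g h2 s)
      obtain ⟨n, h4⟩ := lxt_iff.1 hs.lxt g' (mem_fixS_union.2 ⟨fun x => m.injective (by
        rw [hg', AlgEquiv.mul_apply, AlgEquiv.mul_apply]
        exact (congrArg (fun y => s⁻¹ (g y)) (h3 x).symm).trans
          ((congrArg _ ((h1 _).trans (h3 x))).trans (s.symm_apply_apply _))),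
        fun a => g'.commutes _⟩)
      have h5 : ∀ (k : ℕ) z, ((s⁻¹ * g * s) ^ k) (m z) = m ((g' ^ k) z) := fun k => by
        induction k with
        | zero => exact fun _ => rfl
        | succ k ih => exact fun z => by rw [pow_succ, pow_succ, AlgEquiv.mul_apply, ← hg', ih]; rfl
      exact ⟨n, fun z => by rw [h5, h4]; rfl⟩
    choose n h6 using key
    obtain ⟨M, hM⟩ := (Set.finite_range n).bddAbove
    refine ⟨M, h.gen _ (pow_mem h2 _) fun s z => ?_⟩
    obtain ⟨k, hk⟩ := Nat.exists_eq_add_of_le (hM ⟨s, rfl⟩)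
    have h7 : (s⁻¹ * g * s) ^ l ^ M ∈ fixS F (Set.range m) := by
      rw [hk, pow_add, pow_mul]
      exact pow_mem (mem_fixS_range.2 (h6 s)) _
    have h8 := congrArg s (mem_fixS_range.1 h7 z)
    have h9 := conj_pow (i := l ^ M) (a := s⁻¹) (b := g)
    rw [inv_inv] at h9
    rw [h9] at h8
    exact (s.apply_symm_apply _).symm.trans h8
  · refine eq_bot_iff.2 fun g hg => h.gen g hg.2 fun s z => ?_
    have hJ : ∀ p, ((s : N →+* N).comp m) ((dg F' ι' hι).φ p) =
        d.φ ((p.map (e : L₀ →+* L)).map (π s : L →+* L)) := fun p => by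
      rw [RingHom.comp_apply, dg_φ, h.φ hι, ← clo1_φ hπ]
      rfl
    refine fix_of_ine (K := F') ((s : N →+* N).comp m) (g : N ≃+* N) (fun a => ?_) w hg.1.1 hg.1.2
      ?_ z
    · exact (s.apply_symm_apply _).symm.trans
        (congrArg s (h.clo1_fix hι (hn.conj_mem' g hg.2 s) a))
    · rw [← inf_top_eq (Ine F' _), ← geo_dg ι' hι]
      refine hs.unr.ine (fun p => ?_) ?_
      · rw [Valuation.comap_apply, hJ]
        exact hc.1 _
      · rw [Valuation.comap_apply, RingHom.comp_apply, dg_φ, h0, ← cen1_one hc hd, d.φ_map]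
        exact congrArg w (s.commutes _)

theorem Cl.clo1_bc (h : Cl ι' d e m) (hι : ∀ p, ι' (toF L₀[X] F' E' p) = tL L₀ p)
    (h1 : ∀ g ∈ geo d, (∀ z, g (m z) = m z) → g = 1) [Algebra (Fr L[X]) N]
    (hφ : toF L[X] (Fr L[X]) N = d.φ) :
    ∃ b : Bc (dg F' ι' hι) (e : L₀ →+* L) (Fr L[X]) N, b.j = m ∧ b.ι = d.ι := by
  obtain ⟨u, hu⟩ := geo_iso d hφ
  exact ⟨⟨m, d.ι, fun p => by rw [hφ, d.ι_φ], h.hm, fun g hg => AlgEquiv.ext fun x => by
    rw [← hu, h1 _ (u g).2 fun z => (hu g _).trans (hg z)]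
    rfl⟩, rfl, rfl⟩

/-- if `N` is the compositum of `E'` and `L`, expansions over `L₀` come from `E'` -/
theorem Cl.mem (h : Cl ι' d e m) (hι : ∀ p, ι' (toF L₀[X] F' E' p) = tL L₀ p)
    (h1 : ∀ g ∈ geo d, (∀ z, g (m z) = m z) → g = 1) {x : N}
    (hx : d.ι x ∈ (lm (e : L₀ →+* L)).range) : x ∈ m.range := by
  obtain ⟨_, _, _, hφ⟩ := exists_geo d (Fr L[X])
  obtain ⟨b, rfl, h2⟩ := h.clo1_bc hι h1 hφ
  exact b.mem (h2 ▸ hx)

theorem Cl.ext (h : Cl ι' d e m) (hι : ∀ p, ι' (toF L₀[X] F' E' p) = tL L₀ p)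
    (h1 : ∀ g ∈ geo d, (∀ z, g (m z) = m z) → g = 1) (g' : E' ≃ₐ[F'] E') :
    ∃ g ∈ geo d, ∀ z, g (m z) = m (g' z) := by
  obtain ⟨_, _, _, hφ⟩ := exists_geo d (Fr L[X])
  obtain ⟨b, rfl, -⟩ := h.clo1_bc hι h1 hφ
  obtain ⟨u, hu⟩ := geo_iso d hφ
  obtain ⟨g, hg⟩ := b.ext (g := g') (geo_dg ι' hι ▸ Subgroup.mem_top g')
  exact ⟨u g, (u g).2, fun z => (hu g _).trans (hg z)⟩

end Pool.Agent.ZFy.ZL
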