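import Pool.Agent.Lib.MP_751085_ag.ZF.Z.LocA
import Pool.Agent.Lib.MP_751085_ag.ZF.Z.Misc1
import Pool.Agent.Lib.MP_751085_ag.ZC.V.HarB
import Pool.Agent.Lib.MP_751085_ag.ZC.V.Dec
import Pool.Agent.Lib.MP_751085_ag.ZC.V.Hen

/-! The decomposition group along a section. -/

namespace Pool.Agent.ZFy.ZL

open Pool.Agent.ZCy
open scoped Classical WithZero Polynomial

set_option linter.unusedSectionVars false

theorem dcmp_fix {K E S : Type} [Field K] [Field E] [Field S] [Algebra K E] {J : E →+* S} {V : Vl S}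
    {g : E ≃ₐ[K] E} (hg : g ∈ Dec K (V.comap J)) {x : E} {A B : S} (hB : B ≠ 0) (h : J x * B = A)
    (hA : Dns (J.comp (algebraMap K E)) V A) (hB' : Dns (J.comp (algebraMap K E)) V B) :
    g x = x := by
  by_contra hne
  have x0 : V (J x) ≠ 0 := (map_ne_zero V).2 ((map_ne_zero J).2 fun e => hne (by rw [e, map_zero]))
  have b0 : V B ≠ 0 := (map_ne_zero V).2 hB
  have c0 : V (J (g x - x)) * V B ≠ 0 :=
    mul_ne_zero ((map_ne_zero V).2 ((map_ne_zero J).2 (sub_ne_zero.2 hne))) b0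
  obtain ⟨a, ha⟩ := hA.exists_lt c0
  obtain ⟨b, hb⟩ := hB'.exists_lt (lt_min (zero_lt_iff.2 b0)
    (zero_lt_iff.2 (div_ne_zero c0 x0))).ne'
  rw [lt_min_iff, lt_div_iff₀ (zero_lt_iff.2 x0), ← map_mul] at hb
  have h1 : V (J (x * algebraMap K E b - algebraMap K E a)) < V (J (g x - x)) * V B := by
    rw [show J (x * algebraMap K E b - algebraMap K E a) = A - J.comp (algebraMap K E) a -
      (B - J.comp (algebraMap K E) b) * J x by
        simp only [map_sub, map_mul, ← h, RingHom.comp_apply]; ring]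
    exact V.map_sub_lt ha hb.2
  have h2 := V.map_sub_lt ((hg _).trans_lt h1) h1
  rw [← map_sub, show (g (x * algebraMap K E b - algebraMap K E a) -
    (x * algebraMap K E b - algebraMap K E a)) = (g x - x) * algebraMap K E b by
      simp only [map_sub, map_mul, AlgEquiv.commutes]; ring, map_mul, map_mul,
    show V (J (algebraMap K E b)) = V B from
      V.map_eq_of_sub_lt ((V.map_sub_swap _ _).trans_lt hb.1)] at h2
  exact lt_irrefl _ h2

theorem dcmp_lid {κ : Type} [Field κ] (s : κ →+* κ) :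
    (lm s).comp (lid κ) = (lid κ).comp (PowerSeries.map s) := by
  ext f j
  simp only [RingHom.comp_apply, lm_coeff, lau, PowerSeries.map_id, PowerSeries.coeff_coe, id]
  split_ifs <;> simp

variable {κ FK ER S : Type} [Field κ] [Field FK] [Field ER] [Field S] [Algebra (Ls κ)[X] FK]
  [IsFractionRing (Ls κ)[X] FK] [Algebra FK ER] [FiniteDimensional FK ER] [IsGalois FK ER]
  {β : Ps (Ps κ) →+* S} (Φ : Flag β) {e : ℕ} {ε : Ps (Ps κ)} {t : Ps κ} {J : ER →+* S}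

theorem dcmp_base (hβ : IsFr β) (he : 0 < e) (hε : IsUnit ε)
    (hJ : ∀ p : (Ps κ)[X], J (toF (Ls κ)[X] FK ER (p.map (lid κ))) =
      β (p.eval₂ PowerSeries.C (PowerSeries.C t + PowerSeries.X ^ e * ε))) :
    ∃ (φ : Ps (Ps κ) →+* Ps (Ps κ)) (S' : Type) (_ : Field S') (_ : Algebra (Fr (Ps (Ps κ))) S')
      (_ : FiniteDimensional (Fr (Ps (Ps κ))) S') (_ : IsGalois (Fr (Ps (Ps κ))) S')
      (i : S' →+* S) (ψ : FK →+* Fr (Ps (Ps κ))) (j : ER →+* S')
      (r : (S' ≃ₐ[Fr (Ps (Ps κ))] S') →* (ER ≃ₐ[FK] ER)),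
      Sbz e ε φ ∧ (∀ a, i (toF (Ps (Ps κ)) (Fr (Ps (Ps κ))) S' a) = β (φ a)) ∧
      (∀ p : (Ps κ)[X], ψ (algebraMap (Ls κ)[X] FK (p.map (lid κ))) =
        algebraMap _ _ (sbs (RingHom.id _) t 1 p)) ∧ i.comp j = J ∧ Sq ψ j ∧ Rs j r ∧
      ∀ T : Subfield S', (∀ a, algebraMap (Fr (Ps (Ps κ))) S' a ∈ T) → (∀ x, j x ∈ T) →
        ∀ z, z ∈ T := by
  obtain ⟨φ, hφ⟩ := exists_sbz he hε
  obtain ⟨lam, h1⟩ := (isFr_alg (Ps (Ps κ)) (Fr (Ps (Ps κ)))).exists_lift (β := β.comp φ)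
    (hβ.1.comp hφ.injective)
  have hα := (isFr_lid κ).poly (isFr_alg (Ls κ)[X] FK)
  obtain ⟨ψ, h2⟩ := hα.exists_lift
    (β := (algebraMap _ (Fr (Ps (Ps κ)))).comp (sbs (RingHom.id _) t 1))
    ((IsFractionRing.injective _ _).comp (sbs_inj (fun _ _ h => h) t one_ne_zero))
  let := lam.toAlgebra
  obtain ⟨_, _, j, r, e1, e2, e3, -⟩ := bc_in (K' := Fr (Ps (Ps κ))) (φ := ψ) (j := J)
    (RingHom.congr_fun (hα.hom_ext (φ := J.comp (algebraMap FK ER)) (φ' := lam.comp ψ) fun p =>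
      (hJ p).trans (by
        rw [RingHom.comp_apply lam, h2, RingHom.comp_apply, h1, RingHom.comp_apply, ← hφ.poly, sbs,
          pow_one]
        rfl)))
  refine ⟨φ, _, _, _, ‹_›, ‹_›, algebraMap _ S, ψ, j, r, hφ, h1, h2, RingHom.ext e1, e2, e3,
    fun T t1 t2 ⟨z, hz⟩ => ?_⟩
  induction hz using IntermediateField.adjoin_induction with
  | mem x hx =>
    obtain ⟨x, rfl⟩ := hx
    exact (Subtype.ext (e1 x) : j x = ⟨_, _⟩) ▸ t2 x
  | algebraMap x => exact t1 x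
  | add x y hx hy h h' => exact add_mem h h'
  | inv x hx h => exact inv_mem h
  | mul x y hx hy h h' => exact mul_mem h h'

theorem Flag.of_dec (hβ : IsFr β) (he : 0 < e) (hε : IsUnit ε)
    (hJ : ∀ p : (Ps κ)[X], J (toF (Ls κ)[X] FK ER (p.map (lid κ))) =
      β (p.eval₂ PowerSeries.C (PowerSeries.C t + PowerSeries.X ^ e * ε)))
    {g : ER ≃ₐ[FK] ER} (hg : g ∈ Dec FK (Φ.Vs.comap J)) :
    Φ.LA J (g : ER →+* ER) (RingHom.id κ) := by
  obtain ⟨φ, S', _, _, _, _, i, ψ, j, r, hφ, h1, h2, rfl, e2, e3, -⟩ := dcmp_base hβ he hε hJ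
  have hd : ∀ f, Dns ((i.comp j).comp (algebraMap FK ER)) Φ.Vs (β (φ f)) := fun f n => by
    refine ⟨algebraMap (Ls κ)[X] FK ((Polynomial.taylor (-t) (f.trunc n)).map (lid κ)), ?_⟩
    have hX : Φ.Vs (β (φ PowerSeries.X)) ≤ WithZero.exp (-1) := (lt_one_iff_le_exp _).1
      ((Φ.cs.2 _).2 (hφ.X ▸ (dvd_pow_self _ he.ne').mul_right ε))
    rw [RingHom.comp_apply, RingHom.comp_apply, e2, h2, ← RingHom.comp_apply (algebraMap _ S'), h1,
      sbs_eq, Polynomial.map_id, Polynomial.taylor_taylor,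
      add_neg_cancel, Polynomial.taylor_zero, Polynomial.expand_one, ← map_sub, ← map_sub,
      sub_eq_of_eq_add (f.eq_X_pow_mul_shift_add_trunc n), map_mul, map_mul, map_mul, map_pow,
      map_pow, map_pow]
    refine (mul_le_of_le_one_right' (Φ.cs.1 _)).trans ((pow_le_pow_left' hX n).trans_eq ?_)
    rw [← WithZero.exp_nsmul]
    simp
  have h4 : g ∈ (IntermediateField.fixedField r.range).fixingSubgroup :=
    (IntermediateField.mem_fixingSubgroup_iff _ _).2 fun x hx => by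
      obtain ⟨y, hy⟩ := mem_range_of_fix (K := Fr (Ps (Ps κ))) (x := j x) fun γ => by
        rw [← e3, (IntermediateField.mem_fixedField_iff _ _).1 hx _ ⟨γ, rfl⟩]
      obtain ⟨a, b, hb, hab⟩ := (isFr_alg (Ps (Ps κ)) (Fr (Ps (Ps κ)))).2 y
      refine dcmp_fix hg (hβ.vfrc_ne ((map_ne_zero_iff φ hφ.injective).2 hb)) ?_ (hd a) (hd b)
      rw [RingHom.comp_apply, ← hy, ← h1, ← h1, RingHom.comp_apply, RingHom.comp_apply, ← hab,
        map_mul, map_mul]
  rw [IntermediateField.fixingSubgroup_fixedField] at h4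
  obtain ⟨γ, rfl⟩ := h4
  refine Flag.LA.comp Φ (Φ.la (u := (γ : S' →+* S')) hβ hφ h1 fun a => ?_) (e3 γ)
  rw [show PowerSeries.map (PowerSeries.map (RingHom.id κ)) a = a by ext; simp]
  exact γ.commutes _

theorem Flag.of_semi (hβ : IsFr β) (he : 0 < e) (hε : IsUnit ε)
    (hJ : ∀ p : (Ps κ)[X], J (toF (Ls κ)[X] FK ER (p.map (lid κ))) =
      β (p.eval₂ PowerSeries.C (PowerSeries.C t + PowerSeries.X ^ e * ε)))
    (s : κ ≃+* κ) (ht : PowerSeries.map (s : κ →+* κ) t = t) (s' : ER →+* ER)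
    (hs : ∀ p, s' (toF (Ls κ)[X] FK ER p) = toF (Ls κ)[X] FK ER (p.map (lm (s : κ →+* κ)))) :
    ∃ g : ER ≃ₐ[FK] ER, Φ.LA J (s'.comp (g : ER →+* ER)) (s : κ →+* κ) := by
  obtain ⟨φ, S', _, _, _, _, i, ψ, j, r, hφ, h1, h2, rfl, e2, -, e4⟩ := dcmp_base hβ he hε hJ
  let ι := algebraMap S' (AlgebraicClosure S')
  let m : Ps κ →+* Ps κ := PowerSeries.map (s : κ →+* κ)
  obtain ⟨s₀, h4⟩ := (isFr_alg (Ps (Ps κ)) (Fr (Ps (Ps κ)))).exists_lift
    (β := (algebraMap _ (Fr (Ps (Ps κ)))).comp (PowerSeries.map m))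
    ((IsFractionRing.injective _ _).comp
      (PowerSeries.map_injective _ (PowerSeries.map_injective _ s.injective)))
  obtain ⟨u, hu⟩ := exists_emb (E := S') (ι.comp ((algebraMap _ S').comp s₀))
  have h5 : (PowerSeries.map m).comp (sbs (RingHom.id _) t 1) =
      (sbs (RingHom.id _) t 1).comp (Polynomial.mapRingHom m) :=
    Polynomial.ringHom_ext (fun a => by simp [sbs]) (by simp [sbs, m, ht])
  obtain ⟨g, hg⟩ := exists_twist (K := FK) (ι.comp (j.comp s')) (u.comp j) (RingHom.congr_fun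
    (((isFr_lid κ).poly (isFr_alg (Ls κ)[X] FK)).hom_ext (φ := (u.comp j).comp (algebraMap FK ER))
      (φ' := (ι.comp (j.comp s')).comp (algebraMap FK ER)) fun p => by
        have h6 := hs (p.map (lid κ))
        simp only [RingHom.comp_apply, Polynomial.coe_mapRingHom] at h6 ⊢
        rw [e2, hu, h2, h6, e2, Polynomial.map_map, dcmp_lid, ← Polynomial.map_map, h2]
        exact congrArg (fun z => ι (algebraMap _ S' z))
          ((h4 _).trans (congrArg (algebraMap (Ps (Ps κ)) _) (RingHom.congr_fun h5 p)))))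
  obtain ⟨u', hu'⟩ := ring_factor u ι ι.injective
    (e4 (ι.fieldRange.comap u) (fun a => ⟨_, (hu a).symm⟩) fun x => ⟨_, (hg x).symm⟩)
  exact ⟨g, Flag.LA.comp Φ (Φ.la (u := u') hβ hφ h1 fun a => ι.injective ((hu' _).trans
    ((hu _).trans (congrArg (fun z => ι (algebraMap _ S' z)) (h4 a)))))
      fun x => ι.injective ((hg x).symm.trans (hu' _).symm)⟩

end Pool.Agent.ZFy.ZL
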