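import Pool.Agent.Lib.MP_751085_ag.ZF.Z.IneA
import Pool.Agent.Lib.MP_751085_ag.ZF.Z.Misc2

/-! Inertia elements fix the places of the base change. -/

namespace Pool.Agent.ZFy.ZL

open Pool.Agent.ZCy
open scoped Classical WithZero Polynomial

set_option linter.unusedSectionVars false

variable {K L F N : Type} [Field K] [Field L] [Field F] [Field N] [Algebra K L] [Algebra K[X] F]
  [IsFractionRing K[X] F] [Algebra F N] [FiniteDimensional F N] [IsGalois F N]
variable {M F' N' : Type} [Field M] [Field F'] [Field N'] [Algebra M[X] F'] [IsFractionRing M[X] F']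
  [Algebra F' N'] [FiniteDimensional F' N'] [IsGalois F' N'] {d : SecD 1 K L F N} {γ : L →+* M}

theorem inef_max {L M N N' ι : Type} [Field L] [Field M] [Field N] [Field N'] [Algebra L M]
    {c₀ : L →+* N} {c : M →+* N'} {j : N →+* N'} (h0 : ∀ a, j (c₀ a) = c (algebraMap L M a))
    {Ξ : Vl N'} (h1 : ∀ a, Ξ (c a) ≤ 1) (h2 : ∀ z, Ξ (j z) ≤ 1 → ∃ a, Ξ (j (z - c₀ a)) < 1)
    {m : ι → M} (hm : LinearIndependent L m) (s : Finset ι) (x : ι → N) (i : ι) (hi : i ∈ s) :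
    Ξ (j (x i)) ≤ Ξ (∑ i ∈ s, j (x i) * c (m i)) := by
  obtain ⟨k, hk, h3⟩ := s.exists_max_image (fun i => Ξ (j (x i))) ⟨i, hi⟩
  refine (h3 i hi).trans ?_
  rcases eq_or_ne (x k) 0 with e | h4
  · simp [e]
  choose! a ha using fun i (hi : i ∈ s) => h2 (x i / x k) (by
    rw [map_div₀, map_div₀]; exact div_le_one_of_le₀ (h3 i hi) zero_le)
  have h5 : ∑ i ∈ s, a i • m i ≠ 0 := fun e => by
    simpa [linearIndependent_iff'.1 hm s a e k hk, h4] using ha k hk
  have h6 : Ξ (c (∑ i ∈ s, a i • m i)) = 1 := le_antisymm (h1 _) (by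
    have := h1 (∑ i ∈ s, a i • m i)⁻¹
    rwa [map_inv₀, map_inv₀, inv_le_one₀ (Ξ.pos_iff.2 ((map_ne_zero c).2 h5))] at this)
  have h7 : Ξ (∑ i ∈ s, j (x i / x k) * c (m i)) = 1 := (Ξ.map_eq_of_sub_lt (by
    rw [h6, map_sum, ← Finset.sum_sub_distrib]
    refine Ξ.map_sum_lt one_ne_zero fun i hi => ?_
    rw [Algebra.smul_def, map_mul, ← h0, ← sub_mul, ← map_sub, map_mul]
    exact (mul_le_of_le_one_right' (h1 _)).trans_lt (ha i hi))).trans h6
  simp only [map_div₀, div_mul_eq_mul_div, ← Finset.sum_div] at h7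
  exact (eq_of_div_eq_one h7).ge

theorem Bc.dec_rat (b : Bc d γ F' N') {Ξ : Vl N'}
    (h1 : ∀ a, Ξ (toF M[X] F' N' (Polynomial.C a)) ≤ 1)
    (h2 : ∀ z, Ξ (b.j z) ≤ 1 → ∃ a, Ξ (b.j (z - d.c a)) < 1) {g : N ≃ₐ[F] N}
    (hg : g ∈ Dec F (Ξ.comap b.j)) {g' : N' ≃ₐ[F'] N'} (h : ∀ z, g' (b.j z) = b.j (g z)) :
    g' ∈ Dec F' Ξ := by
  let _ := γ.toAlgebra
  let _ := b.j.toAlgebra
  obtain ⟨c, hc⟩ : ∃ c : M →+* N', ∀ a, c a = toF M[X] F' N' (Polynomial.C a) :=
    ⟨(toF M[X] F' N').comp Polynomial.C, fun _ => rfl⟩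
  have h3 : ∀ a, b.j (d.c a) = c (algebraMap L M a) := fun a => by
    rw [← d.φ_C, b.hφ, Polynomial.map_C, hc]; rfl
  have h4 : ∀ a, Ξ (c a) ≤ 1 := fun a => hc a ▸ h1 a
  let B := Module.Basis.ofVectorSpace L M
  have key : ∀ a ∈ Algebra.adjoin N (Set.range c), Ξ (g' a) = Ξ a := fun a ha => by
    have h5 : a ∈ Submodule.span N (Set.range fun i => c (B i)) := by
      refine Submodule.span_le.2 (fun x hx => ?_) ((Algebra.adjoin_eq_span N (Set.range c)).le ha)
      obtain ⟨m, rfl⟩ := Submonoid.closure_le.2 (show Set.range c ⊆ MonoidHom.mrange c from le_rfl) hx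
      clear hx
      induction B.mem_span m using Submodule.span_induction with
      | mem _ h => obtain ⟨i, rfl⟩ := h; exact Submodule.subset_span ⟨i, rfl⟩
      | zero => rw [map_zero]; exact zero_mem _
      | add _ _ _ _ h h' => rw [map_add]; exact add_mem h h'
      | smul r _ _ h => rw [Algebra.smul_def, map_mul, ← h3]; exact Submodule.smul_mem _ (d.c r) h
    obtain ⟨x, rfl⟩ := Finsupp.mem_span_range_iff_exists_finsupp.1 h5
    have e : g' (∑ i ∈ x.support, b.j (x i) * c (B i)) = ∑ i ∈ x.support, b.j (g (x i)) * c (B i) := by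
      rw [map_sum]
      exact Finset.sum_congr rfl fun i _ => by
        rw [map_mul, h, hc]; exact congrArg _ (g'.commutes _)
    have h6 := fun y => inef_max h3 h4 h2 B.linearIndependent x.support y
    refine e.symm ▸ le_antisymm (Ξ.map_sum_le fun i hi => ?_) (Ξ.map_sum_le fun i hi => ?_)
    · exact (map_mul Ξ _ _).trans_le ((mul_le_of_le_one_right' (h4 _)).trans
        ((hg (x i)).trans_le (h6 x i hi)))
    · exact (map_mul Ξ _ _).trans_le ((mul_le_of_le_one_right' (h4 _)).trans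
        ((hg (x i)).symm.trans_le (h6 (fun i => g (x i)) i hi)))
  intro y
  have h5 : y ∈ (IntermediateField.adjoin N (Set.range c)).toSubfield := by
    refine Subfield.closure_le.2 ?_ (b.bc1_top ▸ Subfield.mem_top y :)
    rintro _ (⟨z, rfl⟩ | ⟨p, rfl⟩)
    · exact IntermediateField.algebraMap_mem _ z
    · induction p using Polynomial.induction_on' with
      | add p q hp hq => rw [map_add]; exact add_mem hp hq
      | monomial n a =>
        rw [← Polynomial.C_mul_X_pow_eq_monomial, map_mul, map_pow, ← hc, ← Polynomial.map_X γ, ← b.hφ]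
        exact mul_mem (IntermediateField.subset_adjoin N _ ⟨a, rfl⟩)
          (pow_mem (IntermediateField.algebraMap_mem _ _) n)
  obtain ⟨r, hr, s, hs, rfl⟩ := IntermediateField.mem_adjoin_iff_div.1 h5
  rw [map_div₀, map_div₀, map_div₀, key r hr, key s hs]

theorem Bc.ine_dec (b : Bc d γ F' N') {Ξ : Vl N'} {ρ : Ξ.integer →+* M} (hρ : IsRed Ξ ρ)
    (h1 : ∀ a, ∃ h, ρ ⟨toF M[X] F' N' (Polynomial.C a), h⟩ = a)
    (h2 : Ξ (toF M[X] F' N' Polynomial.X) ≤ 1) {P : L[X]} (hP : P ≠ 0) (h3 : Ξ (b.j (d.φ P)) < 1)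
    {g : N ≃ₐ[F] N} (hg : g ∈ Ine F (Ξ.comap b.j)) {g' : N' ≃ₐ[F'] N'}
    (h : ∀ z, g' (b.j z) = b.j (g z)) : g' ∈ Dec F' Ξ := by
  let _ := γ.toAlgebra
  obtain ⟨N₁, _, _, _, _, b₁, b₂, -, hj⟩ := b.tower (algebraMap L (algebraicClosure L M))
    (algebraMap _ M) (fun _ => rfl) (Fr (algebraicClosure L M)[X])
  obtain ⟨g₁, -, h4⟩ := b₂.restr g'
  have h5 : ∀ p, b₂.j (toF _ (Fr (algebraicClosure L M)[X]) N₁ p) =
      toF M[X] F' N' (Polynomial.map (algebraMap _ M) p) := fun p => dg_φ b₁.ι b₁.hι ▸ b₂.hφ p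
  have h6 : ∀ p, Ξ (toF M[X] F' N' p) ≤ 1 := fun p => by
    induction p using Polynomial.induction_on' with
    | add p q hp hq => rw [map_add]; exact Ξ.map_add_le hp hq
    | monomial n a =>
      rw [← Polynomial.C_mul_X_pow_eq_monomial, map_mul, map_mul, map_pow, map_pow]
      exact mul_le_one' (h1 a).1 (pow_le_one' h2 n)
  have h7 : ∀ p, Ξ.comap b₂.j (toF _ (Fr (algebraicClosure L M)[X]) N₁ p) ≤ 1 := fun p =>
    (congrArg Ξ (h5 p)).trans_le (h6 _)
  have h8 := b₁.ine_alg (fun a => Algebra.IsIntegral.isIntegral (R := L) a) (fun a => h7 _) (g := g)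
    ((Valuation.ext fun z => congrArg Ξ (hj z) : (Ξ.comap b₂.j).comap b₁.j = Ξ.comap b.j) ▸ hg)
    (g' := g₁) fun z => b₂.j.injective (by rw [h4, hj, hj, h])
  refine b₂.dec_rat (fun a => h6 _) (fun z hz => ?_) h8.1 fun z => (h4 z).symm
  obtain h9 | ⟨Q, hQ, h9⟩ := cen_poly h7 fun a ha => le_antisymm (h7 _) (by
    have := h7 (Polynomial.C a⁻¹)
    rwa [← RingHom.comp_apply, map_inv₀, map_inv₀, inv_le_one₀
      ((Valuation.pos_iff _).2 ((map_ne_zero _).2 ha))] at this)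
  · exact absurd ((congrArg Ξ (by rw [← hj, b₁.hφ])).trans (h9 _ (Polynomial.map_ne_zero hP))) h3.ne
  obtain ⟨μ, h0, hμ⟩ := exists_res_poly hQ h9 hz
  let β : M →+* Ξ.integer := ((toF M[X] F' N').comp Polynomial.C).codRestrict _ fun a => h6 _
  have e : ∀ a, b₂.j (toF _ (Fr (algebraicClosure L M)[X]) N₁ (Polynomial.C a)) =
      β (algebraMap _ M a) := fun a => (h5 _).trans (congrArg _ (Polynomial.map_C _))
  have e1 : ρ.comp (β.comp (algebraMap (algebraicClosure L M) M)) = algebraMap _ M :=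
    RingHom.ext fun a => (h1 _).2
  have e2 : IsAlgebraic (algebraicClosure L M) (ρ ⟨b₂.j z, hz⟩) := ⟨μ, h0, by
    refine ((congrArg (μ.eval₂ · _) e1.symm).trans (Polynomial.hom_eval₂ _ _ _ _).symm).trans
      ((hρ _).2 ?_)
    refine (congrArg Ξ ((Polynomial.hom_eval₂ _ _ Ξ.integer.subtype _).trans ?_)).trans_lt hμ
    rw [Polynomial.hom_eval₂]
    exact congrArg (μ.eval₂ · _) (RingHom.ext fun a => (e a).symm)⟩
  refine ⟨⟨_, mem_algebraicClosure_iff.2 (e2.restrictScalars L)⟩, ?_⟩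
  rw [map_sub]
  exact (congrArg (fun y => Ξ (b₂.j z - y)) (e _)).trans_lt
    ((hρ.eq_iff ⟨b₂.j z, hz⟩ _).1 (h1 _).2.symm)

end Pool.Agent.ZFy.ZL
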