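import Pool.Agent.Lib.MP_751085_ag.ZF.Z.Rf2
import Pool.Agent.Lib.MP_751085_ag.ZF.Z.LocE

/-! The action on the residue fields at the boundary. -/

namespace Pool.Agent.ZFy.ZL

open Pool.Agent.ZCy
open scoped Classical WithZero Polynomial

set_option linter.unusedSectionVars false

variable {l q : ℕ} {k A K F T N₁ : Type} [Field k] [CommRing A] [IsDomain A]
  [UniqueFactorizationMonoid A] [Field K] [Field F] [Field T] [Field N₁] [Algebra A K]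
  [IsFractionRing A K] [Algebra K[X] F] [IsFractionRing K[X] F] [Algebra F T]
  [FiniteDimensional F T] [IsGalois F T] [Algebra K N₁] [FiniteDimensional K N₁] [IsGalois K N₁]
  {c : k →+* A} {Th : A[X]} {Δ : A} {τ : T →+* Ls N₁}
variable {K₁ κ₀ κ₁ : Type} [Field K₁] [Field κ₀] [Field κ₁] [Algebra K K₁] [FiniteDimensional K K₁]
  [IsGalois K K₁] [Algebra κ₀ κ₁] [FiniteDimensional κ₀ κ₁] [IsGalois κ₀ κ₁]
  {H : Hy K c K₁ κ₀ κ₁}
variable {κ : Type} [Field κ] [IsAlgClosed κ]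
variable {E : Type} [Field E] [Algebra F E] [FiniteDimensional F E] [IsGalois F E]

theorem resf_int {B R Ω : Type} [CommRing B] [CommRing R] [Field Ω] {φ : B →+* Ω} {ρ : R →+* Ω}
    (h : ∀ b, φ b ∈ ρ.range) {x : Ω} (hx : φ.IsIntegralElem x) : ρ.IsIntegralElem x := by
  obtain ⟨p, hm, hp⟩ := hx
  obtain ⟨p', h1, -, h2⟩ := Polynomial.lifts_and_natDegree_eq_and_monic (f := ρ)
    ((Polynomial.lifts_iff_coeff_lifts _).2 fun n => by
      rw [Polynomial.coeff_map]; exact h _) (hm.map φ)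
  exact ⟨p', h2, by rw [Polynomial.eval₂_eq_eval_map, h1, ← Polynomial.eval₂_eq_eval_map, hp]⟩

theorem lm_lid {κ : Type} [Field κ] (s : κ →+* κ) (f : Ps κ) :
    lm s (lid κ f) = lid κ (PowerSeries.map s f) := by
  ext j
  cases j with
  | ofNat n => simp [lau]
  | negSucc n => simp [lau, PowerSeries.coeff_coe]

theorem resf_le {κ : Type} [Field κ] (s : κ →+* κ) {z : Ls κ} (h : lval κ z ≤ 1) :
    lval κ (lm s z) ≤ 1 := by
  obtain ⟨f, rfl⟩ := ((isVR_lval κ).2.2 z).1 h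
  exact ((isVR_lval κ).2.2 _).2 ⟨_, (lm_lid s f).symm⟩

theorem res_aut (C : Crt K F l q c Th Δ τ) (hy : ¬H.y ∣ Δ) (hI : INe K l c N₁ Δ H.y)
    (Λ : Loc H T N₁ F l q Th κ) {d : SecD 1 K K₁ F E} {j : T →+* E}
    (h : SC l F (Th.map (algebraMap A K)) d (algebraMap K K₁) j) {P : A[X]} (hP : Prime P)
    (hd : P ∣ Th) {Ξ : Vl E} (hc : Cen (pA A K F E) Ξ P) {ρ : Ξ.integer →+* Ls κ}
    (hρ : RO F Ξ (Λ.γ₁.comp (algebraMap K K₁)) ρ) {g : E ≃ₐ[F] E} (hg : g ∈ Dec F Ξ) :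
    ∃ s : κ ≃+* κ, (∀ b, s (Λ.f (algebraMap κ₀ κ₁ b)) = Λ.f (algebraMap κ₀ κ₁ b)) ∧
      ∀ x x' : Ξ.integer, (x' : E) = g x → ρ x' = lm (s : κ →+* κ) (ρ x) := by
  obtain ⟨N', _, _, _, _, ν, e₁, eK, h'⟩ := exists_rfd N₁ K₁ C.monic hP hd hc
  obtain ⟨ρ₂, hρ₂⟩ := exists_ro C.monic hP hd hc
  obtain ⟨hP', hc'⟩ := cen_K C.monic hP hd hc
  have hint : ∀ x, ρ₂.IsIntegralElem x := fun x => resf_int
    (fun a => ⟨⟨_, hc'.1 (Polynomial.C a)⟩, hρ₂.2 a _ rfl⟩) (Algebra.IsIntegral.isIntegral x)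
  let lam := algebraMap (Ls κ) (AlgebraicClosure (Ls κ))
  obtain ⟨θ, hθ⟩ := exists_red_ext hρ₂.1 (hρ.1.comp lam) hint
  have hθ' : ∀ a, θ (algebraMap K (AlgebraicClosure K) a) = lam (Λ.γ₁ (algebraMap K K₁ a)) :=
    fun a => (congrArg θ (hρ₂.2 a ⟨_, hc'.1 (Polynomial.C a)⟩ rfl).symm).trans
      ((hθ _).trans (congrArg lam (hρ.2 a _ rfl)))
  obtain ⟨γ', hγ'⟩ := h'.emb C.monic h hP hd hc (isVR_lval κ) Λ.gd Λ.spl Λ.γ₁ Λ.h₁ Λ.γN Λ.hN lam θ
    hθ'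
  have hov : Over (g : E →+* E) Ξ Ξ := mem_dec.1 hg
  obtain ⟨s₀, hs₀⟩ := exists_red_ext hρ₂.1 (hρ₂.1.comp_int hov) hint
  obtain ⟨δ, hδ⟩ := exists_restrict (K := K) (ν : N' →+* AlgebraicClosure K) s₀ fun a => by
    rw [RingHom.coe_coe, ν.commutes]
    exact (congrArg s₀ (hρ₂.2 a ⟨_, hc'.1 (Polynomial.C a)⟩ rfl).symm).trans
      ((hs₀ _).trans (hρ₂.2 a _ (g.commutes _)))
  have hA : ∀ a, γ' (toF A K N' a) = lid κ (Λ.η a) := fun a => lam.injective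
    ((hγ' _).trans ((congrArg θ (ν.commutes _)).trans ((hθ' _).trans (congrArg lam (Λ.h₁ a)))))
  have hw : Cen (toF A K N') ((lval κ).comap γ') H.y :=
    ⟨fun a => (congrArg (lval κ) (hA a)).trans_le (Λ.cen.1 a),
      fun a => (congrArg (lval κ · < 1) (hA a)).to_iff.trans (Λ.cen.2 a)⟩
  have hu := h'.unr C H.gen h hP hd hc
  have hD : δ ∈ Dec K ((lval κ).comap γ') :=
    hI N' e₁ hu (h'.lxt C H.gen h hP hd hc) _ hw ▸ Subgroup.mem_top δ
  obtain ⟨δ', hδ', hρ'⟩ := exists_ls_int γ'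
  have hi : ∀ (a : ((lval κ).comap γ').integer) (f : Ps κ), γ' a = lid κ f → δ' a = f :=
    fun a f hf => (isVR_lval κ).2.1 ((hδ' a).trans hf)
  have hη : ∀ a, cc κ (δ' ⟨_, hw.1 a⟩) = cc κ (Λ.η a) := fun a => congrArg _ (hi _ _ (hA a))
  have hov' : Over (δ : N' →+* N') _ _ := mem_dec.1 hD
  obtain ⟨s, hs⟩ := exists_red_ext hρ' (hρ'.comp_int hov') fun x => resf_int (fun b => by
    obtain ⟨a, a', h1, h2⟩ := H.frac b
    rw [(eq_mul_inv_iff_mul_eq₀ h1).2 h2, map_mul, map_inv₀]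
    exact mul_mem ⟨_, (hη a).trans (Λ.hcc a)⟩ (((hη a').trans (Λ.hcc a')) ▸ hρ'.inv_mem _))
    (Λ.alg x)
  have hs1 := Λ.fix₀ s fun a => (congrArg s (hη a).symm).trans ((hs _).trans
    ((congrArg ((cc κ).comp δ') (Subtype.ext (δ.commutes _))).trans (hη a)))
  obtain ⟨s', hs'⟩ := exists_equiv _ Λ.alg s hs1
  obtain rfl : s = s' := RingHom.ext fun x => (hs' x).symm
  obtain ⟨u, hu'⟩ := exists_twist (K := K) (γ'.comp (δ : N' →+* N')) ((lm (s' : κ →+* κ)).comp γ')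
    (RingHom.congr_fun (f := ((lm (s' : κ →+* κ)).comp γ').comp (algebraMap K N'))
      (g := (γ'.comp (δ : N' →+* N')).comp (algebraMap K N'))
      (IsLocalization.ringHom_ext (nonZeroDivisors A) (RingHom.ext fun a => by
        change lm _ (γ' (toF A K N' a)) = γ' (δ (algebraMap K N' _))
        rw [δ.commutes, hA, lm_lid, Λ.fix _ hs1]
        exact (hA a).symm)))
  have hD' : δ * u ∈ Dec K ((lval κ).comap γ') := mem_dec.2 fun x =>
    (congrArg (lval κ · ≤ 1) (hu' x)).to_iff.symm.trans ⟨fun h1 => by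
      have h2 := resf_le (s'.symm : κ →+* κ) h1
      rwa [show lm (s'.symm : κ →+* κ) (((lm (s' : κ →+* κ)).comp γ') x) = γ' x from by
        ext i; exact s'.symm_apply_apply _] at h2, resf_le _⟩
  obtain rfl : u = 1 := (hu _ _ H.prime hy hw).le (show u ∈ Ine K ((lval κ).comap γ') from
    ⟨inv_mul_cancel_left δ u ▸ mul_mem (inv_mem hD) hD', fun x hx => by
      rw [← hD, map_sub]
      refine (hρ'.eq_iff ⟨_, (hD' x).trans_le hx⟩ ⟨_, (hD x).trans_le hx⟩).1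
        (Eq.trans ?_ (hs ⟨x, hx⟩))
      rw [RingHom.comp_apply, hi _ _ ((hu' x).symm.trans
        ((congrArg (lm _) (hδ' ⟨x, hx⟩).symm).trans (lm_lid _ _)))]
      rfl⟩)
  refine ⟨s', hs1, fun x x' hx => ?_⟩
  obtain ⟨μ, h0, hμ⟩ := exists_res_poly hP' hc' x.2
  obtain ⟨r, hr⟩ := exists_pow_sep h0
  let φ : K →+* Ξ.integer := ((toF K[X] F E).comp Polynomial.C).codRestrict _ fun a => hc'.1 _
  have h1 : Polynomial.aeval (ρ₂ x) μ = 0 := by
    rw [Polynomial.aeval_def, ← show ρ₂.comp φ = _ from RingHom.ext fun a => hρ₂.2 a _ rfl,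
      ← Polynomial.hom_eval₂, hρ₂.1]
    exact (congrArg Ξ (Polynomial.hom_eval₂ μ φ Ξ.integer.subtype x)).trans_lt hμ
  obtain ⟨a, ha⟩ := h'.mem ρ₂ hρ₂ (x ^ ringExpChar K ^ r) (by rw [map_pow]; exact hr _ _ h1)
  have h2 : γ' a = ρ x ^ ringExpChar K ^ r := lam.injective
    ((hγ' a).trans ((congrArg θ ha).trans ((hθ _).trans (congrArg lam (map_pow _ _ _)))))
  have h3 : γ' (δ a) = ρ x' ^ ringExpChar K ^ r := lam.injective ((hγ' _).trans
    ((congrArg θ ((hδ a).trans ((congrArg s₀ ha).trans (hs₀ _)))).trans ((hθ _).trans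
      (congrArg lam (by rw [map_pow, map_pow, show x' = hov.int x from Subtype.ext hx])))))
  refine pow_inj (Λ.γ₁.comp (algebraMap K K₁)) r ?_
  rw [← h3, ← map_pow, ← h2]
  exact (hu' a).symm

end Pool.Agent.ZFy.ZL
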