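import Pool.Agent.Lib.MP_751085_ag.ZF.Z.DL1
import Pool.Agent.Lib.MP_751085_ag.ZF.Z.Dcmp
import Pool.Agent.Lib.MP_751085_ag.ZF.Z.IneF
import Pool.Agent.Lib.MP_751085_ag.ZF.Z.ResF

/-! The local groups at the boundary specialise. -/

namespace Pool.Agent.ZFy.ZL

open Pool.Agent.ZCy
open scoped Classical WithZero Polynomial

set_option linter.unusedSectionVars false

variable {l q : ℕ} {k A K F T N₁ : Type} [Field k] [CommRing A] [IsDomain A]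
  [UniqueFactorizationMonoid A] [Field K] [Field F] [Field T] [Field N₁] [Algebra A K]
  [IsFractionRing A K] [Algebra K[X] F] [IsFractionRing K[X] F] [Algebra F T]
  [FiniteDimensional F T] [IsGalois F T] [Algebra K N₁] [FiniteDimensional K N₁] [IsGalois K N₁]
  {c : k →+* A} {Th : A[X]} {Δ : A} {τ : T →+* Ls N₁}
variable {K₁ κ₀ κ₁ : Type} [Field K₁] [Field κ₀] [Field κ₁] [Algebra K K₁] [FiniteDimensional K K₁]
  [IsGalois K K₁] [Algebra κ₀ κ₁] [FiniteDimensional κ₀ κ₁] [IsGalois κ₀ κ₁]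
  {H : Hy K c K₁ κ₀ κ₁}
variable {F₀ E₀ : Type} [Field F₀] [Field E₀] [Algebra κ₀[X] F₀] [IsFractionRing κ₀[X] F₀]
  [Algebra F₀ E₀] [FiniteDimensional F₀ E₀] [IsGalois F₀ E₀] {d₀ : SecD 1 κ₀ κ₁ F₀ E₀} {wT : Vl T}
  {ρT : wT.integer →+* E₀}
variable {E : Type} [Field E] [Algebra F E] [FiniteDimensional F E] [IsGalois F E]

theorem dl_lm {κ : Type} [Field κ] (s : κ →+* κ) (f : Ps κ) :
    lm s (lid κ f) = lid κ (PowerSeries.map s f) := by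
  ext j
  cases j with
  | ofNat n => simp [lau]
  | negSucc n => simp [lau, PowerSeries.coeff_coe]

theorem dl_c {K₁ : Type} [Field K₁] [Algebra K K₁] (d : SecD 1 K K₁ F E) (a : K) :
    d.c (algebraMap K K₁ a) = toF K[X] F E (Polynomial.C a) := by
  rw [← d.φ_C, ← Polynomial.map_C, d.φ_map]

theorem dl (C : Crt K F l q c Th Δ τ) (hy : ¬H.y ∣ Δ) (hI : INe K l c N₁ Δ H.y)
    (Z : Res H F l Th F₀ (E₀ := E₀) T E) : Z.DL := by
  intro P Ξ hP hd hc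
  obtain ⟨κ, _, _, ⟨Λ⟩⟩ := exists_loc C H hy
  obtain ⟨ER, _, _, _, _, ⟨b⟩⟩ := exists_bcd Z.d Λ.γ₁ (Fr (Ls κ)[X])
  obtain ⟨v, -, -⟩ := b.cov Z.sc (β := (lid κ).comp Λ.η) fun a => Λ.h₁ a
  obtain ⟨t, ht⟩ := exists_root_vr (isVR_lval κ) C.monic hP hd Λ.spl
  have hT : Th.eval₂ Λ.η t = 0 := by
    obtain ⟨Q, hQ⟩ := hd
    exact (congrArg (Polynomial.eval₂ Λ.η t) hQ).trans (by
      rw [Polynomial.eval₂_mul, ht, zero_mul])
  have hβ := isFr_alg (Ps (Ps κ)) (Fr (Ps (Ps κ)))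
  obtain ⟨e, ε, J, he, hε, hJ⟩ := Λ.gd.le _ ER v t hT _ _ hβ
  obtain ⟨Φ⟩ := exists_flag hβ
  obtain ⟨c1, c2, c3, c4⟩ := Φ.cen_s hβ he hε hJ b C.monic hP hd ht
  obtain ⟨J₀, Q, hQ, hO, hT, h1, h2⟩ := Φ.res_p hβ he hε hJ Z b
  have hρ := Φ.rs.comp_int (Over.comap J Φ.Vs)
  have hρ' := hρ.comp_int (Over.comap b.j (Φ.Vs.comap J))
  have hI' : ∀ g ∈ Ine F ((Φ.Vs.comap J).comap b.j), Z.r g ∈ Ine F₀ Q := fun g hg => by
    have hg' : g ∈ geo Z.d := mem_fixS_range.2 (ine_fix_gen H.gen hg Z.d.c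
      (fun a => by rw [dl_c]; exact g.commutes _) fun a => by
        have := c1.1 (Polynomial.C (c a))
        rw [RingHom.comp_apply, Polynomial.coe_mapRingHom, Polynomial.map_C, ← dl_c Z.d] at this
        exact this)
    obtain ⟨g', h'⟩ := b.ext hg'
    have h3 : g' ∈ Dec _ (Φ.Vs.comap J) := b.ine_dec hρ c2 c3
      (P := (P.map (algebraMap A K)).map (algebraMap K K₁))
      ((Polynomial.map_ne_zero_iff (algebraMap K K₁).injective).2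
        ((Polynomial.map_ne_zero_iff (IsFractionRing.injective A K)).2 hP.ne_zero))
      (by rw [Z.d.φ_map]; exact (c1.2 P).2 dvd_rfl) hg h'
    exact (((Φ.of_dec hβ he hε hJ h3).comp Φ (J := b.j) (u' := (g : E →+* E))
      fun x => (h' x).symm).dec Φ Z hO h1 h2).2 rfl
  have hD' : ∀ g ∈ Dec F ((Φ.Vs.comap J).comap b.j), Z.r g ∈ Dec F₀ Q := fun g hg => by
    obtain ⟨s, hs, ha⟩ := res_aut C hy hI Λ Z.sc hP hd c1 ⟨hρ', fun a x hx => by
      obtain ⟨h, e⟩ := c2 (Λ.γ₁ (algebraMap K K₁ a))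
      refine (congrArg Φ.ρs (Subtype.ext ?_)).trans e
      change J (b.j x) = _
      rw [hx, ← dl_c Z.d, ← Z.d.φ_C, b.hφ, Polynomial.map_C]⟩ hg
    have hX : b.j (toF K[X] F E Polynomial.X) =
        toF (Ls κ)[X] (Fr (Ls κ)[X]) ER Polynomial.X := by
      rw [← Z.d.φ_map, b.hφ, Polynomial.map_X, Polynomial.map_X]
    have hst : PowerSeries.map (s : κ →+* κ) t = t := by
      have h0 : Φ.Vs (J (b.j (toF K[X] F E Polynomial.X))) ≤ 1 := by rw [hX]; exact c3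
      have h3 := ha ⟨_, h0⟩ ⟨_, h0⟩ (g.commutes _).symm
      have h4 : Φ.ρs ⟨_, h0⟩ = lid κ t := (congrArg Φ.ρs (Subtype.ext (congrArg J hX))).trans c4
      change Φ.ρs ⟨_, h0⟩ = lm _ (Φ.ρs ⟨_, h0⟩) at h3
      rw [h4, dl_lm] at h3
      exact ((isVR_lval κ).2.1 h3).symm
    obtain ⟨s', g₁, h3, h4⟩ := b.semi (lm (s : κ →+* κ)) fun a =>
      RingHom.congr_fun (f := (lm (s : κ →+* κ)).comp (Λ.γ₁.comp (algebraMap K K₁)))
        (g := Λ.γ₁.comp (algebraMap K K₁)) (IsLocalization.ringHom_ext (nonZeroDivisors A)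
          (RingHom.ext fun a => by
            change lm _ (Λ.γ₁ (toF A K K₁ a)) = Λ.γ₁ (toF A K K₁ a)
            rw [Λ.h₁, dl_lm, Λ.fix _ hs])) a
    obtain ⟨g₂, h5⟩ := Φ.of_semi hβ he hε hJ s hst s' fun p => b.ι.injective (by
      rw [h3, b.hι, b.hι, lm_tM])
    obtain ⟨g₃, -, h6⟩ := b.restr g₂
    have h7 := h5.comp Φ (J := b.j) (u' := ((g₁ * g₃ : E ≃ₐ[F] E) : E →+* E)) fun x =>
      (h4 (g₃ x)).symm.trans (congrArg s' (h6 x))
    have h8 : g₁ * g₃ ∈ Dec F ((Φ.Vs.comap J).comap b.j) := mem_dec.2 h7.vs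
    have h9 : (g₁ * g₃)⁻¹ * g ∈ Ine F ((Φ.Vs.comap J).comap b.j) :=
      ⟨mul_mem (inv_mem h8) hg, fun x hx => by
        rw [← h8, map_sub, ← AlgEquiv.mul_apply, mul_inv_cancel_left]
        exact (hρ'.eq_iff ⟨_, (hg x).trans_le hx⟩ ⟨_, (h8 x).trans_le hx⟩).1
          ((ha ⟨x, hx⟩ _ rfl).trans (h7.rs x hx _).symm)⟩
    rw [← mul_inv_cancel_left (g₁ * g₃) g, map_mul]
    exact mul_mem (h7.dec Φ Z hO h1 h2).1 (hI' _ h9).1
  obtain ⟨u, hu, -⟩ := exists_vcen (isFr_pA A K F) hP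
  obtain ⟨g, hg⟩ := conj ((hu.over (isFr_pA A K F) hP).1 c1) ((hu.over (isFr_pA A K F) hP).1 hc)
  refine ⟨Q.comap (Z.r g : E₀ →+* E₀), vcnj_nrm hQ _, fun x hx =>
    (congrArg Q ((Z.r g).commutes _)).trans (hT x hx), fun h hh => ?_, fun h hh => ?_⟩
  · rw [mem_dec_comap, ← map_inv, ← map_mul, ← map_mul]
    exact hD' _ (mem_dec_comap.1 ((dec_congr (w := .comap (g : E →+* E) _) hg).le hh))
  · rw [mem_ine_comap, ← map_inv, ← map_mul, ← map_mul]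
    exact hI' _ (mem_ine_comap.1 ((ine_congr (w := .comap (g : E →+* E) _) hg).le hh))

end Pool.Agent.ZFy.ZL
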