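import Pool.Agent.Lib.MP_751085_ag.ZF.Z.Dsk
import Pool.Agent.Lib.MP_751085_ag.ZF.Z.Bc1
import Pool.Agent.Lib.MP_751085_ag.ZF.Z.Ract
import Pool.Agent.Lib.MP_751085_ag.ZF.Z.LocE
import Pool.Agent.Lib.MP_751085_ag.ZF.Z.Misc2
import Pool.Agent.Lib.MP_751085_ag.ZC.V.Hen

/-! The two valuations of the flag on `E`. -/

namespace Pool.Agent.ZFy.ZL

open Pool.Agent.ZCy
open scoped Classical WithZero Polynomial

set_option linter.unusedSectionVars false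

variable {l q : ℕ} {k A K F T N₁ : Type} [Field k] [CommRing A] [IsDomain A]
  [UniqueFactorizationMonoid A] [Field K] [Field F] [Field T] [Field N₁] [Algebra A K]
  [IsFractionRing A K] [Algebra K[X] F] [IsFractionRing K[X] F] [Algebra F T]
  [FiniteDimensional F T] [IsGalois F T] [Algebra K N₁] [FiniteDimensional K N₁] [IsGalois K N₁]
  {c : k →+* A} {Th : A[X]} {Δ : A} {τ : T →+* Ls N₁}
variable {K₁ κ₀ κ₁ : Type} [Field K₁] [Field κ₀] [Field κ₁] [Algebra K K₁] [FiniteDimensional K K₁]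
  [IsGalois K K₁] [Algebra κ₀ κ₁] [FiniteDimensional κ₀ κ₁] [IsGalois κ₀ κ₁]
  {H : Hy K c K₁ κ₀ κ₁}
variable {F₀ E₀ : Type} [Field F₀] [Field E₀] [Algebra κ₀[X] F₀] [IsFractionRing κ₀[X] F₀]
  [Algebra F₀ E₀] [FiniteDimensional F₀ E₀] [IsGalois F₀ E₀] {d₀ : SecD 1 κ₀ κ₁ F₀ E₀} {wT : Vl T}
  {ρT : wT.integer →+* E₀}
variable {E : Type} [Field E] [Algebra F E] [FiniteDimensional F E] [IsGalois F E]
variable {κ FK ER S : Type} [Field κ] [IsAlgClosed κ] [Field FK] [Field ER] [Field S]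
  [Algebra (Ls κ)[X] FK] [IsFractionRing (Ls κ)[X] FK] [Algebra FK ER] [FiniteDimensional FK ER]
  [IsGalois FK ER] {β : Ps (Ps κ) →+* S} (Φ : Flag β) {e : ℕ} {ε : Ps (Ps κ)} {t : Ps κ}
  {J : ER →+* S} {Λ : Loc H T N₁ F l q Th κ}

theorem dl1_cc {R : Type} [CommRing R] (he : 0 < e) (ε : Ps R) (t : R) (p : R[X]) :
    cc R (p.eval₂ PowerSeries.C (PowerSeries.C t + PowerSeries.X ^ e * ε)) = p.eval t := by
  rw [Polynomial.hom_eval₂, Polynomial.eval]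
  congr 1
  simp [he.ne']

omit Φ in
theorem dl1_J
    (hJ : ∀ p : (Ps κ)[X], J (toF (Ls κ)[X] FK ER (p.map (lid κ))) =
      β (p.eval₂ PowerSeries.C (PowerSeries.C t + PowerSeries.X ^ e * ε)))
    {d : SecD 1 K K₁ F E} (b : Bc d Λ.γ₁ FK ER) (p : A[X]) : J (b.j (pA A K F E p)) =
      β ((p.map Λ.η).eval₂ PowerSeries.C (PowerSeries.C t + PowerSeries.X ^ e * ε)) := by
  rw [← hJ]
  change J (b.j (toF K[X] F E (p.map (algebraMap A K)))) = _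
  rw [← d.φ_map, b.hφ, Polynomial.map_map, Polynomial.map_map, Polynomial.map_map]
  exact congrArg (fun f => J (toF (Ls κ)[X] FK ER (p.map f))) (RingHom.ext Λ.h₁)

theorem Flag.cen_s (_hβ : IsFr β) (he : 0 < e) (_hε : IsUnit ε)
    (hJ : ∀ p : (Ps κ)[X], J (toF (Ls κ)[X] FK ER (p.map (lid κ))) =
      β (p.eval₂ PowerSeries.C (PowerSeries.C t + PowerSeries.X ^ e * ε)))
    {d : SecD 1 K K₁ F E} (b : Bc d Λ.γ₁ FK ER) (hm : Th.Monic) {P : A[X]} (hP : Prime P)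
    (hd : P ∣ Th) (ht : P.eval₂ Λ.η t = 0) :
    Cen (pA A K F E) ((Φ.Vs.comap J).comap b.j) P ∧
      (∀ a : Ls κ, ∃ h, Φ.ρs ⟨J (toF (Ls κ)[X] FK ER (Polynomial.C a)), h⟩ = a) ∧
      ∃ h, Φ.ρs ⟨J (toF (Ls κ)[X] FK ER Polynomial.X), h⟩ = lid κ t := by
  have hC : ∀ x : Ps κ, J (toF (Ls κ)[X] FK ER (Polynomial.C (lid κ x))) = β (PowerSeries.C x) :=
    fun x => by simpa only [Polynomial.map_C, Polynomial.eval₂_C] using hJ (Polynomial.C x)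
  refine ⟨⟨fun p => ?_, fun p => ?_⟩, fun a => ?_, ?_⟩
  · change Φ.Vs (J (b.j _)) ≤ 1
    rw [dl1_J hJ b]
    exact Φ.cs.1 _
  · change Φ.Vs (J (b.j _)) < 1 ↔ _
    rw [dl1_J hJ b, Φ.cs.2, PowerSeries.X_dvd_iff, dl1_cc he, Polynomial.eval_map]
    exact ker_root (Function.Injective.of_comp (f := lid κ) Λ.inj) hm hP hd ht p
  · obtain ⟨x, y, hy, h⟩ := (isFr_lid κ).2 a
    have h0 := (isFr_lid κ).vfrc_ne hy
    have h1 : J (toF (Ls κ)[X] FK ER (Polynomial.C a)) * β (PowerSeries.C y) =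
        β (PowerSeries.C x) := by
      rw [← hC, ← hC, ← map_mul, ← map_mul, ← map_mul, h]
    have h2 := Φ.es (PowerSeries.C y)
    have h3 := Φ.es (PowerSeries.C x)
    rw [PowerSeries.constantCoeff_C] at h2 h3
    have h4 : Φ.Vs (β (PowerSeries.C y)) = 1 := (Φ.rs.ne_zero ⟨_, Φ.cs.1 _⟩).1 (h2 ▸ h0)
    have h5 : Φ.Vs (J (toF (Ls κ)[X] FK ER (Polynomial.C a))) ≤ 1 := by
      rw [← mul_one (Φ.Vs _), ← h4, ← map_mul, h1, h4]
      exact Φ.cs.1 _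
    refine ⟨h5, mul_right_cancel₀ h0 ?_⟩
    rw [h, ← h2, ← h3, ← map_mul]
    exact congrArg _ (Subtype.ext h1)
  · have h1 := hJ Polynomial.X
    have h2 := dl1_cc he ε t Polynomial.X
    rw [Polynomial.map_X] at h1
    rw [Polynomial.eval_X] at h2
    exact ⟨h1 ▸ Φ.cs.1 _, ((congrArg _ (Subtype.ext h1)).trans (Φ.es _)).trans (congrArg _ h2)⟩

theorem Flag.res_p (_hβ : IsFr β) (he : 0 < e) (hε : IsUnit ε)
    (hJ : ∀ p : (Ps κ)[X], J (toF (Ls κ)[X] FK ER (p.map (lid κ))) =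
      β (p.eval₂ PowerSeries.C (PowerSeries.C t + PowerSeries.X ^ e * ε)))
    (Z : Res H F l Th F₀ (E₀ := E₀) T E) (b : Bc Z.d Λ.γ₁ FK ER) :
    ∃ (J₀ : E₀ →+* Ls κ) (Q : Vl E₀), Nrm Q ∧ Over J₀ Q (lval κ) ∧
      Triv ((toF κ₀[X] F₀ E₀).comp Polynomial.C) Q ∧
      (∀ x, Φ.Vp (J (b.j x)) ≤ 1 ↔ Z.w x ≤ 1) ∧
      ∀ (x : Z.w.integer) h, Φ.ρp ⟨J (b.j x), h⟩ = J₀ (Z.ρ x) := by
  let f := Λ.f.comp (algebraMap κ₀ κ₁)
  let U : κ₀[X] →+* Ps κ := (Polynomial.eval₂RingHom PowerSeries.C (PowerSeries.C (cc κ t) +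
    PowerSeries.X ^ e * PowerSeries.map (cc κ) ε)).comp (Polynomial.mapRingHom f)
  have hU : Function.Injective U := by
    obtain ⟨φ, hφ⟩ := exists_sbz he (hε.map (PowerSeries.map (cc κ)))
    refine fun p p' h => Polynomial.map_injective f f.injective
      (sbs_inj (f := RingHom.id κ) (fun _ _ h => h) (cc κ t) one_ne_zero (hφ.injective ?_))
    simp only [sbs, pow_one, RingHom.comp_id, Polynomial.coe_eval₂RingHom, hφ.poly]
    exact h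
  have h1 : ∀ (p : A[X]) h, Φ.ρp ⟨J (b.j (pA A K F E p)), h⟩ = lid κ (U (p.map H.h)) := by
    intro p h
    refine ((congrArg _ (Subtype.ext (dl1_J hJ b p))).trans (Φ.ep _)).trans (congrArg _ ?_)
    change _ = ((p.map H.h).map f).eval₂ _ _
    rw [Polynomial.hom_eval₂, Polynomial.eval₂_map, Polynomial.eval₂_map, Polynomial.eval₂_map]
    congr 1
    · exact RingHom.ext fun a => (PowerSeries.map_C _ _).trans (congrArg _ (Λ.hcc a))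
    · simp
  have h2 : ∀ p : A[X], Φ.Vp (J (b.j (pA A K F E p))) ≤ 1 := fun p => dl1_J hJ b p ▸ Φ.cp.1 _
  have hp := Polynomial.prime_C_iff.2 H.prime
  have c1 : Cen _ (((Φ.Vp.comap J).comap b.j).comap (algebraMap F E)) (Polynomial.C H.y) :=
    (⟨h2, fun p => (Φ.rp ⟨_, h2 p⟩).symm.trans (by
      rw [h1, map_eq_zero_iff _ (isFr_lid κ).1, map_eq_zero_iff _ hU, H.map_eq_zero])⟩ :
      Cen ((algebraMap K[X] F).comp (Polynomial.mapRingHom (algebraMap A K))) _ _)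
  have c2 : Cen ((algebraMap K[X] F).comp (Polynomial.mapRingHom (algebraMap A K)))
      (Z.w.comap (algebraMap F E)) (Polynomial.C H.y) := H.cen (J := RingHom.id E₀) Z.red Z.res
  have ho : Over (J.comp b.j) Z.w Φ.Vp := iff_of_dec_top (w' := (Φ.Vp.comap J).comap b.j)
    (Over.comap _ Z.w) (fun x => (c1.le_one_iff (isFr_pA A K F) hp x).trans
      (c2.le_one_iff (isFr_pA A K F) hp x).symm) Z.dec
  obtain ⟨J₀, h3⟩ := Z.red.factor Z.surj (Φ.rp.comp_int ho)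
  have h4 : ∀ p : A[X], J₀ (toF κ₀[X] F₀ E₀ (p.map H.h)) = lid κ (U (p.map H.h)) := fun p => by
    obtain ⟨h, e⟩ := Z.res p
    rw [← e, h3]
    exact h1 p _
  have h5 : ∀ μ, J₀ (toF κ₀[X] F₀ E₀ μ) = lid κ (U μ) := fun μ => by
    obtain ⟨d, p, hd, e⟩ := ract_poly H μ
    have := h4 p
    rw [e, map_mul, map_mul, map_mul, map_mul, h4] at this
    exact mul_left_cancel₀ ((isFr_lid κ).vfrc_ne ((map_ne_zero_iff _ hU).2 hd)) this
  have h6 : ∀ μ, lval κ (J₀ (toF κ₀[X] F₀ E₀ μ)) < 1 ↔ μ.eval₂ f (cc κ t) = 0 := fun μ => by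
    rw [h5, ← cc_eq_zero, ← Polynomial.eval_map, ← dl1_cc he (PowerSeries.map (cc κ) ε)]
    rfl
  obtain ⟨μ, hμ, h7⟩ := Λ.alg (cc κ t)
  obtain ⟨Q, m, hQ, hm, h8⟩ := exists_nrm (v := (lval κ).comap J₀)
    ((map_ne_zero_iff _ ract_inj).2 hμ.ne_zero) ((h6 μ).2 h7).ne
  have h9 : Over J₀ Q (lval κ) := h8.over hm
  refine ⟨J₀, Q, hQ, h9, fun a ha => (h9.eq_one _).1 (le_antisymm ?_ (not_lt.1 fun h => ?_)), ho,
    fun x _ => (h3 x).symm⟩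
  · exact ((isVR_lval κ).2.2 _).2 ⟨_, (h5 _).symm⟩
  · have := (h6 _).1 h
    rw [Polynomial.eval₂_C] at this
    exact ha ((_root_.map_eq_zero f).1 this)

/-- what the local automorphisms say about `E₀` -/
theorem Flag.LA.dec (Z : Res H F l Th F₀ (E₀ := E₀) T E) {J' : E →+* S} {J₀ : E₀ →+* Ls κ}
    {Q : Vl E₀} (hQ : Over J₀ Q (lval κ)) (h1 : ∀ x, Φ.Vp (J' x) ≤ 1 ↔ Z.w x ≤ 1)
    (h2 : ∀ (x : Z.w.integer) h, Φ.ρp ⟨J' x, h⟩ = J₀ (Z.ρ x)) {g : E ≃ₐ[F] E} {s : κ →+* κ}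
    (h : Φ.LA J' (g : E →+* E) s) :
    Z.r g ∈ Dec F₀ Q ∧ (s = RingHom.id κ → Z.r g ∈ Ine F₀ Q) := by
  have hg : ∀ x : Z.w.integer, Z.w (g x) ≤ 1 := fun x =>
    (mem_dec.1 (Z.dec ▸ Subgroup.mem_top g) _).2 x.2
  have h3 : ∀ x : Z.w.integer, Φ.ρp ⟨J' (g x), (h1 _).2 (hg x)⟩ = J₀ (Z.r g (Z.ρ x)) := fun x =>
    (h2 ⟨g x, hg x⟩ _).trans (congrArg J₀ (Z.act g x _ rfl))
  have h4 : Z.r g ∈ Dec F₀ Q := mem_dec.2 fun y => by
    obtain ⟨x, rfl⟩ := Z.surj y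
    rw [← hQ, ← hQ, ← h3, ← h2 x ((h1 _).2 x.2)]
    exact h.rp _ _ _
  refine ⟨h4, fun hs => ⟨h4, fun y hy => ?_⟩⟩
  obtain ⟨x, rfl⟩ := Z.surj y
  obtain ⟨f, hf⟩ := ((isVR_lval κ).2.2 _).1 ((hQ _).2 hy)
  have h5 : lval κ (J₀ (Z.ρ x) - HahnSeries.C (cc κ f)) < 1 := by
    rw [← hf, ← show lid κ (PowerSeries.C (cc κ f)) = HahnSeries.C (cc κ f) from lau_C _,
      ← map_sub, ← cc_eq_zero]
    simp
  have h6 := h.rq x ((h1 _).2 x.2) ((h1 _).2 (hg x)) (cc κ f) (by rwa [h2])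
  rw [hs] at h6
  rw [← hQ.lt_one, map_sub, ← h3, ← sub_sub_sub_cancel_right _ _ (HahnSeries.C (cc κ f))]
  exact (Valuation.map_sub _ _ _).trans_lt (max_lt h6 h5)

end Pool.Agent.ZFy.ZL
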