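import Pool.Agent.Lib.MP_751085_ag.ZF.Z.GDefs
import Pool.Agent.Lib.MP_751085_ag.ZC.Z.Sec
import Pool.Agent.Lib.MP_751085_ag.ZC.V.Lau

/-! Block Z for `l`-extensions: shared definitions. -/

namespace Pool.Agent.ZFy.ZL

open Pool.Agent.ZCy
open scoped Classical WithZero Polynomial

set_option linter.unusedSectionVars false

/-- the map from `A[t]` to an extension of `F = K(t)` -/
noncomputable abbrev pA (A K F N : Type) [CommRing A] [Field K] [Field F] [Field N] [Algebra A K]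
    [Algebra K[X] F] [Algebra F N] : A[X] →+* N :=
  (toF K[X] F N).comp (Polynomial.mapRingHom (algebraMap A K))

/-- the constant coefficient -/
noncomputable abbrev cc (R : Type) [CommRing R] : Ps R →+* R := PowerSeries.constantCoeff

/-- power series over a field as Laurent series -/
noncomputable abbrev lid (κ : Type) [Field κ] : Ps κ →+* Ls κ := lau (RingHom.id κ)

/-- raising to the power `q` is a ring homomorphism on all rings over `A` -/
def Frb (q : ℕ) (A : Type) [CommRing A] : Prop :=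
  ∀ (S : Type) [CommRing S] (_ : A →+* S), ∃ Φ : S →+* S, ∀ x, Φ x = x ^ q

section

variable {K L F N : Type} [Field K] [Field L] [Field F] [Field N]

/-- a cover of the `t`-line over `L` inside `L((u))` -/
noncomputable def dg (F : Type) [Field F] [Algebra L[X] F] [Algebra F N] (ι : N →+* Ls L)
    (h : ∀ p, ι (toF L[X] F N p) = tL L p) : SecD 1 L L F N where
  c := (toF L[X] F N).comp Polynomial.C
  ι := ι
  hc a := (h _).trans (sec_tM_C a)
  ht p := (h p).trans (by rw [Algebra.algebraMap_self, Polynomial.map_id])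

variable [Algebra K L] [Algebra K[X] F] [Algebra F N]

/-- the geometric Galois group -/
abbrev geo (d : SecD 1 K L F N) : Subgroup (N ≃ₐ[F] N) := fixS F (Set.range d.c)

/-- the cover is unramified over `L(t)` off `Θ` -/
def GU (d : SecD 1 K L F N) (Θ : L[X]) : Prop :=
  ∀ (P : L[X]) (w : Vl N), Prime P → ¬P ∣ Θ → Cen d.φ w P → Ine F w ⊓ geo d = ⊥

/-- `N` is an `l`-extension of `T L(t)` that is unramified off `Th`; here `T` is an extension of
`F₁ = K₁(t)` and `γ : K₁ → L` -/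
structure SC (l : ℕ) {K₁ T : Type} (F₁ : Type) [Field K₁] [Field F₁] [Field T] [Algebra K₁[X] F₁]
    [Algebra F₁ T] (Th : K₁[X]) (d : SecD 1 K L F N) (γ : K₁ →+* L) (j : T →+* N) : Prop where
  hj : ∀ p, j (toF K₁[X] F₁ T p) = d.φ (p.map γ)
  lxt : LXt l F (Set.range j ∪ Set.range d.c)
  unr : GU d (Th.map γ)

/-- `N'` is the base change of `N` along `γ : L → M` -/
structure Bc {M : Type} [Field M] (d : SecD 1 K L F N) (γ : L →+* M) (F' N' : Type) [Field F']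
    [Field N'] [Algebra M[X] F'] [Algebra F' N'] where
  j : N →+* N'
  ι : N' →+* Ls M
  hι : ∀ p, ι (toF M[X] F' N' p) = tL M p
  hj : ∀ z, ι (j z) = lm γ (d.ι z)
  span : ∀ g : N' ≃ₐ[F'] N', (∀ z, g (j z) = j z) → g = 1

/-- `W` is equivalent to the sup norm of the coefficients -/
structure SupN (ι : N →+* Ls L) (w : Vl L) (W : Vl N) : Prop where
  le : ∀ z, (∀ i, w ((ι z).coeff i) ≤ 1) → W z ≤ 1 ∧ (W z < 1 ↔ ∀ i, w ((ι z).coeff i) < 1)
  frac : ∀ x, ∃ (b : N) (a a' : L), b ≠ 0 ∧ (∀ i, w ((ι b).coeff i) ≤ w a) ∧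
    ∀ i, w ((ι (x * b)).coeff i) ≤ w a'

/-- `ρW` reduces the expansions coefficientwise along `ρ` -/
structure GRed {R κ : Type} [CommRing R] [Field κ] (ι : N →+* Ls L) (α : R →+* L) (ρ : R →+* κ)
    (W : Vl N) (ρW : W.integer →+* Ls κ) : Prop where
  red : IsRed W ρW
  val : ∀ z f, ι z = lm α f → ∃ h, ρW ⟨z, h⟩ = lm ρ f
  frac : ∀ x : W.integer, ∃ (b : N) (f g : Ls R), ι ((x : N) * b) = lm α f ∧ ι b = lm α g ∧
    lm ρ g ≠ 0

end

section

variable {k A K T N₁ : Type} (F : Type) [Field k] [CommRing A] [Field K] [Field F] [Field T]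
  [Field N₁] [Algebra A K] [Algebra K[X] F] [Algebra F T] [Algebra K N₁]

/-- The Galois group of `N₁` fixes the Kummer classes on `T` that are unramified off `Th`. -/
def KumOK (l : ℕ) (Th : K[X]) (τ : T →+* Ls N₁) : Prop :=
  ∀ (L N : Type) [Field L] [Field N] [Algebra K L] [FiniteDimensional K L] [IsGalois K L]
    [Algebra F N] [FiniteDimensional F N] [IsGalois F N] (d : SecD 1 K L F N) (e : N₁ →ₐ[K] L)
    (j : T →+* N) (s : N ≃ₐ[F] N) (δ : L →+* L) (r : N),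
    (∀ x, d.ι (j x) = lm (e : N₁ →+* L) (τ x)) → GU d (Th.map (algebraMap K L)) →
    (∀ z, d.ι (s z) = lm δ (d.ι z)) → (∀ a, δ (e a) = e a) →
    (∀ g ∈ fixS F (Set.range j ∪ Set.range d.c), g (r ^ l) = r ^ l) →
    ∀ g ∈ fixS F (Set.range j ∪ Set.range d.c), g (s r / r) = s r / r

/-- The Galois group of `N₁` acts on the geometric groups of `l`-extensions of `T` through
`l`-groups. -/
def MonOK (l : ℕ) (Th : K[X]) (τ : T →+* Ls N₁) : Prop :=
  ∀ (L N : Type) [Field L] [Field N] [Algebra K L] [FiniteDimensional K L] [IsGalois K L]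
    [Algebra F N] [FiniteDimensional F N] [IsGalois F N] (d : SecD 1 K L F N) (e : N₁ →ₐ[K] L)
    (j : T →+* N) (s : N ≃ₐ[F] N) (δ : L →+* L),
    (∀ x, d.ι (j x) = lm (e : N₁ →+* L) (τ x)) → SC l F Th d (algebraMap K L) j →
    (∀ z, d.ι (s z) = lm δ (d.ι z)) → (∀ a, δ (e a) = e a) →
    ∃ n : ℕ, ∀ g ∈ geo d, s ^ l ^ n * g = g * s ^ l ^ n

variable (T N₁) in
/-- The residue fields of `T` at the boundary are purely inseparable over subfields of `N₁`. -/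
def ResOK (Th : K[X]) : Prop :=
  ∀ (P : K[X]) (Ξ : Vl T) (Ω : Type) [Field Ω] (ρ : Ξ.integer →+* Ω) (e : N₁ →+* Ω) (s : Ω →+* Ω),
    Prime P → P ∣ Th → Cen (toF K[X] F T) Ξ P → IsRed Ξ ρ →
    (∀ (a : K) (x : Ξ.integer), (x : T) = toF K[X] F T (Polynomial.C a) →
      ρ x = e (algebraMap K N₁ a)) → (∀ a, s (e a) = e a) → ∀ x, s (ρ x) = ρ x

variable (K T) in
/-- a certificate for the unramifiedness of `T` at the Gauss valuations off `Δ` -/
def SepOK (Δ : A) : Prop :=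
  ∀ g : T ≃ₐ[F] T, g ≠ 1 → ∃ (θ z : T) (p : A[X]) (i : ℕ), (pA A K F T).IsIntegralElem θ ∧
    (pA A K F T).IsIntegralElem z ∧ (g θ - θ) * z = pA A K F T p ∧ p.coeff i ∣ Δ

variable (K) in
/-- The certificate of a pencil of lines. -/
structure Crt (l q : ℕ) (c : k →+* A) (Th : A[X]) (Δ : A) (τ : T →+* Ls N₁) : Prop where
  prime : l.Prime
  lne : (l : k) ≠ 0
  monic : Th.Monic
  unrT : UnrOff F (toF K[X] F T) (Th.map (algebraMap A K))
  ne : Δ ≠ 0
  qne : q ≠ 0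
  cop : q.Coprime l
  frb : Frb q A
  hτ : ∀ p, τ (toF K[X] F T p) = tL N₁ (p.map (algebraMap K N₁))
  unr : UnrOff K (toF A K N₁) Δ
  gd : ∀ (R KK κ : Type) [CommRing R] [IsDomain R] [CDVR R] [Field KK] [Field κ] [IsAlgClosed κ]
    (η : A →+* R) (α : R →+* KK) (v : Vl KK) (ρ : R →+* κ) (ψ : N₁ →+* KK), IsVR α v →
    Function.Surjective ρ → (∀ a, ψ (toF A K N₁ a) ^ q = α (η a)) → IsUnit (η Δ) →
    Gd l (pA A K F T) Th η α v ρ ∧ (Th.map (α.comp η)).Splits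
  sep : SepOK K T F Δ
  mon : MonOK F l (Th.map (algebraMap A K)) τ
  res : ResOK T N₁ F (Th.map (algebraMap A K))

end

section

variable {k A : Type} (K : Type) [Field k] [CommRing A] [Field K] [Algebra A K]

/-- the elements of an extension of `K` that are integral over the constants -/
def Cst (c : k →+* A) (N : Type) [Field N] [Algebra K N] : Set N :=
  {x | ((toF A K N).comp c).IsIntegralElem x}

/-- `y` is inert in all `l`-extensions of `N₁` and constants that are unramified off `Δ` -/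
def INe (l : ℕ) (c : k →+* A) (N₁ : Type) [Field N₁] [Algebra K N₁] (Δ y : A) : Prop :=
  ∀ (N : Type) [Field N] [Algebra K N] [FiniteDimensional K N] [IsGalois K N] (e : N₁ →ₐ[K] N),
    UnrOff K (toF A K N) Δ → LXt l K (Set.range e ∪ Cst K c N) → Inert K (toF A K N) y

/-- A hyperplane `y = 0` with function field `κ₀`, and an extension of the constants. -/
structure Hy (c : k →+* A) (K₁ κ₀ κ₁ : Type) [Field K₁] [Field κ₀] [Field κ₁] [Algebra K K₁]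
    [Algebra κ₀ κ₁] where
  y : A
  η : A →+* Ps κ₀
  γ : K₁ →+* Ls κ₁
  prime : Prime y
  hy : η y = PowerSeries.X
  ker : ∀ a, cc κ₀ (η a) = 0 ↔ y ∣ a
  hγ : ∀ a, γ (toF A K K₁ a) = lau (algebraMap κ₀ κ₁) (η a)
  frac : ∀ b : κ₀, ∃ a a', cc κ₀ (η a') ≠ 0 ∧ b * cc κ₀ (η a') = cc κ₀ (η a)
  onto : ∀ b : κ₁, ∃ a g, γ a = lid κ₁ g ∧ cc κ₁ g = b
  gen : IntermediateField.adjoin K (Cst K c K₁) = ⊤
  inert : Inert K (toF A K K₁) y

variable {K} {c : k →+* A} {K₁ κ₀ κ₁ : Type} [Field K₁] [Field κ₀] [Field κ₁] [Algebra K K₁]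
  [Algebra κ₀ κ₁] (H : Hy K c K₁ κ₀ κ₁)

/-- restriction to the hyperplane -/
noncomputable def Hy.h : A →+* κ₀ := (cc κ₀).comp H.η

/-- `b` is the residue of `a` -/
def Hy.Rel (a : K₁) (b : κ₁) : Prop := ∃ g, H.γ a = lid κ₁ g ∧ cc κ₁ g = b

variable {T N₁ : Type} (F : Type) [Field F] [Field T] [Field N₁] [Algebra K[X] F] [Algebra F T]
  [Algebra K N₁]

variable (T N₁) in
/-- The local model `κ⟦y⟧` along the hyperplane. -/
structure Loc (l q : ℕ) (Th : A[X]) (κ : Type) [Field κ] where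
  f : κ₁ →+* κ
  η : A →+* Ps κ
  γ₁ : K₁ →+* Ls κ
  γN : N₁ →+* Ls κ
  alg : ∀ x : κ, (f.comp (algebraMap κ₀ κ₁)).IsIntegralElem x
  h₁ : ∀ a, γ₁ (toF A K K₁ a) = lid κ (η a)
  hN : ∀ a, γN (toF A K N₁ a) = lid κ (η a)
  hcc : ∀ a, cc κ (η a) = f (algebraMap κ₀ κ₁ (H.h a))
  rel : ∀ a b, H.Rel a b → ∃ g, γ₁ a = lid κ g ∧ cc κ g = f b
  rel' : ∀ a g, γ₁ a = lid κ g → ∃ b, H.Rel a b
  val : η H.y = PowerSeries.X ^ q
  fix : ∀ s : κ →+* κ, (∀ b, s (f (algebraMap κ₀ κ₁ b)) = f (algebraMap κ₀ κ₁ b)) →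
    ∀ a, PowerSeries.map s (η a) = η a
  gd : Gd l (pA A K F T) Th η (lid κ) (lval κ) (cc κ)
  spl : (Th.map ((lid κ).comp η)).Splits

variable {F} {F₀ E₀ : Type} [Field F₀] [Field E₀] [Algebra κ₀[X] F₀] [Algebra F₀ E₀]

variable (F) in
/-- The cover `E₀` of the special fibre. -/
structure Spc (l : ℕ) (Th : A[X]) (d₀ : SecD 1 κ₀ κ₁ F₀ E₀) (wT : Vl T)
    (ρT : wT.integer →+* E₀) : Prop where
  unr : UnrOff F₀ (toF κ₀[X] F₀ E₀) (Th.map H.h)
  red : IsRed wT ρT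
  res : ∀ p : A[X], ∃ h, ρT ⟨pA A K F T p, h⟩ = toF κ₀[X] F₀ E₀ (p.map H.h)
  lxt : LXt l F₀ (Set.range ρT ∪ Set.range d₀.c)

/-- The lift `ER` of the cover over `κ((y))`. -/
structure Lft {l q : ℕ} {Th : A[X]} {κ : Type} [Field κ] (Λ : Loc H T N₁ F l q Th κ)
    (τ : T →+* Ls N₁) (d₀ : SecD 1 κ₀ κ₁ F₀ E₀) (wT : Vl T) (ρT : wT.integer →+* E₀)
    (FK ER : Type) [Field FK] [Field ER] [Algebra (Ls κ)[X] FK] [Algebra FK ER] where
  c : Cov l (pA A K F T) Th FK ER ((lid κ).comp Λ.η)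
  W : Vl ER
  ρ : W.integer →+* Ls κ
  hτ : ∀ x, c.ι (c.j x) = lm Λ.γN (τ x)
  red : GRed c.ι (lid κ) (cc κ) W ρ
  ov : Over c.j wT W
  resT : ∀ x : wT.integer, ρ (ov.int x) = lm Λ.f (d₀.ι (ρT x))
  sub : ∀ x, ρ x ∈ Subfield.closure
    (Set.range ((lm Λ.f).comp d₀.ι) ∪ Set.range (tL κ))
  card : Nat.card (geo d₀) ≤ Nat.card (ER ≃ₐ[FK] ER)
  faith : ∀ g : ER ≃ₐ[FK] ER, (∀ y : E₀, ∃ x x' : W.integer, (x' : ER) = g x ∧
    ρ x = lm Λ.f (d₀.ι y) ∧ ρ x' = lm Λ.f (d₀.ι y)) → g = 1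

variable (F) in
/-- A cover `E` of the generic fibre with residue field `E₀` along the hyperplane. -/
structure Res (l : ℕ) (Th : A[X]) (F₀ : Type) {E₀ : Type} [Field F₀] [Field E₀] [Algebra κ₀[X] F₀]
    [Algebra F₀ E₀] (T E : Type) [Field T] [Algebra F T] [Field E] [Algebra F E] where
  d : SecD 1 K K₁ F E
  j : T →+* E
  w : Vl E
  ρ : w.integer →+* E₀
  r : (E ≃ₐ[F] E) ≃* (E₀ ≃ₐ[F₀] E₀)
  sc : SC l F (Th.map (algebraMap A K)) d (algebraMap K K₁) j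
  red : IsRed w ρ
  surj : Function.Surjective ρ
  dec : Dec F w = ⊤
  ine : Ine F w = ⊥
  res : ∀ p : A[X], ∃ h, ρ ⟨pA A K F E p, h⟩ = toF κ₀[X] F₀ E₀ (p.map H.h)
  act : ∀ (g : E ≃ₐ[F] E) (x y : w.integer), (y : E) = g x → ρ y = r g (ρ x)

variable {H}

/-- the local groups at the boundary specialise -/
def Res.DL {l : ℕ} {Th : A[X]} {E : Type} [Field E] [Algebra F E]
    (Z : Res H F l Th F₀ (E₀ := E₀) T E) : Prop :=
  ∀ (P : A[X]) (Ξ : Vl E), Prime P → P ∣ Th → Cen (pA A K F E) Ξ P →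
    ∃ Q : Vl E₀, Nrm Q ∧ Triv ((toF κ₀[X] F₀ E₀).comp Polynomial.C) Q ∧
      (∀ g ∈ Dec F Ξ, Z.r g ∈ Dec F₀ Q) ∧ ∀ g ∈ Ine F Ξ, Z.r g ∈ Ine F₀ Q

/-- compatibility with the residue map of `T` and with the constants -/
structure Res.Ok {l : ℕ} {Th : A[X]} {E : Type} [Field E] [Algebra F E]
    (Z : Res H F l Th F₀ (E₀ := E₀) T E) (d₀ : SecD 1 κ₀ κ₁ F₀ E₀) (wT : Vl T)
    (ρT : wT.integer →+* E₀) : Prop where
  ov : Over Z.j wT Z.w
  resT : ∀ x : wT.integer, Z.ρ (ov.int x) = ρT x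
  cst : ∀ a b, H.Rel a b → ∃ h, Z.ρ ⟨Z.d.c a, h⟩ = d₀.c b

end

end Pool.Agent.ZFy.ZL
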