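import Pool.Agent.Lib.MP_751085_ag.ZF.Z.Defs

/-! Further definitions: models, closures, local automorphisms. -/

namespace Pool.Agent.ZFy.ZL

open Pool.Agent.ZCy
open scoped Classical WithZero Polynomial

set_option linter.unusedSectionVars false

section

variable {l q : ℕ} {k A K F T N₁ K₁ κ₀ κ₁ F₀ E₀ κ FK ER : Type} [Field k] [CommRing A] [Field K]
  [Field F] [Field T] [Field N₁] [Field K₁] [Field κ₀] [Field κ₁] [Field F₀] [Field E₀] [Field κ]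
  [Field FK] [Field ER] [Algebra A K] [Algebra K[X] F] [Algebra F T] [Algebra K N₁] [Algebra K K₁]
  [Algebra κ₀ κ₁] [Algebra κ₀[X] F₀] [Algebra F₀ E₀] [Algebra (Ls κ)[X] FK] [Algebra FK ER]
  {c : k →+* A} {Th : A[X]} {τ : T →+* Ls N₁} {H : Hy K c K₁ κ₀ κ₁} {d₀ : SecD 1 κ₀ κ₁ F₀ E₀}
  {wT : Vl T} {ρT : wT.integer →+* E₀} {Λ : Loc H T N₁ F l q Th κ}

/-- `N` is a model of the lift over the subfield `L` of `κ((y))` -/
structure Mo (𝓛 : Lft H Λ τ d₀ wT ρT FK ER) {K' L F' N : Type} [Field K'] [Field L] [Field F']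
    [Field N] [Algebra K' L] [Algebra K'[X] F'] [Algebra F' N] (d : SecD 1 K' L F' N)
    (γ : L →+* Ls κ) where
  b : Bc d γ FK ER
  j : T →+* N
  hι : b.ι = 𝓛.c.ι
  hj : 𝓛.c.j = b.j.comp j

end

/-- `N` is the Galois closure over `F = K(t)` of the cover `E'` of the line over `L₀` -/
structure Cl {K L₀ E' L F N : Type} [Field K] [Field L₀] [Field E'] [Field L] [Field F] [Field N]
    [Algebra K L₀] [Algebra K L] [Algebra K[X] F] [Algebra F N] (ι' : E' →+* Ls L₀)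
    (d : SecD 1 K L F N) (e : L₀ →ₐ[K] L) (m : E' →+* N) : Prop where
  hm : ∀ z, d.ι (m z) = lm (e : L₀ →+* L) (ι' z)
  gen : ∀ g ∈ geo d, (∀ (h : N ≃ₐ[F] N) (z : E'), g (h (m z)) = h (m z)) → g = 1

/-- the substitution of `X ^ e * ε` for `X` -/
structure Sbz {R : Type} [CommRing R] (e : ℕ) (ε : Ps R) (φ : Ps R →+* Ps R) : Prop where
  pos : 0 < e
  unit : IsUnit ε
  C : ∀ a, φ (PowerSeries.C a) = PowerSeries.C a
  X : φ PowerSeries.X = PowerSeries.X ^ e * ε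

/-- the two valuations of the fraction field of `κ⟦y⟧⟦z⟧` -/
structure Flag {κ S : Type} [Field κ] [Field S] (β : Ps (Ps κ) →+* S) where
  Vs : Vl S
  Vp : Vl S
  ρs : Vs.integer →+* Ls κ
  ρp : Vp.integer →+* Ls κ
  cs : Cen β Vs PowerSeries.X
  cp : Cen β Vp (PowerSeries.C PowerSeries.X)
  rs : IsRed Vs ρs
  rp : IsRed Vp ρp
  es : ∀ f, ρs ⟨β f, cs.1 f⟩ = lid κ (cc (Ps κ) f)
  ep : ∀ f, ρp ⟨β f, cp.1 f⟩ = lid κ (PowerSeries.map (cc κ) f)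

/-- `u` respects the flag, and acts on the constants through `s` -/
structure Flag.LA {κ S N : Type} [Field κ] [Field S] [Field N] {β : Ps (Ps κ) →+* S} (Φ : Flag β)
    (J : N →+* S) (u : N →+* N) (s : κ →+* κ) : Prop where
  vs : ∀ x, Φ.Vs (J (u x)) ≤ 1 ↔ Φ.Vs (J x) ≤ 1
  rs : ∀ x h h', Φ.ρs ⟨J (u x), h'⟩ = lm s (Φ.ρs ⟨J x, h⟩)
  vp : ∀ x, Φ.Vp (J (u x)) ≤ 1 ↔ Φ.Vp (J x) ≤ 1
  rp : ∀ x h h', lval κ (Φ.ρp ⟨J (u x), h'⟩) ≤ 1 ↔ lval κ (Φ.ρp ⟨J x, h⟩) ≤ 1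
  rq : ∀ x h h' a, lval κ (Φ.ρp ⟨J x, h⟩ - HahnSeries.C a) < 1 →
    lval κ (Φ.ρp ⟨J (u x), h'⟩ - HahnSeries.C (s a)) < 1

section

variable {K E : Type} (F : Type) [Field K] [Field F] [Field E] [Algebra K[X] F] [Algebra F E]

/-- `ρ` is a residue map that extends `γ` -/
def RO (Ξ : Vl E) {Ω : Type} [Field Ω] (γ : K →+* Ω) (ρ : Ξ.integer →+* Ω) : Prop :=
  IsRed Ξ ρ ∧ ∀ (a : K) (x : Ξ.integer), (x : E) = toF K[X] F E (Polynomial.C a) → ρ x = γ a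

/-- `N'` is generated by `N₁`, `K₁` and the separable residues of `Ξ` -/
structure RFd (Ξ : Vl E) {N₁ K₁ N' : Type} [Field N₁] [Field K₁] [Field N'] [Algebra K N₁]
    [Algebra K K₁] [Algebra K N'] (ν : N' →ₐ[K] AlgebraicClosure K) (e₁ : N₁ →ₐ[K] N')
    (eK : K₁ →ₐ[K] N') : Prop where
  mem : ∀ ρ, RO F Ξ (algebraMap K (AlgebraicClosure K)) ρ → ∀ x, IsSeparable K (ρ x) →
    ∃ a, ν a = ρ x
  gen : ∀ S : Subfield N', (∀ a, e₁ a ∈ S) → (∀ a, eK a ∈ S) →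
    (∀ ρ x a, RO F Ξ (algebraMap K (AlgebraicClosure K)) ρ → ν a = ρ x → a ∈ S) → ∀ a, a ∈ S

end

end Pool.Agent.ZFy.ZL
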