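import Pool.Agent.Lib.MP_751085_ag.ZF.Z.Bc1
import Pool.Agent.Lib.MP_751085_ag.ZF.Z.GalX

/-! The intersection of two fields of definition. -/

namespace Pool.Agent.ZFy.ZL

open Pool.Agent.ZCy
open scoped Classical WithZero Polynomial

set_option linter.unusedSectionVars false

variable {K KK F E : Type} [Field K] [Field KK] [Field F] [Field E] [Algebra K KK]
  [Algebra KK[X] F] [IsFractionRing KK[X] F] [Algebra F E] [FiniteDimensional F E] [IsGalois F E]
  {ι : E →+* Ls KK}

/-- a separable element that all automorphisms fix is in the base field -/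
theorem dkk_fix {KK M : Type} [Field KK] [Field M] [Algebra KK M] [IsAlgClosed M]
    [Algebra.IsAlgebraic KK M] {y : M} (hy : IsSeparable KK y)
    (h : ∀ s : M ≃ₐ[KK] M, s y = y) : y ∈ (algebraMap KK M).range := by
  have : IsAlgClosure KK M := ⟨inferInstance, inferInstance⟩
  obtain ⟨a, ha⟩ := (InfiniteGalois.mem_range_algebraMap_iff_fixed (k := KK)
    (⟨y, hy⟩ : separableClosure KK M)).2 fun g =>
      Subtype.ext ((g.liftNormal_commutes M ⟨y, hy⟩).symm.trans (h _))
  exact ⟨a, congrArg Subtype.val ha⟩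

/-- independence of characters, tested on a basis -/
theorem dkk_ind {K L Ω I : Type} [Field K] [Field L] [Field Ω] [Algebra K L]
    (B : Module.Basis I K L) (c : L →+* Ω) (H : Subgroup (L ≃ₐ[K] L)) [Fintype H] (w : H → Ω)
    (h : ∀ i, ∑ δ : H, w δ * c (δ.1 (B i)) = 0) : w 1 = 0 := by
  have h1 : ∀ a, ∑ δ : H, w δ * c (δ.1 a) = 0 := by
    intro a
    have ha : a ∈ Submodule.span K (Set.range B) := B.span_eq ▸ Submodule.mem_top
    induction ha using Submodule.span_induction with
    | mem x hx =>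
      obtain ⟨i, rfl⟩ := hx
      exact h i
    | zero => simp
    | add x y _ _ hx hy =>
      simp only [map_add, mul_add, Finset.sum_add_distrib, hx, hy, add_zero]
    | smul k x _ hx =>
      simp only [Algebra.smul_def, map_mul, AlgEquiv.commutes, mul_left_comm (w _),
        ← Finset.mul_sum, hx, mul_zero]
  let χ : H → (L →* Ω) := fun δ => (c.comp (δ.1 : L →+* L) : L →+* Ω)
  have hχ : Function.Injective χ := fun δ δ' e =>
    Subtype.ext (AlgEquiv.ext fun a => c.injective (DFunLike.congr_fun e a))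
  refine Fintype.linearIndependent_iff.1 ((linearIndependent_monoidHom L Ω).comp χ hχ) w ?_ 1
  funext a
  rw [Finset.sum_apply]
  exact h1 a

/-- the automorphisms of the constants act and commute with the Galois group -/
theorem dkk_semi {M F' E' : Type} [Field M] [Field F'] [Field E'] [Algebra KK M]
    [Algebra M[X] F'] [IsFractionRing M[X] F'] [Algebra F' E'] [FiniteDimensional F' E']
    [IsGalois F' E'] {hι : ∀ p, ι (toF KK[X] F E p) = tL KK p}
    (b : Bc (dg F ι hι) (algebraMap KK M) F' E') (s : M ≃ₐ[KK] M) :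
    ∃ s' : E' →+* E', (∀ z, b.ι (s' z) = lm (s : M →+* M) (b.ι z)) ∧
      ∀ (g' : E' ≃ₐ[F'] E') (z : E'), s' (g' z) = g' (s' z) := by
  obtain ⟨s', -, h1, -⟩ := b.semi (s : M →+* M) fun a => s.commutes _
  have hfix : ∀ z, s' (b.j z) = b.j z := fun z => b.ι.injective (by
    rw [h1, b.hj]
    ext k
    exact s.commutes _)
  have hp : ∀ p, s' (toF M[X] F' E' p) = toF M[X] F' E' (p.map (s : M →+* M)) := fun p =>
    b.ι.injective (by rw [h1, b.hι, b.hι, lm_tM])
  refine ⟨s', h1, fun g' z => ?_⟩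
  obtain ⟨g, -, e⟩ := b.restr g'
  have hg : ∀ p, g' (toF M[X] F' E' p) = toF M[X] F' E' p := fun p => g'.commutes _
  refine RingHom.congr_fun (b.hom_ext (s'.comp (g' : E' →+* E')) ((g' : E' →+* E').comp s')
    (fun y => ?_) fun p => ?_) z
  · change s' (g' (b.j y)) = g' (s' (b.j y))
    rw [← e, hfix, hfix, e]
  · change s' (g' (toF M[X] F' E' p)) = g' (s' (toF M[X] F' E' p))
    rw [hg, hp, hg]

theorem dkk {M L F' E' : Type} [Field M] [Field L] [Field F'] [Field E'] [Algebra K L]
    [FiniteDimensional K L] [IsGalois K L] [Algebra KK M] [IsAlgClosed M] [Algebra.IsAlgebraic KK M]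
    [Algebra M[X] F'] [IsFractionRing M[X] F'] [Algebra F' E'] [FiniteDimensional F' E']
    [IsGalois F' E'] {hι : ∀ p, ι (toF KK[X] F E p) = tL KK p}
    (b : Bc (dg F ι hι) (algebraMap KK M) F' E') (γ : L →+* M)
    (hγ : ∀ a, γ (algebraMap K L a) = algebraMap KK M (algebraMap K KK a)) (h : Dfd F' γ b.ι) :
    ∃ L₀ : IntermediateField K KK, FiniteDimensional K L₀ ∧ Algebra.IsSeparable K L₀ ∧
      Dfd F (algebraMap L₀ KK) ι := by
  obtain ⟨S, hS, hf, hd⟩ := h
  let L₀ : IntermediateField K KK :=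
    (γ.fieldRange.comap (algebraMap KK M)).toIntermediateField fun a => ⟨_, hγ a⟩
  obtain ⟨e, he⟩ := ring_factor ((algebraMap KK M).comp (algebraMap L₀ KK)) γ γ.injective
    fun z => z.2
  let e' : L₀ →ₐ[K] L := { e with commutes' := fun a => γ.injective ((he _).trans (hγ a).symm) }
  refine ⟨L₀, FiniteDimensional.of_injective e'.toLinearMap e.injective,
    Algebra.IsSeparable.of_algHom K L e', ?_⟩
  obtain ⟨r, hr⟩ := exists_act (K := K) γ (MulSemiringAction.toRingAut (M ≃ₐ[KK] M) M)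
    fun s a => by
      rw [hγ]
      exact s.commutes _
  have hr' : ∀ s x, γ (r s x) = s (γ x) := hr
  choose σ hσ hσg using dkk_semi b
  choose t ht using fun δ : r.range => MonoidHom.mem_range.1 δ.2
  have hτ : ∀ (δ : r.range) z f k, lm γ f = b.ι z →
      (b.ι (σ (t δ) z)).coeff k = γ (δ.1 (f.coeff k)) := by
    intro δ z f k hz
    rw [hσ, ← hz, ← ht, hr']
    rfl
  let c : L →+* E' := ((toF M[X] F' E').comp Polynomial.C).comp γ
  have hc : ∀ a, b.ι (c a) = lm γ (tL L (Polynomial.C a)) := fun a => by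
    rw [lm_tM, Polynomial.map_C]
    exact b.hι _
  have hcg : ∀ (g' : E' ≃ₐ[F'] E') a, g' (c a) = c a := fun g' a => g'.commutes _
  have hcτ : ∀ (δ : r.range) a, σ (t δ) (c a) = c (δ.1 a) := fun δ a => b.ι.injective (by
    ext k
    rw [hτ δ _ _ k (hc a).symm, hc]
    change γ ((lm (δ.1 : L →+* L) (tL L (Polynomial.C a))).coeff k) = _
    rw [lm_tM, Polynomial.map_C]
    rfl)
  let T : E' → E' := fun z => ∑ δ : r.range, σ (t δ) z
  have hTg : ∀ (g' : E' ≃ₐ[F'] E') z, g' (T z) = T (g' z) := fun g' z => by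
    simp only [T, map_sum, hσg]
  have hT : ∀ z, b.ι z ∈ (lm γ).range →
      ∃ y, b.j y = T z ∧ ι y ∈ (lm (algebraMap L₀ KK)).range := by
    rintro z ⟨f, hz⟩
    have h1 : ∀ k, (b.ι (T z)).coeff k = γ (∑ δ : r.range, δ.1 (f.coeff k)) := fun k => by
      simp only [T, map_sum, HahnSeries.coeff_sum, hτ _ z f k hz]
    have h2 : ∀ k, (b.ι (T z)).coeff k ∈ (algebraMap KK M).range := fun k => by
      rw [h1]
      refine dkk_fix ?_ fun s => ?_
      · let _ : Algebra K M := ((algebraMap KK M).comp (algebraMap K KK)).toAlgebra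
        have : IsScalarTower K KK M := .of_algebraMap_eq fun _ => rfl
        let γ' : L →ₐ[K] M := { γ with commutes' := hγ }
        exact IsSeparable.tower_top KK ((Algebra.IsSeparable.isSeparable K _).map γ' γ.injective)
      · rw [← hr', map_sum]
        exact congrArg γ (Fintype.sum_equiv (Equiv.mulLeft (⟨r s, s, rfl⟩ : r.range)) _ _
          fun _ => rfl)
    obtain ⟨y, hy⟩ := b.mem ((mem_lm_range (algebraMap KK M).injective _).2 h2)
    refine ⟨y, hy, (mem_lm_range (algebraMap L₀ KK).injective _).2 fun k => ?_⟩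
    refine ⟨⟨(ι y).coeff k, _, (h1 k).symm.trans ?_⟩, rfl⟩
    rw [← hy, b.hj]
    rfl
  let B := Module.finBasis K L
  have hU : ∀ i, ∀ z ∈ S, b.ι (c (B i) * z) ∈ (lm γ).range := fun i z hz => by
    rw [map_mul, hc]
    exact mul_mem ⟨_, rfl⟩ (hd z hz)
  let Y : E' → E := fun z => Function.invFun b.j (T z)
  have hY : ∀ i, ∀ z ∈ S, b.j (Y (c (B i) * z)) = T (c (B i) * z) := fun i z hz =>
    Function.invFun_eq ((hT _ (hU i z hz)).imp fun _ h => h.1)
  have hext : ∀ g : E ≃ₐ[F] E, ∃ g' : E' ≃ₐ[F'] E', ∀ z, g' (b.j z) = b.j (g z) := fun g =>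
    b.ext (by rw [geo_dg]; trivial)
  refine ⟨(Finset.univ ×ˢ S).image fun x => Y (c (B x.1) * x.2), fun g y hy => ?_,
    fun g hg => ?_, fun y hy => ?_⟩
  · obtain ⟨⟨i, z⟩, hz, rfl⟩ := Finset.mem_image.1 hy
    have hz' : z ∈ S := (Finset.mem_product.1 hz).2
    obtain ⟨g', hg'⟩ := hext g
    refine Finset.mem_image.2 ⟨(i, g' z),
      Finset.mem_product.2 ⟨Finset.mem_univ _, hS _ z hz'⟩, b.j.injective ?_⟩
    rw [← hg', hY i _ hz', hY i _ (hS _ z hz'), hTg, map_mul, hcg]
  · obtain ⟨g', hg'⟩ := hext g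
    obtain rfl : g' = 1 := hf _ fun z hz => by
      have h1 := dkk_ind B c r.range (fun δ => σ (t δ) (g' z - z)) fun i => by
        have h2 : T (c (B i) * g' z) = T (c (B i) * z) := by
          have h3 := hg _ (Finset.mem_image.2
            ⟨(i, z), Finset.mem_product.2 ⟨Finset.mem_univ _, hz⟩, rfl⟩)
          rw [← hcg g', ← map_mul, ← hTg, hcg, ← hY i z hz, hg', h3]
        simp only [T, map_mul, hcτ] at h2
        simp only [map_sub, mul_sub, Finset.sum_sub_distrib, mul_comm _ (c _), h2, sub_self]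
      exact sub_eq_zero.1 ((map_eq_zero _).1 h1)
    exact AlgEquiv.ext fun z => b.j.injective (hg' z).symm
  · obtain ⟨⟨i, z⟩, hz, rfl⟩ := Finset.mem_image.1 hy
    have hz' : z ∈ S := (Finset.mem_product.1 hz).2
    obtain ⟨y, h1, h2⟩ := hT _ (hU i z hz')
    obtain rfl : y = Y (c (B i) * z) := b.j.injective (h1.trans (hY i z hz').symm)
    exact h2

end Pool.Agent.ZFy.ZL
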