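import Pool.Agent.Lib.MP_751085_ag.ZF.Z.Rsj
import Pool.Agent.Lib.MP_751085_ag.ZF.Z.Clo1
import Pool.Agent.Lib.MP_751085_ag.ZF.Z.Gr1
import Pool.Agent.Lib.MP_751085_ag.ZF.Z.Ract
import Pool.Agent.Lib.MP_751085_ag.ZF.Z.LocE

/-! The closure at a prime over `y`. -/

namespace Pool.Agent.ZFy.ZL

open Pool.Agent.ZCy
open scoped Classical WithZero Polynomial

set_option linter.unusedSectionVars false

variable {l q : ℕ} {k A K F T N₁ : Type} [Field k] [CommRing A] [IsDomain A]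
  [UniqueFactorizationMonoid A] [Field K] [Field F] [Field T] [Field N₁] [Algebra A K]
  [IsFractionRing A K] [Algebra K[X] F] [IsFractionRing K[X] F] [Algebra F T]
  [FiniteDimensional F T] [IsGalois F T] [Algebra K N₁] [FiniteDimensional K N₁] [IsGalois K N₁]
  {c : k →+* A} {Th : A[X]} {Δ : A} {τ : T →+* Ls N₁}
variable {K₁ κ₀ κ₁ : Type} [Field K₁] [Field κ₀] [Field κ₁] [Algebra K K₁] [FiniteDimensional K K₁]
  [IsGalois K K₁] [Algebra κ₀ κ₁] [FiniteDimensional κ₀ κ₁] [IsGalois κ₀ κ₁]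
  {H : Hy K c K₁ κ₀ κ₁}
variable {F₀ E₀ : Type} [Field F₀] [Field E₀] [Algebra κ₀[X] F₀] [IsFractionRing κ₀[X] F₀]
  [Algebra F₀ E₀] [FiniteDimensional F₀ E₀] [IsGalois F₀ E₀] {d₀ : SecD 1 κ₀ κ₁ F₀ E₀} {wT : Vl T}
  {ρT : wT.integer →+* E₀}
variable {κ FK ER : Type} [Field κ] [IsAlgClosed κ] [Field FK] [Field ER] [Algebra (Ls κ)[X] FK]
  [IsFractionRing (Ls κ)[X] FK] [Algebra FK ER] [FiniteDimensional FK ER] [IsGalois FK ER]
  {Λ : Loc H T N₁ F l q Th κ}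
variable {𝓛 : Lft H Λ τ d₀ wT ρT FK ER}
variable {L₀ F' E' : Type} [Field L₀] [Field F'] [Field E'] [Algebra K L₀] [FiniteDimensional K L₀]
  [Algebra.IsSeparable K L₀] [Algebra L₀[X] F'] [IsFractionRing L₀[X] F'] [Algebra F' E']
  [FiniteDimensional F' E'] [IsGalois F' E'] {ι' : E' →+* Ls L₀}
variable {L N : Type} [Field L] [Field N] [Algebra K L] [FiniteDimensional K L] [IsGalois K L]
  [Algebra F N] [FiniteDimensional F N] [IsGalois F N] {d : SecD 1 K L F N} {e : L₀ →ₐ[K] L}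
  {m : E' →+* N}
variable {hι : ∀ p, ι' (toF L₀[X] F' E' p) = tL L₀ p} {γ₀ : L₀ →+* Ls κ}
  {π : (N ≃ₐ[F] N) →* (L ≃ₐ[K] L)} {σ : (L ≃ₐ[K] L) →* (N ≃ₐ[F] N)}

theorem dscl_int {B R Ω : Type} [CommRing B] [CommRing R] [Field Ω] {φ : B →+* Ω} {ρ : R →+* Ω}
    (h : ∀ b, φ b ∈ ρ.range) {x : Ω} (hx : φ.IsIntegralElem x) : ρ.IsIntegralElem x := by
  obtain ⟨p, hm, hp⟩ := hx
  obtain ⟨p', h1, -, h2⟩ := Polynomial.lifts_and_natDegree_eq_and_monic (f := ρ)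
    ((Polynomial.lifts_iff_coeff_lifts _).2 fun n => by
      rw [Polynomial.coeff_map]; exact h _) (hm.map φ)
  exact ⟨p', h2, by rw [Polynomial.eval₂_eq_eval_map, h1, ← Polynomial.eval₂_eq_eval_map, hp]⟩

theorem dscl_id {R : Type} [CommRing R] (x : Ls R) : lm (RingHom.id R) x = x := by
  ext; rfl

theorem clo_loc (C : Crt K F l q c Th Δ τ) (hy : ¬H.y ∣ Δ) (S : Spc H F l Th d₀ wT ρT)
    (M : Mo 𝓛 (dg F' ι' hι) γ₀) {eK : K₁ →ₐ[K] L₀} (hK : ∀ a, γ₀ (eK a) = Λ.γ₁ a)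
    (h : Cl ι' d e m) (hs : d.Spl π σ) :
    ∃ (w : Vl L) (W : Vl N) (r : Dec F W →* (E₀ ≃ₐ[F₀] E₀)), Cen (toF A K L) w H.y ∧
      geo d ≤ Dec F W ∧ (∀ δ ∈ Dec K w, σ δ ∈ Dec F W) ∧
      (∀ δ ∈ Dec K w, (∀ a, δ (e (eK a)) = e (eK a)) → ∀ hδ, r ⟨σ δ, hδ⟩ = 1) ∧
      (∀ g ∈ geo d, ∀ hg, r ⟨g, hg⟩ = 1 ↔ ∀ z, g (m z) = m z) ∧
      ∀ g : Dec F W, r g = 1 → ∀ x, (g : N ≃ₐ[F] N) (m (M.j x)) = m (M.j x) := by
  have hA : ∀ a, γ₀ (algebraMap K L₀ (algebraMap A K a)) = lid κ (Λ.η a) := fun a => by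
    rw [← eK.commutes, hK]; exact Λ.h₁ a
  have sc' := M.sc C hA
  have sc := h.sc sc'
  obtain ⟨δ₀, hδ₀, hρ₀⟩ := exists_ls_int γ₀
  have hi : ∀ (a : ((lval κ).comap γ₀).integer) (g : Ps κ), γ₀ a = lid κ g → δ₀ a = g :=
    fun a g hg => (isVR_lval κ).2.1 ((hδ₀ a).trans hg)
  have hc₀ : Cen ((algebraMap K L₀).comp (algebraMap A K)) ((lval κ).comap γ₀) H.y :=
    ⟨fun a => (congrArg (lval κ) (hA a)).trans_le (Λ.cen.1 a),
      fun a => (congrArg (lval κ · < 1) (hA a)).to_iff.trans (Λ.cen.2 a)⟩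
  let _ := (e : L₀ →+* L).toAlgebra
  have : IsScalarTower K L₀ L := .of_algebraMap_eq fun a => (e.commutes a).symm
  have : FiniteDimensional L₀ L := Module.Finite.of_restrictScalars_finite K L₀ L
  obtain ⟨w, hw⟩ := exists_over (E := L) ((lval κ).comap γ₀)
  obtain ⟨ρL, hρL, hρe⟩ := exists_red_over hw hρ₀
  have hc : Cen (toF A K L) w H.y := by
    have := over_cen hc₀ hw
    rwa [← RingHom.comp_assoc, ← IsScalarTower.algebraMap_eq] at this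
  obtain ⟨W', hN', hD', hI'⟩ := C.gr1 sc' H.prime hy hc₀
  obtain ⟨W, hN, hD, -⟩ := C.gr1 sc H.prime hy hc
  obtain ⟨ρW', hW'⟩ := hN'.exists_red' (dg F' ι' hι).hc hρ₀
  obtain ⟨ρW, hW⟩ := hN.exists_red' d.hc hρL
  obtain ⟨ho, hoρ⟩ := hW'.map hW m e hw.int (RingHom.id κ) h.hm (fun _ => rfl) hρe
  simp only [dscl_id] at hoρ
  have hf : ∀ b, ∃ a h, cc κ (δ₀ ⟨eK a, h⟩) = Λ.f b := fun b => by
    obtain ⟨a, hab⟩ := H.onto b
    obtain ⟨g, h1, h2⟩ := Λ.rel a b hab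
    have h3 := (hK a).trans h1
    exact ⟨a, (congrArg (lval κ) h3).trans_le (((isVR_lval κ).2.2 _).2 ⟨g, rfl⟩),
      (congrArg (cc κ) (hi _ g h3)).trans h2⟩
  obtain ⟨hsj, hb, hbρ⟩ := M.rsj' hD' hI' hN' (fun b => by
    obtain ⟨a, h1, h2⟩ := hf b
    exact ⟨_, h2⟩) (fun a g hg => congrArg (cc κ) (hi a g hg).symm) hW'
  have hJ : ∀ y, ∃ x, ρW (ho.int x) = ((lm Λ.f).comp d₀.ι) y := fun y => by
    obtain ⟨x, hx⟩ := hsj y
    exact ⟨x, (hoρ x).trans hx⟩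
  obtain ⟨r, hr⟩ := exists_ract (F := F) (F₀ := F₀) hW.red ((lm Λ.f).comp d₀.ι)
    (fun y => (hJ y).elim fun x hx => ⟨_, hx⟩) (H.lift hW.red fun p => by
      obtain ⟨hp, e'⟩ := hW.poly ((toF A K L).codRestrict w.integer hc.1) (φ := pA A K F N)
        (fun p => (d.ht _).trans (by rw [Polynomial.coe_mapRingHom, Polynomial.map_map]; rfl)) p
      refine ⟨hp, e'.trans ?_⟩
      rw [RingHom.comp_apply, d₀.ht, lm_tM, Polynomial.map_map, Polynomial.map_map]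
      refine congrArg (fun u => tL κ (p.map u)) (RingHom.ext fun a => ?_)
      exact (congrArg ρL (Subtype.ext (e.commutes _).symm)).trans ((hρe ⟨_, hc₀.1 a⟩).trans
        ((congrArg (cc κ) (hi _ _ (hA a))).trans (Λ.hcc a))))
  have hr1 : ∀ g : Dec F W, (∀ x x' : W.integer, (x' : N) = (g : N ≃ₐ[F] N) x →
      (∃ y, x = ho.int y ∧ ρW x ∈ ((lm Λ.f).comp d₀.ι).range) → ρW x' = ρW x) → r g = 1 :=
    fun g hg => AlgEquiv.ext fun y => ((lm Λ.f).comp d₀.ι).injective (by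
      obtain ⟨x, hx⟩ := hJ y
      exact (hr g _ ⟨_, (g.2 _).trans_le (ho.int x).2⟩ y rfl hx).symm.trans
        ((hg _ _ rfl ⟨x, rfl, y, hx.symm⟩).trans hx))
  refine ⟨w, W, r, hc, hD, fun δ hδ => (hN.dec_ine d.hc (hs.hσ δ)).1 hδ, fun δ hδ hfix hδ' => ?_,
    fun g hg hg' => ⟨fun h1 => ?_, fun h1 => hr1 _ fun x x' hx ⟨y, hy, _⟩ =>
      congrArg ρW (Subtype.ext (hx.trans (hy ▸ h1 y)))⟩, fun g h1 x => ?_⟩
  · have hov : Over (δ : L →+* L) w w := mem_dec.1 hδ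
    have hfL : ∀ b, ∃ a h, ρL ⟨e (eK a), h⟩ = Λ.f b := fun b => by
      obtain ⟨a, h1, h2⟩ := hf b
      exact ⟨a, _, (hρe ⟨_, h1⟩).trans h2⟩
    obtain ⟨s, hs'⟩ := exists_red_ext hρL (hρL.comp_int hov) fun x => dscl_int (fun b => by
      obtain ⟨a, h1, h2⟩ := hfL (algebraMap κ₀ κ₁ b)
      exact ⟨_, h2⟩) (Λ.alg x)
    obtain ⟨ho', h1⟩ := hW.map hW (σ δ : N →+* N) (δ : L →+* L) hov.int s (hs.hσ δ)
      (fun _ => rfl) fun a => (hs' a).symm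
    refine hr1 _ fun x x' hx ⟨_, _, y, hy⟩ => ?_
    rw [show x' = ho'.int x from Subtype.ext hx, h1, ← hy]
    ext i
    obtain ⟨a, h2, h3⟩ := hfL ((d₀.ι y).coeff i)
    exact (congrArg s h3.symm).trans ((hs' _).trans
      ((congrArg ρL (Subtype.ext (hfix a))).trans h3))
  · obtain ⟨g', h2⟩ := h.restr hι hg
    have h3 : g' ∈ geo (dg F' ι' hι) := geo_dg ι' hι ▸ Subgroup.mem_top g'
    obtain ⟨gR, h4⟩ := M.b.ext h3
    obtain rfl : gR = 1 := 𝓛.faith gR fun y => by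
      obtain ⟨x, hx⟩ := hJ y
      refine ⟨hb.int x, hb.int ⟨g' x, (hD' h3 _).trans_le x.2⟩, (h4 x).symm,
        (hbρ x).trans ((hoρ x).symm.trans hx), (hbρ _).trans ((hoρ _).symm.trans ?_)⟩
      rw [hr ⟨g, hg'⟩ _ _ y (h2 x) hx, h1]
      rfl
    exact fun z => (h2 z).symm.trans (congrArg m (M.b.j.injective (h4 z).symm))
  · obtain ⟨gT, h2⟩ := exists_restrict (K := F) (m.comp M.j) ((g : N ≃ₐ[F] N) : N →+* N)
      fun a => by rw [sc.alg]; exact (g : N ≃ₐ[F] N).commutes a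
    have h3 : Over M.j wT W' := fun x => (hb _).symm.trans
      ((congrArg (𝓛.W · ≤ 1) (RingHom.congr_fun M.hj x)).to_iff.symm.trans (𝓛.ov x))
    refine (h2 x).symm.trans (congrArg (m.comp M.j) (sep_fix C.sep (RingHom.id T) (W := wT)
      (gT : T →+* T) gT.commutes (fun z hz => ?_) hy
      (H.cen (J := RingHom.id E₀) S.red S.res) x))
    have h4 : ρW (ho.int (h3.int ⟨z, hz⟩)) = ((lm Λ.f).comp d₀.ι) (ρT ⟨z, hz⟩) :=
      (hoρ _).trans ((hbρ _).symm.trans ((congrArg 𝓛.ρ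
        (Subtype.ext (RingHom.congr_fun M.hj z).symm)).trans (𝓛.resT ⟨z, hz⟩)))
    have h5 := hr g _ ⟨_, (g.2 _).trans_le (ho.int (h3.int ⟨z, hz⟩)).2⟩ _ rfl h4
    rw [h1, AlgEquiv.one_apply, ← h4, hW.red.eq_iff] at h5
    refine ((h3.trans ho).lt_one _).1 ?_
    rw [map_sub]
    exact (congrArg (fun u => W (u - _)) (h2 z)).trans_lt h5

end Pool.Agent.ZFy.ZL
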