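import Pool.Agent.Lib.MP_751085_ag.ZF.Z.Defs2
import Pool.Agent.Lib.MP_751085_ag.ZF.Z.Red
import Pool.Agent.Lib.MP_751085_ag.ZF.G.Sub
import Pool.Agent.Lib.MP_751085_ag.ZC.V.Ctr
import Pool.Agent.Lib.MP_751085_ag.ZC.V.Ext
import Pool.Agent.Lib.MP_751085_ag.ZC.Z.Cen1

/-! The substitution `z ↦ z ^ e * ε`. -/

namespace Pool.Agent.ZFy.ZL

open Pool.Agent.ZCy
open scoped Classical WithZero Polynomial

set_option linter.unusedSectionVars false

section

variable {R : Type} [CommRing R] {e : ℕ} {ε : Ps R} {φ : Ps R →+* Ps R}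

theorem exists_sbz (he : 0 < e) (hε : IsUnit ε) : ∃ φ, Sbz e ε φ := by
  obtain ⟨φ, h1, h2⟩ := GM.exists_sub (PowerSeries.X ^ e * ε) (by simp [he.ne'])
  exact ⟨φ, he, hε, h1, h2⟩

theorem Sbz.injective (h : Sbz e ε φ) : Function.Injective φ := by
  exact GM.sub_inj h.C h.pos h.unit h.X

theorem dsk_span {A B : Type} [CommRing A] [CommRing B] (φ : A →+* B) (v : Fin e → B)
    (h : ∀ f, ∃ g : Fin e → A, f = ∑ i, φ (g i) * v i) : φ.Finite := by
  let := φ.toAlgebra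
  refine Module.Finite.of_surjective (Fintype.linearCombination A v) fun f => ?_
  obtain ⟨g, rfl⟩ := h f
  exact ⟨g, rfl⟩

theorem Sbz.finite (h : Sbz e ε φ) : φ.Finite := by
  exact dsk_span φ _ (GM.sub_span h.C h.pos h.unit h.X)

theorem Sbz.cc (h : Sbz e ε φ) (f : Ps R) : cc R (φ f) = cc R f := by
  rw [f.eq_X_mul_shift_add_const]
  simp [h.X, h.C, h.pos.ne']

theorem Sbz.map (h : Sbz e ε φ) {R' : Type} [CommRing R'] (s : R →+* R') {φ' : Ps R' →+* Ps R'}
    (h' : Sbz e (PowerSeries.map s ε) φ') (f : Ps R) :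
    PowerSeries.map s (φ f) = φ' (PowerSeries.map s f) := by
  exact DFunLike.congr_fun (GM.sub_ext ((PowerSeries.map s).comp φ) (φ'.comp (PowerSeries.map s))
    (fun r => by simp [h.C, h'.C]) (by simp [h.X, h'.X]) (by simp [h.X, h.pos.ne'])) f

theorem Sbz.poly (h : Sbz e ε φ) (t : R) (p : R[X]) :
    φ (p.eval₂ PowerSeries.C (PowerSeries.C t + PowerSeries.X)) =
      p.eval₂ PowerSeries.C (PowerSeries.C t + PowerSeries.X ^ e * ε) := by
  rw [Polynomial.hom_eval₂, map_add, h.C, h.X, show φ.comp _ = _ from RingHom.ext h.C]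

end

theorem dsk_fin {B₀ B S' S : Type} [CommRing B₀] [CommRing B] [Field S'] [Field S] {φ : B₀ →+* B}
    (hf : φ.Finite) {β : B →+* S} (hβ : IsFr β) [Algebra S' S] {i₀ : B₀ →+* S'}
    (e : (algebraMap S' S).comp i₀ = β.comp φ) : FiniteDimensional S' S := by
  let := φ.toAlgebra
  have : Module.Finite B₀ B := hf
  obtain ⟨n, b, hb⟩ := Module.Finite.exists_fin (R := B₀) (M := B)
  have := IntermediateField.finiteDimensional_adjoin (K := S') (S := Set.range fun j => β (b j)) (by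
    rintro _ ⟨j, rfl⟩
    obtain ⟨p, h1, h2⟩ := hf.to_isIntegral (b j)
    exact ⟨p.map i₀, h1.map _, by
      rw [Polynomial.eval₂_map, e, ← Polynomial.hom_eval₂, h2, map_zero]⟩)
  have h1 : ∀ y, β y ∈ IntermediateField.adjoin S' (Set.range fun j => β (b j)) := fun y => by
    induction (hb.ge (Submodule.mem_top (x := y))) using Submodule.span_induction with
    | mem _ hx =>
      obtain ⟨j, rfl⟩ := hx
      exact IntermediateField.subset_adjoin _ _ ⟨j, rfl⟩
    | zero => exact β.map_zero ▸ zero_mem _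
    | add _ _ _ _ h1 h2 => exact β.map_add _ _ ▸ add_mem h1 h2
    | smul a x _ h1 =>
      rw [show β (a • x) = algebraMap S' S (i₀ a) * β x from
        (β.map_mul _ _).trans (congrArg (· * _) (DFunLike.congr_fun e a).symm)]
      exact mul_mem (IntermediateField.algebraMap_mem _ _) h1
  refine Module.Finite.of_surjective (IntermediateField.adjoin S'
    (Set.range fun j => β (b j))).val.toLinearMap fun x => ?_
  obtain ⟨a, d, h2, h3⟩ := hβ.2 x
  exact ⟨⟨_, div_mem (h1 a) (h1 d)⟩, (eq_div_of_mul_eq (hβ.vfrc_ne h2) h3).symm⟩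

/-- a prime that has only one prime above it -/
theorem loc_uniq {B₀ B S' S : Type} [CommRing B₀] [IsDomain B₀] [UniqueFactorizationMonoid B₀]
    [CommRing B] [IsDomain B] [UniqueFactorizationMonoid B] [Field S'] [Field S] {φ : B₀ →+* B}
    (hi : Function.Injective φ) (hf : φ.Finite) {β : B →+* S} (hβ : IsFr β) {i : S' →+* S}
    {i₀ : B₀ →+* S'} (h : ∀ a, i (i₀ a) = β (φ a)) {P₀ : B₀} {P : B} (h₀ : Prime P₀) (hP : Prime P)
    {m : ℕ} (hm : φ P₀ ∣ P ^ m) {V : Vl S} (hV : Cen β V P) {V' : Vl S'} (hV' : Cen i₀ V' P₀)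
    (x : S') : V' x ≤ 1 ↔ V (i x) ≤ 1 := by
  let := i.toAlgebra
  have e : i.comp i₀ = β.comp φ := RingHom.ext h
  have := dsk_fin hf hβ e
  obtain ⟨W, hW⟩ := exists_over (E := S) V'
  have h1 : Cen (β.comp φ) W P₀ := e ▸ (cen_of_over hW).2 hV'
  obtain ⟨P', h2, h3⟩ := cen_goup hi hf.to_isIntegral h₀ h1
  have h4 := h2.dvd_of_dvd_pow (((h3.2 _).1 ((h1.2 P₀).2 dvd_rfl)).trans hm)
  exact (hW x).symm.trans (Cen.iff hβ hP hV (h3.assoc (h2.associated_of_dvd hP h4)) _)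

/-- the valuation of the zero section -/
theorem exists_vs {R KK S : Type} [CommRing R] [IsDomain R] [Field KK] [Field S] {α : R →+* KK}
    (hα : IsFr α) {β : Ps R →+* S} (hβ : IsFr β) : ∃ (V : Vl S) (ρ : V.integer →+* KK)
      (h : Cen β V PowerSeries.X), IsRed V ρ ∧ ∀ f, ρ ⟨β f, h.1 f⟩ = α (cc R f) := by
  obtain ⟨j, hj⟩ := hβ.exists_lift (lau_inj hα.1)
  obtain ⟨δ, h1, h2⟩ := exists_ls_int j
  have e : ∀ f, j (β f) = lid KK (PowerSeries.map α f) := hj
  have h3 : ∀ f, cc KK (PowerSeries.map α f) = α (cc R f) := fun f => rfl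
  refine ⟨_, _, ⟨fun f => ?_, fun f => ?_⟩, h2, fun f => ?_⟩
  · rw [Valuation.comap_apply, e]
    exact (isVR_lval KK).le_one _
  · rw [Valuation.comap_apply, e, ← cc_eq_zero, h3, map_eq_zero_iff α hα.1, PowerSeries.X_dvd_iff]
  · rw [RingHom.comp_apply, (isVR_lval KK).2.1 ((h1 _).trans (e f)), h3]

theorem isFr_lid (κ : Type) [Field κ] : IsFr (lid κ) := by
  exact (isVR_lval κ).isFr

theorem exists_flag {κ S : Type} [Field κ] [Field S] {β : Ps (Ps κ) →+* S} (hβ : IsFr β) :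
    Nonempty (Flag β) := by
  obtain ⟨V, ρ, h1, h2, h3⟩ := exists_vs (isFr_lid κ) hβ
  have hP := prime_ps_C (PowerSeries.X_prime (R := κ))
  obtain ⟨V', h4, -⟩ := exists_vcen hβ hP
  obtain ⟨ρ', h5, h6, -⟩ := h4.exists_red hβ hP (l := (lid κ).comp (PowerSeries.map (cc κ)))
    fun a => by
      rw [RingHom.comp_apply, map_eq_zero_iff _ (isFr_lid κ).1, ps_C_dvd, PowerSeries.ext_iff]
      simp only [PowerSeries.coeff_map, map_zero, PowerSeries.X_dvd_iff]
  exact ⟨⟨V, V', ρ, ρ', h1, h4, h2, h5, h3, h6⟩⟩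

end Pool.Agent.ZFy.ZL
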