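import Pool.Agent.Lib.MP_751085_ag.ZF.Z.Clo1
import Pool.Agent.Lib.MP_751085_ag.ZF.Z.GalX
import Pool.Agent.Lib.MP_751085_ag.ZC.V.DecB

/-! Inertia groups and algebraic extensions of the constants. -/

namespace Pool.Agent.ZFy.ZL

open Pool.Agent.ZCy
open scoped Classical WithZero Polynomial

set_option linter.unusedSectionVars false

variable {K L F N : Type} [Field K] [Field L] [Field F] [Field N] [Algebra K L] [Algebra K[X] F]
  [IsFractionRing K[X] F] [Algebra F N] [FiniteDimensional F N] [IsGalois F N]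
variable {M F' N' : Type} [Field M] [Field F'] [Field N'] [Algebra M[X] F'] [IsFractionRing M[X] F']
  [Algebra F' N'] [FiniteDimensional F' N'] [IsGalois F' N'] {d : SecD 1 K L F N} {γ : L →+* M}

theorem Bc.ine_sep (b : Bc d γ F' N') (hγ : γ.Finite) (hs : ∀ a, ∃ μ : L[X], μ.Separable ∧
    μ.eval₂ γ a = 0) {Ξ : Vl N'} (h1 : ∀ a, Ξ (toF M[X] F' N' (Polynomial.C a)) ≤ 1)
    {g : N ≃ₐ[F] N} (hg : g ∈ Ine F (Ξ.comap b.j)) {g' : N' ≃ₐ[F'] N'}
    (h : ∀ z, g' (b.j z) = b.j (g z)) : g' ∈ Ine F' Ξ := by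
  let := γ.toAlgebra
  have : FiniteDimensional L M := hγ
  have : Algebra.IsSeparable L M := ⟨fun a => by
    obtain ⟨μ, h2, h3⟩ := hs a
    exact h2.of_dvd (minpoly.dvd L a h3)⟩
  obtain ⟨_, _, _, e₀⟩ := exists_geo d (Fr L[X])
  obtain ⟨u, hu⟩ := geo_iso d e₀
  obtain ⟨g₀, h2, h3⟩ := b.restr g'
  obtain ⟨gL, h4⟩ := u.surjective ⟨g₀, h2⟩
  have h5 : ∀ x, gL x = g x := fun x => by
    rw [← hu, h4]
    exact b.j.injective ((h3 x).trans (h x))
  obtain ⟨L₃, _, _, _, _, N₃, _, _, _, _, d₃, e, m, c⟩ := exists_clo1 L (Fr L[X]) b.hι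
  have hp : ∀ p : L[X], m (toF M[X] F' N' (p.map γ)) = toF L[X] (Fr L[X]) N₃ p := fun p => by
    rw [c.φ b.hι, Polynomial.map_map, ← d₃.φ_map]
    exact congrArg (fun f => d₃.φ (p.map f)) (RingHom.ext e.commutes)
  have hi : Sq (RingHom.id (Fr L[X])) (m.comp b.j) := RingHom.congr_fun
    (f := (m.comp b.j).comp (algebraMap _ N)) (g := algebraMap _ N₃)
    (IsFractionRing.ringHom_ext (A := L[X]) fun p => by
      rw [← show _ = algebraMap _ N₃ _ from hp p, ← b.hφ, ← e₀]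
      rfl)
  let := m.toAlgebra
  let := (b.j.comp (algebraMap (Fr L[X]) N)).toAlgebra
  have : IsScalarTower (Fr L[X]) N' N₃ := .of_algebraMap_eq fun a => (hi a).symm
  have := Module.Finite.of_restrictScalars_finite (Fr L[X]) N' N₃
  obtain ⟨w, ho⟩ := exists_over (E := N₃) Ξ
  replace ho : Over m Ξ w := ho
  obtain ⟨r, hr⟩ := exists_rs hi
  obtain ⟨g₃, h6, h7⟩ := hr.ine_onto hi ((Over.comap b.j Ξ).trans ho) (g := gL)
    ⟨fun x => h5 x ▸ hg.1 x, fun x hx => h5 x ▸ hg.2 x hx⟩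
  have h8 : ∀ p : L[X], g₃ (m (toF M[X] F' N' (p.map γ))) = m (toF M[X] F' N' (p.map γ)) :=
    fun p => by rw [hp]; exact g₃.commutes _
  have key := RingHom.congr_fun (b.hom_ext ((g₃ : N₃ →+* N₃).comp m) (m.comp (g' : N' →+* N'))
    (fun z => (hr g₃ z).symm.trans (by rw [h7, h5]; exact congrArg m (h z).symm)) fun p => by
      refine .trans ?_ (congrArg m (g'.commutes _).symm)
      refine RingHom.congr_fun (f := ((g₃ : N₃ →+* N₃).comp m).comp (toF M[X] F' N'))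
        (g := m.comp (toF M[X] F' N')) (Polynomial.ringHom_ext (fun a => ?_) ?_) p
      · exact ine_fix_int h6 (((m.comp (toF M[X] F' N')).comp Polynomial.C).comp γ)
          (fun a => by have := h8 (.C a); rwa [Polynomial.map_C] at this)
          (fun a => (ho _).2 (h1 _)) (misc1_int (Algebra.IsIntegral.isIntegral (R := L) a)
            ((m.comp (toF M[X] F' N')).comp Polynomial.C))
      · have := h8 .X
        rwa [Polynomial.map_X] at this)
  replace key : ∀ x, g₃ (m x) = m (g' x) := key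
  refine ⟨mem_dec.2 fun x => by rw [← ho, ← ho, ← key, h6.1], fun x hx => (ho.lt_one _).1 ?_⟩
  rw [map_sub, ← key]
  exact h6.2 _ ((ho x).2 hx)

/-- base change in stages -/
theorem Bc.tower (b : Bc d γ F' N') {L₁ : Type} [Field L₁] (γ₁ : L →+* L₁) (γ₂ : L₁ →+* M)
    (h : ∀ a, γ₂ (γ₁ a) = γ a) (F₁ : Type) [Field F₁] [Algebra L₁[X] F₁] [IsFractionRing L₁[X] F₁] :
    ∃ (N₁ : Type) (_ : Field N₁) (_ : Algebra F₁ N₁) (_ : FiniteDimensional F₁ N₁)
      (_ : IsGalois F₁ N₁) (b₁ : Bc d γ₁ F₁ N₁) (b₂ : Bc (dg F₁ b₁.ι b₁.hι) γ₂ F' N'),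
      b₂.ι = b.ι ∧ ∀ z, b₂.j (b₁.j z) = b.j z := by
  obtain ⟨N₁, _, _, _, _, ⟨b₁⟩⟩ := exists_bcd d γ₁ F₁
  have e : ∀ u, lm γ₂ (lm γ₁ u) = lm γ u := fun u => HahnSeries.ext (funext fun i => h _)
  obtain ⟨j, hj⟩ := ring_factor ((lm γ₂).comp b₁.ι) b.ι b.ι.injective fun z =>
    (b.range_iff _).2 (by
      refine (Subfield.mem_comap (f := lm γ₂)).1
        (Subfield.closure_le.2 ?_ ((b₁.range_iff _).1 ⟨z, rfl⟩ :))
      rintro _ (⟨z, rfl⟩ | ⟨p, rfl⟩)
      exacts [Subfield.subset_closure (Or.inl ⟨z, (e _).symm⟩),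
        Subfield.subset_closure (Or.inr ⟨_, (lm_tM γ₂ 1 p).symm⟩)])
  have h1 : ∀ z, j (b₁.j z) = b.j z := fun z => b.ι.injective (by
    rw [hj, RingHom.comp_apply, b₁.hj, e, b.hj])
  exact ⟨N₁, _, _, inferInstance, inferInstance, b₁, ⟨j, b.ι, b.hι, hj, fun g hg =>
    b.span g fun z => h1 z ▸ hg _⟩, rfl, h1⟩

theorem Bc.inea_pow [Algebra L M] [Algebra.IsIntegral L M] (b : Bc d (algebraMap L M) F' N')
    (x : N') : ∃ (r : ℕ) (L₁ : IntermediateField L M), FiniteDimensional L L₁ ∧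
      Algebra.IsSeparable L L₁ ∧ b.ι x ^ ringExpChar L ^ r ∈ (lm (algebraMap L₁ M)).fieldRange := by
  have := expChar_of_injective_ringHom
    ((HahnSeries.C : M →+* Ls M).comp (algebraMap L M)).injective (ringExpChar L)
  have mono : ∀ {r : ℕ} (r' : ℕ) {L₁ L₂ : IntermediateField L M} {u : Ls M}, L₁ ≤ L₂ →
      u ^ ringExpChar L ^ r ∈ (lm (algebraMap L₁ M)).fieldRange →
      u ^ ringExpChar L ^ (r + r') ∈ (lm (algebraMap L₂ M)).fieldRange :=
    fun r' _ _ _ h ⟨y, hy⟩ => by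
      rw [pow_add, pow_mul]
      exact pow_mem (RingHom.mem_fieldRange.2
        ⟨lm (IntermediateField.inclusion h : _ →+* _) y, hy⟩) _
  let S : Subfield N' :=
    { carrier := {x | ∃ (r : ℕ) (L₁ : IntermediateField L M), FiniteDimensional L L₁ ∧
        Algebra.IsSeparable L L₁ ∧ b.ι x ^ ringExpChar L ^ r ∈ (lm (algebraMap L₁ M)).fieldRange}
      mul_mem' := fun ⟨r, L₁, _, _, h⟩ ⟨r', L₂, _, _, h'⟩ => ⟨r + r', L₁ ⊔ L₂, inferInstance,
        inferInstance, by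
          rw [map_mul, mul_pow]
          exact mul_mem (mono r' le_sup_left h) (add_comm r' r ▸ mono r le_sup_right h')⟩
      add_mem' := fun ⟨r, L₁, _, _, h⟩ ⟨r', L₂, _, _, h'⟩ => ⟨r + r', L₁ ⊔ L₂, inferInstance,
        inferInstance, by
          rw [map_add, add_pow_expChar_pow]
          exact add_mem (mono r' le_sup_left h) (add_comm r' r ▸ mono r le_sup_right h')⟩
      one_mem' := ⟨0, ⊥, inferInstance, inferInstance, by rw [map_one, one_pow]; exact one_mem _⟩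
      zero_mem' := ⟨0, ⊥, inferInstance, inferInstance, by
        rw [map_zero, pow_zero, pow_one]; exact zero_mem _⟩
      neg_mem' := fun ⟨r, L₁, h1, h2, h⟩ => ⟨r, L₁, h1, h2, by
        rw [map_neg, neg_pow]
        exact mul_mem (pow_mem (neg_mem (one_mem _)) _) h⟩
      inv_mem' := fun _ ⟨r, L₁, h1, h2, h⟩ => ⟨r, L₁, h1, h2, by
        rw [map_inv₀, inv_pow]
        exact inv_mem h⟩ }
  refine (Subfield.closure_le (t := S)).2 ?_ (b.bc1_top ▸ Subfield.mem_top x :)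
  rintro _ (⟨z, rfl⟩ | ⟨p, rfl⟩)
  · exact ⟨0, ⊥, inferInstance, inferInstance, lm (algebraMap L _) (d.ι z), by
      rw [pow_zero, pow_one, b.hj]; rfl⟩
  induction p using Polynomial.induction_on with
  | C a =>
    have hi := Algebra.IsIntegral.isIntegral (R := L) (A := M)
    obtain ⟨r, hr⟩ := exists_pow_sep (minpoly.ne_zero (hi a))
    refine ⟨r, IntermediateField.adjoin L {a ^ ringExpChar L ^ r},
      IntermediateField.adjoin.finiteDimensional (hi _),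
      (IntermediateField.isSeparable_adjoin_simple_iff_isSeparable _ _).2
        (hr M a (minpoly.aeval L a)), tL _ (.C (IntermediateField.AdjoinSimple.gen L _)), ?_⟩
    rw [lm_tM, b.hι, Polynomial.map_C, ← map_pow, ← map_pow]
    rfl
  | add p q hp hq => exact map_add (toF M[X] F' N') p q ▸ S.add_mem hp hq
  | monomial n a h =>
    rw [pow_succ, ← mul_assoc, map_mul]
    exact S.mul_mem h ⟨0, ⊥, inferInstance, inferInstance, tL _ .X, by
      rw [lm_tM, b.hι, Polynomial.map_X, pow_zero, pow_one]⟩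

theorem Bc.ine_alg (b : Bc d γ F' N') (hγ : ∀ a, γ.IsIntegralElem a) {Ξ : Vl N'}
    (h1 : ∀ a, Ξ (toF M[X] F' N' (Polynomial.C a)) ≤ 1) {g : N ≃ₐ[F] N}
    (hg : g ∈ Ine F (Ξ.comap b.j)) {g' : N' ≃ₐ[F'] N'} (h : ∀ z, g' (b.j z) = b.j (g z)) :
    g' ∈ Ine F' Ξ := by
  let := γ.toAlgebra
  have : Algebra.IsIntegral L M := ⟨hγ⟩
  have := expChar_of_injective_ringHom (b.j.comp d.c).injective (ringExpChar L)
  have hq : ∀ r, ringExpChar L ^ r ≠ 0 := fun r => pow_ne_zero r (expChar_ne_zero N' _)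
  have key : ∀ x, Ξ (g' x) = Ξ x ∧ (Ξ x ≤ 1 → Ξ (g' x - x) < 1) := fun x => by
    obtain ⟨r, L₁, _, _, h2⟩ := Bc.inea_pow (d := d) b x
    obtain ⟨N₁, _, _, _, _, b₁, b₂, h3, h4⟩ := b.tower (algebraMap L L₁) (algebraMap L₁ M)
      (fun _ => rfl) (Fr L₁[X])
    obtain ⟨y, hy⟩ := b₂.mem (z := x ^ ringExpChar L ^ r) (by rw [h3, map_pow]; exact h2)
    obtain ⟨g₁, -, h5⟩ := b₂.restr g'
    have h6 := b₁.ine_sep (RingHom.finite_algebraMap.2 inferInstance)
      (fun a => ⟨_, Algebra.IsSeparable.isSeparable L a, minpoly.aeval L a⟩)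
      (Ξ := Ξ.comap b₂.j) (fun a => by
        have e := b₂.hφ (.C a)
        rw [dg_φ, Polynomial.map_C] at e
        exact (congrArg Ξ e).trans_le (h1 _)) (g := g) (g' := g₁)
      (by rwa [show (Ξ.comap b₂.j).comap b₁.j = Ξ.comap b.j from
        Valuation.ext fun z => congrArg Ξ (h4 z)])
      fun z => b₂.j.injective (by rw [h5, h4, h4, h])
    have h7 : Ξ (b₂.j (g₁ y)) = Ξ (b₂.j y) := h6.1 y
    have h8 : Ξ (b₂.j y) ≤ 1 → Ξ (b₂.j (g₁ y - y)) < 1 := h6.2 y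
    rw [h5, hy, map_pow, map_pow, map_pow] at h7
    rw [map_sub, h5, hy, map_pow g', ← sub_pow_expChar_pow, map_pow, map_pow] at h8
    exact ⟨(pow_left_inj₀ zero_le zero_le (hq r)).1 h7,
      fun hx => (pow_lt_one_iff (hq r)).1 (h8 (pow_le_one' hx _))⟩
  exact ⟨fun x => (key x).1, fun x => (key x).2⟩

end Pool.Agent.ZFy.ZL
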