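import Pool.Agent.Lib.MP_751085_ag.ZF.Z.LocE
import Pool.Agent.Lib.MP_751085_ag.ZF.Z.Ract
import Pool.Agent.Lib.MP_751085_ag.ZF.Z.Misc2
import Pool.Agent.Lib.MP_751085_ag.ZC.Z.Cst
import Pool.Agent.Lib.MP_751085_ag.ZC.V.Bcu

/-! The Gauss valuation on `T`. -/

namespace Pool.Agent.ZFy.ZL

open Pool.Agent.ZCy
open scoped Classical WithZero Polynomial

set_option linter.unusedSectionVars false

/-- denominators that are integral over the base ring -/
theorem exists_den_cen {B F T : Type} [CommRing B] [IsDomain B] [UniqueFactorizationMonoid B]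
    [Field F] [Field T] [Algebra F T] [FiniteDimensional F T] [IsGalois F T] {α : B →+* F}
    (hα : IsFr α) {P : B} (hP : Prime P) {w : Vl T} (hw : Cen (tE T α) w P) {x : T}
    (hx : w x ≤ 1) : ∃ b : T, w b = 1 ∧ (tE T α).IsIntegralElem b ∧
      (tE T α).IsIntegralElem (x * b) := by
  obtain ⟨b, h1, h2, h3⟩ := hw.exists_frac hα hP hx
  exact ⟨b, h2, (mem_intOff_one hα).1 h1, (mem_intOff_one hα).1 (mul_comm b x ▸ h3)⟩

theorem lft1_top {F N : Type} [Field F] [Field N] [Algebra F N] [FiniteDimensional F N]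
    [IsGalois F N] (Z : IntermediateField F N) (h : ∀ g : N ≃ₐ[F] N, (∀ z ∈ Z, g z = z) → g = 1)
    (x : N) : x ∈ Z := by
  rw [← IsGalois.fixedField_fixingSubgroup Z, IntermediateField.mem_fixedField_iff]
  intro g hg
  rw [h g ((IntermediateField.mem_fixingSubgroup_iff _ _).1 hg), AlgEquiv.one_apply]

variable {l q : ℕ} {k A K F T N₁ : Type} [Field k] [CommRing A] [IsDomain A]
  [UniqueFactorizationMonoid A] [Field K] [Field F] [Field T] [Field N₁] [Algebra A K]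
  [IsFractionRing A K] [Algebra K[X] F] [IsFractionRing K[X] F] [Algebra F T]
  [FiniteDimensional F T] [IsGalois F T] [Algebra K N₁] [FiniteDimensional K N₁] [IsGalois K N₁]
  {c : k →+* A} {Th : A[X]} {Δ : A} {τ : T →+* Ls N₁}
variable {K₁ κ₀ κ₁ : Type} [Field K₁] [Field κ₀] [Field κ₁] [Algebra K K₁] [FiniteDimensional K K₁]
  [IsGalois K K₁] [Algebra κ₀ κ₁] [FiniteDimensional κ₀ κ₁] [IsGalois κ₀ κ₁]
  {H : Hy K c K₁ κ₀ κ₁}
variable {F₀ E₀ : Type} [Field F₀] [Field E₀] [Algebra κ₀[X] F₀] [IsFractionRing κ₀[X] F₀]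
  [Algebra F₀ E₀] [FiniteDimensional F₀ E₀] [IsGalois F₀ E₀] {d₀ : SecD 1 κ₀ κ₁ F₀ E₀} {wT : Vl T}
  {ρT : wT.integer →+* E₀}
variable {κ : Type} [Field κ] [IsAlgClosed κ]

/-- the base change of `T` -/
theorem Crt.exists_cov (C : Crt K F l q c Th Δ τ) {M : Type} [Field M] (β : A →+* M)
    (γN : N₁ →+* M) (h : ∀ a, γN (toF A K N₁ a) = β a) (F' : Type) [Field F'] [Algebra M[X] F']
    [IsFractionRing M[X] F'] : ∃ (N' : Type) (_ : Field N') (_ : Algebra F' N')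
      (_ : FiniteDimensional F' N') (_ : IsGalois F' N') (v : Cov l (pA A K F T) Th F' N' β),
      (∀ x, v.ι (v.j x) = lm γN (τ x)) ∧
        ∀ g : N' ≃ₐ[F'] N', (∀ x, g (v.j x) = v.j x) → g = 1 := by
  let γ : K →+* M := γN.comp (algebraMap K N₁)
  have hi : Function.Injective (Polynomial.mapRingHom γ) := Polynomial.map_injective γ γ.injective
  obtain ⟨f, hf⟩ := (isFr_alg K[X] F).exists_lift
    (β := (algebraMap M[X] F').comp (Polynomial.mapRingHom γ)) ((isFr_alg M[X] F').1.comp hi)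
  obtain ⟨u, hu⟩ := (isFr_alg M[X] F').exists_lift (β := tL M) tL_injective
  let := u.toAlgebra
  have hJ : Sq f ((lm γN).comp τ) := RingHom.congr_fun ((isFr_alg K[X] F).hom_ext
    (φ := ((lm γN).comp τ).comp (algebraMap F T)) (φ' := u.comp f) fun p => by
      refine (congrArg (lm γN) (C.hτ p)).trans ((lm_tM _ _ _).trans ?_)
      rw [RingHom.comp_apply, hf, RingHom.comp_apply, hu, Polynomial.map_map]
      rfl)
  obtain ⟨h1, h2, j, r, e, hs, hr, hri⟩ := bc_in hJ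
  have hc : ∀ p, j (toF K[X] F T p) = toF M[X] F' _ (Polynomial.mapRingHom γ p) := fun p =>
    (hs _).trans (congrArg _ (hf p))
  have hm : ∀ p : A[X], Polynomial.mapRingHom γ (p.map (algebraMap A K)) = p.map β := fun p =>
    (Polynomial.map_map _ _ p).trans (congrArg (p.map ·) (RingHom.ext h))
  have h0 : ∀ g : _ ≃ₐ[F'] _, (∀ x, g (j x) = j x) → g = 1 := fun g hg =>
    (injective_iff_map_eq_one r).1 hri g (AlgEquiv.ext fun x => j.injective ((hr g x).trans (hg x)))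
  exact ⟨_, inferInstance, inferInstance, h1, h2,
    ⟨j, (IntermediateField.val _).toRingHom, fun p => (hc _).trans (congrArg _ (hm p)), hu,
      lxt_iff.2 fun g hg => ⟨0, by rw [h0 g (mem_fixS_range.1 hg), one_pow]⟩,
      hm Th ▸ unrOff_bc (isFr_alg K[X] F) (flat_poly (flat_field γ)) hi hc hr hri C.unrT⟩, e, h0⟩

/-- After a twist of `τ` the Gauss valuation induces `wT` with its residue map. -/
theorem lft_twist (C : Crt K F l q c Th Δ τ) (Λ : Loc H T N₁ F l q Th κ)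
    (S : Spc H F l Th d₀ wT ρT) (FK : Type) [Field FK] [Algebra (Ls κ)[X] FK]
    [IsFractionRing (Ls κ)[X] FK] : ∃ g : T ≃ₐ[F] T, ∀ (ER : Type) [Field ER] [Algebra FK ER]
      [FiniteDimensional FK ER] [IsGalois FK ER]
      (v : Cov l (pA A K F T) Th FK ER ((lid κ).comp Λ.η)) (W : Vl ER) (ρ : W.integer →+* Ls κ),
      (∀ x, v.ι (v.j x) = lm Λ.γN (τ (g x))) → GRed v.ι (lid κ) (cc κ) W ρ →
      ∃ ov : Over v.j wT W, ∀ x, ρ (ov.int x) = lm Λ.f (d₀.ι (ρT x)) := by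
  obtain ⟨N', _, _, _, _, v₁, h1, h2⟩ := C.exists_cov ((lid κ).comp Λ.η) Λ.γN Λ.hN FK
  obtain ⟨W₁, hW⟩ := Λ.gd.ta FK N' v₁
  obtain ⟨ρ₁, hρ⟩ := (supN_of_gauss v₁.hι hW).exists_red (c := (toF _ FK N').comp Polynomial.C)
    (fun a => (v₁.hι _).trans (sec_tM_C a)) (isVR_lval κ).2.1 (isVR_lval κ).2.2 cc_eq_zero
  let J : E₀ →+* Ls κ := (lm Λ.f).comp d₀.ι
  have o₁ := Over.comap v₁.j W₁
  have a₁ : ∀ p : A[X], ∃ hp, ρ₁.comp o₁.int ⟨pA A K F T p, hp⟩ =
      J (toF κ₀[X] F₀ E₀ (p.map H.h)) := fun p => by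
    obtain ⟨hp, e⟩ := hρ.poly Λ.η (φ := v₁.j.comp (pA A K F T))
      (fun p => (congrArg v₁.ι (v₁.hj p)).trans (v₁.hι _)) p
    refine ⟨hp, e.trans (Eq.trans ?_ ((congrArg (lm Λ.f) (d₀.ht _)).trans (lm_tM _ _ _)).symm)⟩
    rw [Polynomial.map_map, Polynomial.map_map]
    exact congrArg (fun f => tL κ (p.map f)) (RingHom.ext Λ.hcc)
  have a₂ : ∀ p : A[X], ∃ hp, J.comp ρT ⟨pA A K F T p, hp⟩ = J (toF κ₀[X] F₀ E₀ (p.map H.h)) :=
    fun p => (S.res p).imp fun _ e => congrArg J e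
  have r₁ := hρ.red.comp_int o₁
  obtain ⟨g, g1, g2⟩ := place_conj_cen (isFr_pA A K F) (Polynomial.prime_C_iff.2 H.prime) r₁
    (S.red.comp J) (H.cen r₁ a₁) (H.cen (S.red.comp J) a₂) fun p => (a₂ p).2.trans (a₁ p).2.symm
  refine ⟨g, fun ER _ _ _ _ v W ρ hv hR => ?_⟩
  have e₀ := RingHom.congr_fun ((isFr_alg (Ls κ)[X] FK).hom_ext (φ := v.ι.comp (algebraMap FK ER))
    (φ' := v₁.ι.comp (algebraMap FK N')) fun p => (v.hι p).trans (v₁.hι p).symm)
  obtain ⟨s, hs⟩ := ring_factor v₁.ι v.ι v.ι.injective (lft1_top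
    ((v.ι.fieldRange.comap v₁.ι).toIntermediateField fun a => ⟨_, e₀ a⟩) fun g' hg' =>
      h2 g' fun x => hg' _ ⟨v.j (g.symm x), by rw [hv, h1, g.apply_symm_apply]⟩)
  obtain ⟨ho, e⟩ := hρ.map hR s (.id _) (.id _) (.id _) hs (fun _ => rfl) fun _ => rfl
  have e₁ : ∀ x, s (v₁.j (g x)) = v.j x := fun x => v.ι.injective (by rw [hs, h1, hv])
  refine ⟨fun x => e₁ x ▸ (ho _).trans (g1 x).symm, fun x => ?_⟩
  exact (congrArg ρ (Subtype.ext (e₁ x).symm)).trans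
    ((e ⟨_, (g1 x).1 x.2⟩).trans (g2 x x.2 ((g1 x).1 x.2)).symm)

end Pool.Agent.ZFy.ZL
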