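import Pool.Agent.Lib.MP_751085_ag.ZF.Z.Dsk
import Pool.Agent.Lib.MP_751085_ag.ZF.Z.Red

/-! Local automorphisms respect the flag. -/

namespace Pool.Agent.ZFy.ZL

open Pool.Agent.ZCy
open scoped Classical WithZero Polynomial

set_option linter.unusedSectionVars false

variable {κ S S' : Type} [Field κ] [Field S] [Field S'] {β : Ps (Ps κ) →+* S} (Φ : Flag β) {e : ℕ}
  {ε : Ps (Ps κ)} {φ : Ps (Ps κ) →+* Ps (Ps κ)} {i : S' →+* S} {i₀ : Ps (Ps κ) →+* S'}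
  {u : S' →+* S'} {s : κ →+* κ}

theorem loca_x {R : Type} [CommRing R] [IsDomain R] [UniqueFactorizationMonoid (Ps R)]
    {β : Ps R →+* S} {ε : Ps R} {φ : Ps R →+* Ps R} {i₀ : Ps R →+* S'} {s : R →+* R}
    (hβ : IsFr β) (hφ : Sbz e ε φ) (h : ∀ a, i (i₀ a) = β (φ a)) (hs : Function.Injective s)
    (hu : ∀ a, u (i₀ a) = i₀ (PowerSeries.map s a)) {V : Vl S} (hV : Cen β V PowerSeries.X) :
    Over u (V.comap i) (V.comap i) := by
  have e1 : ∀ a, V.comap (i.comp u) (i₀ a) = V (β (φ (PowerSeries.map s a))) := fun a => by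
    rw [← h, ← hu]; rfl
  refine loc_uniq hφ.injective hφ.finite hβ h PowerSeries.X_prime PowerSeries.X_prime (m := e)
    (hφ.X ▸ hφ.unit.mul_right_dvd.2 dvd_rfl) hV (V' := V.comap (i.comp u))
    ⟨fun a => e1 a ▸ hV.1 _, fun a => ?_⟩
  rw [e1, hV.2, PowerSeries.X_dvd_iff, PowerSeries.X_dvd_iff, hφ.cc,
    ← PowerSeries.coeff_zero_eq_constantCoeff_apply, PowerSeries.coeff_map, map_eq_zero_iff s hs,
    PowerSeries.coeff_zero_eq_constantCoeff_apply]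

theorem loca_lm (f : Ps κ) : lm s (lid κ f) = lid κ (PowerSeries.map s f) := by
  ext j
  rw [lm_coeff]
  obtain ⟨n, rfl | rfl⟩ := j.eq_nat_or_neg
  · simp [coeff_lau]
  · simp only [lau, RingHom.comp_apply, PowerSeries.coeff_coe]
    split_ifs <;> simp

theorem loca_dvd (f : Ps (Ps κ)) :
    PowerSeries.C PowerSeries.X ∣ f ↔ PowerSeries.map (cc κ) f = 0 := by
  simp only [ps_C_dvd, PowerSeries.X_dvd_iff, PowerSeries.ext_iff, PowerSeries.coeff_map, map_zero]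

theorem Flag.la_s (hβ : IsFr β) (hφ : Sbz e ε φ) (h : ∀ a, i (i₀ a) = β (φ a))
    (hu : ∀ a, u (i₀ a) = i₀ (PowerSeries.map (PowerSeries.map s) a)) :
    (∀ x, Φ.Vs (i (u x)) ≤ 1 ↔ Φ.Vs (i x) ≤ 1) ∧
      ∀ x h h', Φ.ρs ⟨i (u x), h'⟩ = lm s (Φ.ρs ⟨i x, h⟩) := by
  have hs := PowerSeries.map_injective s s.injective
  have ho := loca_x hβ hφ h hs hu Φ.cs
  refine ⟨ho, fun x hx hx' => ?_⟩
  obtain ⟨a, b, hb, e1⟩ := (isFr_lid κ).2 (Φ.ρs ⟨i x, hx⟩)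
  have k : ∀ (y : Φ.Vs.integer) (a b : Ps κ), Φ.ρs y * lid κ b = lid κ a ↔
      Φ.Vs (y * i (i₀ (PowerSeries.C b)) - i (i₀ (PowerSeries.C a))) < 1 := fun y a b => by
    rw [h, h, hφ.C, hφ.C]
    refine Iff.trans ?_ (Φ.rs.eq_iff (y * ⟨_, Φ.cs.1 (PowerSeries.C b)⟩) ⟨_, Φ.cs.1 _⟩)
    rw [map_mul, Φ.es, Φ.es, PowerSeries.constantCoeff_C, PowerSeries.constantCoeff_C]
  have e2 := (ho.lt_one (x * i₀ (PowerSeries.C b) - i₀ (PowerSeries.C a))).2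
    (by simpa using (k _ a b).1 e1)
  refine mul_right_cancel₀ ((isFr_lid κ).vfrc_ne ((map_ne_zero_iff _ hs).2 hb)) ?_
  rw [(k ⟨_, hx'⟩ (PowerSeries.map s a) _).2 (by simpa [hu] using e2), ← loca_lm, ← loca_lm,
    ← map_mul, e1]

theorem Flag.la_p (hβ : IsFr β) (hφ : Sbz e ε φ) (h : ∀ a, i (i₀ a) = β (φ a))
    (hu : ∀ a, u (i₀ a) = i₀ (PowerSeries.map (PowerSeries.map s) a)) (x : S') :
    Φ.Vp (i (u x)) ≤ 1 ↔ Φ.Vp (i x) ≤ 1 := by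
  obtain ⟨ψ, hψ⟩ := exists_sbz hφ.pos (hφ.unit.map (PowerSeries.map (cc κ)))
  have e : ∀ a, Φ.Vp.comap (i.comp u) (i₀ a) =
      Φ.Vp (β (φ (PowerSeries.map (PowerSeries.map s) a))) := fun a => by
    rw [← h, ← hu]; rfl
  refine loc_uniq hφ.injective hφ.finite hβ h (prime_ps_C PowerSeries.X_prime)
    (prime_ps_C PowerSeries.X_prime) (m := 1) (by rw [hφ.C, pow_one]) Φ.cp
    (V' := Φ.Vp.comap (i.comp u)) ⟨fun a => e a ▸ Φ.cp.1 _, fun a => ?_⟩ x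
  rw [e, Φ.cp.2, loca_dvd, loca_dvd, hφ.map _ hψ, map_eq_zero_iff _ hψ.injective]
  simp only [PowerSeries.ext_iff, ← PowerSeries.coeff_zero_eq_constantCoeff_apply,
    PowerSeries.coeff_map, map_zero, map_eq_zero]

theorem Flag.la (hβ : IsFr β) (hφ : Sbz e ε φ) (h : ∀ a, i (i₀ a) = β (φ a))
    (hu : ∀ a, u (i₀ a) = i₀ (PowerSeries.map (PowerSeries.map s) a)) : Φ.LA i u s := by
  obtain ⟨ψ, hψ⟩ := exists_sbz hφ.pos (hφ.unit.map (PowerSeries.map (cc κ)))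
  have ho : Over u (Φ.Vp.comap i) (Φ.Vp.comap i) := Φ.la_p hβ hφ h hu
  obtain ⟨κ', _, ρ, hρ, hs⟩ := exists_resf (Φ.Vp.comap i)
  obtain ⟨ι, hι⟩ := hρ.factor hs (Φ.rp.comp_int (Over.comap i _))
  obtain ⟨v, hv⟩ := hρ.factor hs (hρ.comp_int ho)
  have h1 : ∀ a, Φ.Vp.comap i (i₀ a) ≤ 1 := fun a => (congrArg Φ.Vp (h a)).trans_le (Φ.cp.1 _)
  let j := ρ.comp ((i₀.codRestrict (Φ.Vp.comap i).integer h1).comp (PowerSeries.map PowerSeries.C))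
  have h2 : ∀ f, ι (j f) = lid κ (ψ f) := fun f => by
    refine (hι _).trans ((congrArg Φ.ρp (Subtype.ext (h _))).trans ((Φ.ep _).trans ?_))
    rw [hφ.map _ hψ]
    congr 2
  have h3 : ∀ f, v (j f) = j (PowerSeries.map s f) := fun f => by
    refine (hv _).trans (congrArg ρ (Subtype.ext ((hu _).trans (congrArg i₀ ?_))))
    ext1
    simp
  have h4 := loca_x (isFr_lid κ) hψ h2 s.injective h3
    ((isVR_lval κ).cen PowerSeries.X_irreducible)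
  have h5 : ∀ x hx, Φ.ρp ⟨i x, hx⟩ = ι (ρ ⟨x, hx⟩) := fun x hx => (hι ⟨x, hx⟩).symm
  have h6 : ∀ x hx hx', ρ ⟨u x, hx'⟩ = v (ρ ⟨x, hx⟩) := fun x hx _ => (hv ⟨x, hx⟩).symm
  have h7 : ∀ a, HahnSeries.C a = ι (j (PowerSeries.C a)) := fun a => by
    rw [h2, hψ.C, lau_C]; rfl
  refine ⟨(Φ.la_s hβ hφ h hu).1, (Φ.la_s hβ hφ h hu).2, ho, fun x hx hx' => ?_,
    fun x hx hx' a ha => ?_⟩
  · rw [h5, h5, h6 x hx]
    exact h4 _
  · rw [h5, h7, ← map_sub] at ha ⊢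
    rw [h6 x hx, ← PowerSeries.map_C, ← h3, ← map_sub]
    exact (h4.lt_one _).2 ha

theorem Flag.LA.comp (h : Φ.LA i u s) {N : Type} [Field N] {J : N →+* S'} {u' : N →+* N}
    (hu : ∀ x, J (u' x) = u (J x)) : Φ.LA (i.comp J) u' s := by
  have e : ∀ x, i.comp J (u' x) = i (u (J x)) := fun x => congrArg i (hu x)
  refine ⟨fun x => e x ▸ h.vs _, fun x h1 h2 => ?_, fun x => e x ▸ h.vp _, fun x h1 h2 => ?_,
    fun x h1 h2 a ha => ?_⟩ <;> simp only [e]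
  exacts [h.rs _ h1 _, h.rp _ h1 _, h.rq _ h1 _ a ha]

end Pool.Agent.ZFy.ZL
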