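import Pool.Agent.Lib.MP_751085_ag.ZF.Z.SplB
import Pool.Agent.Lib.MP_751085_ag.ZF.Z.Inr
import Pool.Agent.Lib.MP_751085_ag.ZF.Z.Lin
import Pool.Agent.Lib.MP_751085_ag.ZF.Z.Gr1
import Pool.Agent.Lib.MP_751085_ag.ZF.Z.CrtE

/-! Hyperplanes through the centre of a pencil of lines are inert. -/

namespace Pool.Agent.ZFy.ZL

open Pool.Agent.ZCy
open scoped Classical WithZero Polynomial
open MvPolynomial

set_option linter.unusedSectionVars false

variable {l q : ℕ} {ι k L T : Type} [Fintype ι] [Field k] [Field L] [Field T]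
  [Algebra (RF ι k)[X] L] [IsFractionRing (RF ι k)[X] L] [Algebra L T] [FiniteDimensional L T]
  [IsGalois L T] {α : MP (Option ι) k →+* L} {Θ : MP (Option ι) k}

theorem crt_of_unr (hS : SPR) (hF : FNT) (h : Pol α) (h1 : constantCoeff Θ = 1)
    (hu : UnrOff L (tE T α) Θ) (hl : l.Prime) (h0 : (l : k) ≠ 0) :
    ∃ (N : Type) (_ : Field N) (_ : Algebra (RF ι k) N) (_ : FiniteDimensional (RF ι k) N)
      (_ : IsGalois (RF ι k) N) (q : ℕ) (Δ : MP ι k) (τ : T →+* Ls N),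
      Crt (RF ι k) L l q (C : k →+* MP ι k) (tp (flp Θ)) Δ τ := by
  obtain ⟨k₁, _, _, _, _, _, J, hk, hJ⟩ := exists_exp h (h1 ▸ one_ne_zero) hu
  have := hk.fin
  have := hk.gal
  exact exists_crt hS hF C hl h0 (flp_monic h1) (h.unr hu) hJ

theorem inert_lin {N₁ : Type} [Field N₁] [Algebra (RF ι k) N₁] [FiniteDimensional (RF ι k) N₁]
    [IsGalois (RF ι k) N₁] {Δ : MP ι k} {τ : T →+* Ls N₁} (h : Pol α) (h0 : constantCoeff Θ ≠ 0)
    (c : Crt (RF ι k) L l q (C : k →+* MP ι k) (tp (flp Θ)) Δ τ) {b : Option ι → k}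
    (hb : (fun j => b (some j)) ≠ 0) (hΔ : ¬alin b ∣ Δ) {N : Type} [Field N] [Algebra L N]
    [FiniteDimensional L N] [IsGalois L N] (e : T →ₐ[L] N) (hu : UnrOff L (tE N α) Θ)
    (hx : LXt l L (Set.range (e : T →+* N) ∪ cstS (tE N α))) : Inert L (tE N α) (lin b) := by
  obtain ⟨s⟩ := exists_split h h0 hu
  have hP := prime_alin hb
  obtain ⟨w, -, hw⟩ := exists_cen_ext (E := RF ι s.k₁) (isFr_alg (MP ι k) (RF ι k)) hP
  obtain ⟨W, hW, hg, -⟩ := c.gr1 (s.sc h e hx) hP hΔ hw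
  have hd := dec_top_of_geo hW hg (s.rf.inert hP (by
    rw [map_alin]
    exact prime_alin fun h1 => hb (funext fun j =>
      (map_eq_zero (algebraMap k s.k₁)).1 (congrFun h1 j))) w hw)
  have hc : Cen (pA (MP ι k) (RF ι k) L s.N) W (Polynomial.C (alin b)) :=
    hW.cen hw fun p => (s.d.ht _).trans (congrArg _ (Polynomial.map_map _ _ p))
  exact inert_sub s.j (inert_of_one h.fr (prime_lin fun h1 => hb (funext fun j => congrFun h1 _))
    (cen_lin h hb hc) hd)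

end Pool.Agent.ZFy.ZL
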