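import Pool.Agent.Lib.MP_751085_ag.ZF.Z.Defs2
import Pool.Agent.Lib.MP_751085_ag.ZF.Z.Geo
import Pool.Agent.Lib.MP_751085_ag.ZF.Z.Misc2
import Pool.Agent.Lib.MP_751085_ag.ZF.Z.ResE

/-! The field generated by the residues at the boundary. -/

namespace Pool.Agent.ZFy.ZL

open Pool.Agent.ZCy
open scoped Classical WithZero Polynomial

set_option linter.unusedSectionVars false

theorem rf1_sep {B Ω : Type} [Field B] [Field Ω] [Algebra B Ω] [Normal B Ω] {z : Ω}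
    (hz : IsSeparable B z) (h : ∀ s : Ω ≃ₐ[B] Ω, s z = z) : ∃ a, algebraMap B Ω a = z := by
  obtain ⟨a, ha⟩ := (InfiniteGalois.mem_range_algebraMap_iff_fixed (k := B)
    (⟨z, hz⟩ : separableClosure B Ω)).2 fun f =>
      Subtype.ext ((f.liftNormal_commutes Ω ⟨z, hz⟩).symm.trans (h _))
  exact ⟨a, congrArg Subtype.val ha⟩

theorem rf1_ext {K F E L : Type} [Field K] [Field F] [Field E] [Field L] [Algebra K[X] F]
    [Algebra F E] [Algebra K L] {Ξ : Vl E} (ν : L →ₐ[K] AlgebraicClosure K) (g : L ≃ₐ[K] L)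
    {ρ : Ξ.integer →+* AlgebraicClosure K} (h : RO F Ξ (algebraMap K _) ρ) :
    ∃ s : AlgebraicClosure K →+* AlgebraicClosure K, (∀ a, s (ν a) = ν (g a)) ∧
      RO F Ξ (algebraMap K _) (s.comp ρ) := by
  obtain ⟨s, hs⟩ := exists_ext (ν : L →+* AlgebraicClosure K) (fun x =>
    RingHom.IsIntegralElem.of_comp (f := algebraMap K L) (by
      rw [ν.comp_algebraMap]
      exact Algebra.IsIntegral.isIntegral (R := K) x)) ((ν : L →+* AlgebraicClosure K).comp g)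
  refine ⟨s, hs, h.1.comp s, fun a x hx => ?_⟩
  rw [RingHom.comp_apply, h.2 a x hx, ← ν.commutes]
  exact (hs _).trans (congrArg ν (g.commutes a))

variable {l q : ℕ} {k A K F T N₁ : Type} [Field k] [CommRing A] [IsDomain A]
  [UniqueFactorizationMonoid A] [Field K] [Field F] [Field T] [Field N₁] [Algebra A K]
  [IsFractionRing A K] [Algebra K[X] F] [IsFractionRing K[X] F] [Algebra F T]
  [FiniteDimensional F T] [IsGalois F T] [Algebra K N₁] [FiniteDimensional K N₁] [IsGalois K N₁]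
  {c : k →+* A} {Th : A[X]} {Δ : A} {τ : T →+* Ls N₁}
variable {K₁ E : Type} [Field K₁] [Field E] [Algebra K K₁] [FiniteDimensional K K₁] [IsGalois K K₁]
  [Algebra F E] [FiniteDimensional F E] [IsGalois F E] {d : SecD 1 K K₁ F E} {j : T →+* E}
  {P : A[X]} {Ξ : Vl E}

theorem exists_ro (hm : Th.Monic) (hP : Prime P) (hd : P ∣ Th) (hc : Cen (pA A K F E) Ξ P) :
    ∃ ρ, RO F Ξ (algebraMap K (AlgebraicClosure K)) ρ := by
  obtain ⟨h1, h2⟩ := cen_K hm hP hd hc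
  obtain ⟨κ, _, ρ, hρ, hs⟩ := exists_resf Ξ
  let ψ : K →+* Ξ.integer := ((toF K[X] F E).codRestrict _ h2.1).comp Polynomial.C
  obtain ⟨s, h⟩ := exists_ext (ρ.comp ψ) (fun y => by
    obtain ⟨x, rfl⟩ := hs y
    obtain ⟨μ, h0, h3⟩ := exists_res_poly h1 h2 x.2
    let := (ρ.comp ψ).toAlgebra
    refine IsAlgebraic.isIntegral (K := K) ⟨μ, h0, (Polynomial.hom_eval₂ μ ψ ρ x).symm.trans ?_⟩
    exact (hρ _).2 ((congrArg Ξ (Polynomial.hom_eval₂ μ ψ Ξ.integer.subtype x)).trans_lt h3))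
    (algebraMap K (AlgebraicClosure K))
  exact ⟨s.comp ρ, hρ.comp s, fun a x hx =>
    (congrArg (fun y => s (ρ y)) (Subtype.ext hx : x = ψ a)).trans (h a)⟩

variable (N₁ K₁) in
theorem exists_rfd (hm : Th.Monic) (hP : Prime P) (hd : P ∣ Th) (hc : Cen (pA A K F E) Ξ P) :
    ∃ (N' : Type) (_ : Field N') (_ : Algebra K N') (_ : FiniteDimensional K N') (_ : IsGalois K N')
      (ν : N' →ₐ[K] AlgebraicClosure K) (e₁ : N₁ →ₐ[K] N') (eK : K₁ →ₐ[K] N'),
      RFd F Ξ ν e₁ eK := by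
  obtain ⟨h1, h2⟩ := cen_K hm hP hd hc
  obtain ⟨N₀, _, _, _, _, H⟩ := exists_resOK F E (hm.map (algebraMap A K)).ne_zero
  obtain ⟨L₀, _, _, _, _, ⟨a₀⟩, ⟨a₁⟩⟩ := exists_gal_sup K N₀ N₁
  obtain ⟨L, _, _, _, _, ⟨b⟩, ⟨eK⟩⟩ := exists_gal_sup K L₀ K₁
  let ν : L →ₐ[K] AlgebraicClosure K := IsAlgClosed.lift
  let R : Set L := {a | ∃ ρ x, RO F Ξ (algebraMap K (AlgebraicClosure K)) ρ ∧ ν a = ρ x} ∪
    (Set.range (b.comp a₁) ∪ Set.range eK)
  have hs := IntermediateField.subset_adjoin K R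
  have : Normal K (IntermediateField.adjoin K R) :=
    IntermediateField.normal_iff_forall_map_le'.2 fun g => by
      rw [IntermediateField.adjoin_map, IntermediateField.adjoin_le_iff]
      rintro _ ⟨_, ⟨ρ, x, h3, h4⟩ | ⟨a, rfl⟩ | ⟨a, rfl⟩, rfl⟩
      · obtain ⟨s, h5, h6⟩ := rf1_ext ν g h3
        exact hs (.inl ⟨_, x, h6, (h5 _).symm.trans (congrArg s h4)⟩)
      · obtain ⟨g₀, h3⟩ := exists_restrict (K := K) (b.comp a₁ : N₁ →+* L) (g : L →+* L)
          fun a => by simp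
        exact hs (.inr (.inl ⟨g₀ a, h3 a⟩))
      · obtain ⟨g₀, h3⟩ := exists_restrict (K := K) (eK : K₁ →+* L) (g : L →+* L)
          fun a => by simp
        exact hs (.inr (.inr ⟨g₀ a, h3 a⟩))
  refine ⟨IntermediateField.adjoin K R, inferInstance, inferInstance, inferInstance, ⟨⟩,
    ν.comp (IntermediateField.val _),
    (b.comp a₁).codRestrict (IntermediateField.adjoin K R).toSubalgebra
      fun a => hs (.inr (.inl ⟨a, rfl⟩)),
    eK.codRestrict (IntermediateField.adjoin K R).toSubalgebra fun a => hs (.inr (.inr ⟨a, rfl⟩)),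
    fun ρ hρ x hx => ?_, fun S h3 h4 h5 a => ?_⟩
  · let := (ν : L →+* AlgebraicClosure K).toAlgebra
    have : IsScalarTower K L (AlgebraicClosure K) :=
      .of_algebraMap_eq fun a => (ν.commutes a).symm
    have := Normal.tower_top_of_normal K L (AlgebraicClosure K)
    obtain ⟨a, ha⟩ := rf1_sep (hx.tower_top L) fun s =>
      H _ Ξ _ ρ (ν.comp (b.comp a₀)) s h1 (Polynomial.map_dvd _ hd) h2 hρ.1
        (fun a y hy => (hρ.2 a y hy).trans ((ν.comp (b.comp a₀)).commutes a).symm)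
        (fun a => s.commutes (b (a₀ a))) x
    exact ⟨⟨a, hs (.inl ⟨ρ, x, hρ, ha⟩)⟩, ha⟩
  · have h6 : IntermediateField.adjoin K R ≤
        (S.map (IntermediateField.adjoin K R).val).toIntermediateField fun y =>
          ⟨_, h4 (algebraMap K K₁ y), eK.commutes y⟩ := by
      rw [IntermediateField.adjoin_le_iff]
      rintro _ (⟨ρ, x, h6, h7⟩ | ⟨y, rfl⟩ | ⟨y, rfl⟩)
      exacts [⟨⟨_, hs (.inl ⟨ρ, x, h6, h7⟩)⟩, h5 ρ x _ h6 h7, rfl⟩, ⟨_, h3 y, rfl⟩, ⟨_, h4 y, rfl⟩]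
    obtain ⟨y, hy, e⟩ := h6 a.2
    exact (Subtype.ext e : y = a) ▸ hy

variable {N' : Type} [Field N'] [Algebra K N'] [FiniteDimensional K N'] [IsGalois K N']
  {ν : N' →ₐ[K] AlgebraicClosure K} {e₁ : N₁ →ₐ[K] N'} {eK : K₁ →ₐ[K] N'}

theorem RFd.lxt (h' : RFd F Ξ ν e₁ eK) (C : Crt K F l q c Th Δ τ)
    (hg : IntermediateField.adjoin K (Cst K c K₁) = ⊤)
    (h : SC l F (Th.map (algebraMap A K)) d (algebraMap K K₁) j) (hP : Prime P) (hd : P ∣ Th)
    (hc : Cen (pA A K F E) Ξ P) : LXt l K (Set.range e₁ ∪ Cst K c N') := by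
  have := Fact.mk C.prime
  obtain ⟨h1, h2⟩ := cen_K C.monic hP hd hc
  obtain ⟨n, hn⟩ := IsPGroup.iff_card.1 h.lxt
  have h3 : ∀ δ ∈ fixS K (Set.range e₁ ∪ Cst K c N'), ∀ a, δ (eK a) = eK a := fun δ hδ =>
    gen_ext hg ((δ : N' →+* N').comp eK) eK (fun a => by simp) fun x hx => hδ _ (.inr (by
      have := hx.map (eK : K₁ →+* N')
      rwa [← RingHom.comp_assoc, ← RingHom.comp_assoc, eK.comp_algebraMap] at this))
  rintro ⟨δ, hδ⟩
  refine ⟨n, Subtype.ext (AlgEquiv.ext (h'.gen (RingHom.eqLocusField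
    ((δ ^ l ^ n : N' ≃ₐ[K] N') : N' →+* N') (RingHom.id N'))
    (fun a => pow_mem hδ _ _ (.inl ⟨a, rfl⟩)) (h3 _ (pow_mem hδ _)) fun ρ x a hρ ha => ?_))⟩
  obtain ⟨s, h4, h5⟩ := rf1_ext ν δ hρ
  let := j.toAlgebra
  have : IsScalarTower F T E := .of_algebraMap_eq fun y => (h.alg y).symm
  have : FiniteDimensional T E := Module.Finite.right F T E
  have : IsGalois T E := IsGalois.tower_top_of_isGalois F T E
  obtain ⟨g, hg1, hg2⟩ := red_conj (K := T) hρ.1 h5.1 fun y hy =>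
    C.res _ (Ξ.comap j) _ (ρ.comp (Over.comap j Ξ).int) (ν.comp e₁) s h1 (Polynomial.map_dvd _ hd)
      ((cen_of_over (Over.comap j Ξ)).1 (by
        rwa [show j.comp (toF K[X] F T) = toF K[X] F E from RingHom.ext fun p => h.alg _]))
      (hρ.1.comp_int _)
      (fun b y hy => (hρ.2 b _ ((congrArg j hy).trans (h.alg _))).trans
        ((ν.comp e₁).commutes b).symm)
      (fun b => (h4 _).trans (congrArg ν (hδ _ (.inl ⟨b, rfl⟩)))) ⟨y, hy⟩
  have h6 : ∀ b : K, d.c (algebraMap K K₁ b) = toF K[X] F E (Polynomial.C b) := fun b => by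
    rw [← d.φ_C, ← Polynomial.map_C, d.φ_map]
  let θ : K₁ →+* Ξ.integer := d.c.codRestrict _ fun b =>
    le_one_of_integral (φ := d.c.comp (algebraMap K K₁)) (fun y => (h6 y).symm ▸ h2.1 _)
      (RingHom.IsIntegralElem.map (Algebra.IsIntegral.isIntegral (R := K) b) d.c)
  obtain ⟨g₁, h7⟩ := exists_twist (K := K) (ν.comp eK : K₁ →+* AlgebraicClosure K) (ρ.comp θ)
    fun b => (hρ.2 b _ (h6 b)).trans ((ν.comp eK).commutes b).symm
  obtain ⟨g₂, h8⟩ := exists_restrict (K := K) d.c (g : E →+* E) fun b => by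
    rw [h6]
    exact (g.restrictScalars F).commutes _
  have h9 : ∀ y, s (ρ y) = ρ ((stab_int Ξ).act hg1 y) := fun y => hg2 y y.2 _
  have h10 : g.restrictScalars F ∈ fixS F (Set.range j ∪ Set.range d.c) :=
    mem_fixS_union.2 ⟨g.commutes, fun b => (h8 b).symm.trans (congrArg d.c
      ((ρ.comp θ).injective ((congrArg ρ (Subtype.ext (h8 b))).trans ((h9 (θ b)).symm.trans
        ((congrArg s (h7 b)).trans ((h4 _).trans ((congrArg ν (h3 δ hδ _)).trans
          (h7 b).symm)))))))⟩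
  have h11 : ∀ m : ℕ, ∃ y : Ξ.integer, (y : E) = (g.restrictScalars F ^ m) x ∧
      ν ((δ ^ m) a) = ρ y := fun m => by
    induction m with
    | zero => exact ⟨x, rfl, ha⟩
    | succ m ih =>
      obtain ⟨y, e1, e2⟩ := ih
      refine ⟨(stab_int Ξ).act hg1 y, ?_, ?_⟩
      · rw [pow_succ', AlgEquiv.mul_apply, ← e1]
        rfl
      · rw [pow_succ', AlgEquiv.mul_apply, ← h9, ← e2]
        exact (h4 _).symm
  obtain ⟨y, e1, e2⟩ := h11 (l ^ n)
  rw [show g.restrictScalars F ^ l ^ n = 1 from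
    congrArg Subtype.val (hn ▸ pow_card_eq_one' (x := (⟨_, h10⟩ : fixS F _)))] at e1
  obtain rfl : y = x := Subtype.ext e1
  exact ν.injective (e2.trans ha.symm)

end Pool.Agent.ZFy.ZL
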