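import Pool.Agent.Lib.MP_751085_ag.ZF.Z.Defs2
import Pool.Agent.Lib.MP_751085_ag.ZF.Z.Bc2
import Pool.Agent.Lib.MP_751085_ag.ZF.Z.Red

/-! The residue field of a model of the lift. -/

namespace Pool.Agent.ZFy.ZL

open Pool.Agent.ZCy
open scoped Classical WithZero Polynomial

set_option linter.unusedSectionVars false

variable {l q : ℕ} {k A K F T N₁ : Type} [Field k] [CommRing A] [IsDomain A]
  [UniqueFactorizationMonoid A] [Field K] [Field F] [Field T] [Field N₁] [Algebra A K]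
  [IsFractionRing A K] [Algebra K[X] F] [IsFractionRing K[X] F] [Algebra F T]
  [FiniteDimensional F T] [IsGalois F T] [Algebra K N₁] [FiniteDimensional K N₁] [IsGalois K N₁]
  {c : k →+* A} {Th : A[X]} {Δ : A} {τ : T →+* Ls N₁}
variable {K₁ κ₀ κ₁ : Type} [Field K₁] [Field κ₀] [Field κ₁] [Algebra K K₁] [FiniteDimensional K K₁]
  [IsGalois K K₁] [Algebra κ₀ κ₁] [FiniteDimensional κ₀ κ₁] [IsGalois κ₀ κ₁]
  {H : Hy K c K₁ κ₀ κ₁}
variable {F₀ E₀ : Type} [Field F₀] [Field E₀] [Algebra κ₀[X] F₀] [IsFractionRing κ₀[X] F₀]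
  [Algebra F₀ E₀] [FiniteDimensional F₀ E₀] [IsGalois F₀ E₀] {d₀ : SecD 1 κ₀ κ₁ F₀ E₀} {wT : Vl T}
  {ρT : wT.integer →+* E₀}
variable {κ FK ER : Type} [Field κ] [IsAlgClosed κ] [Field FK] [Field ER] [Algebra (Ls κ)[X] FK]
  [IsFractionRing (Ls κ)[X] FK] [Algebra FK ER] [FiniteDimensional FK ER] [IsGalois FK ER]
  {Λ : Loc H T N₁ F l q Th κ}
variable {𝓛 : Lft H Λ τ d₀ wT ρT FK ER}
variable {K' L F' N : Type} [Field K'] [Field L] [Field F'] [Field N] [Algebra K' L]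
  [Algebra K'[X] F'] [IsFractionRing K'[X] F'] [Algebra F' N] [FiniteDimensional F' N]
  [IsGalois F' N]
variable {d : SecD 1 K' L F' N} {γ : L →+* Ls κ}

theorem Mo.sc (M : Mo 𝓛 d γ) (C : Crt K F l q c Th Δ τ) {γK : K →+* L}
    (h : ∀ a, γ (γK (algebraMap A K a)) = lid κ (Λ.η a)) :
    SC l F (Th.map (algebraMap A K)) d γK M.j := by
  refine M.b.sc_down C.prime ?_ C.unrT 𝓛.c h M.hj
  rw [← map_natCast ((algebraMap A K).comp c)]
  exact (map_ne_zero _).2 C.lne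

theorem Mo.ι_j (M : Mo 𝓛 d γ) {e : N₁ →+* L} (h : ∀ a, γ (e a) = Λ.γN a) (x : T) :
    d.ι (M.j x) = lm e (τ x) := by
  refine (lm γ).injective ?_
  rw [← M.b.hj, M.hι, ← RingHom.comp_apply M.b.j, ← M.hj, 𝓛.hτ]
  ext1
  funext i
  exact (h _).symm

theorem rsj_lift {κ' E : Type} [Field κ'] [Field E] [Algebra (Fr κ'[X]) E] [Algebra (Fr L[X]) N]
    (e : toF L[X] (Fr L[X]) N = d.φ) {w : Vl L} {W : Vl N} {ρ' : w.integer →+* κ'}
    (hs : Function.Surjective ρ') {ρW : W.integer →+* Ls κ'}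
    (hW : GRed d.ι w.integer.subtype ρ' W ρW) {ι : E →+* Ls κ'}
    (hι : ∀ p, ι (toF κ'[X] (Fr κ'[X]) E p) = tL κ' p) {ρ : W.integer →+* E}
    (hρ : ∀ x, ι (ρ x) = ρW x) (a : Fr κ'[X]) :
    ∃ (b : Fr L[X]) (h : _), ρ ⟨algebraMap _ N b, h⟩ = algebraMap _ E a := by
  have h1 : ∀ p : (w.integer)[X], ∃ hp, ρ ⟨d.φ (p.map w.integer.subtype), hp⟩ =
      toF κ'[X] (Fr κ'[X]) E (p.map ρ') := fun p =>
    (hW.poly (RingHom.id _) (φ := d.φ.comp (Polynomial.mapRingHom w.integer.subtype))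
      (fun p => d.ι_φ _) p).imp fun hp h => ι.injective (by rw [hρ, hι]; exact h)
  obtain ⟨p, q, hq, rfl⟩ := IsFractionRing.div_surjective κ'[X] a
  obtain ⟨p, rfl⟩ := Polynomial.map_surjective ρ' hs p
  obtain ⟨q, rfl⟩ := Polynomial.map_surjective ρ' hs q
  obtain ⟨h2, h3⟩ := h1 p
  obtain ⟨h4, h5⟩ := h1 q
  have h6 : ρ ⟨_, h4⟩ ≠ 0 := h5 ▸ (map_ne_zero (algebraMap _ E)).2
    ((map_ne_zero_iff _ (IsFractionRing.injective _ _)).2 (nonZeroDivisors.ne_zero hq))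
  have h7 : W (d.φ (q.map w.integer.subtype)) = 1 :=
    (hW.red.ne_zero ⟨_, h4⟩).1 (by rw [← hρ]; exact (map_ne_zero ι).2 h6)
  have h8 : algebraMap (Fr L[X]) N (algebraMap L[X] _ (p.map w.integer.subtype) /
      algebraMap L[X] _ (q.map w.integer.subtype)) =
      d.φ (p.map w.integer.subtype) / d.φ (q.map w.integer.subtype) := by
    rw [map_div₀, ← e]
    rfl
  refine ⟨_, (show W _ ≤ 1 by rw [h8, map_div₀, h7, div_one]; exact h2), ?_⟩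
  rw [map_div₀ (algebraMap _ E)]
  refine (eq_div_of_mul_eq h6 ?_).trans (congrArg₂ (· / ·) h3 h5)
  rw [← map_mul]
  exact congrArg ρ (Subtype.ext ((congrArg (· * _) h8).trans
    (div_mul_cancel₀ _ (W.ne_zero_iff.1 (h7.trans_ne one_ne_zero)))))

theorem Mo.rsj (M : Mo 𝓛 d γ) {W : Vl N} (hD : geo d ≤ Dec F' W) (hI : Ine F' W ⊓ geo d = ⊥)
    {κ' : Type} [Field κ'] {ρ' : ((lval κ).comap γ).integer →+* κ'} (hs : Function.Surjective ρ')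
    (i : κ' →+* κ) (f' : κ₁ →+* κ') (hf : ∀ b, i (f' b) = Λ.f b)
    (hi : ∀ (a : ((lval κ).comap γ).integer) (g : Ps κ), γ a = lid κ g → cc κ g = i (ρ' a))
    {ρW : W.integer →+* Ls κ'} (hW : GRed d.ι ((lval κ).comap γ).integer.subtype ρ' W ρW) :
    (∀ y, lm f' (d₀.ι y) ∈ ρW.range) ∧
      (∀ x, ρW x ∈ Subfield.closure
        (Set.range ((lm f').comp d₀.ι) ∪ Set.range (tL κ'))) ∧
      ∃ ho : Over M.b.j W 𝓛.W, ∀ x, 𝓛.ρ (ho.int x) = lm i (ρW x) := by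
  obtain ⟨δ, hδ, -⟩ := exists_ls_int γ
  obtain ⟨ho, h1⟩ := hW.map 𝓛.red M.b.j γ δ i (fun z => M.hι ▸ M.b.hj z) (fun a => (hδ a).symm)
    fun a => hi a (δ a) (hδ a).symm
  have h2 : ∀ x, ρW x ∈ Subfield.closure
      (Set.range ((lm f').comp d₀.ι) ∪ Set.range (tL κ')) := fun x => by
    refine mem_clo _ i ?_
    have e : (lm i).comp ((lm f').comp d₀.ι) = (lm Λ.f).comp d₀.ι := by
      ext y n
      exact hf _
    rw [e, ← h1]
    exact 𝓛.sub _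
  refine ⟨fun y => ?_, h2, ho, h1⟩
  obtain ⟨E, _, _, _, _, ⟨b⟩⟩ := exists_bcd d₀ f' (Fr κ'[X])
  obtain ⟨ρ, hρ⟩ := ring_factor ρW b.ι b.ι.injective fun x => (b.range_iff _).2 (h2 x)
  obtain ⟨_, _, _, e⟩ := exists_geo d (Fr L[X])
  obtain ⟨u, hu⟩ := geo_iso d e
  obtain ⟨r, -⟩ := b.iso
  obtain ⟨r', -⟩ := M.b.iso
  obtain ⟨x, hx⟩ := red_surjective (K := Fr L[X]) (K₀ := Fr κ'[X])
    (eq_top_iff.2 fun g _ x => hu g x ▸ hD (u g).2 x) ((geo_ine d e W).1 hI) ρ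
    (fun x => by rw [← hW.red, ← hρ, map_eq_zero b.ι]) (rsj_lift e hs hW b.hι hρ) (by
      rw [← IsGalois.card_aut_eq_finrank, ← IsGalois.card_aut_eq_finrank,
        Nat.card_congr r.toEquiv, Nat.card_congr u.toEquiv, ← Nat.card_congr r'.toEquiv]
      exact 𝓛.card) (b.j y)
  exact ⟨x, by rw [← hρ, hx, b.hj]⟩

theorem Mo.rsj' (M : Mo 𝓛 d γ) {W : Vl N} (hD : geo d ≤ Dec F' W) (hI : Ine F' W ⊓ geo d = ⊥)
    (hN : SupN d.ι ((lval κ).comap γ) W) {ρ' : ((lval κ).comap γ).integer →+* κ}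
    (hf : ∀ b, Λ.f b ∈ ρ'.range)
    (hi : ∀ (a : ((lval κ).comap γ).integer) (g : Ps κ), γ a = lid κ g → cc κ g = ρ' a)
    {ρW : W.integer →+* Ls κ} (hW : GRed d.ι ((lval κ).comap γ).integer.subtype ρ' W ρW) :
    (∀ y, lm Λ.f (d₀.ι y) ∈ ρW.range) ∧
      ∃ ho : Over M.b.j W 𝓛.W, ∀ x, 𝓛.ρ (ho.int x) = ρW x := by
  obtain ⟨δ, hδ, h0⟩ := exists_ls_int γ
  have h1 : IsRed _ ρ' := fun a => hi a (δ a) (hδ a).symm ▸ h0 a
  obtain ⟨κ', _, ρ₀, h2, hs⟩ := exists_resf ((lval κ).comap γ)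
  obtain ⟨i, h3⟩ := h2.factor hs h1
  obtain ⟨f', h4⟩ := ring_factor Λ.f i i.injective fun b =>
    (hf b).elim fun a e => ⟨ρ₀ a, (h3 a).trans e⟩
  obtain ⟨ρ₁, h5⟩ := hN.exists_red' d.hc h2
  obtain ⟨h6, -, ho, h7⟩ := M.rsj hD hI hs i f' h4 (fun a g e => (hi a g e).trans (h3 a).symm) h5
  obtain ⟨_, h8⟩ := h5.map hW (RingHom.id N) (RingHom.id L) (RingHom.id _) i (fun _ => rfl)
    (fun _ => rfl) fun a => (h3 a).symm
  refine ⟨fun y => (h6 y).imp fun x hx => (h8 x).trans ?_, ho, fun x => (h7 x).trans (h8 x).symm⟩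
  rw [hx]
  ext n
  exact h4 _

end Pool.Agent.ZFy.ZL
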