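import Pool.Agent.Lib.MP_751085_ag.ZF.Z.Defs
import Pool.Agent.Lib.MP_751085_ag.ZF.Z.Iface
import Pool.Agent.Lib.MP_751085_ag.ZC.Z.Pol
import Pool.Agent.Lib.MP_751085_ag.ZC.V.Frc

/-! Pencils of lines through the origin of affine space: definitions. -/

namespace Pool.Agent.ZFy.ZL

open Pool.Agent.ZCy
open scoped Classical WithZero Polynomial
open MvPolynomial

set_option linter.unusedSectionVars false

/-- a linear form -/
noncomputable def lin {ι k : Type} [Fintype ι] [CommRing k] (a : ι → k) : MP ι k :=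
  ∑ j, C (a j) * X j

/-- a linear form in the coordinates `x_j = ξ_j / τ` -/
noncomputable def alin {ι k : Type} [Fintype ι] [CommRing k] (a : Option ι → k) : MP ι k :=
  C (a none) + lin fun j => a (some j)

/-- the constants of a rational function field -/
noncomputable abbrev rc (ι k : Type) [Field k] : k →+* RF ι k :=
  (algebraMap (MP ι k) (RF ι k)).comp C

/-- `k₁(x)` over `k(x)` -/
def RfA (ι k k₁ : Type) [Field k] [Field k₁] [Algebra k k₁] [Algebra (RF ι k) (RF ι k₁)] : Prop :=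
  ∀ p, algebraMap (RF ι k) (RF ι k₁) (algebraMap (MP ι k) _ p) =
    algebraMap (MP ι k₁) _ (map (algebraMap k k₁) p)

/-- the elements that are integral over `k` -/
abbrev cstS {ι k E : Type} [Field k] [Field E] (φ : MP ι k →+* E) : Set E :=
  {y | (φ.comp C).IsIntegralElem y}

/-- quotients of power series over `R` -/
def FrP {R K : Type} [CommRing R] [Field K] (α : R →+* K) (f : Ls K) : Prop :=
  ∃ a b : Ps R, b ≠ 0 ∧ f * lau α b = lau α a

/-- the substitution `ξ_i ↦ x_i u` -/
noncomputable abbrev rayP {ι k R : Type} [CommRing k] [CommRing R] (f : k →+* R) (x : ι → R) :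
    MP ι k →+* Ps R :=
  eval₂Hom (PowerSeries.C.comp f) fun i => PowerSeries.C (x i) * PowerSeries.X

variable {ι k L : Type} [Fintype ι] [Field k] [Field L]

/-- the branch polynomial on the generic line through the origin -/
noncomputable abbrev thK (Θ : MP (Option ι) k) : (RF ι k)[X] :=
  (tp (flp Θ)).map (algebraMap (MP ι k) (RF ι k))

variable [Algebra (RF ι k)[X] L]

/-- `L = k(ξ) = k(x)(t)`, `x_j = ξ_j / τ`, `t = 1 / τ` -/
structure Pol (α : MP (Option ι) k →+* L) : Prop where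
  fr : IsFr α
  pol : IsPol α (algebraMap (RF ι k)[X] L)

/-- `N = E k₁` splits at the origin -/
structure Split (α : MP (Option ι) k →+* L) (Θ : MP (Option ι) k) (E : Type) [Field E]
    [Algebra L E] : Type 1 where
  k₁ : Type
  [f₁ : Field k₁]
  [a₁ : Algebra k k₁]
  [d₁ : FiniteDimensional k k₁]
  [g₁ : IsGalois k k₁]
  [a₂ : Algebra (RF ι k) (RF ι k₁)]
  [d₂ : FiniteDimensional (RF ι k) (RF ι k₁)]
  [g₂ : IsGalois (RF ι k) (RF ι k₁)]
  N : Type
  [f₃ : Field N]
  [a₃ : Algebra L N]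
  [d₃ : FiniteDimensional L N]
  [g₃ : IsGalois L N]
  j : E →ₐ[L] N
  d : SecD 1 (RF ι k) (RF ι k₁) L N
  rf : RfA ι k k₁
  span : ∀ g : N ≃ₐ[L] N, (∀ x, g (j x) = j x) → (∀ a, g (d.c a) = d.c a) → g = 1
  unr : UnrOff L (tE N α) Θ

attribute [instance] Split.f₁ Split.a₁ Split.d₁ Split.g₁ Split.a₂ Split.d₂ Split.g₂ Split.f₃
  Split.a₃ Split.d₃ Split.g₃

end Pool.Agent.ZFy.ZL
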