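import Pool.Agent.Lib.MP_751085_ag.ZF.Z.Defs
import Pool.Agent.Lib.MP_751085_ag.ZC.V.Dec
import Pool.Agent.Lib.MP_751085_ag.ZC.V.Ext
import Pool.Agent.Lib.MP_751085_ag.ZC.V.Cv
import Pool.Agent.Lib.MP_751085_ag.ZC.Z.Cen

/-! Radicands of unramified covers. -/

namespace Pool.Agent.ZFy.ZL

open Pool.Agent.ZCy
open scoped Classical WithZero Polynomial

set_option linter.unusedSectionVars false

theorem typw_deg {M N : Type} [Field M] [Field N] {φ : M[X] →+* N} {w : Vl N}
    (h : Triv (φ.comp Polynomial.C) w) (hX : 1 < w (φ Polynomial.X)) (p : M[X]) :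
    p ≠ 0 → w (φ p) = w (φ Polynomial.X) ^ p.natDegree := by
  induction p using Polynomial.recOnHorner with
  | M0 => exact fun e => absurd rfl e
  | MC p a h0 ha ih =>
    intro _
    rw [Polynomial.natDegree_add_C]
    rcases eq_or_ne p 0 with rfl | hp
    · simpa using h a ha
    · rw [map_add, ← ih hp]
      refine w.map_add_eq_of_lt_left ((h a ha).trans_lt ?_)
      rw [ih hp]
      exact one_lt_pow' hX fun e => hp (by rw [Polynomial.eq_C_of_natDegree_eq_zero e, h0, map_zero])
  | MX p hp ih =>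
    intro _
    rw [Polynomial.natDegree_mul_X hp, map_mul, map_mul, ih hp, pow_succ]

theorem typw_inf {M F N : Type} [Field M] [Field F] [Field N] [Algebra M[X] F]
    [IsFractionRing M[X] F] [Algebra F N] {w : Vl N}
    (h : Triv ((toF M[X] F N).comp Polynomial.C) w) (hX : 1 < w (toF M[X] F N Polynomial.X))
    {x : F} {a b : M[X]} (ha : a ≠ 0) (hb : b ≠ 0)
    (e : x * algebraMap M[X] F b = algebraMap M[X] F a) :
    w (algebraMap F N x) ≤ 1 ↔ a.natDegree ≤ b.natDegree := by
  have h1 := typw_deg h hX a ha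
  rw [RingHom.comp_apply, ← e, map_mul, map_mul, ← RingHom.comp_apply _ _ b,
    typw_deg h hX b hb] at h1
  rw [← pow_le_pow_iff_right₀ hX, ← h1, mul_le_iff_le_one_left (pow_pos (zero_lt_one.trans hX) _)]

theorem typW {M F T N : Type} [Field M] [Field F] [Field T] [Field N] [Algebra M[X] F]
    [IsFractionRing M[X] F] [Algebra F T] [Algebra F N] [FiniteDimensional F N] [IsGalois F N]
    (i : T →ₐ[F] N) (ι : N →+* Ls M) (hι : ∀ p, ι (toF M[X] F N p) = tL M p) {Θ : M[X]}
    (hu : UnrOff F (toF M[X] F N) Θ) {l : ℕ} {u : T} {r : N} (h : i u = r ^ l) (P : Vl T)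
    (hP : Nrm P) (ht : Triv ((toF M[X] F T).comp Polynomial.C) P)
    (hΘ : ¬P (toF M[X] F T Θ) < 1) : (l : ℤ) ∣ ord P u := by
  let := (i : T →+* N).toAlgebra
  have : IsScalarTower F T N := .of_algebraMap_eq fun a => (i.commutes a).symm
  have := Module.Finite.of_restrictScalars_finite F T N
  obtain ⟨w, hw, ho⟩ := exists_over_nrm (E := N) hP
  have e0 : ∀ p, toF M[X] F N p = algebraMap T N (toF M[X] F T p) := fun p => (i.commutes _).symm
  have h1 : Triv ((toF M[X] F N).comp Polynomial.C) w := fun c hc =>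
    (congrArg w (e0 _)).trans ((ho.eq_one _).2 (ht c hc))
  obtain ⟨a, ha⟩ : ∃ a, w (algebraMap F N a) = WithZero.exp (-1) := by
    rcases le_or_gt (w (toF M[X] F N Polynomial.X)) 1 with hX | hX
    · have h2 : ∀ f, w (toF M[X] F N f) ≤ 1 := fun f => by
        induction f using Polynomial.induction_on' with
        | add p q hp hq => rw [map_add]; exact w.map_add_le hp hq
        | monomial n c =>
          rcases eq_or_ne c 0 with rfl | hc
          · simp
          rw [← Polynomial.C_mul_X_pow_eq_monomial, map_mul, map_pow, map_mul, map_pow]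
          exact mul_le_one' (h1 c hc).le (pow_le_one' hX n)
      obtain ⟨π, hπ⟩ := hw
      obtain ⟨a, ha⟩ := e1_of_ine_bot (unr_of_le hu h2 ((h2 Θ).eq_of_not_lt fun H =>
        hΘ ((ho.lt_one _).1 (e0 Θ ▸ H)))) π
      exact ⟨a, ha.symm.trans hπ⟩
    · have h2 : (lval M).comap ι (toF M[X] F N Polynomial.X) = WithZero.exp 1 := by
        rw [Valuation.comap_apply, hι]
        simpa [tM] using lval_single M (-1)
      have h3 : Triv ((toF M[X] F N).comp Polynomial.C) ((lval M).comap ι) := fun c hc => by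
        have := ((isVR_lval M).eq_one (PowerSeries.C c)).2 (hc.isUnit.map _)
        rw [Valuation.comap_apply, RingHom.comp_apply, hι]
        simpa [tM, lau_C] using this
      have h4 : (lval M).comap ι (algebraMap F N (algebraMap M[X] F Polynomial.X)⁻¹) =
          WithZero.exp (-1) := by
        rw [map_inv₀, map_inv₀, WithZero.exp_neg, ← h2]
        rfl
      obtain ⟨g, hg⟩ := conj_nrm (K := F) (v := w.comap (algebraMap F N)) (w := w)
        (w' := (lval M).comap ι) (fun _ => Iff.rfl) (fun x => by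
          rcases eq_or_ne x 0 with rfl | hx
          · simp
          obtain ⟨a, b, hb, e⟩ := (isFr_alg M[X] F).2 x
          have ha : a ≠ 0 := fun h0 => mul_ne_zero hx ((isFr_alg M[X] F).vfrc_ne hb)
            (by rw [e, h0, map_zero])
          exact (typw_inf h3 (h2 ▸ WithZero.exp_lt_exp.2 (zero_lt_one' ℤ)) ha hb e).trans
            (typw_inf h1 hX ha hb e).symm) hw ⟨_, h4⟩
      exact ⟨_, by rw [← h4, hg, g.commutes]⟩
  obtain ⟨e, -, he⟩ := ho.idx hP
  have h2 := he.ord (algebraMap F T a)
  rw [← IsScalarTower.algebraMap_apply, ord_eq_of w ha] at h2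
  have h3 := he.ord u
  rw [Int.eq_one_of_mul_eq_one_right (Int.natCast_nonneg e) h2.symm, one_mul,
    show algebraMap T N u = r ^ l from h, ord_pow_v] at h3
  exact ⟨_, h3.symm⟩

end Pool.Agent.ZFy.ZL
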