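import Pool.Agent.Lib.MP_751085_ag.ZF.Z.CrdP
import Pool.Agent.Lib.MP_751085_ag.ZC.Z.Vert

/-! Reduction to the homogeneous primes. -/

namespace Pool.Agent.ZFy.ZL

open Pool.Agent.ZCy
open scoped Classical WithZero Polynomial
open MvPolynomial

set_option linter.unusedSectionVars false

/-- reduction to the homogeneous primes -/
theorem unr_vert0 {ι k L N : Type} [Fintype ι] [Nonempty ι] [Field k] [Field L] [Field N]
    [Algebra (RF ι k)[X] L] [IsFractionRing (RF ι k)[X] L] [Algebra L N] [FiniteDimensional L N]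
    {α : MP (Option ι) k →+* L} (h : Pol α) {Θ : MP (Option ι) k}
    (hu : UnrOff L (toF (RF ι k)[X] L N) (thK Θ))
    (hV : ∀ (G : MP (Option ι) k) (e : ℕ) (i₀ : Option ι) (w : Vl N), Prime G →
      G.IsHomogeneous e → ¬G ∣ X i₀ → ¬G ∣ Θ → Cen (tE N α) w G → Ine L w = ⊥) :
    UnrOff L (tE N α) Θ := by
  intro G w hG hΘ hw
  have hN : IsPol (tE N α) (toF (RF ι k)[X] L N) := h.ext
  have hφ : Function.Injective (tE N α) := h.inj
  set φ := tE N α with eφ
  set ψ := toF (RF ι k)[X] L N with eψ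
  have hX : ∀ i, φ (X i) ≠ 0 := fun i => (map_ne_zero_iff φ hφ).2 (X_ne_zero i)
  have hone : ∀ H, ¬G ∣ H → w (φ H) = 1 := fun H hH => (hw.eq_one H).2 hH
  obtain ⟨i₁⟩ := ‹Nonempty ι›
  by_cases ht : ∃ a, a ≠ 0 ∧ w (ψ (Polynomial.C a)) ≠ 1
  · obtain ⟨e, he⟩ : ∃ e, G.IsHomogeneous e := by
      obtain ⟨a, ha, ha1⟩ := ht
      obtain ⟨d, H, S, hH, hS, h0, hd⟩ := hN.hom hφ a
      by_cases h2 : G ∣ S
      · exact homog_of_dvd hS h0 h2
      refine homog_of_dvd hH (fun h3 => ?_) (not_not.1 fun h3 => ha1 ?_)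
      · rw [h3, map_zero] at hd
        exact mul_ne_zero ((map_ne_zero (ψ.comp Polynomial.C)).2 ha)
          ((map_ne_zero_iff φ hφ).2 h0) hd
      · have := congrArg w hd
        rwa [map_mul, hone S h2, hone H h3, mul_one] at this
    obtain ⟨i₀, hi₀⟩ : ∃ i, ¬G ∣ X i := by
      by_contra h2
      push Not at h2
      exact Option.some_ne_none _ (vert_var hG (h2 (some i₁)) (h2 none))
    exact hV G e i₀ w hG he hi₀ hΘ hw
  have ht' : ∀ a, a ≠ 0 → w (ψ (Polynomial.C a)) = 1 := fun a ha =>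
    not_not.1 fun h => ht ⟨a, ha, h⟩
  have hτ : w (φ (X none)) = 1 := hone _ fun hd => by
    obtain ⟨a, ha⟩ := hN.dehom hφ (isHomogeneous_X k (some i₁))
    rw [pow_one] at ha
    have : w (φ (X (some i₁))) < 1 := by
      rw [ha, map_mul, ht' a fun h0 => hX _ (by rw [ha, h0, map_zero, map_zero, zero_mul]), one_mul]
      exact (hw.2 _).2 hd
    exact Option.some_ne_none _ (vert_var hG ((hw.2 _).1 this) hd)
  refine unr_of_le hu (fun p => ?_) ?_
  · induction p using Polynomial.induction_on' with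
    | add p q hp hq => rw [map_add]; exact w.map_add_le hp hq
    | monomial n a =>
      rw [← Polynomial.C_mul_X_pow_eq_monomial, map_mul, map_pow, hN.X, map_mul, map_pow,
        map_inv₀, hτ, inv_one, one_pow, mul_one]
      rcases eq_or_ne a 0 with rfl | ha
      · simp
      · exact (ht' a ha).le
  · have := congrArg w (flp_eval φ (hX none) Θ)
    rwa [map_mul, map_pow, hτ, one_pow, mul_one, hone Θ hΘ, ← hN] at this

end Pool.Agent.ZFy.ZL
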