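import Pool.Agent.Lib.MP_751085_ag.ZF.Z.TDefs
import Pool.Agent.Lib.MP_751085_ag.ZF.Z.Misc1
import Pool.Agent.Lib.MP_751085_ag.ZC.Z.Cst
import Pool.Agent.Lib.MP_751085_ag.ZC.V.Pur
import Pool.Agent.Lib.MP_751085_ag.ZC.V.Blow
import Pool.Agent.Lib.MP_751085_ag.ZC.V.Hns
import Pool.Agent.Lib.MP_751085_ag.ZC.V.Gal

/-! Homogeneous primes: expansions at the origin. -/

namespace Pool.Agent.ZFy.ZL

open Pool.Agent.ZCy
open scoped Classical WithZero Polynomial
open MvPolynomial

set_option linter.unusedSectionVars false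

theorem coeff_rayP {ι k R : Type} [CommRing k] [CommRing R] (f : k →+* R) (x : ι → R)
    (p : MP ι k) (n : ℕ) :
    PowerSeries.coeff n (rayP f x p) = eval₂ f x (homogeneousComponent n p) := by
  have h : ∀ {H : MP ι k} {d : ℕ}, H.IsHomogeneous d →
      PowerSeries.coeff n (rayP f x H) = if n = d then eval₂ f x H else 0 := fun {H d} hH => by
    rw [pol_scale _ _ _ hH, ← map_eval₂Hom, PowerSeries.coeff_C_mul, PowerSeries.coeff_X_pow]
    simp
  conv_lhs => rw [← p.sum_homogeneousComponent, map_sum, map_sum]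
  simp only [h (homogeneousComponent_isHomogeneous _ _), Finset.sum_ite_eq, Finset.mem_range]
  split_ifs with e
  · rfl
  · rw [homogeneousComponent_eq_zero _ _ (by omega), eval₂_zero]

/-- a cover that is unramified at the origin embeds into the quotient field of `R⟦u⟧` -/
theorem org_frac {ι k L T R KK : Type} [Fintype ι] [Field k] [Field L] [Field T] [CommRing R]
    [IsDomain R] [CDVR R] [IsAlgClosed (IsLocalRing.ResidueField R)] [Field KK] [Algebra L T]
    [FiniteDimensional L T] [IsGalois L T] {α : MP ι k →+* L} (hα : IsFr α) {Θ : MP ι k}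
    (h0 : constantCoeff Θ ≠ 0) (hu : UnrOff L (tE T α) Θ) {β : R →+* KK} {v : Vl KK}
    (hβ : IsVR β v) (f : k →+* R) (x : ι → R) (J : T →+* Ls KK)
    (hJ : ∀ p, J (tE T α p) = lau β (rayP f x p)) (z : T) : FrP β (J z) := by
  have := hα.isDomain
  obtain ⟨k₀, _, _, _, _, j₀, hj⟩ := znp hα hu (RingHom.id k) 0 (by simpa using h0)
  have h1 : ∀ {F : Type} [Field F] (a : F), (1 : Vl F) a ≤ 1 := fun a => by
    by_cases e : a = 0 <;> simp [e, Valuation.one_apply_of_ne_zero]
  obtain ⟨j, h2, h3⟩ := hens_closed (K := k) (E := k₀) (v := 1) (w := 1)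
    (fun a => iff_of_true (h1 _) (h1 _))
    (ine_bot_of_triv fun a => Valuation.one_apply_of_ne_zero) hβ (φ := β.comp f)
    fun a => iff_of_true (hβ.le_one _) (h1 _)
  obtain ⟨f₀, h4⟩ := ring_factor j β hβ.2.1 fun a => (hβ.2.2 _).1 ((h3 a).2 (h1 a))
  have h5 : f₀.comp (algebraMap k k₀) = f := RingHom.ext fun a => hβ.2.1 ((h4 _).trans (h2 a))
  have h6 : ∀ p, rayP f₀ x p = 0 → p = 0 := by
    let := (map (algebraMap k k₀) : MP ι k →+* MP ι k₀).toAlgebra
    have : Algebra.IsIntegral (MP ι k) (MP ι k₀) := ⟨cst_integral⟩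
    refine fun p hp => Ideal.mem_bot.1 (Ideal.eq_bot_of_comap_eq_bot (R := MP ι k)
      (I := RingHom.ker (rayP f₀ x)) (eq_bot_iff.2 fun q hq => ?_) ▸ RingHom.mem_ker.2 hp :)
    have e : rayP f₀ x (map (algebraMap k k₀) q) = 0 := hq
    rw [eval₂Hom_map_hom, RingHom.comp_assoc, h5] at e
    have e' := hJ q
    rw [e, map_zero, map_eq_zero, RingHom.comp_apply, map_eq_zero] at e'
    exact (map_eq_zero_iff _ hα.1).1 e'
  have h7 : Function.Injective (ray f₀ x) := (injective_iff_map_eq_zero _).2 fun g hg =>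
    blow_inj ((PowerSeries.ext fun n => h6 _ (PowerSeries.ext fun m => by
      rw [coeff_rayP, homogeneousComponent_of_mem (blow_isHomogeneous g n)]
      split_ifs
      · exact congrArg (PowerSeries.coeff n) hg
      · exact eval₂_zero _ _)).trans (map_zero _).symm)
  have : IsDomain (MvPowerSeries ι k₀) := NoZeroDivisors.to_isDomain _
  have hF := isFr_alg (MvPowerSeries ι k₀) (Fr (MvPowerSeries ι k₀))
  obtain ⟨Λ, hΛ⟩ := hF.exists_lift (β := (lau β).comp (ray f₀ x)) ((lau_inj hβ.2.1).comp h7)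
  have h8 : (ray f x).comp (pt (RingHom.id k) 0) = rayP f x :=
    ringHom_ext (fun a => by simp [pt, ray_C]) fun i => by simp [pt, ray_X]
  obtain ⟨g, hg⟩ := exists_twist (K := L) (Λ.comp j₀) J (RingHom.congr_fun (hα.hom_ext
    (φ := J.comp (algebraMap L T)) (φ' := (Λ.comp j₀).comp (algebraMap L T)) fun p =>
      (hJ p).trans (((congrArg Λ (hj.1 p)).trans (hΛ _)).trans (by
        rw [RingHom.comp_apply, RingHom.comp_apply, ray_map, h5, ← h8]
        rfl)).symm))
  obtain ⟨a, b, hb, e⟩ := hF.2 (j₀ (g z))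
  refine ⟨ray f₀ x a, ray f₀ x b, (map_ne_zero_iff _ h7).2 hb, ?_⟩
  rw [hg, RingHom.comp_apply]
  exact (congrArg _ (hΛ b).symm).trans ((map_mul Λ _ _).symm.trans ((congrArg Λ e).trans (hΛ a)))

end Pool.Agent.ZFy.ZL
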