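import Pool.Agent.Lib.MP_751085_ag.ZF.Z.TDefs
import Pool.Agent.Lib.MP_751085_ag.ZF.Z.Misc1
import Pool.Agent.Lib.MP_751085_ag.ZC.V.Zor

/-! Homogeneous primes: the complete model. -/

namespace Pool.Agent.ZFy.ZL

open Pool.Agent.ZCy
open scoped Classical WithZero Polynomial
open MvPolynomial

set_option linter.unusedSectionVars false

/-- the complete model of the field of directions at a homogeneous prime `G`; here
`x i = ξ_i / ξ_(i₀)` -/
theorem vert_model {ι k K₁ E : Type} [Fintype ι] [Field k] [Field K₁] [Field E]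
    [Algebra (RF ι k) K₁] {φ : MP (Option ι) k →+* E} {ψ : (RF ι k)[X] →+* E} (h : IsPol φ ψ)
    (hφ : Function.Injective φ) (c : K₁ →+* E)
    (hc : ∀ a, c (algebraMap (RF ι k) K₁ a) = ψ (Polynomial.C a)) {G : MP (Option ι) k} {e : ℕ}
    {i₀ : Option ι} {w : Vl E} (hG : Prime G) (he : G.IsHomogeneous e) (hi : ¬G ∣ X i₀)
    (hw : Cen φ w G) :
    ∃ (R KK : Type) (_ : CommRing R) (_ : IsDomain R) (_ : CDVR R)
      (_ : IsAlgClosed (IsLocalRing.ResidueField R)) (_ : Field KK) (β : R →+* KK) (v : Vl KK)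
      (γ : K₁ →+* KK) (f : k →+* R) (x : Option ι → R) (π : K₁), IsVR β v ∧
      v (γ π) = WithZero.exp (-1) ∧ β (x none) ≠ 0 ∧
      (∀ a, β (f a) = γ (algebraMap (RF ι k) K₁ (rc ι k a))) ∧
      (∀ j, β (x (some j)) =
        γ (algebraMap (RF ι k) K₁ (algebraMap (MP ι k) _ (X j))) * β (x none)) ∧
      ∀ (H : MP (Option ι) k) (n : ℕ), H.IsHomogeneous n →
        (v (β (eval₂ f x H)) < 1 ↔ G ∣ H) := by
  have hX : ∀ i, φ (X i) ≠ 0 := fun i => (map_ne_zero_iff φ hφ).2 (X_ne_zero i)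
  obtain ⟨a, ha0, ha1⟩ : ∃ a : Option ι → RF ι k, a none = 1 ∧
      ∀ j, a (some j) = algebraMap (MP ι k) _ (X j) :=
    ⟨fun i => i.elim 1 fun j => algebraMap (MP ι k) _ (X j), rfl, fun _ => rfl⟩
  have ha : ∀ i, c (algebraMap _ K₁ (a i)) * φ (X none) = φ (X i) := fun i => by
    cases i with
    | none => rw [ha0, map_one, map_one, one_mul]
    | some j =>
      rw [ha1, hc, h.C]
      simp [flpHom, hX]
  have han : a i₀ ≠ 0 := fun h0 => hX i₀ (by rw [← ha, h0, map_zero, map_zero, zero_mul])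
  let g : k →+* K₁ := (algebraMap (RF ι k) K₁).comp (rc ι k)
  have hg : c.comp g = φ.comp C := RingHom.ext fun z => by
    change c (algebraMap _ K₁ (algebraMap (MP ι k) (RF ι k) (C z))) = φ (C z)
    rw [hc, h.C]
    simp [flpHom]
  let y : Option ι → K₁ := fun i => algebraMap (RF ι k) K₁ (a i * (a i₀)⁻¹)
  have hy : ∀ i, c (y i) * φ (X i₀) = φ (X i) := fun i => by
    rw [← ha i₀, ← ha i, ← mul_assoc, ← map_mul, ← map_mul, inv_mul_cancel_right₀ han]
  have h1 : w (φ (X i₀)) = 1 := le_antisymm (hw.1 _) (not_lt.1 fun h => hi ((hw.2 _).1 h))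
  have key : ∀ (H : MP (Option ι) k) (n : ℕ), H.IsHomogeneous n →
      w (c (eval₂ g y H)) = w (φ H) := fun H n hH => by
    have h2 := pol_scale (φ.comp C) (fun i => c (y i)) (φ (X i₀)) hH
    simp only [hy, pol_hom_eq] at h2
    rw [h2, map_mul, map_pow, h1, one_pow, mul_one, eval₂_comp_left, hg]
    rfl
  obtain ⟨A, hA, hE⟩ := zv_nrm (w.comap c) ⟨eval₂ g y G, fun h0 => by
    have := key G e he
    rw [h0, map_zero, map_zero] at this
    exact (map_ne_zero_iff φ hφ).2 hG.ne_zero (w.zero_iff.1 this.symm),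
    ((key G e he).trans_lt ((hw.2 G).2 dvd_rfl)).ne⟩
  obtain ⟨R, _, _, _, v, γ, hR, hv, hγ⟩ := zorn hA
  have hr : ∀ z, w (c z) ≤ 1 → γ z ∈ (algebraMap R (Fr R)).range := fun z hz =>
    (hv.2.2 _).1 (by rw [idx_one_iff.1 hγ]; exact hE.le_one_iff_le_one.1 hz)
  obtain ⟨f, hf⟩ := ring_factor (γ.comp g) (algebraMap R (Fr R)) hv.2.1 fun z =>
    hr _ ((congrArg w (RingHom.congr_fun hg z)).trans_le (hw.1 _))
  choose x hx using fun i => RingHom.mem_range.1 (hr (y i) (by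
    have := congrArg w (hy i)
    rw [map_mul, h1, mul_one] at this
    exact this.trans_le (hw.1 _)))
  obtain ⟨π, hπ⟩ := hA
  refine ⟨R, Fr R, _, _, inferInstance, hR, _, algebraMap R (Fr R), v, γ, f, x, π, hv,
    (idx_one_iff.1 hγ π).trans hπ, ?_, hf, fun j => ?_, fun H n hH => ?_⟩
  · rw [hx]
    exact (_root_.map_ne_zero γ).2 ((_root_.map_ne_zero _).2
      (mul_ne_zero (ha0 ▸ one_ne_zero) (inv_ne_zero han)))
  · rw [hx, hx, ← ha1]
    simp only [y, ha0, map_one, one_mul, map_mul]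
  · have h3 : algebraMap R (Fr R) (eval₂ f x H) = γ (eval₂ g y H) := by
      rw [eval₂_comp_left, eval₂_comp_left, show (algebraMap R (Fr R)).comp f = γ.comp g from
        RingHom.ext hf, show algebraMap R (Fr R) ∘ x = γ ∘ y from funext hx]
    rw [h3, idx_one_iff.1 hγ, ← hE.lt_one_iff_lt_one, Valuation.comap_apply, key H n hH]
    exact hw.2 H

end Pool.Agent.ZFy.ZL
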