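import Pool.Agent.Lib.MP_751085_ag.ZF.Z.TDefs
import Pool.Agent.Lib.MP_751085_ag.ZF.Z.Misc1
import Pool.Agent.Lib.MP_751085_ag.ZC.Z.Vert
import Pool.Agent.Lib.MP_751085_ag.ZC.V.Cv
import Pool.Agent.Lib.MP_751085_ag.ZC.V.Lau
import Pool.Agent.Lib.MP_751085_ag.ZC.V.Har

/-! Homogeneous primes: rescaling and the Gauss valuation. -/

namespace Pool.Agent.ZFy.ZL

open Pool.Agent.ZCy
open scoped Classical WithZero Polynomial
open MvPolynomial

set_option linter.unusedSectionVars false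

/-- rigidity after the substitution `t ↦ c t` -/
theorem rig_resc (hR : RIG1) {R KK κ F N : Type} [CommRing R] [IsDomain R] [CDVR R] [Field KK]
    [Field κ] [IsAlgClosed κ] [Field F] [Field N] [Algebra KK[X] F] [IsFractionRing KK[X] F]
    [Algebra F N] [FiniteDimensional F N] [IsGalois F N] {β : R →+* KK} {ρ : R →+* κ}
    {J : N →+* Ls KK} {S : Set N} {Th : KK[X]} {l : ℕ} (hβ : IsFr β) (hρ : Function.Surjective ρ)
    (hl : l.Prime) (h0 : (l : κ) ≠ 0) (hJ : ∀ p, J (toF KK[X] F N p) = tL KK p) (hx : LXt l F S)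
    (hm : Th.Monic) (hu : UnrOff F (toF KK[X] F N) Th) {c : KK} (hc : c ≠ 0)
    (hi : ∀ j, (Th.scaleRoots c).coeff j ∈ β.range) {r : Ls KK →+* Ls KK}
    (hr : ∀ x j, (r x).coeff j = c ^ j * x.coeff j) (hS : ∀ x ∈ S, FrP β (r (J x))) (x : N) :
    FrP β (r (J x)) := by
  have e1 : ∀ (a b : KK) (p : KK[X]), a * b = 1 → (p.comp (Polynomial.C a * Polynomial.X)).comp
      (Polynomial.C b * Polynomial.X) = p := fun a b p h => by
    rw [Polynomial.comp_assoc, Polynomial.mul_comp, Polynomial.C_comp, Polynomial.X_comp,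
      ← mul_assoc, ← Polynomial.C_mul, h, Polynomial.C_1, one_mul, Polynomial.comp_X]
  let φ : KK[X] →+* F := (algebraMap KK[X] F).comp
    (Polynomial.compRingHom (Polynomial.C c * Polynomial.X))
  have hφ : ∀ p, φ p = algebraMap KK[X] F (p.comp (Polynomial.C c * Polynomial.X)) := fun _ => rfl
  have hs : ∀ p, φ (p.comp (Polynomial.C c⁻¹ * Polynomial.X)) = algebraMap KK[X] F p := fun p => by
    rw [hφ, e1 _ _ _ (inv_mul_cancel₀ hc)]
  have hinj : Function.Injective φ := fun p q h => by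
    rw [hφ, hφ] at h
    rw [← e1 _ _ p (mul_inv_cancel₀ hc), ← e1 _ _ q (mul_inv_cancel₀ hc),
      IsFractionRing.injective KK[X] F h]
  have hF : ∀ z : F, ∃ a b, z = φ a / φ b := fun z => by
    obtain ⟨a, b, -, h⟩ := IsFractionRing.div_surjective (A := KK[X]) z
    exact ⟨_, _, by rw [← h, ← hs a, ← hs b]⟩
  have hι' : ∀ p, (r.comp J) (((algebraMap F N).comp φ) p) = tL KK p := fun p => by
    have : r.comp ((tL KK).comp (Polynomial.compRingHom (Polynomial.C c * Polynomial.X))) =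
        tL KK := by
      refine Polynomial.ringHom_ext (fun a => ?_) ?_
      · ext j
        by_cases h : j = 0 <;> simp [hr, tM, h]
      · ext j
        by_cases h : j = -1 <;> simp [hr, tM, h, hc]
    rw [← this]
    exact congrArg r (hJ _)
  have hu' : UnrOff F ((algebraMap F N).comp φ) (Th.scaleRoots c) := fun P w _ hP hw => by
    have h1 : ∀ a, w (toF KK[X] F N a) ≤ 1 := fun a => by
      have := hw.1 (a.comp (Polynomial.C c⁻¹ * Polynomial.X))
      rwa [RingHom.comp_apply, hs] at this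
    refine unr_of_le hu h1 (le_antisymm (h1 _) ?_)
    have h2 : 1 ≤ w (toF KK[X] F N ((Th.scaleRoots c).comp (Polynomial.C c * Polynomial.X))) :=
      not_lt.1 fun h => hP ((hw.2 _).1 h)
    rw [Polynomial.comp, Polynomial.scaleRoots_eval₂_mul, Polynomial.eval₂_C_X, map_mul,
      map_mul] at h2
    exact h2.trans (mul_le_of_le_one_left' (h1 _))
  obtain ⟨Ψ, h1, -, h2⟩ := Polynomial.lifts_and_natDegree_eq_and_monic (f := β)
    ((Polynomial.lifts_iff_coeff_lifts _).2 hi) ((Polynomial.monic_scaleRoots_iff c).2 hm)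
  exact @hR R KK κ F N _ _ _ _ _ _ _ _ φ.toAlgebra (@isFrac_of _ _ _ _ φ.toAlgebra hinj hF) _ _ _
    β ρ (r.comp J) S Ψ l hβ hρ hl h0 hι' hx (by rw [h2.leadingCoeff]; exact isUnit_one)
    (by rwa [h1]) hS x

/-- the Gauss valuation of the quotient field of `R⟦u⟧` -/
theorem exists_gauss {R KK N : Type} [CommRing R] [IsDomain R] [Field KK] [Field N] {β : R →+* KK}
    {v : Vl KK} (hβ : IsVR β v) (J : N →+* Ls KK) (h : ∀ x, FrP β (J x)) :
    ∃ W : Vl N, (∀ x f, J x = lau β f → W x ≤ 1 ∧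
      (W x < 1 ↔ ∀ n, v (β (PowerSeries.coeff n f)) < 1)) ∧
      ∀ x a, J x = HahnSeries.C a → W x = v a := by
  have := hβ.dvr
  obtain ⟨π, hπ⟩ := IsDiscreteValuationRing.exists_irreducible R
  obtain ⟨V, hV, h1⟩ := exists_vcen (isFr_alg (Ps R) (Fr (Ps R))) (prime_ps_C hπ.prime)
  obtain ⟨l, hl⟩ := (isFr_alg (Ps R) (Fr (Ps R))).exists_lift (lau_inj hβ.2.1)
  obtain ⟨J', hJ⟩ := ring_factor J l l.injective fun x => by
    obtain ⟨a, b, hb, e⟩ := h x
    exact ⟨algebraMap _ _ a / algebraMap _ _ b, by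
      rw [map_div₀, hl, hl, ← e, mul_div_cancel_right₀ _
        ((map_ne_zero_iff _ (lau_inj hβ.2.1)).2 hb)]⟩
  have h2 : ∀ r, V (algebraMap (Ps R) _ (PowerSeries.C r)) = v (β r) := fun r => by
    rcases eq_or_ne r 0 with rfl | hr
    · simp
    obtain ⟨n, u, rfl⟩ := IsDiscreteValuationRing.eq_unit_mul_pow_irreducible hr hπ
    simp only [map_mul, map_pow]
    rw [h1, hβ.irreducible_iff.1 hπ, (hβ.eq_one _).2 u.isUnit, (hV.eq_one _).2 fun e =>
      (prime_ps_C hπ.prime).not_isUnit (isUnit_of_dvd_unit e (u.isUnit.map _))]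
  refine ⟨V.comap J', fun x f e => ?_, fun x a e => ?_⟩
  · rw [Valuation.comap_apply, l.injective ((hJ x).trans (e.trans (hl f).symm)), hV.2, ps_C_dvd]
    exact ⟨hV.1 f, forall_congr' fun n => ((hβ.cen hπ).2 _).symm⟩
  · obtain ⟨r, s, hs, e'⟩ := hβ.isFr.2 a
    have h3 : J' x * algebraMap (Ps R) _ (PowerSeries.C s) = algebraMap _ _ (PowerSeries.C r) :=
      l.injective (by rw [map_mul, hJ, hl, hl, e, lau_C, lau_C, ← map_mul, e'])
    refine mul_right_cancel₀ (v.ne_zero_iff.2 ((map_ne_zero_iff β hβ.2.1).2 hs)) ?_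
    rw [← map_mul, e', ← h2, ← h2, ← h3, map_mul, Valuation.comap_apply]

end Pool.Agent.ZFy.ZL
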