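import Pool.Agent.Lib.MP_751085_ag.ZF.Z.VertA
import Pool.Agent.Lib.MP_751085_ag.ZF.Z.VertR
import Pool.Agent.Lib.MP_751085_ag.ZF.Z.VertB
import Pool.Agent.Lib.MP_751085_ag.ZF.Z.VertM
import Pool.Agent.Lib.MP_751085_ag.ZF.Z.Inr
import Pool.Agent.Lib.MP_751085_ag.ZF.Z.Bc2

/-! Covers of the generic line are unramified at the homogeneous primes. -/

namespace Pool.Agent.ZFy.ZL

open Pool.Agent.ZCy
open scoped Classical WithZero Polynomial
open MvPolynomial

set_option linter.unusedSectionVars false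

theorem Pol.cst {ι k L E : Type} [Fintype ι] [Field k] [Field L] [Field E] [Algebra (RF ι k)[X] L]
    [Algebra L E] {α : MP (Option ι) k →+* L} (h : Pol α) (a : k) :
    toF (RF ι k)[X] L E (Polynomial.C (rc ι k a)) = tE E α (C a) :=
  (h.ext.C (C a)).trans (by rw [up, rename_C, flpHom_C])

variable {l : ℕ} {ι k L T K₁ E : Type} [Fintype ι] [Field k] [Field L] [Field T] [Field K₁]
  [Field E] [Algebra (RF ι k)[X] L] [IsFractionRing (RF ι k)[X] L] [Algebra L T]
  [FiniteDimensional L T] [IsGalois L T] [Algebra (RF ι k) K₁] [FiniteDimensional (RF ι k) K₁]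
  [Algebra L E] [FiniteDimensional L E] [IsGalois L E] {α : MP (Option ι) k →+* L}
  {Θ : MP (Option ι) k} {d : SecD 1 (RF ι k) K₁ L E} {j : T →+* E}

theorem unr_hom (hR : RIG1) (h : Pol α) (h1 : constantCoeff Θ = 1) (hT : UnrOff L (tE T α) Θ)
    (hl : l.Prime) (h0 : (l : k) ≠ 0)
    (hg : IntermediateField.adjoin (RF ι k) (Cst (RF ι k) (C : k →+* MP ι k) K₁) = ⊤)
    (hs : SC l L (thK Θ) d (algebraMap (RF ι k) K₁) j) {G : MP (Option ι) k} {e : ℕ}
    {i₀ : Option ι} {w : Vl E} (hG : Prime G) (he : G.IsHomogeneous e) (hi : ¬G ∣ X i₀)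
    (hΘ : ¬G ∣ Θ) (hw : Cen (tE E α) w G) : Ine L w = ⊥ := by
  have hc : ∀ a, d.c (algebraMap (RF ι k) K₁ a) = toF (RF ι k)[X] L E (Polynomial.C a) := fun a =>
    (d.φ_C _).symm.trans ((congrArg _ (Polynomial.map_C _).symm).trans (d.φ_map _))
  obtain ⟨R, KK, _, _, _, _, _, β, v, γ, f, x, π, hβ, hπ, hx0, hf, hx, hv⟩ :=
    vert_model h.ext h.inj d.c hc hG he hi hw
  obtain ⟨N, _, _, _, _, ⟨b⟩⟩ := exists_bcd d γ (Fr KK[X])
  obtain ⟨r, hr⟩ := exists_resc hx0
  have hr1 : ∀ (n : ℤ) a, r (HahnSeries.single n a) = HahnSeries.single n (β (x none) ^ n * a) :=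
    fun n a => by
      ext i
      rw [hr, HahnSeries.coeff_single, HahnSeries.coeff_single]
      split_ifs with h
      · rw [h]
      · rw [mul_zero]
  have hrC : ∀ a, r (HahnSeries.C a) = HahnSeries.C a := fun a => by
    rw [HahnSeries.C_apply, hr1, zpow_zero, one_mul]
  obtain ⟨eC, e0, e1⟩ := pol_exp h.ext h.inj (b.ι.comp b.j) (γ.comp (algebraMap _ K₁)) fun p => by
    rw [RingHom.comp_apply b.ι, b.hj, d.ht, lm_tM, Polynomial.map_map]
  have hexp : ∀ p, r (b.ι (b.j (tE E α p))) = lau β (rayP f x p) := by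
    have e2 : ∀ a, lau β (PowerSeries.C a * PowerSeries.X) = HahnSeries.single 1 (β a) := fun a => by
      rw [map_mul, lau_C, lau_X, HahnSeries.C_apply, HahnSeries.single_mul_single, zero_add, mul_one]
    refine RingHom.congr_fun (f := r.comp ((b.ι.comp b.j).comp (tE E α)))
      (g := (lau β).comp (rayP f x)) (ringHom_ext (fun a => ?_) fun i => ?_)
    · rw [RingHom.comp_apply r, RingHom.comp_apply _ (tE E α), eC, hrC, RingHom.comp_apply (lau β),
        eval₂Hom_C, RingHom.comp_apply _ f, lau_C, hf, RingHom.comp_apply γ]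
    · rw [RingHom.comp_apply r, RingHom.comp_apply _ (tE E α), RingHom.comp_apply (lau β),
        eval₂Hom_X', e2]
      cases i
      · rw [e0, hr1, zpow_one, mul_one]
      · rw [e1, hr1, zpow_one, hx, mul_comm, RingHom.comp_apply γ]
  have hj : j.comp (tE T α) = tE E α := RingHom.ext fun p => hs.alg _
  have hm := flp_monic h1
  have hall := rig_resc hR hβ.isFr IsLocalRing.residue_surjective hl (by
      rw [← map_natCast ((IsLocalRing.residue R).comp f)]
      exact (map_ne_zero _).2 h0) b.hι (b.lxt_iff.2 hs.lxt) (((hm.map _).map _).map _)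
    (b.unr hs.unr) hx0 (fun n => by
      rw [Polynomial.coeff_scaleRoots, ((hm.map _).map _).natDegree_map, (hm.map _).natDegree_map,
        hm.natDegree_map, flp_natDegree h1, Polynomial.coeff_map, Polynomial.coeff_map,
        Polynomial.coeff_map]
      rcases le_or_gt n (Θ.totalDegree + 1) with hn | hn
      · refine ⟨eval₂ f x (homogeneousComponent (Θ.totalDegree + 1 - n) Θ), ?_⟩
        have e2 : γ.comp (toF (MP ι k) (RF ι k) K₁) =
            eval₂Hom (β.comp f) fun i => γ (toF (MP ι k) (RF ι k) K₁ (X i)) :=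
          ringHom_ext (fun a => by rw [eval₂Hom_C]; exact (hf a).symm) fun i => by
            rw [eval₂Hom_X', RingHom.comp_apply γ]
        refine Eq.trans ?_ ((flp_scale (β.comp f) _ _ Θ hn).symm.trans
          (congrArg (· * _) (RingHom.congr_fun e2 _).symm))
        rw [eval₂_comp_left]
        refine congrArg (eval₂ _ · _) (funext fun i => ?_)
        cases i
        · rfl
        · exact hx _
      · rw [Polynomial.coeff_eq_zero_of_natDegree_lt ((flp_natDegree_le Θ).trans_lt hn), map_zero,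
          map_zero, map_zero, zero_mul]
        exact zero_mem _) hr (by
      rintro _ ⟨_, ⟨z, rfl⟩, rfl⟩
      exact org_frac h.fr (h1 ▸ one_ne_zero) hT hβ f x (r.comp (b.ι.comp (b.j.comp j)))
        (fun p => (congrArg (fun y => r (b.ι (b.j y))) (RingHom.congr_fun hj p)).trans (hexp p)) z)
  obtain ⟨W, hW1, hW2⟩ := exists_gauss hβ (r.comp b.ι) hall
  have hW : Cen (tE E α) (W.comap b.j) G := by
    refine ⟨fun H => (hW1 _ _ (hexp H)).1, fun H => (hW1 _ _ (hexp H)).2.trans ?_⟩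
    simp only [coeff_rayP, hv _ _ (homogeneousComponent_isHomogeneous _ H)]
    refine ⟨fun h => ?_, fun h n => dvd_comp he h n⟩
    rw [← sum_homogeneousComponent H]
    exact Finset.dvd_sum fun n _ => h n
  refine ine_of_one h.fr hG hW (eq_bot_iff.2 fun g hg' => ?_) hw
  have f1 : ∀ z, g (j z) = j z := fix_of_ine (K := L) j g.toRingEquiv
    (fun a => by rw [hs.alg]; exact g.commutes a) _ hg'.1 hg'.2
    (hT G _ hG hΘ ((cen_of_over (Over.comap j _)).1 (hj ▸ hW)))
  have f2 : ∀ a, g (d.c a) = d.c a := ine_fix_gen hg hg' d.c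
    (fun a => by rw [hc]; exact g.commutes _) fun a =>
      (congrArg _ ((hc _).trans (h.cst a))).trans_le (hW.1 _)
  obtain ⟨n, hn⟩ := lxt_iff.1 hs.lxt g (mem_fixS_union.2 ⟨f1, f2⟩)
  have hπ' : (W.comap b.j) (d.c π) = WithZero.exp (-1) := (hW2 _ _ (by
    rw [RingHom.comp_apply, b.hj, d.hc, ← sec_tM_C (M := 1), lm_tM, Polynomial.map_C, sec_tM_C,
      hrC])).trans hπ
  refine unrl hg' (val_nat ((tE E α).comp C) (fun a => hW.1 _) h0) hn (Nat.coprime_one_left l)
    fun z hz => ⟨d.c π ^ ord (W.comap b.j) z, by rw [map_zpow₀, f2], ?_⟩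
  rw [pow_one, vcv_pow hπ', exp_neg_ord _ hz]

theorem unr_vert1 [Nonempty ι] (hR : RIG1) (h : Pol α) (h1 : constantCoeff Θ = 1)
    (hT : UnrOff L (tE T α) Θ) (hl : l.Prime) (h0 : (l : k) ≠ 0)
    (hg : IntermediateField.adjoin (RF ι k) (Cst (RF ι k) (C : k →+* MP ι k) K₁) = ⊤)
    (hs : SC l L (thK Θ) d (algebraMap (RF ι k) K₁) j) : UnrOff L (tE E α) Θ :=
  unr_vert0 h (unrOff_of_gu d hs.unr) fun _ _ _ _ hG he hi hΘ hw =>
    unr_hom hR h h1 hT hl h0 hg hs hG he hi hΘ hw

end Pool.Agent.ZFy.ZL
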